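import Mathlib

/-! Generalised central trinomial coefficients: recurrence and generating function. -/

namespace Pool.Agent.H37.Sun

open Polynomial

/-- The generalised central trinomial coefficient `T_k(b,c)`: the coefficient of `x^k`
in `(x^2 + b x + c)^k`. -/
noncomputable def T {R : Type*} [CommRing R] (k : ℕ) (b c : R) : R :=
  ((X ^ 2 + C b * X + C c : R[X]) ^ k).coeff k

section
variable {R : Type*} [CommRing R]

theorem T_zero (b c : R) : T 0 b c = 1 := by simp [T]

theorem map_T {S : Type*} [CommRing S] (f : R →+* S) (k : ℕ) (b c : R) :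
    f (T k b c) = T k (f b) (f c) := by
  unfold T
  rw [← coeff_map]
  simp

theorem T_unit_mul (k : ℕ) {r : R} (hr : IsUnit r) (b c : R) :
    T k (r * b) (r ^ 2 * c) = r ^ k * T k b c := by
  have h1 : ((X ^ 2 + C (r * b) * X + C (r ^ 2 * c) : R[X]) ^ k).comp (C r * X)
      = C (r ^ (2 * k)) * (X ^ 2 + C b * X + C c) ^ k := by
    rw [pow_comp]
    simp only [add_comp, mul_comp, pow_comp, X_comp, C_comp]
    rw [pow_mul, C_pow, ← mul_pow]
    congr 1
    simp only [C_mul, C_pow]
    ring
  have h2 := congrArg (fun q : R[X] => q.coeff k) h1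
  simp only [comp_C_mul_X_coeff, coeff_C_mul] at h2
  have h3 : T k (r * b) (r ^ 2 * c) * r ^ k = (r ^ k * T k b c) * r ^ k := by
    unfold T
    rw [h2]
    ring
  exact (hr.pow k).mul_right_cancel h3

/-- Euler operator on shifted coefficients. -/
theorem coeff_X_pow_mul_theta (P : R[X]) (m i : ℕ) :
    (X ^ m * (X * derivative P)).coeff i = ((i : R) - m) * (X ^ m * P).coeff i := by
  have h : X ^ m * (X * derivative P) = X * derivative (X ^ m * P) - C (m : R) * (X ^ m * P) := by
    rw [derivative_mul, derivative_X_pow]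
    rcases m with _ | m
    · simp
    · simp only [Nat.cast_add, Nat.cast_one, Nat.add_sub_cancel]
      simp only [map_add, map_natCast, map_one]
      ring
  rw [h]
  rcases i with _ | i
  · rw [coeff_sub, coeff_C_mul, mul_coeff_zero, coeff_X_zero, zero_mul]
    push_cast
    ring
  · simp only [coeff_sub, coeff_X_mul, coeff_derivative, coeff_C_mul]
    push_cast
    ring

theorem coeff_rel (k i : ℕ) (b c : R) :
    ((i : R) - 2) * (X ^ 2 * (X ^ 2 + C b * X + C c : R[X]) ^ k).coeff i
      + b * (((i : R) - 1) * (X ^ 1 * (X ^ 2 + C b * X + C c : R[X]) ^ k).coeff i)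
      + c * ((i : R) * ((X ^ 2 + C b * X + C c : R[X]) ^ k).coeff i)
    = (k : R) * (2 * (X ^ 2 * (X ^ 2 + C b * X + C c : R[X]) ^ k).coeff i
      + b * (X ^ 1 * (X ^ 2 + C b * X + C c : R[X]) ^ k).coeff i) := by
  set f : R[X] := X ^ 2 + C b * X + C c with hf
  have hθ : f * (X * derivative (f ^ k)) = C (k : R) * ((2 * X ^ 2 + C b * X) * f ^ k) := by
    have hd : derivative f = 2 * X + C b := by
      rw [hf]
      simp only [derivative_add, derivative_X_pow, derivative_mul, derivative_C, derivative_X]
      simp only [Nat.cast_ofNat, map_ofNat]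
      ring
    rcases k with _ | k
    · simp
    · rw [derivative_pow, hd]
      simp only [Nat.add_sub_cancel, map_natCast]
      ring
  have h := congrArg (fun q : R[X] => q.coeff i) hθ
  simp only [coeff_C_mul] at h
  have h1 : (f * (X * derivative (f ^ k))).coeff i
      = (X ^ 2 * (X * derivative (f ^ k))).coeff i + b * (X ^ 1 * (X * derivative (f ^ k))).coeff i
        + c * (X ^ 0 * (X * derivative (f ^ k))).coeff i := by
    rw [← coeff_C_mul, ← coeff_C_mul, ← coeff_add, ← coeff_add]
    congr 1
    rw [hf]
    ring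
  rw [h1, coeff_X_pow_mul_theta, coeff_X_pow_mul_theta, coeff_X_pow_mul_theta] at h
  have h2 : ((2 * X ^ 2 + C b * X) * f ^ k).coeff i
      = 2 * (X ^ 2 * f ^ k).coeff i + b * (X ^ 1 * f ^ k).coeff i := by
    have g1 : (C (2 : R) * (X ^ 2 * f ^ k)).coeff i = (2 : R) * (X ^ 2 * f ^ k).coeff i :=
      coeff_C_mul _
    have g2 : (C b * (X ^ 1 * f ^ k)).coeff i = b * (X ^ 1 * f ^ k).coeff i :=
      coeff_C_mul _
    rw [← g1, ← g2, ← coeff_add]
    congr 1
    simp only [map_ofNat]
    ring
  rw [h2] at h
  simp only [pow_zero, one_mul] at h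
  push_cast at h
  rw [sub_zero] at h
  exact h

end

section
variable {R : Type*} [CommRing R] [IsDomain R] [CharZero R]

/-- Three term recurrence. -/
theorem T_rec (k : ℕ) (b c : R) :
    ((k : R) + 2) * T (k + 2) b c
      = (2 * k + 3) * (b * T (k + 1) b c) - (k + 1) * ((b ^ 2 - 4 * c) * T k b c) := by
  -- W k = coefficient of index k of X * f^k
  have hT : ∀ k : ℕ, T (k + 1) b c
      = b * T k b c + 2 * (X ^ 1 * (X ^ 2 + C b * X + C c : R[X]) ^ k).coeff k := by
    intro k
    have h := coeff_rel k (k + 1) b c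
    set f : R[X] := X ^ 2 + C b * X + C c with hf
    have e1 : (X ^ 2 * f ^ k).coeff (k + 1) = (X ^ 1 * f ^ k).coeff k := by
      rw [show X ^ 2 * f ^ k = X * (X ^ 1 * f ^ k) by ring, coeff_X_mul]
    have e2 : (X ^ 1 * f ^ k).coeff (k + 1) = (f ^ k).coeff k := by
      rw [pow_one, coeff_X_mul]
    rw [e1, e2] at h
    have e3 : T (k + 1) b c = (X ^ 1 * f ^ k).coeff k + b * (f ^ k).coeff k
        + c * (f ^ k).coeff (k + 1) := by
      unfold T
      rw [← hf, pow_succ, ← e1, ← e2, ← coeff_C_mul, ← coeff_C_mul, ← coeff_add, ← coeff_add]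
      congr 1
      rw [hf]
      ring
    have hk : ((k : R) + 1) ≠ 0 := by exact_mod_cast Nat.succ_ne_zero k
    have e4 : c * (f ^ k).coeff (k + 1) = (X ^ 1 * f ^ k).coeff k := by
      apply mul_left_cancel₀ hk
      push_cast at h
      linear_combination h
    rw [e3, e4]
    unfold T
    rw [← hf]
    ring
  have hW : ((k : R) + 2) * (X ^ 1 * (X ^ 2 + C b * X + C c : R[X]) ^ (k + 1)).coeff (k + 1)
      = (2 * k + 2) * (c * T k b c)
        + (k + 1) * (b * (X ^ 1 * (X ^ 2 + C b * X + C c : R[X]) ^ k).coeff k) := by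
    have h := coeff_rel k k b c
    set f : R[X] := X ^ 2 + C b * X + C c with hf
    have e1 : (X ^ 1 * f ^ (k + 1)).coeff (k + 1) = (X ^ 2 * f ^ k).coeff k
        + b * (X ^ 1 * f ^ k).coeff k + c * (f ^ k).coeff k := by
      rw [pow_one, coeff_X_mul, ← coeff_C_mul, ← coeff_C_mul, ← coeff_add, ← coeff_add]
      congr 1
      rw [pow_succ, hf]
      ring
    rw [e1]
    unfold T
    rw [← hf]
    linear_combination -h
  have h1 := hT (k + 1)
  have h0 := hT k
  rw [show k + 1 + 1 = k + 2 from rfl] at h1
  linear_combination (k + 2 : R) * h1 + 2 * hW - (k + 1) * b * h0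

omit [IsDomain R] [CharZero R] in
theorem T_one (b c : R) : T 1 b c = b := by
  unfold T
  simp [coeff_C]

/-- The generating function of the `T_k(b,c)`. -/
theorem genT (b c : R) :
    (1 - 2 * PowerSeries.C b * PowerSeries.X
        + PowerSeries.C (b ^ 2 - 4 * c) * PowerSeries.X ^ 2 : PowerSeries R)
      * PowerSeries.mk (fun k => T k b c) ^ 2 = 1 := by
  set τ : PowerSeries R := PowerSeries.mk (fun k => T k b c) with hτ
  set z : R := b ^ 2 - 4 * c with hz
  have hc : ∀ k, PowerSeries.coeff k τ = T k b c := fun k => by rw [hτ, PowerSeries.coeff_mk]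
  have hode : (1 - 2 * PowerSeries.C b * PowerSeries.X
        + PowerSeries.C z * PowerSeries.X ^ 2 : PowerSeries R) * PowerSeries.derivative R τ
      = (PowerSeries.C b - PowerSeries.C z * PowerSeries.X) * τ := by
    have e : (1 - 2 * PowerSeries.C b * PowerSeries.X
        + PowerSeries.C z * PowerSeries.X ^ 2 : PowerSeries R) * PowerSeries.derivative R τ
        = PowerSeries.derivative R τ - PowerSeries.C (2 * b) * (PowerSeries.X * PowerSeries.derivative R τ)
          + PowerSeries.C z * (PowerSeries.X * (PowerSeries.X * PowerSeries.derivative R τ)) := by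
      simp only [map_mul, map_ofNat]
      ring
    have e' : (PowerSeries.C b - PowerSeries.C z * PowerSeries.X) * τ
        = PowerSeries.C b * τ - PowerSeries.C z * (PowerSeries.X * τ) := by ring
    rw [e, e']
    ext k
    rcases k with _ | _ | k
    · simp only [map_add, map_sub, PowerSeries.coeff_C_mul, PowerSeries.coeff_zero_X_mul,
        PowerSeries.coeff_derivative, hc]
      simp [T_one, T_zero]
    · simp only [map_add, map_sub, PowerSeries.coeff_C_mul, PowerSeries.coeff_succ_X_mul,
        PowerSeries.coeff_zero_X_mul, PowerSeries.coeff_derivative, hc]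
      have h := T_rec 0 b c
      push_cast at h ⊢
      rw [← hz] at h
      simp only [zero_add] at h ⊢
      rw [T_one, T_zero] at h
      rw [T_one, T_zero]
      linear_combination h
    · simp only [map_add, map_sub, PowerSeries.coeff_C_mul, PowerSeries.coeff_succ_X_mul,
        PowerSeries.coeff_derivative, hc]
      have h := T_rec (k + 1) b c
      push_cast at h ⊢
      rw [← hz] at h
      rw [show k + 1 + 1 + 1 = k + 3 from rfl]
      rw [show k + 1 + 2 = k + 3 from rfl] at h
      linear_combination h
  apply PowerSeries.derivative.ext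
  · rw [Derivation.leibniz, Derivation.leibniz_pow]
    simp only [map_add, map_sub, Derivation.leibniz, Derivation.leibniz_pow,
      PowerSeries.derivative_C, PowerSeries.derivative_X, smul_eq_mul]
    have h2 : PowerSeries.derivative R (1 : PowerSeries R) = 0 :=
      (PowerSeries.derivative R).map_one_eq_zero
    have h3 : PowerSeries.derivative R (2 : PowerSeries R) = 0 := by
      rw [show (2 : PowerSeries R) = PowerSeries.C (2 : R) from
        (map_ofNat (PowerSeries.C (R := R)) 2).symm]
      exact PowerSeries.derivative_C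
    rw [h2, h3]
    simp only [nsmul_eq_mul, Nat.cast_ofNat]
    linear_combination (2 * τ) * hode
  · simp only [map_mul, map_add, map_sub, map_one, map_pow]
    have : PowerSeries.constantCoeff τ = 1 := by
      rw [← PowerSeries.coeff_zero_eq_constantCoeff_apply, hc, T_zero]
    simp [this]

end

end Pool.Agent.H37.Sun
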