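import Mathlib
import Pool.Agent.H37.Sun.Tri

/-! The kernel identity: generating function of trinomial coefficients and the second order
operator. -/

namespace Pool.Agent.H37.Sun

open PowerSeries

section
variable {R : Type*} [CommRing R]

/-- Coefficientwise derivative in the inner variable. -/
noncomputable def dX (f : PowerSeries (PowerSeries R)) : PowerSeries (PowerSeries R) :=
  PowerSeries.mk fun k => PowerSeries.derivative R (PowerSeries.coeff k f)

theorem coeff_dX (f : PowerSeries (PowerSeries R)) (k : ℕ) :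
    PowerSeries.coeff k (dX f) = PowerSeries.derivative R (PowerSeries.coeff k f) := by
  rw [dX, PowerSeries.coeff_mk]

theorem dX_add (f g : PowerSeries (PowerSeries R)) : dX (f + g) = dX f + dX g := by
  ext1 k
  rw [map_add, coeff_dX, coeff_dX, coeff_dX, map_add, map_add]

theorem dX_sub (f g : PowerSeries (PowerSeries R)) : dX (f - g) = dX f - dX g := by
  ext1 k
  rw [map_sub, coeff_dX, coeff_dX, coeff_dX, map_sub, map_sub]

theorem dX_neg (f : PowerSeries (PowerSeries R)) : dX (-f) = - dX f := by
  ext1 k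
  rw [map_neg, coeff_dX, coeff_dX, map_neg, map_neg]

theorem dX_mul (f g : PowerSeries (PowerSeries R)) : dX (f * g) = dX f * g + f * dX g := by
  ext1 k
  rw [map_add, coeff_dX, PowerSeries.coeff_mul, PowerSeries.coeff_mul, PowerSeries.coeff_mul,
    map_sum, ← Finset.sum_add_distrib]
  refine Finset.sum_congr rfl fun q _ => ?_
  rw [coeff_dX, coeff_dX, Derivation.leibniz, smul_eq_mul, smul_eq_mul]
  ring

theorem dX_C (φ : PowerSeries R) :
    dX (PowerSeries.C φ) = PowerSeries.C (PowerSeries.derivative R φ) := by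
  ext1 k
  rw [coeff_dX, PowerSeries.coeff_C, PowerSeries.coeff_C]
  split_ifs
  · rfl
  · rw [map_zero]

/-- The derivative in the outer variable, as a plain function. -/
noncomputable def dT {L : Type*} [CommRing L] (f : PowerSeries L) : PowerSeries L :=
  PowerSeries.derivative L f

theorem dT_add {L : Type*} [CommRing L] (f g : PowerSeries L) : dT (f + g) = dT f + dT g := by
  unfold dT
  rw [map_add]

theorem dT_sub {L : Type*} [CommRing L] (f g : PowerSeries L) : dT (f - g) = dT f - dT g := by
  unfold dT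
  rw [map_sub]

theorem dT_neg {L : Type*} [CommRing L] (f : PowerSeries L) : dT (-f) = - dT f := by
  unfold dT
  rw [map_neg]

theorem dT_mul {L : Type*} [CommRing L] (f g : PowerSeries L) :
    dT (f * g) = dT f * g + f * dT g := by
  unfold dT
  rw [Derivation.leibniz, smul_eq_mul, smul_eq_mul]
  ring

theorem dT_C {L : Type*} [CommRing L] (r : L) : dT (PowerSeries.C r) = 0 := by
  unfold dT
  rw [PowerSeries.derivative_C]

theorem dT_X {L : Type*} [CommRing L] : dT (PowerSeries.X : PowerSeries L) = 1 := by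
  unfold dT
  rw [PowerSeries.derivative_X]

theorem dT_one {L : Type*} [CommRing L] : dT (1 : PowerSeries L) = 0 := by
  have := dT_C (1 : L)
  rwa [map_one] at this

theorem dT_two {L : Type*} [CommRing L] : dT (2 : PowerSeries L) = 0 := by
  have := dT_C (2 : L)
  rwa [map_ofNat] at this

theorem coeff_dT {L : Type*} [CommRing L] (f : PowerSeries L) (k : ℕ) :
    PowerSeries.coeff k (dT f) = PowerSeries.coeff (k + 1) f * (k + 1) := by
  unfold dT
  rw [PowerSeries.coeff_derivative]

theorem dX_X : dX (PowerSeries.X : PowerSeries (PowerSeries R)) = 0 := by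
  ext1 k
  rw [coeff_dX, PowerSeries.coeff_X, map_zero]
  split_ifs
  · exact (PowerSeries.derivative R).map_one_eq_zero
  · rw [map_zero]

/-- The second order operator. -/
noncomputable def DD (a b c : R) (φ : PowerSeries R) : PowerSeries R :=
  (X - C a * X ^ 2 + C c * X ^ 3) * PowerSeries.derivative R (PowerSeries.derivative R φ)
    + (1 - 2 * C a * X + 3 * C c * X ^ 2) * PowerSeries.derivative R φ + (C c * X - C b) * φ

theorem DD_add (a b c : R) (φ ψ : PowerSeries R) : DD a b c (φ + ψ) = DD a b c φ + DD a b c ψ := by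
  unfold DD
  rw [map_add, map_add]
  ring

theorem DD_C_mul (a b c r : R) (φ : PowerSeries R) : DD a b c (C r * φ) = C r * DD a b c φ := by
  unfold DD
  have h : ∀ ψ : PowerSeries R, PowerSeries.derivative R (C r * ψ) = C r * PowerSeries.derivative R ψ := by
    intro ψ
    rw [Derivation.leibniz, PowerSeries.derivative_C, smul_zero, add_zero, smul_eq_mul]
  rw [h, h]
  ring

theorem DD_zero (a b c : R) : DD a b c 0 = 0 := by
  unfold DD
  rw [map_zero, map_zero]
  ring

theorem DD_sum {ι : Type*} (s : Finset ι) (a b c : R) (f : ι → PowerSeries R) :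
    DD a b c (∑ i ∈ s, f i) = ∑ i ∈ s, DD a b c (f i) := by
  classical
  induction s using Finset.induction_on with
  | empty => simp [DD_zero]
  | insert i s hi ih => rw [Finset.sum_insert hi, Finset.sum_insert hi, DD_add, ih]

/-- A factor with zero derivative passes through the operator. -/
theorem DD_const_mul (a b c : R) (κ φ : PowerSeries R) (hκ : PowerSeries.derivative R κ = 0) :
    DD a b c (κ * φ) = κ * DD a b c φ := by
  unfold DD
  have h : ∀ ψ : PowerSeries R, PowerSeries.derivative R (κ * ψ) = κ * PowerSeries.derivative R ψ := by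
    intro ψ
    rw [Derivation.leibniz, hκ, smul_zero, add_zero, smul_eq_mul]
  rw [h, h]
  ring

theorem coeff_zero_DD (a b c : R) (φ : PowerSeries R) :
    coeff 0 (DD a b c φ) = coeff 1 φ - b * coeff 0 φ := by
  have h : DD a b c φ = X * (PowerSeries.derivative R (PowerSeries.derivative R φ)
      - C a * (X * PowerSeries.derivative R (PowerSeries.derivative R φ))
      + C c * (X * (X * PowerSeries.derivative R (PowerSeries.derivative R φ)))
      - C (2 * a) * PowerSeries.derivative R φ + C (3 * c) * (X * PowerSeries.derivative R φ)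
      + C c * φ) + PowerSeries.derivative R φ - C b * φ := by
    unfold DD
    simp only [map_mul, map_ofNat]
    ring
  rw [h, map_sub, map_add, coeff_zero_X_mul, coeff_C_mul, PowerSeries.coeff_derivative]
  simp

theorem coeff_succ_DD (a b c : R) (φ : PowerSeries R) (j : ℕ) :
    coeff (j + 1) (DD a b c φ) = ((j : R) + 2) ^ 2 * coeff (j + 2) φ
      - (a * ((j : R) + 1) ^ 2 + a * ((j : R) + 1) + b) * coeff (j + 1) φ
      + c * ((j : R) + 1) ^ 2 * coeff j φ := by
  -- Euler operator
  have hθ : ∀ (ψ : PowerSeries R) (i : ℕ),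
      coeff i (X * PowerSeries.derivative R ψ) = (i : R) * coeff i ψ := by
    intro ψ i
    rcases i with _ | i
    · simp
    · rw [coeff_succ_X_mul, PowerSeries.coeff_derivative]
      push_cast
      ring
  have hd : PowerSeries.derivative R (X * PowerSeries.derivative R φ)
      = X * PowerSeries.derivative R (PowerSeries.derivative R φ) + PowerSeries.derivative R φ := by
    rw [Derivation.leibniz, PowerSeries.derivative_X, smul_eq_mul, smul_eq_mul, mul_one]
  have h : DD a b c φ = PowerSeries.derivative R (X * PowerSeries.derivative R φ)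
      - C a * (X * PowerSeries.derivative R (X * PowerSeries.derivative R φ)
          + X * PowerSeries.derivative R φ)
      + C c * (X * (X * PowerSeries.derivative R (X * PowerSeries.derivative R φ)
          + X * PowerSeries.derivative R φ + X * PowerSeries.derivative R φ + φ)) - C b * φ := by
    rw [hd]
    unfold DD
    ring
  rw [h, map_sub, map_add, map_sub, coeff_C_mul, coeff_C_mul, coeff_C_mul, coeff_succ_X_mul,
    PowerSeries.coeff_derivative]
  simp only [map_add, hθ]
  push_cast
  ring

end

section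
variable {R : Type*} [CommRing R] [IsDomain R] [CharZero R]

/-- The polynomials (power series) `B` and `C` attached to the kernel. -/
noncomputable def Bh (a c y : R) : PowerSeries R :=
  (X + C y) * (1 + C (c * y) * X) - 2 * C (a * y) * X

noncomputable def Ch (a c y : R) : PowerSeries R :=
  C y * X * (1 - C a * X + C c * X ^ 2) * C (1 - a * y + c * y ^ 2)

omit [IsDomain R] in
theorem cz : CharZero (PowerSeries R) := by
  have : Function.Injective (PowerSeries.C (R := R)) := PowerSeries.C_injective
  exact charZero_of_injective_ringHom this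

theorem kernel_main (a b c y : R) (wi : PowerSeries R) (hwi : (1 - C (c * y) * X) * wi = 1)
    (e : PowerSeries (PowerSeries R))
    (he : e = PowerSeries.C wi *
      PowerSeries.mk (fun k => T k (wi ^ 2 * Bh a c y) (wi ^ 4 * Ch a c y))) :
    PowerSeries.C (X - C a * X ^ 2 + C c * X ^ 3) * dX (dX e)
      + PowerSeries.C (1 - 2 * C a * X + 3 * C c * X ^ 2) * dX e
      + PowerSeries.C (C c * X - C b) * e
    = (X ^ 3 - PowerSeries.C (C a) * X ^ 2 + PowerSeries.C (C c) * X)
        * dT (dT e)
      + (3 * X ^ 2 - 2 * PowerSeries.C (C a) * X + PowerSeries.C (C c))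
        * dT e
      + (X - PowerSeries.C (C b)) * e := by
  set Q : PowerSeries (PowerSeries R) := PowerSeries.C ((1 - C (c * y) * X) ^ 2)
    - 2 * PowerSeries.C (Bh a c y) * X + PowerSeries.C ((X - C y) ^ 2) * X ^ 2 with hQdef
  have : CharZero (PowerSeries R) := cz
  -- the algebraic equation
  have hQ : Q * e ^ 2 = 1 := by
    have hg := genT (wi ^ 2 * Bh a c y) (wi ^ 4 * Ch a c y)
    set τ := PowerSeries.mk (fun k => T k (wi ^ 2 * Bh a c y) (wi ^ 4 * Ch a c y)) with hτ
    have e1 : (1 : PowerSeries (PowerSeries R))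
        = PowerSeries.C ((1 - C (c * y) * X) ^ 2) * PowerSeries.C wi ^ 2 := by
      rw [← map_pow, ← map_mul, ← mul_pow, hwi, one_pow, map_one]
    have e2 : PowerSeries.C ((wi ^ 2 * Bh a c y) ^ 2 - 4 * (wi ^ 4 * Ch a c y))
        = PowerSeries.C ((X - C y) ^ 2) * PowerSeries.C wi ^ 2 := by
      rw [← map_pow, ← map_mul]
      congr 1
      have : Bh a c y ^ 2 - 4 * Ch a c y = (1 - C (c * y) * X) ^ 2 * (X - C y) ^ 2 := by
        unfold Bh Ch
        simp only [map_mul, map_sub, map_add, map_one, map_pow]
        ring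
      linear_combination wi ^ 4 * this + ((X - C y) ^ 2 * wi ^ 2
        * ((1 - C (c * y) * X) * wi + 1)) * hwi
    rw [e2] at hg
    rw [he]
    have e3 : PowerSeries.C (wi ^ 2 * Bh a c y) = PowerSeries.C wi ^ 2 * PowerSeries.C (Bh a c y) := by
      rw [map_mul, map_pow]
    rw [e3] at hg
    rw [hQdef]
    linear_combination hg - τ ^ 2 * e1
  have hd1 : ∀ (Dd : PowerSeries (PowerSeries R) → PowerSeries (PowerSeries R))
      (hmul : ∀ f g, Dd (f * g) = Dd f * g + f * Dd g) (hneg : ∀ f, Dd (-f) = - Dd f)
      (hadd : ∀ f g, Dd (f + g) = Dd f + Dd g)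
      (h1 : Dd 1 = 0), 2 * Dd e = - Dd Q * e ^ 3 ∧
        4 * Dd (Dd e) = 3 * Dd Q ^ 2 * e ^ 5 - 2 * Dd (Dd Q) * e ^ 3 := by
    intro Dd hmul hneg hadd h1
    have a1 : Dd (Q * (e * e)) = 0 := by
      rw [show Q * (e * e) = Q * e ^ 2 by ring, hQ, h1]
    rw [hmul, hmul] at a1
    have a2 : 2 * Dd e = - Dd Q * e ^ 3 := by
      linear_combination e * a1 - 2 * Dd e * hQ
    have a3 : Dd (2 * Dd e) = Dd (-(Dd Q * (e * (e * e)))) := by
      rw [a2]
      congr 1
      ring
    have a4 : Dd (2 * Dd e) = 2 * Dd (Dd e) := by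
      rw [two_mul, two_mul, hadd]
    rw [a4, hneg, hmul, hmul, hmul] at a3
    refine ⟨a2, ?_⟩
    linear_combination 2 * a3 - 3 * Dd Q * e ^ 2 * a2
  obtain ⟨x1, x2⟩ := hd1 dX dX_mul dX_neg dX_add (by
    have := dX_C (1 : PowerSeries R)
    rw [map_one] at this
    rw [this, (PowerSeries.derivative R).map_one_eq_zero, map_zero])
  obtain ⟨t1, t2⟩ := hd1 dT dT_mul dT_neg dT_add dT_one
  -- the derivatives of Q
  have two : (2 : PowerSeries (PowerSeries R)) = PowerSeries.C (C (2 : R)) := by
    rw [map_ofNat, map_ofNat]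
  have dtwo : dX (2 : PowerSeries (PowerSeries R)) = 0 := by
    rw [two, dX_C, PowerSeries.derivative_C, map_zero]
  have qx : dX Q = -2 * PowerSeries.C (C (c * y)) * (1 - PowerSeries.C (C (c * y)) * PowerSeries.C X)
      - 2 * ((1 + PowerSeries.C (C (c * y)) * PowerSeries.C X)
          + (PowerSeries.C X + PowerSeries.C (C y)) * PowerSeries.C (C (c * y))
          - 2 * PowerSeries.C (C (a * y))) * X
      + 2 * (PowerSeries.C X - PowerSeries.C (C y)) * X ^ 2 := by
    rw [hQdef]
    rw [dX_add, dX_sub, dX_mul, dX_mul, dX_mul, dtwo, dX_C, dX_C, dX_C, dX_X]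
    have d3 : dX (X ^ 2 : PowerSeries (PowerSeries R)) = 0 := by
      rw [pow_two, dX_mul, dX_X]; ring
    rw [d3]
    have c1 : PowerSeries.derivative R ((1 - C (c * y) * X) ^ 2)
        = -2 * C (c * y) * (1 - C (c * y) * X) := by
      rw [pow_two, Derivation.leibniz, map_sub, Derivation.leibniz, PowerSeries.derivative_X,
        PowerSeries.derivative_C, Derivation.map_one_eq_zero]
      simp only [smul_eq_mul]
      ring
    have c2 : PowerSeries.derivative R (Bh a c y) = (1 + C (c * y) * X) + (X + C y) * C (c * y)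
        - 2 * C (a * y) := by
      unfold Bh
      have htwo : PowerSeries.derivative R (2 : PowerSeries R) = 0 := by
        rw [show (2 : PowerSeries R) = PowerSeries.C (2 : R) from
          (map_ofNat (PowerSeries.C (R := R)) 2).symm]
        exact PowerSeries.derivative_C
      simp only [Derivation.leibniz, map_sub, map_add, PowerSeries.derivative_X,
        PowerSeries.derivative_C, Derivation.map_one_eq_zero, smul_eq_mul, htwo]
      ring
    have c3 : PowerSeries.derivative R ((X - C y) ^ 2) = 2 * (X - C y) := by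
      rw [pow_two, Derivation.leibniz, map_sub, PowerSeries.derivative_X,
        PowerSeries.derivative_C]
      simp only [smul_eq_mul]
      ring
    rw [c1, c2, c3]
    simp only [map_mul, map_sub, map_add, map_one, map_neg, map_ofNat]
    ring
  have qxx : dX (dX Q) = 2 * PowerSeries.C (C (c * y)) ^ 2
      - 4 * PowerSeries.C (C (c * y)) * X + 2 * X ^ 2 := by
    have d3 : dX (X ^ 2 : PowerSeries (PowerSeries R)) = 0 := by
      rw [pow_two, dX_mul, dX_X]; ring
    have done : dX (1 : PowerSeries (PowerSeries R)) = 0 := by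
      have := dX_C (1 : PowerSeries R)
      rw [map_one] at this
      rw [this, (PowerSeries.derivative R).map_one_eq_zero, map_zero]
    rw [qx]
    simp only [dX_add, dX_sub, dX_mul, dX_neg, dX_C, dtwo, dX_X, d3, done,
      PowerSeries.derivative_X, PowerSeries.derivative_C, map_one, map_zero]
    ring
  have qt : dT Q = -2 * PowerSeries.C (Bh a c y)
      + 2 * PowerSeries.C ((X - C y) ^ 2) * X := by
    rw [hQdef]
    rw [pow_two (X : PowerSeries (PowerSeries R))]
    simp only [dT_add, dT_sub, dT_mul, dT_C, dT_X, dT_two]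
    ring
  have qtt : dT (dT Q)
      = 2 * PowerSeries.C ((X - C y) ^ 2) := by
    rw [qt]
    simp only [dT_add, dT_neg, dT_mul, dT_C, dT_X, dT_two]
    ring
  have : CharZero (PowerSeries R) := cz
  have : CharZero (PowerSeries (PowerSeries R)) := cz
  have h4 : (4 : PowerSeries (PowerSeries R)) ≠ 0 := by norm_num
  apply mul_left_cancel₀ h4
  -- reduce to the polynomial identity
  have key : PowerSeries.C (X - C a * X ^ 2 + C c * X ^ 3) * (3 * dX Q ^ 2 - 2 * Q * dX (dX Q))
      - 2 * PowerSeries.C (1 - 2 * C a * X + 3 * C c * X ^ 2) * Q * dX Q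
      + 4 * PowerSeries.C (C c * X - C b) * Q ^ 2
      = (X ^ 3 - PowerSeries.C (C a) * X ^ 2 + PowerSeries.C (C c) * X)
        * (3 * dT Q ^ 2
            - 2 * Q * dT (dT Q))
      - 2 * (3 * X ^ 2 - 2 * PowerSeries.C (C a) * X + PowerSeries.C (C c)) * Q
        * dT Q
      + 4 * (X - PowerSeries.C (C b)) * Q ^ 2 := by
    rw [qtt, qt, qxx, qx, hQdef]
    unfold Bh
    simp only [map_mul, map_sub, map_add, map_one, map_pow, map_ofNat]
    ring
  clear_value Q
  generalize PowerSeries.C (X - C a * X ^ 2 + C c * X ^ 3) = α at *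
  generalize PowerSeries.C (1 - 2 * C a * X + 3 * C c * X ^ 2) = β at *
  generalize PowerSeries.C (C c * X - C b) = γ at *
  generalize (X ^ 3 - PowerSeries.C (C a) * X ^ 2 + PowerSeries.C (C c) * X
    : PowerSeries (PowerSeries R)) = A at *
  generalize (3 * X ^ 2 - 2 * PowerSeries.C (C a) * X + PowerSeries.C (C c)
    : PowerSeries (PowerSeries R)) = B at *
  generalize (X - PowerSeries.C (C b) : PowerSeries (PowerSeries R)) = Γ at *
  linear_combination α * x2 + 2 * β * x1 - A * t2 - 2 * B * t1 + e ^ 5 * key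
    + ((2 * α * dX (dX Q) * e ^ 3 + 2 * β * dX Q * e ^ 3 - 4 * γ * e * (Q * e ^ 2 + 1))
      - (2 * A * dT (dT Q) * e ^ 3 + 2 * B * dT Q * e ^ 3 - 4 * Γ * e * (Q * e ^ 2 + 1))) * hQ

omit [IsDomain R] [CharZero R] in
theorem coeff_rhs (a b c : R) (e : PowerSeries R) (k : ℕ) :
    coeff k ((X ^ 3 - C a * X ^ 2 + C c * X) * dT (dT e)
      + (3 * X ^ 2 - 2 * C a * X + C c) * dT e + (X - C b) * e)
    = (k : R) ^ 2 * coeff (k - 1) e - (a * (k : R) ^ 2 + a * (k : R) + b) * coeff k e
      + c * ((k : R) + 1) ^ 2 * coeff (k + 1) e := by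
  have hθ : ∀ (ψ : PowerSeries R) (i : ℕ), coeff i (X * dT ψ) = (i : R) * coeff i ψ := by
    intro ψ i
    rcases i with _ | i
    · simp
    · rw [coeff_succ_X_mul, coeff_dT]
      push_cast
      ring
  have hd : dT (X * dT e) = X * dT (dT e) + dT e := by
    rw [dT_mul, dT_X]
    ring
  have h : (X ^ 3 - C a * X ^ 2 + C c * X) * dT (dT e)
      + (3 * X ^ 2 - 2 * C a * X + C c) * dT e + (X - C b) * e
      = C c * dT (X * dT e) - C a * (X * dT (X * dT e) + X * dT e)
      + X * (X * dT (X * dT e) + X * dT e + X * dT e + e) - C b * e := by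
    rw [hd]
    ring
  rw [h, map_sub, map_add, map_sub, coeff_C_mul, coeff_C_mul, coeff_C_mul, coeff_dT, hθ]
  rcases k with _ | k
  · rw [coeff_zero_X_mul]
    simp only [map_add, hθ]
    simp
    ring
  · rw [coeff_succ_X_mul]
    simp only [map_add, hθ, Nat.add_sub_cancel]
    push_cast
    ring

/-- The kernel identity in terms of coefficients. -/
theorem kernel_coeff (a b c y : R) (wi : PowerSeries R) (hwi : (1 - C (c * y) * X) * wi = 1)
    (E : ℕ → PowerSeries R)
    (hE : ∀ k, E k = wi * T k (wi ^ 2 * Bh a c y) (wi ^ 4 * Ch a c y)) (k : ℕ) :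
    DD a b c (E k) = C ((k : R) ^ 2) * E (k - 1)
      - C (a * (k : R) ^ 2 + a * (k : R) + b) * E k + C (c * ((k : R) + 1) ^ 2) * E (k + 1) := by
  have h := kernel_main a b c y wi hwi _ rfl
  set e := PowerSeries.C wi *
      PowerSeries.mk (fun k => T k (wi ^ 2 * Bh a c y) (wi ^ 4 * Ch a c y)) with he
  have hc : ∀ k, coeff k e = E k := by
    intro k
    rw [he, coeff_C_mul, coeff_mk, hE]
  have h2 := congrArg (coeff k) h
  rw [coeff_rhs, hc, hc, hc, map_add, map_add, coeff_C_mul, coeff_C_mul, coeff_C_mul, coeff_dX,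
    coeff_dX, hc] at h2
  rw [DD, h2]
  simp only [map_add, map_mul, map_pow, map_natCast, map_one]

end

end Pool.Agent.H37.Sun
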