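import Mathlib
import Pool.Agent.H37.Sun.Kernel

/-! Points of the Jacobi quartic over power series: `S = T ρ(T^2)`, `S' = σ(T^2)`, with multiplier
`c`, where `t = T^2` is the variable of the power series and `τ` is the square root of
`1 - 2 z t + t^2`. -/

namespace Pool.Agent.H37.Sun

open PowerSeries

section
variable {R : Type*} [CommRing R]

/-- `(ρ, σ)` is a point with multiplier `c` on the quartic with parameter `z'`. -/
structure Pt (τ : PowerSeries R) (z' c : R) (ρ σ : PowerSeries R) : Prop where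
  e1 : σ ^ 2 = 1 - 2 * C z' * (X * ρ ^ 2) + (X * ρ ^ 2) ^ 2
  e2 : τ * (ρ + 2 * (X * dT ρ)) = C c * σ
  e4 : constantCoeff σ = 1

theorem dT_pow_two (f : PowerSeries R) : dT (f ^ 2) = 2 * f * dT f := by
  rw [pow_two, dT_mul]
  ring

/-- derivative of `s = X ρ^2` -/
theorem Pt.ds {τ : PowerSeries R} {z' c : R} {ρ σ : PowerSeries R} (h : Pt τ z' c ρ σ) :
    τ * dT (X * ρ ^ 2) = C c * (ρ * σ) := by
  rw [dT_mul, dT_X, dT_pow_two]
  linear_combination ρ * h.e2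

theorem Pt.σ_ne [Nontrivial R] {τ : PowerSeries R} {z' c : R} {ρ σ : PowerSeries R}
    (h : Pt τ z' c ρ σ) : σ ≠ 0 := by
  intro h0
  have := h.e4
  rw [h0, map_zero] at this
  exact zero_ne_one this

theorem Pt.e3 [IsDomain R] [CharZero R] {τ : PowerSeries R} {z' c : R} {ρ σ : PowerSeries R}
    (h : Pt τ z' c ρ σ) : τ * dT σ = C c * ρ * (X * ρ ^ 2 - C z') := by
  have h2 : (2 * σ : PowerSeries R) ≠ 0 := by
    have : (2 : PowerSeries R) ≠ 0 := by
      intro h0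
      have h1 := congrArg constantCoeff h0
      rw [map_ofNat, map_zero] at h1
      exact two_ne_zero h1
    exact mul_ne_zero this h.σ_ne
  apply mul_left_cancel₀ h2
  have h1 := congrArg dT h.e1
  have hd := h.ds
  rw [dT_pow_two, dT_add, dT_sub, dT_one, dT_mul, dT_mul, dT_C, dT_two, dT_pow_two] at h1
  linear_combination τ * h1 + 2 * (X * ρ ^ 2 - C z') * hd

theorem Pt.neg {τ : PowerSeries R} {z' c : R} {ρ σ : PowerSeries R} (h : Pt τ z' c ρ σ) :
    Pt τ z' (-c) (-ρ) σ := by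
  refine ⟨?_, ?_, h.e4⟩
  · rw [h.e1]; ring
  · rw [dT_neg, map_neg]
    linear_combination -h.e2

theorem Pt.zero (τ : PowerSeries R) (z' : R) : Pt τ z' 0 0 1 := by
  refine ⟨by ring, ?_, by simp⟩
  have : dT (0 : PowerSeries R) = 0 := by
    have := dT_C (0 : R)
    rwa [map_zero] at this
  rw [this, map_zero]
  ring

theorem Pt.map {S : Type*} [CommRing S] (f : R →+* S) {τ : PowerSeries R} {z' c : R}
    {ρ σ : PowerSeries R} (h : Pt τ z' c ρ σ) :
    Pt (PowerSeries.map f τ) (f z') (f c) (PowerSeries.map f ρ) (PowerSeries.map f σ) := by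
  have hd : ∀ q : PowerSeries R, dT (PowerSeries.map f q) = PowerSeries.map f (dT q) := by
    intro q
    ext j
    rw [coeff_dT, PowerSeries.coeff_map, PowerSeries.coeff_map, coeff_dT]
    simp
  refine ⟨?_, ?_, ?_⟩
  · rw [← map_pow, h.e1]
    simp [map_ofNat]
  · rw [hd]
    have := congrArg (PowerSeries.map f) h.e2
    simpa [map_ofNat] using this
  · rw [← PowerSeries.coeff_zero_eq_constantCoeff_apply, PowerSeries.coeff_map,
      PowerSeries.coeff_zero_eq_constantCoeff_apply, h.e4, map_one]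

/-- the sum of two points -/
noncomputable def addρ (I ρ σ ρ₁ σ₁ : PowerSeries R) : PowerSeries R := (ρ * σ₁ + ρ₁ * σ) * I

noncomputable def addσ (z' : R) (I ρ σ ρ₁ σ₁ : PowerSeries R) : PowerSeries R :=
  ((1 + (X * ρ * ρ₁) ^ 2) * (σ * σ₁ - 2 * C z' * (X * ρ * ρ₁))
    + 2 * (X * ρ * ρ₁) * (X * ρ ^ 2 + X * ρ₁ ^ 2)) * I ^ 2

theorem Pt.add [IsDomain R] [CharZero R] {τ : PowerSeries R} {z' c c₁ : R} {ρ σ ρ₁ σ₁ I : PowerSeries R}
    (h : Pt τ z' c ρ σ) (h₁ : Pt τ z' c₁ ρ₁ σ₁) (hI : (1 - (X * ρ * ρ₁) ^ 2) * I = 1) :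
    Pt τ z' (c + c₁) (addρ I ρ σ ρ₁ σ₁) (addσ z' I ρ σ ρ₁ σ₁) := by
  have a1 := h.e1
  have a2 := h.e2
  have b1 := h₁.e1
  have b2 := h₁.e2
  refine ⟨?_, ?_, ?_⟩
  · unfold addρ addσ
    have hw : (σ * σ₁) ^ 2 = (1 - (X * ρ * ρ₁) ^ 2) ^ 2 + (X * ρ ^ 2 + X * ρ₁ ^ 2) ^ 2
        - 2 * C z' * (X * ρ ^ 2 + X * ρ₁ ^ 2) * (1 + (X * ρ * ρ₁) ^ 2)
        + 4 * C z' ^ 2 * (X * ρ * ρ₁) ^ 2 := by
      rw [mul_pow, a1, b1]
      ring
    have hU : X * (ρ * σ₁ + ρ₁ * σ) ^ 2 = (X * ρ ^ 2 + X * ρ₁ ^ 2) * (1 + (X * ρ * ρ₁) ^ 2)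
        - 4 * C z' * (X * ρ * ρ₁) ^ 2 + 2 * (X * ρ * ρ₁) * (σ * σ₁) := by
      linear_combination X * ρ ^ 2 * b1 + X * ρ₁ ^ 2 * a1
    set q := X * ρ * ρ₁
    set e := X * ρ ^ 2 + X * ρ₁ ^ 2
    set w := σ * σ₁
    set N := ρ * σ₁ + ρ₁ * σ
    have hV : ((1 + q ^ 2) * (w - 2 * C z' * q) + 2 * q * e) ^ 2
        = (1 - q ^ 2) ^ 4 - 2 * C z' * (X * N ^ 2) * (1 - q ^ 2) ^ 2 + (X * N ^ 2) ^ 2 := by
      rw [hU]
      linear_combination (1 - q ^ 2) ^ 2 * hw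
    calc (((1 + q ^ 2) * (w - 2 * C z' * q) + 2 * q * e) * I ^ 2) ^ 2
        = ((1 + q ^ 2) * (w - 2 * C z' * q) + 2 * q * e) ^ 2 * I ^ 4 := by ring
      _ = ((1 - q ^ 2) * I) ^ 4 - 2 * C z' * (X * (N * I) ^ 2) * ((1 - q ^ 2) * I) ^ 2
          + (X * (N * I) ^ 2) ^ 2 := by rw [hV]; ring
      _ = _ := by rw [hI]; ring
  · unfold addρ addσ
    have hdq : 2 * X * τ * dT (X * ρ * ρ₁) = X * (C c * ρ₁ * σ + C c₁ * ρ * σ₁) := by
      rw [mul_assoc X ρ ρ₁, dT_mul, dT_X, dT_mul]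
      linear_combination X * ρ₁ * a2 + X * ρ * b2
    have hdI : dT I = 2 * (X * ρ * ρ₁) * dT (X * ρ * ρ₁) * I ^ 2 := by
      have h2 := congrArg dT hI
      rw [dT_one, dT_mul, dT_sub, dT_one, dT_pow_two] at h2
      linear_combination I * h2 - dT I * hI
    rw [dT_mul, dT_add, dT_mul, dT_mul, hdI, map_add]
    have a3 := h.e3
    have b3 := h₁.e3
    linear_combination I * (σ₁ * a2 + 2 * X * ρ * b3 + σ * b2 + 2 * X * ρ₁ * a3)
      + 2 * (ρ * σ₁ + ρ₁ * σ) * (X * ρ * ρ₁) * I ^ 2 * hdq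
      + 2 * X * (X * ρ * ρ₁) * I ^ 2 * (C c₁ * ρ ^ 2 * b1 + C c * ρ₁ ^ 2 * a1)
      + ((C c + C c₁) * (σ * σ₁) + 2 * (X * ρ * ρ₁) * (C c₁ * (X * ρ₁ ^ 2 - C z')
        + C c * (X * ρ ^ 2 - C z'))) * I * (-hI)
  · unfold addσ
    have hi : constantCoeff I = 1 := by
      have := congrArg constantCoeff hI
      simpa using this
    simp [h.e4, h₁.e4, hi]

theorem Pt.exists_add [IsDomain R] [CharZero R] {τ : PowerSeries R} {z' c c₁ : R}
    {ρ σ ρ₁ σ₁ : PowerSeries R}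
    (h : Pt τ z' c ρ σ) (h₁ : Pt τ z' c₁ ρ₁ σ₁) : ∃ ρ₂ σ₂, Pt τ z' (c + c₁) ρ₂ σ₂ := by
  have hu : IsUnit (1 - (X * ρ * ρ₁) ^ 2 : PowerSeries R) := by
    rw [PowerSeries.isUnit_iff_constantCoeff]
    simp
  obtain ⟨I, hI⟩ := hu.exists_right_inv
  exact ⟨_, _, h.add h₁ hI⟩

/-- uniqueness of the point with given multiplier -/
theorem Pt.unique [IsDomain R] [CharZero R] {τ : PowerSeries R} (hτ : constantCoeff τ = 1)
    {z' c : R} {ρ σ ρ₁ σ₁ : PowerSeries R}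
    (h : Pt τ z' c ρ σ) (h₁ : Pt τ z' c ρ₁ σ₁) : ρ = ρ₁ := by
  have key : ∀ m : ℕ, X ^ m ∣ ρ - ρ₁ := by
    intro m
    induction m with
    | zero => rw [pow_zero]; exact one_dvd _
    | succ m ih =>
      obtain ⟨ε, hε⟩ := ih
      have hσ : X ^ (m + 1) ∣ σ - σ₁ := by
        have h1 : X ^ (m + 1) ∣ (σ - σ₁) * (σ + σ₁) := by
          refine ⟨ε * (ρ + ρ₁) * (X * (ρ ^ 2 + ρ₁ ^ 2) - 2 * C z'), ?_⟩
          have := h.e1
          have := h₁.e1
          linear_combination h.e1 - h₁.e1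
            + X * (ρ + ρ₁) * (X * (ρ ^ 2 + ρ₁ ^ 2) - 2 * C z') * hε
        refine (PowerSeries.X_prime (R := R)).pow_dvd_of_dvd_mul_right (m + 1) ?_ h1
        rw [PowerSeries.X_dvd_iff, map_add, h.e4, h₁.e4]
        norm_num
      obtain ⟨ω, hω⟩ := hσ
      have h3 : τ * ((ρ - ρ₁) + 2 * (X * dT (ρ - ρ₁))) = C c * (σ - σ₁) := by
        rw [dT_sub]
        linear_combination h.e2 - h₁.e2
      have hd : dT (X ^ m * ε) = (m : PowerSeries R) * X ^ (m - 1) * ε + X ^ m * dT ε := by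
        have hp : dT (X ^ m : PowerSeries R) = (m : PowerSeries R) * X ^ (m - 1) := by
          unfold dT
          rw [PowerSeries.derivative_pow, PowerSeries.derivative_X, mul_one]
        rw [dT_mul, hp]
      have hX : (X : PowerSeries R) * ((m : PowerSeries R) * X ^ (m - 1)) = (m : PowerSeries R) * X ^ m := by
        rcases m with _ | m
        · simp
        · rw [Nat.add_sub_cancel, pow_succ]; ring
      rw [hε, hd, hω] at h3
      have h4 : X ^ m * (τ * ((2 * (m : PowerSeries R) + 1) * ε + 2 * (X * dT ε)))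
          = X ^ m * (C c * (X * ω)) := by
        rw [pow_succ] at h3
        linear_combination h3 - 2 * τ * ε * hX
      have h5 := mul_left_cancel₀ (pow_ne_zero m (PowerSeries.X_ne_zero (R := R))) h4
      have h6 := congrArg constantCoeff h5
      simp only [map_mul, map_add, hτ, PowerSeries.constantCoeff_X, map_natCast, map_one,
        map_ofNat, zero_mul, mul_zero, add_zero, one_mul] at h6
      have h7 : (2 * (m : R) + 1) ≠ 0 := by
        have : (2 * (m : R) + 1) = ((2 * m + 1 : ℕ) : R) := by push_cast; ring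
        rw [this]
        exact_mod_cast Nat.succ_ne_zero (2 * m)
      have h8 : constantCoeff ε = 0 := (mul_eq_zero.mp h6).resolve_left h7
      rw [hε, pow_succ]
      exact mul_dvd_mul_left _ (PowerSeries.X_dvd_iff.mpr h8)
  have : ρ - ρ₁ = 0 := by
    ext m
    have := PowerSeries.X_pow_dvd_iff.mp (key (m + 1)) m (Nat.lt_succ_self m)
    rw [this, map_zero]
  exact sub_eq_zero.mp this

end

end Pool.Agent.H37.Sun
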