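import Mathlib
import Pool.Agent.H37.Sun.Tri

/-! The Hasse invariant of `y^2 = f(x)` for a cubic `f` and its behaviour under isogenies. -/

namespace Pool.Agent.H37.Sun

open Polynomial Finset

section
variable {k : Type*} [Field k] (p : ℕ) [Fact p.Prime] [CharP k p]

/-- The Cartier operator, shifted by one. -/
noncomputable def cart (h : k[X]) : k[X] := contract p (X * h)

omit [CharP k p] in
theorem cart_add (g h : k[X]) : cart p (g + h) = cart p g + cart p h := by
  unfold cart
  rw [mul_add, contract_add (Fact.out : p.Prime).ne_zero]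

omit [CharP k p] in
theorem cart_coeff (h : k[X]) (m : ℕ) : (cart p h).coeff m = (X * h).coeff (m * p) := by
  unfold cart
  rw [coeff_contract (Fact.out : p.Prime).ne_zero]

omit [CharP k p] in
theorem cart_C_mul (r : k) (h : k[X]) : cart p (C r * h) = C r * cart p h := by
  ext m
  rw [cart_coeff, coeff_C_mul, cart_coeff, mul_left_comm, coeff_C_mul]

omit [CharP k p] in
theorem cart_zero : cart p (0 : k[X]) = 0 := by
  ext m
  rw [cart_coeff, mul_zero, coeff_zero, coeff_zero]

omit [CharP k p] in
theorem cart_sum {ι : Type*} (s : Finset ι) (f : ι → k[X]) :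
    cart p (∑ i ∈ s, f i) = ∑ i ∈ s, cart p (f i) := by
  classical
  induction s using Finset.induction_on with
  | empty => simp [cart_zero]
  | insert i s hi ih => rw [sum_insert hi, sum_insert hi, cart_add, ih]

omit [CharP k p] in
theorem cart_mul_expand (h q : k[X]) : cart p (h * expand k p q) = cart p h * q := by
  unfold cart
  rw [← mul_assoc, contract_mul_expand (Fact.out : p.Prime).ne_zero]

theorem cart_mul_pow (h q : k[X]) :
    cart p (h * q ^ p) = cart p h * q.map (frobenius k p) := by
  rw [← map_frobenius_expand p, map_expand, cart_mul_expand]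

theorem cart_deriv (h : k[X]) : cart p (derivative h) = 0 := by
  ext m
  rw [cart_coeff, coeff_zero]
  have hpos := (Fact.out : p.Prime).pos
  rcases m with _ | m
  · simp
  · obtain ⟨N, hN⟩ : ∃ N, (m + 1) * p = N + 1 :=
      ⟨(m + 1) * p - 1, by have : 0 < (m + 1) * p := Nat.mul_pos (Nat.succ_pos m) hpos; omega⟩
    rw [hN, coeff_X_mul, coeff_derivative]
    have : ((N : k) + 1) = 0 := by
      have h1 : ((N + 1 : ℕ) : k) = 0 := by rw [← hN]; push_cast; rw [CharP.cast_eq_zero k p]; ring
      push_cast at h1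
      exact h1
    rw [this, mul_zero]

omit [CharP k p] in
theorem cart_low (h : k[X]) (hd : h.natDegree < 2 * p - 1) :
    cart p h = C (h.coeff (p - 1)) * X := by
  have hpos := (Fact.out : p.Prime).pos
  ext m
  rw [cart_coeff, coeff_C_mul, coeff_X]
  rcases m with _ | _ | m
  · simp
  · rw [if_pos rfl, mul_one, zero_add, one_mul]
    obtain ⟨N, hN⟩ : ∃ N, p = N + 1 := ⟨p - 1, by omega⟩
    rw [hN, coeff_X_mul, Nat.add_sub_cancel]
  · rw [if_neg (by omega), mul_zero]
    obtain ⟨N, hN⟩ : ∃ N, (m + 1 + 1) * p = N + 1 :=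
      ⟨(m + 1 + 1) * p - 1, by
        have : 0 < (m + 1 + 1) * p := Nat.mul_pos (Nat.succ_pos (m + 1)) hpos; omega⟩
    rw [hN, coeff_X_mul]
    apply coeff_eq_zero_of_natDegree_lt
    have : 2 * p ≤ (m + 1 + 1) * p := Nat.mul_le_mul_right p (by omega)
    omega

/-- Cartier's identity. -/
theorem cart_log {R : Type*} [CommRing R] [IsDomain R] [CharZero R] (π : R →+* k)
    (hsurj : Function.Surjective π) (P : k[X]) :
    cart p (P ^ (p - 1) * derivative P) = X * derivative (P.map (frobenius k p)) := by
  have hpos := (Fact.out : p.Prime).pos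
  obtain ⟨Pt, hPt⟩ := Polynomial.map_surjective π hsurj P
  ext m
  rw [cart_coeff]
  rcases m with _ | m
  · simp
  · obtain ⟨N, hN⟩ : ∃ N, (m + 1) * p = N + 1 :=
      ⟨(m + 1) * p - 1, by have : 0 < (m + 1) * p := Nat.mul_pos (Nat.succ_pos m) hpos; omega⟩
    rw [hN, coeff_X_mul, coeff_X_mul, coeff_derivative, coeff_map]
    have h1 : (Pt ^ (p - 1) * derivative Pt).coeff N = ((m : R) + 1) * (Pt ^ p).coeff (N + 1) := by
      have h2 := congrArg (fun q : R[X] => q.coeff N) (derivative_pow Pt p)
      simp only [coeff_derivative] at h2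
      rw [mul_assoc, coeff_C_mul] at h2
      have hp0 : (p : R) ≠ 0 := by exact_mod_cast (Fact.out : p.Prime).ne_zero
      apply mul_left_cancel₀ hp0
      rw [← h2]
      have h3 : ((N : R) + 1) = (m + 1) * p := by
        have := congrArg (Nat.cast : ℕ → R) hN
        push_cast at this
        exact this.symm
      rw [h3]
      ring
    have h2 := congrArg π h1
    rw [← coeff_map, Polynomial.map_mul, Polynomial.map_pow, ← derivative_map, hPt, map_mul,
      ← coeff_map, Polynomial.map_pow, hPt] at h2
    rw [h2, ← map_frobenius_expand p, coeff_map, ← hN, coeff_expand_mul hpos, map_add, map_natCast,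
      map_one, mul_comm]

/-- The Hasse invariant. -/
noncomputable def A (n : ℕ) (f : k[X]) : k := (f ^ n).coeff (2 * n)

theorem isogeny {R : Type*} [CommRing R] [IsDomain R] [CharZero R] (π : R →+* k)
    (hsurj : Function.Surjective π) (n : ℕ) (hn : p = 2 * n + 1)
    (f g : k[X]) (hf : f.natDegree ≤ 3) (P Q : k[X]) (c g0 g1 g2 g3 : k)
    (hg : g = C g3 * X ^ 3 + C g2 * X ^ 2 + C g1 * X + C g0)
    (hw : derivative P * Q - P * derivative Q ≠ 0)
    (hid : Q * (C g3 * P ^ 3 + C g2 * P ^ 2 * Q + C g1 * P * Q ^ 2 + C g0 * Q ^ 3)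
      = C c * f * (derivative P * Q - P * derivative Q) ^ 2) :
    c ^ n * A n f = A n g := by
  have hpos := (Fact.out : p.Prime).pos
  set w := derivative P * Q - P * derivative Q with hwdef
  have hQ : Q ≠ 0 := by
    rintro rfl
    apply hw
    rw [hwdef]
    simp
  set G := C g3 * P ^ 3 + C g2 * P ^ 2 * Q + C g1 * P * Q ^ 2 + C g0 * Q ^ 3 with hG
  have hgd : (g ^ n).natDegree < 3 * n + 1 := by
    have h1 : g.natDegree ≤ 3 := by
      rw [hg]
      exact natDegree_cubic_le
    have h2 := natDegree_pow_le (p := g) (n := n)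
    have h3 : n * g.natDegree ≤ n * 3 := Nat.mul_le_mul_left n h1
    omega
  -- homogenisation
  have hhom : G ^ n = ∑ j ∈ range (3 * n + 1), C ((g ^ n).coeff j) * P ^ j * Q ^ (3 * n - j) := by
    have hinj : Function.Injective (algebraMap k[X] (FractionRing k[X])) :=
      IsFractionRing.injective _ _
    apply hinj
    set ι := algebraMap k[X] (FractionRing k[X]) with hι
    have hQ' : ι Q ≠ 0 := by
      rw [Ne, map_eq_zero_iff _ hinj]
      exact hQ
    set ξ := ι P / ι Q with hξ
    have hξQ : ξ * ι Q = ι P := by rw [hξ, div_mul_cancel₀ _ hQ']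
    have e1 : (g.eval₂ (ι.comp C) ξ) * ι Q ^ 3 = ι G := by
      rw [hg, hG]
      simp only [eval₂_add, eval₂_mul, eval₂_pow, eval₂_C, eval₂_X, RingHom.comp_apply, map_add,
        map_mul, map_pow]
      rw [← hξQ]
      ring
    rw [map_pow, ← e1, mul_pow, ← eval₂_pow, eval₂_eq_sum_range' _ hgd, map_sum, ← pow_mul,
      sum_mul]
    refine sum_congr rfl fun j hj => ?_
    have hj' : j ≤ 3 * n := by
      have := mem_range.mp hj
      omega
    rw [RingHom.comp_apply, map_mul, map_mul, map_pow, map_pow, ← hξQ]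
    have : ι Q ^ (3 * n) = ι Q ^ j * ι Q ^ (3 * n - j) := by
      rw [← pow_add]
      congr 1
      omega
    rw [this]
    ring
  have hmain : C (c ^ n) * (f ^ n * w ^ p)
      = ∑ j ∈ range (3 * n + 1), C ((g ^ n).coeff j) * (w * (P ^ j * Q ^ (4 * n - j))) := by
    have e1 : C (c ^ n) * (f ^ n * w ^ p) = w * (Q ^ n * G ^ n) := by
      rw [← mul_pow, hid, mul_pow, mul_pow, C_pow, hn, pow_succ, pow_mul]
      ring
    rw [e1, hhom, mul_sum, mul_sum]
    refine sum_congr rfl fun j hj => ?_
    have hj' : j ≤ 3 * n := by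
      have := mem_range.mp hj
      omega
    have : Q ^ (4 * n - j) = Q ^ n * Q ^ (3 * n - j) := by
      rw [← pow_add]
      congr 1
      omega
    rw [this]
    ring
  have hcart := congrArg (cart p) hmain
  rw [cart_C_mul, cart_mul_pow, cart_sum] at hcart
  have hfd : (f ^ n).natDegree < 2 * p - 1 := by
    have h2 := natDegree_pow_le (p := f) (n := n)
    have h3 : n * f.natDegree ≤ n * 3 := Nat.mul_le_mul_left n hf
    omega
  rw [cart_low p _ hfd] at hcart
  have hterm : ∀ j ∈ range (3 * n + 1), j ≠ 2 * n →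
      cart p (C ((g ^ n).coeff j) * (w * (P ^ j * Q ^ (4 * n - j)))) = 0 := by
    intro j hj hjne
    have hj' : j ≤ 3 * n := by
      have := mem_range.mp hj
      omega
    rw [cart_C_mul]
    have hne : ((j : k) + 1) ≠ 0 := by
      intro hz
      have : ((j + 1 : ℕ) : k) = 0 := by push_cast; exact hz
      rw [CharP.cast_eq_zero_iff k p] at this
      obtain ⟨t, ht⟩ := this
      have : t < 2 := by
        by_contra hlt
        have : p * 2 ≤ p * t := Nat.mul_le_mul_left p (by omega)
        omega
      interval_cases t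
      · omega
      · omega
    obtain ⟨M, hM⟩ : ∃ M, 4 * n - j = M := ⟨_, rfl⟩
    have hd : derivative (P ^ (j + 1) * Q ^ (M + 1)) = C ((j : k) + 1) * (w * (P ^ j * Q ^ M)) := by
      rw [derivative_mul, derivative_pow_succ, derivative_pow_succ]
      have hMc : ((M : k) + 1) = - ((j : k) + 1) := by
        have : ((M + 1 + (j + 1) : ℕ) : k) = 0 := by
          rw [show M + 1 + (j + 1) = 2 * p by omega]
          push_cast
          rw [CharP.cast_eq_zero k p, mul_zero]
        push_cast at this
        linear_combination this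
      rw [hMc, hwdef]
      simp only [map_neg]
      ring
    have hc := cart_deriv p (P ^ (j + 1) * Q ^ (M + 1))
    rw [hd, cart_C_mul] at hc
    have : cart p (w * (P ^ j * Q ^ M)) = 0 := by
      rcases mul_eq_zero.mp hc with h | h
      · exact absurd (C_eq_zero.mp h) hne
      · exact h
    rw [hM, this, mul_zero]
  rw [sum_eq_single_of_mem (2 * n) (mem_range.mpr (by omega)) hterm, cart_C_mul] at hcart
  have hlast : cart p (w * (P ^ (2 * n) * Q ^ (4 * n - 2 * n))) = X * w.map (frobenius k p) := by
    have e1 : w * (P ^ (2 * n) * Q ^ (4 * n - 2 * n))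
        = (P ^ (p - 1) * derivative P) * Q ^ p + C (-1) * ((Q ^ (p - 1) * derivative Q) * P ^ p) := by
      rw [hwdef, show 4 * n - 2 * n = 2 * n by omega, show p - 1 = 2 * n by omega, hn]
      simp only [map_neg, map_one]
      ring
    rw [e1, cart_add, cart_C_mul, cart_mul_pow, cart_mul_pow, cart_log p π hsurj P,
      cart_log p π hsurj Q, hwdef]
    simp only [Polynomial.map_sub, Polynomial.map_mul, map_neg, map_one, derivative_map]
    ring
  rw [hlast] at hcart
  have hw' : X * w.map (frobenius k p) ≠ 0 := by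
    apply mul_ne_zero X_ne_zero
    rw [Ne, Polynomial.map_eq_zero]
    exact hw
  have hfin : C (c ^ n * (f ^ n).coeff (p - 1)) * (X * w.map (frobenius k p))
      = C ((g ^ n).coeff (2 * n)) * (X * w.map (frobenius k p)) := by
    rw [← hcart, C_mul]
    ring
  have := C_injective (mul_right_cancel₀ hw' hfin)
  unfold A
  rw [show 2 * n = p - 1 by omega] at this ⊢
  exact this

end

end Pool.Agent.H37.Sun
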