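import Mathlib
import Pool.Agent.H37.Sun.Hasse

/-! The two isogenies attached to `Q(sqrt -6)` and the vanishing of the Hasse invariants. -/

namespace Pool.Agent.H37.Sun

open Polynomial Finset

/-- The algebraic identity behind the 3-isogeny. -/
theorem id3 {K : Type*} [CommRing K] (z s t : K) (hs : s ^ 2 = 2) (ht : t ^ 2 = 3) :
    (z ^ 3 + (15 * t - 9 * s * t) * z ^ 2 + 36 * (10 - 7 * s) * z + 24 * (41 * t - 29 * s * t))
      * ((z ^ 3 + (15 * t - 9 * s * t) * z ^ 2 + 36 * (10 - 7 * s) * z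
            + 24 * (41 * t - 29 * s * t)) ^ 2
        - 18 * (2 * t - s * t) * (z ^ 3 + (15 * t - 9 * s * t) * z ^ 2 + 36 * (10 - 7 * s) * z
            + 24 * (41 * t - 29 * s * t)) * z ^ 2 + 81 * (z ^ 2) ^ 2)
    = ((z + (7 * t - 5 * s * t)) * ((z + (7 * t - 5 * s * t)) ^ 2
          - 6 * (2 * t - s * t) * (z + (7 * t - 5 * s * t)) + 9 * (3 - 2 * s) ^ 2))
      * (z ^ 3 - 36 * (10 - 7 * s) * z - 2 * (24 * (41 * t - 29 * s * t))) ^ 2 := by
  linear_combination (
      (-96)*z^7*t^2 + (-36)*z^7 + (704)*z^6*s*t^3 + (180)*z^6*s*t + (-3936)*z^6*t^3 +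
      (8280)*z^6*t + (12852)*z^5*s*t^2 + (-18144)*z^5*s + (-73008)*z^5*t^2 + (207360)*z^5 +
      (-12600)*z^4*s^2*t^3 + (90720)*z^4*s^2*t + (130896)*z^4*s*t^3 + (-628992)*z^4*s*t +
      (-633744)*z^4*t^3 + (2129976)*z^4*t + (-69600)*z^3*s^2*t^4 + (-451440)*z^3*s^2*t^2 +
      (-2286144)*z^3*s^2 + (641280)*z^3*s*t^4 + (3346272)*z^3*s*t^2 + (-2612736)*z^3*s +
      (-2017536)*z^3*t^4 + (-8867376)*z^3*t^2 + (34607088)*z^3 + (-1587600)*z^2*s^3*t^3 +
      (11430720)*z^2*s^3*t + (6395760)*z^2*s^2*t^3 + (-108210816)*z^2*s^2*t +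
      (-19933776)*z^2*s*t^3 + (278579088)*z^2*s*t + (57468528)*z^2*t^3 + (-322614576)*z^2*t +
      (-17539200)*z*s^3*t^4 + (126282240)*z*s^3*t^2 + (157593600)*z*s^2*t^4 +
      (-984337920)*z*s^2*t^2 + (-645470208)*z*s*t^4 + (2941764480)*z*s*t^2 + (1508751360)*z*t^4 +
      (-5133279744)*z*t^2 + (-48441600)*s^3*t^5 + (348779520)*s^3*t^3 + (514817280)*s^2*t^5 +
      (-2520834048)*s^2*t^3 + (-2035224576)*s*t^5 + (7646476032)*s*t^3 + (4445687808)*t^5 +
      (-14138779392)*t^3) * hs
    + (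
      (384)*z^7*s + (-576)*z^7 + (8704)*z^6*s*t + (-12352)*z^6*t + (179388)*z^5*s +
      (-253800)*z^5 + (1361232)*z^4*s*t + (-1925064)*z^4*t + (3535104)*z^3*s*t^2 +
      (24836544)*z^3*s + (-4999392)*z^3*t^2 + (-35124192)*z^3 + (-106279776)*z^2*s*t +
      (150302304)*z^2*t + (-2436683904)*z*s*t^2 + (3445991424)*z*t^2 + (-6958119168)*s*t^3 +
      (9840266496)*t^3) * ht

section
variable {k : Type*} [Field k]

theorem A_cubic (n : ℕ) (a b : k) : A n (X * (X ^ 2 + C a * X + C b)) = T n a b := by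
  unfold A T
  rw [mul_pow, show 2 * n = n + n by ring, coeff_X_pow_mul]

theorem T_scale (n : ℕ) {r : k} (hr : r ≠ 0) (b c b' c' : k) (h1 : b' = r * b)
    (h2 : c' = r ^ 2 * c) : T n b' c' = r ^ n * T n b c := by
  rw [h1, h2, T_unit_mul n (IsUnit.mk0 r hr)]

variable (p : ℕ) [Fact p.Prime] [CharP k p] {R : Type*} [CommRing R] [IsDomain R] [CharZero R]
  (π : R →+* k) (hsurj : Function.Surjective π) (n : ℕ) (hn : p = 2 * n + 1)
include π hsurj hn

theorem iso_two (a b : k) : T n a b = T n (-2 * a) (a ^ 2 - 4 * b) := by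
  have h := isogeny p π hsurj n hn (X * (X ^ 2 + C a * X + C b))
    (X * (X ^ 2 + C (-2 * a) * X + C (a ^ 2 - 4 * b)))
    (by
      have : (X * (X ^ 2 + C a * X + C b) : k[X]) = C 1 * X ^ 3 + C a * X ^ 2 + C b * X + C 0 := by
        simp only [map_one, map_zero]
        ring
      rw [this]
      exact natDegree_cubic_le)
    (X ^ 2 + C a * X + C b) X 1 0 (a ^ 2 - 4 * b) (-2 * a) 1
    (by simp only [map_one, map_zero]; ring)
    (by
      simp only [derivative_add, derivative_X_pow, derivative_mul, derivative_C, derivative_X]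
      intro h0
      have h1 := congrArg (fun q : k[X] => q.coeff 2) h0
      have e : (C ((2 : ℕ) : k) * X ^ (2 - 1) + (0 * X + C a * 1) + 0) * X
          - (X ^ 2 + C a * X + C b) * 1 = (X ^ 2 - C b : k[X]) := by
        simp only [Nat.cast_ofNat, map_ofNat]
        ring
      rw [e] at h1
      simp at h1)
    (by
      simp only [derivative_add, derivative_X_pow, derivative_mul, derivative_C, derivative_X]
      simp only [Nat.cast_ofNat, map_ofNat, map_one, map_zero, map_sub, map_mul, map_pow, map_neg]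
      ring)
  rw [one_pow, one_mul, A_cubic, A_cubic] at h
  exact h

theorem iso_trans (a b e : k) :
    T n (a + 3 * e) (3 * e ^ 2 + 2 * a * e + b) = T n a b ∨ e * (e ^ 2 + a * e + b) ≠ 0 := by
  by_cases h0 : e * (e ^ 2 + a * e + b) = 0
  · left
    have hf : (X * (X ^ 2 + C (a + 3 * e) * X + C (3 * e ^ 2 + 2 * a * e + b)) : k[X])
        = (X + C e) * ((X + C e) ^ 2 + C a * (X + C e) + C b) := by
      have := congrArg (C : k → k[X]) h0
      simp only [map_mul, map_add, map_pow, map_zero, map_ofNat] at this ⊢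
      linear_combination -this
    have h := isogeny p π hsurj n hn (X * (X ^ 2 + C (a + 3 * e) * X
        + C (3 * e ^ 2 + 2 * a * e + b)))
      (X * (X ^ 2 + C a * X + C b))
      (by
        have : (X * (X ^ 2 + C (a + 3 * e) * X + C (3 * e ^ 2 + 2 * a * e + b)) : k[X])
            = C 1 * X ^ 3 + C (a + 3 * e) * X ^ 2 + C (3 * e ^ 2 + 2 * a * e + b) * X + C 0 := by
          simp only [map_one, map_zero]
          ring
        rw [this]
        exact natDegree_cubic_le)
      (X + C e) 1 1 0 b a 1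
      (by simp only [map_one, map_zero]; ring)
      (by simp)
      (by
        rw [hf]
        simp only [derivative_add, derivative_C, derivative_X, derivative_one, map_one, map_zero]
        ring)
    rw [one_pow, one_mul, A_cubic, A_cubic] at h
    exact h
  · right
    exact h0

theorem iso_three (s t : k) (hs : s ^ 2 = 2) (ht : t ^ 2 = 3) :
    T n (-6 * (2 * t - s * t)) (9 * (3 - 2 * s) ^ 2) = T n (-18 * (2 * t - s * t)) 81 := by
  set x0 : k := 7 * t - 5 * s * t with hx0
  have hsC : (C s : k[X]) ^ 2 = 2 := by rw [← map_pow, hs, map_ofNat]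
  have htC : (C t : k[X]) ^ 2 = 3 := by rw [← map_pow, ht, map_ofNat]
  have hz := id3 (X - C x0 : k[X]) (C s) (C t) hsC htC
  set z : k[X] := X - C x0 with hzdef
  have hzX : z + (7 * C t - 5 * C s * C t) = X := by
    rw [hzdef, hx0]
    simp only [map_sub, map_mul, map_ofNat]
    ring
  rw [hzX] at hz
  have hdz : derivative z = 1 := by
    rw [hzdef]
    simp
  set β : k[X] := 36 * (10 - 7 * C s) with hβ
  set γ : k[X] := 24 * (41 * C t - 29 * C s * C t) with hγ
  set al : k[X] := 15 * C t - 9 * C s * C t with hal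
  have hdal : derivative al = 0 := by
    rw [hal, ← map_ofNat (C : k →+* k[X]) 15, ← map_ofNat (C : k →+* k[X]) 9, ← C_mul, ← C_mul,
      ← C_mul, ← C_sub, derivative_C]
  have hdβ : derivative β = 0 := by
    rw [hβ, ← map_ofNat (C : k →+* k[X]) 36, ← map_ofNat (C : k →+* k[X]) 10,
      ← map_ofNat (C : k →+* k[X]) 7, ← C_mul, ← C_sub, ← C_mul, derivative_C]
  have hdγ : derivative γ = 0 := by
    rw [hγ, ← map_ofNat (C : k →+* k[X]) 24, ← map_ofNat (C : k →+* k[X]) 41,
      ← map_ofNat (C : k →+* k[X]) 29, ← C_mul, ← C_mul, ← C_mul, ← C_sub, ← C_mul, derivative_C]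
  set P : k[X] := z ^ 3 + al * z ^ 2 + β * z + γ with hP
  have hdP : derivative P = 3 * z ^ 2 + 2 * al * z + β := by
    rw [hP]
    simp only [derivative_add, derivative_mul, derivative_pow, hdz, hdal, hdβ, hdγ]
    simp only [Nat.cast_ofNat, map_ofNat]
    ring
  have hdQ : derivative (z ^ 2) = 2 * z := by
    rw [derivative_pow, hdz]
    simp only [Nat.cast_ofNat, map_ofNat]
    ring
  have hw : derivative P * z ^ 2 - P * derivative (z ^ 2) = z * (z ^ 3 - β * z - 2 * γ) := by
    rw [hdP, hdQ, hP]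
    ring
  have h := isogeny p π hsurj n hn
    (X * (X ^ 2 + C (-6 * (2 * t - s * t)) * X + C (9 * (3 - 2 * s) ^ 2)))
    (X * (X ^ 2 + C (-18 * (2 * t - s * t)) * X + C 81))
    (by
      have : (X * (X ^ 2 + C (-6 * (2 * t - s * t)) * X + C (9 * (3 - 2 * s) ^ 2)) : k[X])
          = C 1 * X ^ 3 + C (-6 * (2 * t - s * t)) * X ^ 2 + C (9 * (3 - 2 * s) ^ 2) * X + C 0 := by
        rw [C_1, C_0]
        ring
      rw [this]
      exact natDegree_cubic_le)
    P (z ^ 2) 1 0 81 (-18 * (2 * t - s * t)) 1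
    (by rw [C_1, C_0]; ring)
    (by
      rw [hw]
      intro h0
      have h1 := congrArg (fun q : k[X] => (q.comp (X + C x0)).coeff 4) h0
      have e : (z * (z ^ 3 - β * z - 2 * γ)).comp (X + C x0)
          = X ^ 4 + C (- (36 * (10 - 7 * s))) * X ^ 2
            + C (- (2 * (24 * (41 * t - 29 * s * t)))) * X := by
        rw [hβ, hγ, hzdef]
        simp only [mul_comp, sub_comp, pow_comp, X_comp, C_comp, map_neg, map_mul, map_sub,
          map_ofNat, ofNat_comp]
        ring
      simp only [e, zero_comp, coeff_zero, coeff_add, coeff_C_mul, coeff_X_pow, coeff_X] at h1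
      norm_num at h1)
    (by
      rw [hw, C_1, C_0]
      have e1 : (C (-18 * (2 * t - s * t)) : k[X]) = -18 * (2 * C t - C s * C t) := by
        simp only [map_mul, map_sub, map_neg, map_ofNat]
      have e2 : (C (-6 * (2 * t - s * t)) : k[X]) = -6 * (2 * C t - C s * C t) := by
        simp only [map_mul, map_sub, map_neg, map_ofNat]
      have e3 : (C (9 * (3 - 2 * s) ^ 2) : k[X]) = 9 * (3 - 2 * C s) ^ 2 := by
        simp only [map_mul, map_sub, map_pow, map_ofNat]
      have e4 : (C 81 : k[X]) = 81 := map_ofNat _ 81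
      rw [e1, e2, e3, e4]
      linear_combination z ^ 2 * hz)
  rw [one_pow, one_mul, A_cubic, A_cubic] at h
  exact h

end

end Pool.Agent.H37.Sun
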