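import Mathlib
import Pool.Agent.H37.Sun.Kernel

/-! The two weighted sums of kernel functions and the operator. -/

namespace Pool.Agent.H37.Sun

open PowerSeries Finset

/-- The integral weight `C(2m,m)^2 16^(n-m)`. -/
def v (n m : ℕ) : ℕ := Nat.centralBinom m ^ 2 * 16 ^ (n - m)

theorem v_rec (n m : ℕ) (h : m < n) :
    4 * (m + 1) ^ 2 * v n (m + 1) = (2 * m + 1) ^ 2 * v n m := by
  have h1 := Nat.succ_mul_centralBinom_succ m
  unfold v
  have h2 : n - m = (n - (m + 1)) + 1 := by omega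
  rw [h2, pow_succ]
  have h3 : (m + 1) ^ 2 * Nat.centralBinom (m + 1) ^ 2
      = (2 * (2 * m + 1) * Nat.centralBinom m) ^ 2 := by
    rw [← mul_pow, h1]
  calc 4 * (m + 1) ^ 2 * (Nat.centralBinom (m + 1) ^ 2 * 16 ^ (n - (m + 1)))
      = 4 * ((m + 1) ^ 2 * Nat.centralBinom (m + 1) ^ 2) * 16 ^ (n - (m + 1)) := by ring
    _ = 4 * ((2 * (2 * m + 1) * Nat.centralBinom m) ^ 2) * 16 ^ (n - (m + 1)) := by rw [h3]
    _ = (2 * m + 1) ^ 2 * (Nat.centralBinom m ^ 2 * (16 ^ (n - (m + 1)) * 16)) := by ring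

section
variable {R : Type*} [CommRing R]

theorem v_rec' (n m : ℕ) (h : m < n) :
    (4 : R) * ((m : R) + 1) ^ 2 * (v n (m + 1) : R) = (2 * (m : R) + 1) ^ 2 * (v n m : R) := by
  have := congrArg (Nat.cast : ℕ → R) (v_rec n m h)
  push_cast at this
  exact this

variable [IsDomain R] [CharZero R]

theorem sum1 (b y : R) (hb : 4 * b = 1) (wi : PowerSeries R)
    (hwi : (1 - C (0 * y) * X) * wi = 1) (E : ℕ → PowerSeries R)
    (hE : ∀ k, E k = wi * T k (wi ^ 2 * Bh 1 0 y) (wi ^ 4 * Ch 1 0 y)) (n : ℕ) (N : ℕ)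
    (hN : N ≤ n) :
    C 4 * DD 1 b 0 (∑ m ∈ range (N + 1), C (v n m : R) * E m)
      = - (C ((2 * N + 1) ^ 2 * (v n N : R)) * E N) := by
  have hk := kernel_coeff 1 b 0 y wi hwi E hE
  induction N with
  | zero =>
    rw [zero_add, sum_range_one, DD_C_mul, hk]
    have h4 : (C (4 : R) * C b : PowerSeries R) = 1 := by rw [← map_mul, hb, map_one]
    simp only [map_add, map_mul, map_pow, map_one, map_zero, Nat.cast_zero]
    simp only [map_natCast]
    linear_combination (-(v n 0 : PowerSeries R) * E 0) * h4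
  | succ N ih =>
    have ih' := ih (by omega)
    rw [sum_range_succ, DD_add, mul_add, ih', DD_C_mul, hk]
    have hv := congrArg (C : R → PowerSeries R) (v_rec' (R := R) n N (by omega))
    have h4 : (C (4 : R) * C b : PowerSeries R) = 1 := by rw [← map_mul, hb, map_one]
    rw [show N + 1 - 1 = N from rfl]
    simp only [map_add, map_mul, map_pow, map_one, map_zero, map_natCast, map_ofNat] at hv h4 ⊢
    push_cast at hv h4 ⊢
    linear_combination E N * hv - (v n (N + 1) : PowerSeries R) * E (N + 1) * h4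

theorem sum2 (y : R) (wi : PowerSeries R)
    (hwi : (1 - C (-1 * y) * X) * wi = 1) (E : ℕ → PowerSeries R)
    (hE : ∀ k, E k = wi * T k (wi ^ 2 * Bh 0 (-1) y) (wi ^ 4 * Ch 0 (-1) y)) (n : ℕ) (N : ℕ)
    (hN : N ≤ n) :
    DD 0 0 (-1) (∑ m ∈ range (N + 1), C (v n m : R) * E (2 * m))
      = - (C ((2 * N + 1) ^ 2 * (v n N : R)) * E (2 * N + 1)) := by
  have hk := kernel_coeff 0 0 (-1) y wi hwi E hE
  induction N with
  | zero =>
    rw [zero_add, sum_range_one, DD_C_mul, hk]
    simp only [map_add, map_mul, map_pow, map_one, map_zero, Nat.cast_zero, map_neg]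
    simp only [map_natCast]
    ring
  | succ N ih =>
    have ih' := ih (by omega)
    rw [sum_range_succ, DD_add, ih', DD_C_mul, hk]
    have hv := congrArg (C : R → PowerSeries R) (v_rec' (R := R) n N (by omega))
    rw [show 2 * (N + 1) - 1 = 2 * N + 1 from by omega]
    simp only [map_add, map_mul, map_pow, map_one, map_zero, map_natCast, map_ofNat, map_neg]
      at hv ⊢
    push_cast at hv ⊢
    linear_combination E (2 * N + 1) * hv

end

end Pool.Agent.H37.Sun
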