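import Mathlib
import Pool.Agent.H37.Sun.Sum

/-! Polynomial solutions in characteristic `p`, and the supersingular vanishing modulo `p^2`. -/

namespace Pool.Agent.H37.Sun

open Polynomial

section PolySol
variable {k : Type*} [Field k]

/-- `g` is a polynomial solution of the operator, in terms of coefficients. -/
def IsSol (a b c : k) (g : k[X]) : Prop :=
  ∀ j : ℕ, ((j : k) + 1) ^ 2 * g.coeff (j + 1)
    = (a * (j : k) ^ 2 + a * (j : k) + b) * g.coeff j - c * (j : k) ^ 2 * g.coeff (j - 1)

theorem isSol_of_DD (a b c : k) (g : k[X]) (h : DD a b c (g : PowerSeries k) = 0) :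
    IsSol a b c g := by
  intro j
  rcases j with _ | j
  · have h0 := coeff_zero_DD a b c (g : PowerSeries k)
    rw [h] at h0
    simp only [map_zero, Polynomial.coeff_coe] at h0
    push_cast
    linear_combination -h0
  · have h0 := coeff_succ_DD a b c (g : PowerSeries k) j
    rw [h] at h0
    simp only [map_zero, Polynomial.coeff_coe] at h0
    push_cast
    linear_combination -h0

theorem IsSol.sub_smul {a b c : k} {g h : k[X]} (hg : IsSol a b c g) (hh : IsSol a b c h) (r : k) :
    IsSol a b c (g - C r * h) := by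
  intro j
  simp only [coeff_sub, coeff_C_mul]
  have h1 := hg j
  have h2 := hh j
  linear_combination h1 - r * h2

variable (p : ℕ) [Fact p.Prime] [CharP k p]

omit [Fact p.Prime] in
theorem isSol_low {a b c : k} {g : k[X]} (hg : IsSol a b c g) (h0 : g.coeff 0 = 0) :
    ∀ j < p, g.coeff j = 0 := by
  have key : ∀ j, j + 1 < p → g.coeff j = 0 → g.coeff (j - 1) = 0 → g.coeff (j + 1) = 0 := by
    intro j hj h1 h2
    have h := hg j
    rw [h1, h2, mul_zero, mul_zero, sub_zero] at h
    have hne : ((j : k) + 1) ^ 2 ≠ 0 := by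
      apply pow_ne_zero
      intro hz
      have : ((j + 1 : ℕ) : k) = 0 := by push_cast; exact hz
      rw [CharP.cast_eq_zero_iff k p] at this
      exact absurd (Nat.le_of_dvd (Nat.succ_pos j) this) (by omega)
    exact (mul_eq_zero.mp h).resolve_left hne
  have : ∀ j, (j < p → g.coeff j = 0) ∧ (j < p → g.coeff (j - 1) = 0) := by
    intro j
    induction j with
    | zero => exact ⟨fun _ => h0, fun _ => h0⟩
    | succ j ih =>
      refine ⟨fun hj => key j hj (ih.1 (by omega)) (ih.2 (by omega)), fun hj => ?_⟩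
      rw [Nat.add_sub_cancel]
      exact ih.1 (by omega)
  exact fun j => (this j).1

theorem isSol_shift {a b c : k} {g : k[X]} (hg : IsSol a b c (X ^ p * g)) : IsSol a b c g := by
  intro j
  have hp : (p : k) = 0 := CharP.cast_eq_zero k p
  have hpos : 0 < p := (Fact.out : p.Prime).pos
  have h := hg (j + p)
  rw [show j + p + 1 = (j + 1) + p by ring, coeff_X_pow_mul, coeff_X_pow_mul] at h
  push_cast at h
  rw [hp, add_zero] at h
  rcases j with _ | j
  · simp only [Nat.cast_zero, zero_add] at h ⊢
    rw [h]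
    ring
  · rw [show j + 1 + p - 1 = j + p by omega, coeff_X_pow_mul] at h
    rw [show j + 1 - 1 = j from rfl]
    exact h

theorem polySol {a b c : k} {H : k[X]} (hH : IsSol a b c H) (hdeg : H.natDegree < p)
    (hH0 : H.coeff 0 ≠ 0) (x0 : k) (hx : H.eval x0 = 0) :
    ∀ N : ℕ, ∀ g : k[X], g.natDegree < N → IsSol a b c g → g.eval x0 = 0 := by
  intro N
  induction N with
  | zero => intro g hg; omega
  | succ N ih =>
    intro g hgN hg
    set r := g.coeff 0 / H.coeff 0 with hr
    have h1 : IsSol a b c (g - C r * H) := hg.sub_smul hH r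
    have h10 : (g - C r * H).coeff 0 = 0 := by
      rw [coeff_sub, coeff_C_mul, hr, div_mul_cancel₀ _ hH0, sub_self]
    have hlow := isSol_low p h1 h10
    obtain ⟨q, hq⟩ := X_pow_dvd_iff.mpr hlow
    have hev : g.eval x0 = x0 ^ p * q.eval x0 := by
      have := congrArg (eval x0) hq
      simp only [eval_sub, eval_mul, eval_C, hx, mul_zero, sub_zero, eval_pow, eval_X] at this
      exact this
    by_cases hq0 : q = 0
    · rw [hev, hq0, eval_zero, mul_zero]
    · have hqs : IsSol a b c q := isSol_shift p (by rw [← hq]; exact h1)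
      have hd1 : (X ^ p * q).natDegree = p + q.natDegree := by
        rw [natDegree_mul (pow_ne_zero _ X_ne_zero) hq0, natDegree_X_pow]
      have hd2 : (g - C r * H).natDegree ≤ max g.natDegree H.natDegree :=
        (natDegree_sub_le _ _).trans (max_le_max le_rfl (natDegree_C_mul_le _ _))
      rw [hq, hd1] at hd2
      have hpos : 0 < p := (Fact.out : p.Prime).pos
      have hlt : q.natDegree < N := by
        rcases le_max_iff.mp hd2 with h | h
        · omega
        · omega
      rw [hev, ih q hlt hqs, mul_zero]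

end PolySol

section Main
variable {R : Type*} [CommRing R] {k : Type*} [Field k]

theorem map_derivative' (π : R →+* k) (φ : PowerSeries R) :
    PowerSeries.map π (PowerSeries.derivative R φ) = PowerSeries.derivative k (PowerSeries.map π φ) := by
  ext j
  simp only [PowerSeries.coeff_map, PowerSeries.coeff_derivative, map_mul, map_add, map_natCast,
    map_one]

theorem map_DD (π : R →+* k) (a b c : R) (φ : PowerSeries R) :
    PowerSeries.map π (DD a b c φ) = DD (π a) (π b) (π c) (PowerSeries.map π φ) := by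
  unfold DD
  simp only [map_add, map_sub, map_mul, map_pow, map_one, map_ofNat, PowerSeries.map_C,
    PowerSeries.map_X, map_derivative']

variable (p : ℕ) [Fact p.Prime] [CharP k p]

theorem sol_of (π : R →+* k) (a b c u : R) (q : R[X]) (Φ Ψ : PowerSeries R)
    (h1 : (q : PowerSeries R) = (1 - PowerSeries.C u * PowerSeries.X) ^ (2 * p) * Φ)
    (h2 : DD a b c Φ = PowerSeries.C (p : R) * Ψ) :
    IsSol (π a) (π b) (π c) (q.map π) := by
  apply isSol_of_DD
  have h3 := congrArg (PowerSeries.map π) h1
  have h4 : PowerSeries.map π (q : PowerSeries R) = ((q.map π : k[X]) : PowerSeries k) := by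
    ext j
    simp
  rw [h4, map_mul, map_pow] at h3
  rw [h3]
  have hp : (p : k) = 0 := CharP.cast_eq_zero k p
  rw [DD_const_mul, ← map_DD, h2, map_mul, PowerSeries.map_C, map_natCast, hp, map_zero, zero_mul,
    mul_zero]
  have hp' : ((p : ℕ) : PowerSeries k) = 0 := by
    rw [← map_natCast (PowerSeries.C (R := k)), hp, map_zero]
  rw [Derivation.leibniz_pow]
  simp [hp']

variable [IsDomain R] [CharZero R]

theorem main_abstract [Infinite k] (π : R →+* k) (hsurj : Function.Surjective π)
    (hker : ∀ x, π x = 0 → (p : R) ∣ x) (a b c : R) (P : R → R[X])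
    (hsymm : ∀ x y, (P y).eval x = (P x).eval y)
    (hfac : ∀ y, ∃ Φ Ψ : PowerSeries R,
      ((P y : R[X]) : PowerSeries R)
        = (1 - PowerSeries.C (c * y) * PowerSeries.X) ^ (2 * p) * Φ ∧
      DD a b c Φ = PowerSeries.C ((p : R) ^ 2) * Ψ)
    (H : k[X]) (hdeg : H.natDegree < p) (h0 : H.coeff 0 ≠ 0)
    (hH : IsSol (π a) (π b) (π c) H) (x0 y0 : R)
    (hx : H.eval (π x0) = 0) (hy : H.eval (π y0) = 0) :
    (p : R) ^ 2 ∣ (P y0).eval x0 := by
  -- Step A
  have hA : (P y0).map π = 0 := by
    apply Polynomial.funext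
    intro z
    obtain ⟨x, rfl⟩ := hsurj z
    rw [eval_zero, eval_map_apply]
    rw [hsymm, ← eval_map_apply]
    obtain ⟨Φ, Ψ, h1, h2⟩ := hfac x
    have hs : IsSol (π a) (π b) (π c) ((P x).map π) := by
      apply sol_of p π a b c (c * x) (P x) Φ (PowerSeries.C (p : R) * Ψ) h1
      rw [h2, pow_two, map_mul, mul_assoc]
    exact polySol p hH hdeg h0 _ hy _ _ (Nat.lt_succ_self _) hs
  have hdiv : C (p : R) ∣ P y0 := by
    rw [C_dvd_iff_dvd_coeff]
    intro i
    apply hker
    rw [← coeff_map, hA, coeff_zero]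
  obtain ⟨G, hG⟩ := hdiv
  obtain ⟨Φ, Ψ, h1, h2⟩ := hfac y0
  set w : PowerSeries R := 1 - PowerSeries.C (c * y0) * PowerSeries.X with hw
  have hwu : IsUnit w := by
    rw [PowerSeries.isUnit_iff_constantCoeff, hw]
    simp
  obtain ⟨wi, hwi⟩ := hwu.exists_right_inv
  have hp0 : (PowerSeries.C (p : R) : PowerSeries R) ≠ 0 := by
    rw [Ne, map_eq_zero_iff _ PowerSeries.C_injective]
    exact_mod_cast (Fact.out : p.Prime).ne_zero
  set Φ' : PowerSeries R := wi ^ (2 * p) * (G : PowerSeries R) with hΦ'
  have hwp : w ^ (2 * p) * wi ^ (2 * p) = 1 := by rw [← mul_pow, hwi, one_pow]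
  have hG' : (G : PowerSeries R) = w ^ (2 * p) * Φ' := by
    rw [hΦ', ← mul_assoc, hwp, one_mul]
  have hΦ : Φ = PowerSeries.C (p : R) * Φ' := by
    rw [hG, Polynomial.coe_mul, Polynomial.coe_C] at h1
    have : wi ^ (2 * p) * (PowerSeries.C (p : R) * (G : PowerSeries R)) = Φ := by
      rw [h1]
      linear_combination Φ * hwp
    rw [← this, hΦ']
    ring
  have hΦ2 : DD a b c Φ' = PowerSeries.C (p : R) * Ψ := by
    apply mul_left_cancel₀ hp0
    rw [← DD_C_mul, ← hΦ, h2, pow_two, map_mul, mul_assoc]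
  have hs := sol_of p π a b c (c * y0) G Φ' Ψ hG' hΦ2
  have he := polySol p hH hdeg h0 _ hx _ _ (Nat.lt_succ_self _) hs
  rw [eval_map_apply] at he
  obtain ⟨z, hz⟩ := hker _ he
  refine ⟨z, ?_⟩
  rw [hG, eval_mul, eval_C, hz]
  ring

end Main

end Pool.Agent.H37.Sun
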