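import Mathlib
import Pool.Agent.H37.Sun.Isog
import Pool.Agent.H37.Sun.Main

/-! Vanishing of the truncated hypergeometric polynomial at the relevant points. -/

namespace Pool.Agent.H37.Sun

open Polynomial Finset

section
variable {k : Type*} [Field k]

/-- The Deuring polynomial. -/
noncomputable def Hp (n : ℕ) : k[X] := ∑ m ∈ range (n + 1), C ((n.choose m : k) ^ 2) * X ^ m

theorem Hp_coeff (n j : ℕ) : (Hp n : k[X]).coeff j = (n.choose j : k) ^ 2 := by
  unfold Hp
  rw [finsetSum_coeff]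
  simp only [coeff_C_mul, coeff_X_pow]
  by_cases hj : j ≤ n
  · rw [sum_eq_single_of_mem j (mem_range.mpr (by omega))]
    · simp
    · intro i _ hij
      rw [if_neg (fun h => hij h.symm), mul_zero]
  · rw [Nat.choose_eq_zero_of_lt (by omega)]
    rw [sum_eq_zero]
    · simp
    · intro i hi
      have := mem_range.mp hi
      rw [if_neg (by omega), mul_zero]

theorem Hp_natDegree (n : ℕ) : (Hp n : k[X]).natDegree ≤ n := by
  rw [natDegree_le_iff_coeff_eq_zero]
  intro N hN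
  rw [Hp_coeff, Nat.choose_eq_zero_of_lt hN]
  simp

theorem Hp_zero (n : ℕ) : (Hp n : k[X]).coeff 0 = 1 := by
  rw [Hp_coeff]
  simp

theorem choose_rel (n j : ℕ) :
    ((j : k) + 1) * (n.choose (j + 1) : k) = ((n : k) - j) * (n.choose j : k) := by
  have h := congrArg (Nat.cast : ℕ → k) (Nat.choose_succ_right_eq n j)
  push_cast at h
  by_cases hj : j ≤ n
  · rw [Nat.cast_sub hj] at h
    linear_combination h
  · rw [Nat.choose_eq_zero_of_lt (by omega : n < j), Nat.choose_eq_zero_of_lt (by omega : n < j + 1)]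
    simp

theorem Hp_isSol (n : ℕ) (b : k) (hb : 4 * b = 1) (hn : 2 * (n : k) + 1 = 0) :
    IsSol 1 b 0 (Hp n : k[X]) := by
  intro j
  rw [Hp_coeff, Hp_coeff]
  have h := choose_rel (k := k) n j
  have h2 : ((j : k) + 1) ^ 2 * (n.choose (j + 1) : k) ^ 2
      = ((n : k) - j) ^ 2 * (n.choose j : k) ^ 2 := by
    rw [← mul_pow, h, mul_pow]
  rw [h2]
  have h3 : ((n : k) - j) ^ 2 = (1 * (j : k) ^ 2 + 1 * (j : k) + b) := by
    have h4 : 4 * (((n : k) - j) ^ 2 - (1 * (j : k) ^ 2 + 1 * (j : k) + b)) = 0 := by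
      linear_combination (2 * (n : k) - 1 - 4 * j) * hn - hb
    linear_combination b * h4 - (((n : k) - j) ^ 2 - (1 * (j : k) ^ 2 + 1 * (j : k) + b)) * hb
  rw [h3]
  ring

theorem Hp2_isSol (n : ℕ) (hn : 2 * (n : k) + 1 = 0) :
    IsSol 0 0 (-1) (expand k 2 (Hp n : k[X])) := by
  intro j
  rcases Nat.even_or_odd' j with ⟨m, hm | hm⟩
  · have h1 : (expand k 2 (Hp n : k[X])).coeff (j + 1) = 0 := by
      rw [coeff_expand (by norm_num), if_neg (by omega)]
    rw [h1]
    rcases m with _ | m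
    · rw [hm]
      simp
    · have h2 : (expand k 2 (Hp n : k[X])).coeff (j - 1) = 0 := by
        rw [coeff_expand (by norm_num), if_neg (by omega)]
      rw [h2]
      ring
  · have h1 : (expand k 2 (Hp n : k[X])).coeff (j + 1) = (n.choose (m + 1) : k) ^ 2 := by
      rw [show j + 1 = (m + 1) * 2 by omega, coeff_expand_mul (by norm_num), Hp_coeff]
    have h2 : (expand k 2 (Hp n : k[X])).coeff (j - 1) = (n.choose m : k) ^ 2 := by
      rw [show j - 1 = m * 2 by omega, coeff_expand_mul (by norm_num), Hp_coeff]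
    rw [h1, h2, hm]
    push_cast
    have h := choose_rel (k := k) n m
    have h3 : ((m : k) + 1) ^ 2 * (n.choose (m + 1) : k) ^ 2
        = ((n : k) - m) ^ 2 * (n.choose m : k) ^ 2 := by
      rw [← mul_pow, h, mul_pow]
    linear_combination 4 * h3 + (n.choose m : k) ^ 2 * (2 * (n : k) - 4 * m - 1) * hn

theorem T_prod (n : ℕ) (α β : k) :
    T n (α + β) (α * β) = ∑ i ∈ range (n + 1), (n.choose i : k) ^ 2 * (α ^ (n - i) * β ^ i) := by
  unfold T
  have h : (X ^ 2 + C (α + β) * X + C (α * β) : k[X]) = (X + C α) * (X + C β) := by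
    simp only [map_add, map_mul]
    ring
  rw [h, mul_pow, coeff_mul, Nat.sum_antidiagonal_eq_sum_range_succ_mk]
  refine sum_congr rfl fun i hi => ?_
  have hi' : i ≤ n := by
    have := mem_range.mp hi
    omega
  simp only [coeff_X_add_C_pow]
  rw [Nat.choose_symm hi', show n - (n - i) = i by omega]
  ring

theorem H_sq_zero (n : ℕ) (α β : k) (hαβ : α * β = 1) (hT : T n (α + β) 1 = 0) :
    (Hp n : k[X]).eval (β ^ 2) = 0 := by
  have hα : α ≠ 0 := left_ne_zero_of_mul_eq_one hαβ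
  rw [← hαβ, T_prod] at hT
  have h1 : α ^ n * (Hp n : k[X]).eval (β ^ 2) = 0 := by
    rw [← hT]
    unfold Hp
    rw [eval_finsetSum, mul_sum]
    refine sum_congr rfl fun i hi => ?_
    have hi' : i ≤ n := by
      have := mem_range.mp hi
      omega
    rw [eval_mul, eval_C, eval_pow, eval_X, ← pow_mul]
    have e1 : α ^ n = α ^ (n - i) * α ^ i := by rw [← pow_add]; congr 1; omega
    have e2 : α ^ i * β ^ (2 * i) = β ^ i := by
      rw [two_mul, pow_add, ← mul_assoc, ← mul_pow, hαβ, one_pow, one_mul]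
    rw [e1]
    linear_combination (n.choose i : k) ^ 2 * α ^ (n - i) * e2
  exact (mul_eq_zero.mp h1).resolve_left (pow_ne_zero _ hα)

theorem H_leg (n : ℕ) (x : k) :
    T n (-(1 + x)) x = (-1) ^ n * (Hp n : k[X]).eval x := by
  have h := T_prod n (-1 : k) (-x)
  rw [show (-1 : k) + -x = -(1 + x) by ring, show (-1 : k) * -x = x by ring] at h
  rw [h]
  unfold Hp
  rw [eval_finsetSum, mul_sum]
  refine sum_congr rfl fun i hi => ?_
  have hi' : i ≤ n := by
    have := mem_range.mp hi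
    omega
  rw [eval_mul, eval_C, eval_pow, eval_X, neg_pow x]
  have e1 : (-1 : k) ^ n = (-1) ^ (n - i) * (-1) ^ i := by rw [← pow_add]; congr 1; omega
  rw [e1]
  ring

variable (p : ℕ) [Fact p.Prime] [CharP k p]

omit [Fact p.Prime] in
theorem cast_ne (m : ℕ) (hm : 0 < m) (hmp : m < p) : (m : k) ≠ 0 := by
  rw [Ne, CharP.cast_eq_zero_iff k p]
  intro h
  exact absurd (Nat.le_of_dvd hm h) (by omega)

variable {R : Type*} [CommRing R] [IsDomain R] [CharZero R]
  (π : R →+* k) (hsurj : Function.Surjective π) (n : ℕ) (hn : p = 2 * n + 1)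
include π hsurj hn

theorem T_u_zero (h3 : 3 < p) (s t : k) (hs : s ^ 2 = 2) (ht : t ^ 2 = 3)
    (hne : (6 : k) ^ n ≠ (-9) ^ n) : T n (2 * (2 * t - s * t)) 1 = 0 := by
  have n2 : (2 : k) ≠ 0 := by exact_mod_cast cast_ne p 2 (by norm_num) (by omega)
  have n3 : (3 : k) ≠ 0 := by exact_mod_cast cast_ne p 3 (by norm_num) (by omega)
  have n6 : (6 : k) ≠ 0 := by
    rw [show (6 : k) = 2 * 3 by norm_num]
    exact mul_ne_zero n2 n3
  have n9 : (-9 : k) ≠ 0 := by
    rw [show (-9 : k) = -(3 * 3) by norm_num]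
    exact neg_ne_zero.mpr (mul_ne_zero n3 n3)
  have h1 := iso_two p π hsurj n hn (-6 * (2 * t - s * t)) (9 * (3 - 2 * s) ^ 2)
  have h2 := iso_three p π hsurj n hn s t hs ht
  have h4 : T n (-2 * (-6 * (2 * t - s * t)))
      ((-6 * (2 * t - s * t)) ^ 2 - 4 * (9 * (3 - 2 * s) ^ 2))
      = 6 ^ n * T n (2 * (2 * t - s * t)) 1 := by
    apply T_scale n n6
    · ring
    · linear_combination 36 * (2 - s) ^ 2 * ht - 36 * hs
  have h5 : T n (-18 * (2 * t - s * t)) 81 = (-9) ^ n * T n (2 * (2 * t - s * t)) 1 := by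
    apply T_scale n n9
    · ring
    · norm_num
  rw [h1, h4, h5] at h2
  have h6 : ((6 : k) ^ n - (-9) ^ n) * T n (2 * (2 * t - s * t)) 1 = 0 := by
    linear_combination h2
  exact (mul_eq_zero.mp h6).resolve_left (sub_ne_zero.mpr hne)

theorem T_v_zero (h3 : 3 < p) (s t : k) (hs : s ^ 2 = 2) (ht : t ^ 2 = 3)
    (hne : (6 : k) ^ n ≠ (-9) ^ n) : T n (2 * (2 * t + s * t)) 1 = 0 := by
  have n2 : (2 : k) ≠ 0 := by exact_mod_cast cast_ne p 2 (by norm_num) (by omega)
  have hd : (3 - 2 * s) * (3 + 2 * s) = 1 := by linear_combination -4 * hs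
  have nd : -(3 - 2 * s) ≠ 0 := neg_ne_zero.mpr (left_ne_zero_of_mul_eq_one hd)
  have hu := T_u_zero p π hsurj n hn h3 s t hs ht hne
  have h1 := iso_two p π hsurj n hn (-2 * (2 * t + s * t)) ((3 + 2 * s) ^ 2)
  have h4 : T n (-2 * (-2 * (2 * t + s * t)))
      ((-2 * (2 * t + s * t)) ^ 2 - 4 * ((3 + 2 * s) ^ 2))
      = 2 ^ n * T n (2 * (2 * t + s * t)) 1 := by
    apply T_scale n n2
    · ring
    · linear_combination 4 * (2 + s) ^ 2 * ht - 4 * hs
  have h5 : T n (2 * (2 * t - s * t)) 1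
      = (-(3 - 2 * s)) ^ n * T n (-2 * (2 * t + s * t)) ((3 + 2 * s) ^ 2) := by
    apply T_scale n nd
    · linear_combination 4 * t * hs
    · linear_combination -(1 + (3 - 2 * s) * (3 + 2 * s)) * hd
  rw [hu, h1, h4] at h5
  have h6 := h5.symm
  have h7 := (mul_eq_zero.mp h6).resolve_left (pow_ne_zero _ nd)
  exact (mul_eq_zero.mp h7).resolve_left (pow_ne_zero _ n2)

theorem H_leg_zero (h3 : 3 < p) (u d x : k) (hud : u ^ 2 - 1 = d ^ 2) (hT : T n (2 * u) 1 = 0)
    (hx : 2 * x = 1 - u) : (Hp n : k[X]).eval x = 0 := by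
  have n2 : (2 : k) ≠ 0 := by exact_mod_cast cast_ne p 2 (by norm_num) (by omega)
  have h1 := iso_two p π hsurj n hn (-2 * u) (d ^ 2)
  have h2 : T n (-2 * (-2 * u)) ((-2 * u) ^ 2 - 4 * d ^ 2) = 2 ^ n * T n (2 * u) 1 := by
    apply T_scale n n2
    · ring
    · linear_combination 4 * hud
  rw [h2, hT, mul_zero] at h1
  have h4 := iso_trans p π hsurj n hn (-2 * u) (d ^ 2) (u - 1)
  have h5 : (u - 1) * ((u - 1) ^ 2 + -2 * u * (u - 1) + d ^ 2) = 0 := by
    linear_combination -(u - 1) * hud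
  have h6 := h4.resolve_right (fun h => h h5)
  rw [h1] at h6
  have h7 : T n (-2 * u + 3 * (u - 1)) (3 * (u - 1) ^ 2 + 2 * (-2 * u) * (u - 1) + d ^ 2)
      = 2 ^ n * T n (-(1 + x)) x := by
    apply T_scale n n2
    · linear_combination hx
    · linear_combination -hud - 2 * hx
  rw [h7, H_leg] at h6
  have h8 := (mul_eq_zero.mp h6).resolve_left (pow_ne_zero _ n2)
  exact (mul_eq_zero.mp h8).resolve_left (pow_ne_zero _ (by norm_num))

end

end Pool.Agent.H37.Sun
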