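import Mathlib
import Pool.Agent.H37.Sun.Vanish

/-! The vanishing modulo `p^2` over an abstract unramified ring. -/

namespace Pool.Agent.H37.Sun

open Polynomial Finset

section
variable {R : Type*} [CommRing R]

/-- The two polynomials of the kernel. -/
noncomputable def BP (a c y : R) : R[X] := (X + C y) * (1 + C (c * y) * X) - 2 * C (a * y) * X

noncomputable def CP (a c y : R) : R[X] :=
  C y * X * (1 - C a * X + C c * X ^ 2) * C (1 - a * y + c * y ^ 2)

/-- The polynomial kernel sum. -/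
noncomputable def PP (a c : R) (n : ℕ) (idx : ℕ → ℕ) (y : R) : R[X] :=
  ∑ m ∈ range (n + 1), C (v n m : R) *
    ((1 - C (c * y) * X) ^ (2 * (2 * n + 1) - 2 * idx m - 1) * T (idx m) (BP a c y) (CP a c y))

theorem eval_T (x : R) (k : ℕ) (b c : R[X]) : (T k b c).eval x = T k (b.eval x) (c.eval x) := by
  have := map_T (evalRingHom x) k b c
  exact this

theorem PP_eval (a c : R) (n : ℕ) (idx : ℕ → ℕ) (x y : R) :
    (PP a c n idx y).eval x = ∑ m ∈ range (n + 1), (v n m : R) *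
      ((1 - c * y * x) ^ (2 * (2 * n + 1) - 2 * idx m - 1) *
        T (idx m) ((x + y) * (1 + c * y * x) - 2 * (a * y) * x)
          (y * x * (1 - a * x + c * x ^ 2) * (1 - a * y + c * y ^ 2))) := by
  unfold PP
  rw [eval_finsetSum]
  refine sum_congr rfl fun m _ => ?_
  rw [eval_mul, eval_C, eval_mul, eval_T, BP, CP]
  simp

theorem PP_symm (a c : R) (n : ℕ) (idx : ℕ → ℕ) (x y : R) :
    (PP a c n idx y).eval x = (PP a c n idx x).eval y := by
  rw [PP_eval, PP_eval]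
  refine sum_congr rfl fun m _ => ?_
  rw [show c * x * y = c * y * x by ring, show y + x = x + y by ring,
    show 2 * (a * x) * y = 2 * (a * y) * x by ring,
    show x * y * (1 - a * y + c * y ^ 2) * (1 - a * x + c * x ^ 2)
      = y * x * (1 - a * x + c * x ^ 2) * (1 - a * y + c * y ^ 2) by ring]

theorem PP_coe (a c : R) (n : ℕ) (idx : ℕ → ℕ) (hidx : ∀ m, m ≤ n → idx m ≤ 2 * n) (y : R)
    (wi : PowerSeries R) (hwi : (1 - PowerSeries.C (c * y) * PowerSeries.X) * wi = 1) :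
    ((PP a c n idx y : R[X]) : PowerSeries R)
      = (1 - PowerSeries.C (c * y) * PowerSeries.X) ^ (2 * (2 * n + 1))
        * ∑ m ∈ range (n + 1), PowerSeries.C (v n m : R)
          * (wi * T (idx m) (wi ^ 2 * Bh a c y) (wi ^ 4 * Ch a c y)) := by
  set w : PowerSeries R := 1 - PowerSeries.C (c * y) * PowerSeries.X with hw
  have hu : IsUnit wi := IsUnit.of_mul_eq_one w (by rw [mul_comm]; exact hwi)
  have hB : ((BP a c y : R[X]) : PowerSeries R) = Bh a c y := by
    unfold BP Bh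
    have h2 : ((2 : R[X]) : PowerSeries R) = 2 := map_ofNat (Polynomial.coeToPowerSeries.ringHom) 2
    simp [h2]
  have hC : ((CP a c y : R[X]) : PowerSeries R) = Ch a c y := by
    unfold CP Ch
    simp
  unfold PP
  rw [← Polynomial.coeToPowerSeries.ringHom_apply, map_sum, mul_sum]
  refine sum_congr rfl fun m hm => ?_
  have hm' : idx m ≤ 2 * n := hidx m (by have := mem_range.mp hm; omega)
  rw [map_mul, map_mul, map_pow, map_T]
  simp only [Polynomial.coeToPowerSeries.ringHom_apply, hB, hC]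
  have h1 : (((1 - C (c * y) * X : R[X])) : PowerSeries R) = w := by
    rw [hw]
    simp
  rw [h1, Polynomial.coe_C]
  have h2 : T (idx m) (wi ^ 2 * Bh a c y) (wi ^ 4 * Ch a c y)
      = (wi ^ 2) ^ idx m * T (idx m) (Bh a c y) (Ch a c y) := by
    rw [show wi ^ 4 = (wi ^ 2) ^ 2 by ring, T_unit_mul _ (hu.pow 2)]
  rw [h2]
  have h3 : w ^ (2 * (2 * n + 1)) * (wi * (wi ^ 2) ^ idx m)
      = w ^ (2 * (2 * n + 1) - 2 * idx m - 1) := by
    have e1 : 2 * (2 * n + 1) = (2 * (2 * n + 1) - 2 * idx m - 1) + (2 * idx m + 1) := by omega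
    have e2 : w ^ (2 * (2 * n + 1)) = w ^ (2 * (2 * n + 1) - 2 * idx m - 1) * w ^ (2 * idx m + 1) := by
      rw [← pow_add, ← e1]
    have e3 : wi * (wi ^ 2) ^ idx m = wi ^ (2 * idx m + 1) := by
      rw [← pow_mul, pow_succ]
      ring
    rw [e2, e3, mul_assoc, ← mul_pow, hwi, one_pow, mul_one]
  rw [← h3]
  ring

end

section
variable {R : Type*} [CommRing R] [IsDomain R] [CharZero R] {k : Type*} [Field k] [Infinite k]
  (p : ℕ) [Fact p.Prime] [CharP k p] (π : R →+* k) (hsurj : Function.Surjective π)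
  (hker : ∀ x, π x = 0 → (p : R) ∣ x) (n : ℕ) (hn : p = 2 * n + 1)
include hsurj hker hn

theorem final_abstract (a b c : R) (idx : ℕ → ℕ) (hidx : ∀ m, m ≤ n → idx m ≤ 2 * n)
    (hfac : ∀ (y : R) (wi : PowerSeries R)
      (_ : (1 - PowerSeries.C (c * y) * PowerSeries.X) * wi = 1), ∃ Ψ : PowerSeries R,
      DD a b c (∑ m ∈ range (n + 1), PowerSeries.C (v n m : R)
          * (wi * T (idx m) (wi ^ 2 * Bh a c y) (wi ^ 4 * Ch a c y)))
        = PowerSeries.C ((p : R) ^ 2) * Ψ)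
    (H : k[X]) (hdeg : H.natDegree < p) (h0 : H.coeff 0 ≠ 0)
    (hH : IsSol (π a) (π b) (π c) H) (x0 y0 : R)
    (hx : H.eval (π x0) = 0) (hy : H.eval (π y0) = 0)
    (W r B0 C0 : R) (hW : W = 1 - c * y0 * x0) (hWu : IsUnit W) (hr : IsUnit r)
    (hB : (x0 + y0) * (1 + c * y0 * x0) - 2 * (a * y0) * x0 = W ^ 2 * (r * B0))
    (hC : y0 * x0 * (1 - a * x0 + c * x0 ^ 2) * (1 - a * y0 + c * y0 ^ 2)
      = (W ^ 2) ^ 2 * (r ^ 2 * C0)) :
    (p : R) ^ 2 ∣ ∑ m ∈ range (n + 1), (v n m : R) * (r ^ idx m * T (idx m) B0 C0) := by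
  have hmain := main_abstract p π hsurj hker a b c (PP a c n idx)
    (fun x y => PP_symm a c n idx x y)
    (fun y => by
      have hwu : IsUnit (1 - PowerSeries.C (c * y) * PowerSeries.X : PowerSeries R) := by
        rw [PowerSeries.isUnit_iff_constantCoeff]
        simp
      obtain ⟨wi, hwi⟩ := hwu.exists_right_inv
      obtain ⟨Ψ, hΨ⟩ := hfac y wi hwi
      refine ⟨_, Ψ, ?_, hΨ⟩
      rw [hn]
      exact PP_coe a c n idx hidx y wi hwi)
    H hdeg h0 hH x0 y0 hx hy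
  rw [PP_eval, ← hW, hB, hC] at hmain
  have hsum : ∑ m ∈ range (n + 1), (v n m : R) *
      (W ^ (2 * (2 * n + 1) - 2 * idx m - 1) * T (idx m) (W ^ 2 * (r * B0)) ((W ^ 2) ^ 2 * (r ^ 2 * C0)))
      = W ^ (4 * n + 1) * ∑ m ∈ range (n + 1), (v n m : R) * (r ^ idx m * T (idx m) B0 C0) := by
    rw [mul_sum]
    refine sum_congr rfl fun m hm => ?_
    have hm' : idx m ≤ 2 * n := hidx m (by have := mem_range.mp hm; omega)
    rw [T_unit_mul _ (hWu.pow 2), T_unit_mul _ hr]
    have e1 : W ^ (4 * n + 1) = W ^ (2 * (2 * n + 1) - 2 * idx m - 1) * (W ^ 2) ^ idx m := by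
      rw [← pow_mul, ← pow_add]
      congr 1
      omega
    rw [e1]
    ring
  rw [hsum] at hmain
  exact (hWu.pow _).dvd_mul_left.mp hmain

end

section
variable {R : Type*} [CommRing R]

theorem T_int (m : ℕ) (B C : ℤ) : ((T m B C : ℤ) : R) = T m (B : R) (C : R) := by
  have := map_T (Int.castRingHom R) m B C
  simpa using this

theorem int_dvd [IsDomain R] [CharZero R] {k : Type*} [Field k] (p : ℕ) [Fact p.Prime] [CharP k p]
    (π : R →+* k) (N : ℤ) (h : (p : R) ^ 2 ∣ (N : R)) : (p : ℤ) ^ 2 ∣ N := by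
  have key : ∀ M : ℤ, (p : R) ∣ (M : R) → (p : ℤ) ∣ M := by
    intro M hM
    obtain ⟨z, hz⟩ := hM
    have := congrArg π hz
    rw [map_intCast, map_mul, map_natCast, CharP.cast_eq_zero k p, zero_mul] at this
    exact (CharP.intCast_eq_zero_iff k p M).mp this
  obtain ⟨N1, hN1⟩ := key N (dvd_trans (dvd_pow_self _ (by norm_num)) h)
  have hp0 : (p : R) ≠ 0 := by exact_mod_cast (Fact.out : p.Prime).ne_zero
  have h2 : (p : R) ∣ (N1 : R) := by
    obtain ⟨z, hz⟩ := h
    refine ⟨z, mul_left_cancel₀ hp0 ?_⟩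
    rw [hN1] at hz
    push_cast at hz
    rw [hz]
    ring
  obtain ⟨N2, hN2⟩ := key N1 h2
  exact ⟨N2, by rw [hN1, hN2]; ring⟩

end

end Pool.Agent.H37.Sun
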