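import Mathlib
import Pool.Agent.H37.Sun.Abstract

/-! The three sums over the abstract ring. -/

namespace Pool.Agent.H37.Sun

open Polynomial Finset

section
variable {R : Type*} [CommRing R] [IsDomain R] [CharZero R] {k : Type*} [Field k] [Infinite k]
  (p : ℕ) [Fact p.Prime] [CharP k p] (π : R →+* k) (hsurj : Function.Surjective π)
  (hker : ∀ x, π x = 0 → (p : R) ∣ x) (n : ℕ) (hn : p = 2 * n + 1)

omit [Infinite k] in
include π in
theorem int_final (e : ℕ) (κ : ℤ) (r : R) (hκ : (κ : R) * r ^ e = 1) (B0 C0 : ℤ)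
    (h : (p : R) ^ 2 ∣ ∑ m ∈ range (n + 1), (v n m : R) *
      (r ^ (e * m) * T (e * m) (B0 : R) (C0 : R))) :
    (p : ℤ) ^ 2 ∣ ∑ m ∈ range (n + 1),
      (Nat.centralBinom m : ℤ) ^ 2 * (16 * κ) ^ (n - m) * T (e * m) B0 C0 := by
  apply int_dvd (R := R) p π
  have h1 := h.mul_left ((κ : R) ^ n)
  have e1 : (κ : R) ^ n * ∑ m ∈ range (n + 1), (v n m : R) *
      (r ^ (e * m) * T (e * m) (B0 : R) (C0 : R))
      = ((∑ m ∈ range (n + 1),
        (Nat.centralBinom m : ℤ) ^ 2 * (16 * κ) ^ (n - m) * T (e * m) B0 C0 : ℤ) : R) := by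
    rw [mul_sum]
    push_cast
    refine sum_congr rfl fun m hm => ?_
    have hm' : m ≤ n := by have := mem_range.mp hm; omega
    rw [T_int]
    have e2 : (κ : R) ^ n * r ^ (e * m) = (κ : R) ^ (n - m) := by
      have : (κ : R) ^ n = (κ : R) ^ (n - m) * (κ : R) ^ m := by
        rw [← pow_add]; congr 1; omega
      rw [this, pow_mul, mul_assoc, ← mul_pow, hκ, one_pow, mul_one]
    have e3 : (v n m : R) = (Nat.centralBinom m : R) ^ 2 * 16 ^ (n - m) := by
      unfold v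
      push_cast
      ring
    rw [e3, mul_pow, ← e2]
    ring
  rw [e1] at h1
  exact h1

section
include hsurj hker hn

theorem caseEven (x0 y0 W r : R) (hW : W = 1 - (-1) * y0 * x0) (hWu : IsUnit W)
    (hr : IsUnit r) (hx : (Hp n : k[X]).eval ((π x0) ^ 2) = 0)
    (hy : (Hp n : k[X]).eval ((π y0) ^ 2) = 0)
    (hB : (x0 + y0) * (1 + (-1) * y0 * x0) - 2 * (0 * y0) * x0 = W ^ 2 * (r * ((6 : ℤ) : R)))
    (hC : y0 * x0 * (1 - 0 * x0 + (-1) * x0 ^ 2) * (1 - 0 * y0 + (-1) * y0 ^ 2)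
      = (W ^ 2) ^ 2 * (r ^ 2 * ((1 : ℤ) : R))) :
    (p : R) ^ 2 ∣ ∑ m ∈ range (n + 1), (v n m : R) *
      (r ^ (2 * m) * T (2 * m) ((6 : ℤ) : R) ((1 : ℤ) : R)) := by
  have hnk : 2 * (n : k) + 1 = 0 := by
    have : ((2 * n + 1 : ℕ) : k) = 0 := by rw [← hn]; exact CharP.cast_eq_zero k p
    push_cast at this
    exact this
  exact final_abstract p π hsurj hker n hn 0 0 (-1) (fun m => 2 * m)
    (fun m hm => Nat.mul_le_mul_left 2 hm)
    (fun y wi hwi => by
      have h1 := sum2 y wi hwi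
        (fun j => wi * T j (wi ^ 2 * Bh 0 (-1) y) (wi ^ 4 * Ch 0 (-1) y)) (fun j => rfl) n n le_rfl
      refine ⟨-(PowerSeries.C (v n n : R) *
        (wi * T (2 * n + 1) (wi ^ 2 * Bh 0 (-1) y) (wi ^ 4 * Ch 0 (-1) y))), ?_⟩
      have hpn : (p : R) = 2 * n + 1 := by rw [hn]; push_cast; ring
      rw [hpn, h1]
      simp only [map_mul, map_pow]
      ring)
    (expand k 2 (Hp n))
    (by
      rw [natDegree_expand]
      have := Hp_natDegree (k := k) n
      omega)
    (by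
      rw [coeff_expand (by norm_num), if_pos (dvd_zero 2), Nat.zero_div, Hp_zero]
      exact one_ne_zero)
    (by
      rw [map_neg, map_one, map_zero]
      exact Hp2_isSol n hnk)
    x0 y0
    (by rw [expand_eval]; exact hx)
    (by rw [expand_eval]; exact hy)
    W r ((6 : ℤ) : R) ((1 : ℤ) : R) hW hWu hr hB hC

end

variable (h3 : 3 < p) (s t h : R) (hs : s ^ 2 = 2) (ht : t ^ 2 = 3) (hh : 2 * h = 1)
  (hne : (6 : k) ^ n ≠ (-9) ^ n)
include hsurj hker hn h3 hs ht hh hne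

theorem case1 : (p : ℤ) ^ 2 ∣ ∑ m ∈ range (n + 1),
      (Nat.centralBinom m : ℤ) ^ 2 * (16 * (-4)) ^ (n - m) * T (1 * m) 10 1 := by
  have hnk : 2 * (n : k) + 1 = 0 := by
    have : ((2 * n + 1 : ℕ) : k) = 0 := by rw [← hn]; exact CharP.cast_eq_zero k p
    push_cast at this
    exact this
  have hsk : (π s) ^ 2 = 2 := by rw [← map_pow, hs, map_ofNat]
  have htk : (π t) ^ 2 = 3 := by rw [← map_pow, ht, map_ofNat]
  have hhk : 2 * (π h) = 1 := by rw [← map_ofNat π 2, ← map_mul, hh, map_one]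
  have huz := T_u_zero p π hsurj n hn h3 (π s) (π t) hsk htk hne
  have hvz := T_v_zero p π hsurj n hn h3 (π s) (π t) hsk htk hne
  obtain ⟨x0, hx0⟩ : ∃ x0 : R, 2 * x0 = 1 - (2 * t - s * t) :=
    ⟨h * (1 - (2 * t - s * t)), by linear_combination (1 - (2 * t - s * t)) * hh⟩
  obtain ⟨y0, hy0⟩ : ∃ y0 : R, 2 * y0 = 1 - (2 * t + s * t) :=
    ⟨h * (1 - (2 * t + s * t)), by linear_combination (1 - (2 * t + s * t)) * hh⟩
  have n4 : (4 : R) ≠ 0 := by norm_num
  have n16 : (16 : R) ≠ 0 := by norm_num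
  have hfin := final_abstract p π hsurj hker n hn 1 (h ^ 2) 0 (fun m => 1 * m)
    (fun m hm => by simp only [one_mul]; omega)
    (fun y wi hwi => by
      have h1 := sum1 (h ^ 2) y (by linear_combination (2 * h + 1) * hh) wi hwi
        (fun j => wi * T j (wi ^ 2 * Bh 1 0 y) (wi ^ 4 * Ch 1 0 y)) (fun j => rfl) n n le_rfl
      refine ⟨-(PowerSeries.C (h ^ 2 * (v n n : R)) *
        (wi * T n (wi ^ 2 * Bh 1 0 y) (wi ^ 4 * Ch 1 0 y))), ?_⟩
      have h4 : (PowerSeries.C (h ^ 2) * PowerSeries.C 4 : PowerSeries R) = 1 := by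
        rw [← map_mul, show h ^ 2 * 4 = (1 : R) by linear_combination (2 * h + 1) * hh, map_one]
      simp only [one_mul]
      have hpn : (p : R) = 2 * n + 1 := by rw [hn]; push_cast; ring
      rw [hpn]
      have h5 := congrArg (fun q => PowerSeries.C (h ^ 2) * q) h1
      rw [← mul_assoc, h4, one_mul] at h5
      rw [h5]
      simp only [map_mul, map_pow]
      ring)
    (Hp n) (lt_of_le_of_lt (Hp_natDegree n) (by omega)) (by rw [Hp_zero]; exact one_ne_zero)
    (by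
      rw [map_one, map_zero]
      apply Hp_isSol n _ _ hnk
      rw [map_pow]
      linear_combination (2 * π h + 1) * hhk)
    x0 y0
    (by
      apply H_leg_zero p π hsurj n hn h3 (2 * π t - π s * π t) (3 - 2 * π s)
      · linear_combination ((1)*(π t)^2 + (-4)) * hsk + ((-4)*(π s) + (6)) * htk
      · exact huz
      · rw [← map_ofNat π 2, ← map_mul, hx0]
        simp only [map_sub, map_mul, map_one, map_ofNat])
    (by
      apply H_leg_zero p π hsurj n hn h3 (2 * π t + π s * π t) (3 + 2 * π s)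
      · linear_combination ((1)*(π t)^2 + (-4)) * hsk + ((4)*(π s) + (6)) * htk
      · exact hvz
      · rw [← map_ofNat π 2, ← map_mul, hy0]
        simp only [map_sub, map_mul, map_add, map_one, map_ofNat])
    1 (-h ^ 2) ((10 : ℤ) : R) ((1 : ℤ) : R) (by ring) isUnit_one
    ((IsUnit.of_mul_eq_one 2 (by rw [mul_comm]; exact hh) : IsUnit h).pow 2).neg
    (by
      apply mul_left_cancel₀ n4
      push_cast
      linear_combination (2 - 4 * y0) * hx0 + 2 * (2 * t - s * t) * hy0 - 2 * (4 - s ^ 2) * ht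
        + 6 * hs + 10 * (2 * h + 1) * hh)
    (by
      apply mul_left_cancel₀ n16
      push_cast
      have e : 16 * (y0 * x0 * (1 - 1 * x0 + 0 * x0 ^ 2) * (1 - 1 * y0 + 0 * y0 ^ 2))
          = (2 * x0) * (2 * y0) * (2 - 2 * x0) * (2 - 2 * y0) := by ring
      rw [e, hx0, hy0]
      have huv : (2 * t - s * t) * (2 * t + s * t) = 6 := by
        linear_combination ((-1)*t^2) * hs + ((2)) * ht
      have hsm : (2 * t - s * t) ^ 2 + (2 * t + s * t) ^ 2 = 36 := by
        linear_combination ((2)*t^2) * hs + ((12)) * ht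
      linear_combination -hsm + ((2 * t - s * t) * (2 * t + s * t) + 6) * huv
        - (2 * h + 1) * (4 * h ^ 2 + 1) * hh)
  exact int_final p π n 1 (-4) (-h ^ 2) (by push_cast; linear_combination (2 * h + 1) * hh) 10 1 hfin

theorem case3 : (p : ℤ) ^ 2 ∣ ∑ m ∈ range (n + 1),
      (Nat.centralBinom m : ℤ) ^ 2 * (16 * 64) ^ (n - m) * T (2 * m) 6 1 := by
  have hsk : (π s) ^ 2 = 2 := by rw [← map_pow, hs, map_ofNat]
  have htk : (π t) ^ 2 = 3 := by rw [← map_pow, ht, map_ofNat]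
  have huz := T_u_zero p π hsurj n hn h3 (π s) (π t) hsk htk hne
  have hvz := T_v_zero p π hsurj n hn h3 (π s) (π t) hsk htk hne
  have hhu : IsUnit h := IsUnit.of_mul_eq_one 2 (by rw [mul_comm]; exact hh)
  have n8 : (8 : R) ≠ 0 := by norm_num
  have n64 : (64 : R) ≠ 0 := by norm_num
  have hfin := caseEven p π hsurj hker n hn (2 * t - s * t - (3 - 2 * s))
    (2 * t + s * t - (3 + 2 * s)) (8 - 4 * t) (h ^ 3)
    (by linear_combination ((1)*t^2 + (-4)*t + (4)) * hs + ((-2)) * ht)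
    (IsUnit.of_mul_eq_one ((8 + 4 * t) * h ^ 4) (by
      linear_combination ((-16)) * h ^ 4 * ht + (8 * h ^ 3 + 4 * h ^ 2 + 2 * h + 1) * hh))
    (hhu.pow 3)
    (by
      have := H_sq_zero n (2 * π t - π s * π t + (3 - 2 * π s)) (2 * π t - π s * π t - (3 - 2 * π s))
        (by linear_combination ((1)*(π t)^2 + (-4)) * hsk + ((-4)*(π s) + (6)) * htk)
        (by rw [← huz]; congr 1; ring)
      simp only [map_sub, map_mul, map_ofNat]
      exact this)
    (by
      have := H_sq_zero n (2 * π t + π s * π t + (3 + 2 * π s)) (2 * π t + π s * π t - (3 + 2 * π s))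
        (by linear_combination ((1)*(π t)^2 + (-4)) * hsk + ((4)*(π s) + (6)) * htk)
        (by rw [← hvz]; congr 1; ring)
      simp only [map_sub, map_add, map_mul, map_ofNat]
      exact this)
    (by
      apply mul_left_cancel₀ n8
      push_cast
      linear_combination ((32)*t^3 + (-176)*t^2 + (320)*t + (-192)) * hs + ((-64)*t + (128)) * ht
        - 6 * (8 - 4 * t) ^ 2 * (4 * h ^ 2 + 2 * h + 1) * hh)
    (by
      apply mul_left_cancel₀ n64
      push_cast
      linear_combination ((-64)*s^4*t^6 + (768)*s^4*t^5 + (-3840)*s^4*t^4 + (10240)*s^4*t^3 + (-15360)*s^4*t^2 + (12288)*s^4*t + (-4096)*s^4 + (640)*s^2*t^6 + (-6912)*s^2*t^5 + (31040)*s^2*t^4 + (-74240)*s^2*t^3 + (99840)*s^2*t^2 + (-71680)*s^2*t + (21504)*s^2 + (-1792)*t^6 + (16896)*t^5 + (-65408)*t^4 + (132608)*t^3 + (-147712)*t^2 + (84992)*t + (-19456)) * hs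
        + ((512)*t^4 + (-3072)*t^3 + (6656)*t^2 + (-6144)*t + (2048)) * ht
        - (8 - 4 * t) ^ 4 * (8 * h ^ 3 + 1) * (4 * h ^ 2 + 2 * h + 1) * hh)
  exact int_final p π n 2 64 (h ^ 3) (by
    push_cast
    linear_combination (8 * h ^ 3 + 1) * (4 * h ^ 2 + 2 * h + 1) * hh) 6 1 hfin

theorem case2 : (p : ℤ) ^ 2 ∣ ∑ m ∈ range (n + 1),
      (Nat.centralBinom m : ℤ) ^ 2 * (16 * 16) ^ (n - m) * T (2 * m) 6 1 := by
  have hsk : (π s) ^ 2 = 2 := by rw [← map_pow, hs, map_ofNat]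
  have htk : (π t) ^ 2 = 3 := by rw [← map_pow, ht, map_ofNat]
  have huz := T_u_zero p π hsurj n hn h3 (π s) (π t) hsk htk hne
  have hvz := T_v_zero p π hsurj n hn h3 (π s) (π t) hsk htk hne
  have hhu : IsUnit h := IsUnit.of_mul_eq_one 2 (by rw [mul_comm]; exact hh)
  have n4 : (4 : R) ≠ 0 := by norm_num
  have n16 : (16 : R) ≠ 0 := by norm_num
  have hfin := caseEven p π hsurj hker n hn (2 * t - s * t + (3 - 2 * s))
    (3 + 2 * s - (2 * t + s * t)) (-4 + 2 * (s * t)) (h ^ 2)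
    (by linear_combination ((-1)*t^2 + (4)) * hs + ((2)) * ht)
    (IsUnit.of_mul_eq_one (-((-4 - 2 * (s * t)) * h ^ 3)) (by
      linear_combination (4) * t^2 * h ^ 3 * hs + 8 * h ^ 3 * ht + (4 * h ^ 2 + 2 * h + 1) * hh))
    (hhu.pow 2)
    (by
      have := H_sq_zero n (2 * π t - π s * π t - (3 - 2 * π s)) (2 * π t - π s * π t + (3 - 2 * π s))
        (by linear_combination ((1)*(π t)^2 + (-4)) * hsk + ((-4)*(π s) + (6)) * htk)
        (by rw [← huz]; congr 1; ring)
      simp only [map_sub, map_add, map_mul, map_ofNat]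
      exact this)
    (by
      have := H_sq_zero n (2 * π t + π s * π t + (3 + 2 * π s)) (2 * π t + π s * π t - (3 + 2 * π s))
        (by linear_combination ((1)*(π t)^2 + (-4)) * hsk + ((4)*(π s) + (6)) * htk)
        (by rw [← hvz]; congr 1; ring)
      simp only [map_sub, map_add, map_mul, map_ofNat]
      rw [← this]
      congr 1
      ring)
    (by
      apply mul_left_cancel₀ n4
      push_cast
      linear_combination ((8)*s*t^3 + (-32)*s*t + (-32)*t^2 + (96)) * hs + ((-16)*s*t + (32)) * ht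
        - 6 * (-4 + 2 * (s * t)) ^ 2 * (2 * h + 1) * hh)
    (by
      apply mul_left_cancel₀ n16
      push_cast
      linear_combination ((16)*s^4*t^6 + (-192)*s^4*t^4 + (768)*s^4*t^2 + (-1024)*s^4 + (96)*s^3*t^5 + (-768)*s^3*t^3 + (1536)*s^3*t + (-160)*s^2*t^6 + (1728)*s^2*t^4 + (-5760)*s^2*t^2 + (5376)*s^2 + (-576)*s*t^5 + (3904)*s*t^3 + (-5888)*s*t + (448)*t^6 + (-3840)*t^4 + (8896)*t^2 + (-4864)) * hs
        + ((384)*s*t^3 + (-128)*t^4 + (-640)*t^2 + (256)) * ht
        - (-4 + 2 * (s * t)) ^ 4 * (4 * h ^ 2 + 1) * (2 * h + 1) * hh)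
  exact int_final p π n 2 16 (h ^ 2) (by
    push_cast
    linear_combination (4 * h ^ 2 + 1) * (2 * h + 1) * hh) 6 1 hfin

end

end Pool.Agent.H37.Sun
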