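import Mathlib

/-! Facts on the Witt vectors of an algebraic closure of `ZMod p`. -/

namespace Pool.Agent.H37.Sun

open Polynomial

section
variable (p : ℕ) [Fact p.Prime]

theorem kk_charP : CharP (AlgebraicClosure (ZMod p)) p :=
  charP_of_injective_algebraMap (algebraMap (ZMod p) (AlgebraicClosure (ZMod p))).injective p

theorem isUnit_of (x : (WittVector p (AlgebraicClosure (ZMod p)))) (hx : WittVector.constantCoeff x ≠ 0) : IsUnit x := by
  have := kk_charP p
  exact WittVector.isUnit_of_coeff_zero_ne_zero x hx

theorem charZero_OO : CharZero (WittVector p (AlgebraicClosure (ZMod p))) := by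
  have := kk_charP p
  apply charZero_of_inj_zero
  intro n hn
  by_contra hne
  obtain ⟨a, m, hm, hnm⟩ := Nat.exists_eq_pow_mul_and_not_dvd hne p (Fact.out : p.Prime).ne_one
  rw [hnm] at hn
  push_cast at hn
  rcases mul_eq_zero.mp hn with h | h
  · exact WittVector.p_nonzero p (AlgebraicClosure (ZMod p)) (eq_zero_of_pow_eq_zero h)
  · have h1 := congrArg (WittVector.constantCoeff : (WittVector p (AlgebraicClosure (ZMod p))) →+* (AlgebraicClosure (ZMod p))) h
    rw [map_natCast, map_zero, CharP.cast_eq_zero_iff (AlgebraicClosure (ZMod p)) p] at h1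
    exact hm h1

theorem ker_OO (x : (WittVector p (AlgebraicClosure (ZMod p)))) (hx : WittVector.constantCoeff x = 0) : (p : (WittVector p (AlgebraicClosure (ZMod p)))) ∣ x := by
  have := kk_charP p
  have : x ∈ RingHom.ker (WittVector.constantCoeff : (WittVector p (AlgebraicClosure (ZMod p))) →+* (AlgebraicClosure (ZMod p))) := hx
  rw [WittVector.ker_constantCoeff, Ideal.mem_span_singleton] at this
  exact this

theorem exists_sqrt (m : ℕ) (h2 : p ≠ 2) (hm : ¬ p ∣ m) : ∃ s : (WittVector p (AlgebraicClosure (ZMod p))), s ^ 2 = (m : (WittVector p (AlgebraicClosure (ZMod p)))) := by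
  have := kk_charP p
  obtain ⟨α, hα⟩ := IsAlgClosed.exists_pow_nat_eq (m : (AlgebraicClosure (ZMod p))) (n := 2) (by norm_num)
  obtain ⟨a₀, ha₀⟩ := WittVector.constantCoeff_surjective (p := p) (R := (AlgebraicClosure (ZMod p))) α
  have hH := (IsAdicComplete.henselianRing (WittVector p (AlgebraicClosure (ZMod p))) (Ideal.span {(p : (WittVector p (AlgebraicClosure (ZMod p))))})).is_henselian
    (X ^ 2 - C (m : (WittVector p (AlgebraicClosure (ZMod p))))) (monic_X_pow_sub_C _ (by norm_num)) a₀
    (by
      rw [← WittVector.ker_constantCoeff]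
      rw [RingHom.mem_ker]
      rw [eval_sub, eval_pow, eval_X, eval_C, map_sub, map_pow, map_natCast, ha₀, hα, sub_self])
    (by
      apply IsUnit.map
      apply isUnit_of
      simp only [derivative_sub, derivative_X_pow, derivative_C, sub_zero, eval_mul, eval_pow,
        eval_X, eval_C, map_mul, map_pow, ha₀]
      simp only [Nat.cast_ofNat, map_ofNat, Nat.add_one_sub_one, pow_one]
      apply mul_ne_zero
      · intro h
        have h' : ((2 : ℕ) : (AlgebraicClosure (ZMod p))) = 0 := by exact_mod_cast h
        rw [CharP.cast_eq_zero_iff (AlgebraicClosure (ZMod p)) p] at h'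
        exact h2 ((Nat.prime_dvd_prime_iff_eq Fact.out Nat.prime_two).mp h')
      · intro h
        rw [h] at hα
        apply hm
        rw [← CharP.cast_eq_zero_iff (AlgebraicClosure (ZMod p)) p, ← hα]
        norm_num)
  obtain ⟨a, ha, _⟩ := hH
  refine ⟨a, ?_⟩
  rw [IsRoot, eval_sub, eval_pow, eval_X, eval_C, sub_eq_zero] at ha
  exact ha

end

end Pool.Agent.H37.Sun
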