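import Mathlib
import Pool.Agent.H37.Sun.Abstract

/-! The product formula modulo `p^2` for the first kernel sum. -/

namespace Pool.Agent.H37.Sun

open Polynomial Finset

section deg
variable {R : Type*} [CommRing R] [IsDomain R] [CharZero R]

theorem T_natDegree (b c : R[X]) (hb : b.natDegree ≤ 1) (hc : c.natDegree ≤ 2) (k : ℕ) :
    (T k b c).natDegree ≤ k ∧ (T (k + 1) b c).natDegree ≤ k + 1 := by
  induction k with
  | zero =>
    rw [T_zero, T_one, natDegree_one]
    exact ⟨le_rfl, hb⟩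
  | succ k ih =>
    refine ⟨ih.2, ?_⟩
    have h := T_rec k b c
    have hk : ((k : R) + 2) ≠ 0 := by exact_mod_cast Nat.succ_ne_zero (k + 1)
    have e1 : ((k : R[X]) + 2) * T (k + 2) b c = C ((k : R) + 2) * T (k + 2) b c := by
      simp only [map_add, map_natCast, map_ofNat]
    rw [e1] at h
    have h2 := congrArg natDegree h
    rw [natDegree_C_mul hk] at h2
    rw [show k + 1 + 1 = k + 2 from rfl, h2]
    have hd : (b ^ 2 - 4 * c).natDegree ≤ 2 := by
      refine (natDegree_sub_le _ _).trans (max_le ?_ ?_)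
      · exact (natDegree_pow_le).trans (by omega)
      · rw [show (4 : R[X]) * c = C 4 * c by simp only [map_ofNat]]
        exact (natDegree_C_mul_le _ _).trans hc
    refine (natDegree_sub_le _ _).trans (max_le ?_ ?_)
    · rw [show (2 * (k : R[X]) + 3) * (b * T (k + 1) b c) = C (2 * (k : R) + 3) * (b * T (k + 1) b c) by
        simp only [map_add, map_mul, map_natCast, map_ofNat]]
      refine (natDegree_C_mul_le _ _).trans (natDegree_mul_le.trans ?_)
      have := ih.2
      omega
    · rw [show ((k : R[X]) + 1) * ((b ^ 2 - 4 * c) * T k b c)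
          = C ((k : R) + 1) * ((b ^ 2 - 4 * c) * T k b c) by
        simp only [map_add, map_natCast, map_one]]
      refine (natDegree_C_mul_le _ _).trans (natDegree_mul_le.trans ?_)
      have := ih.1
      omega

omit [IsDomain R] [CharZero R] in
theorem T_c_zero (b : R) (k : ℕ) : T k b 0 = b ^ k := by
  unfold T
  rw [show (X ^ 2 + C b * X + C 0 : R[X]) = X * (X + C b) by rw [C_0]; ring, mul_pow,
    show ((X ^ k * (X + C b) ^ k : R[X])).coeff k = ((X ^ k * (X + C b) ^ k : R[X])).coeff (0 + k) by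
      rw [zero_add], coeff_X_pow_mul, coeff_X_add_C_pow]
  simp

/-- The polynomial `sum_m C(2m,m)^2 16^(n-m) X^m`. -/
noncomputable def Hh (n : ℕ) : R[X] := ∑ m ∈ range (n + 1), C (v n m : R) * X ^ m

theorem PP_zero (n : ℕ) : PP (1 : R) 0 n (fun m => m) 0 = Hh n := by
  unfold PP Hh
  refine sum_congr rfl fun m _ => ?_
  have h1 : (BP 1 0 0 : R[X]) = X := by
    unfold BP
    simp
  have h2 : (CP 1 0 0 : R[X]) = 0 := by
    unfold CP
    simp
  rw [h1, h2, T_c_zero]
  simp

theorem PP_natDegree (y : R) (n : ℕ) : (PP (1 : R) 0 n (fun m => m) y).natDegree ≤ n := by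
  unfold PP
  refine natDegree_sum_le_of_forall_le _ _ fun m hm => ?_
  have hm' : m ≤ n := by have := mem_range.mp hm; omega
  refine (natDegree_C_mul_le _ _).trans ?_
  rw [show (1 - C ((0 : R) * y) * X : R[X]) = 1 by simp, one_pow, one_mul]
  have hb : (BP (1 : R) 0 y).natDegree ≤ 1 := by
    have : (BP (1 : R) 0 y) = C (1 - 2 * y) * X + C y := by
      unfold BP
      simp only [map_sub, map_mul, map_one, map_ofNat, zero_mul, one_mul, C_0]
      ring
    rw [this]
    exact natDegree_linear_le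
  have hc : (CP (1 : R) 0 y).natDegree ≤ 2 := by
    have : (CP (1 : R) 0 y) = C (-(y * (1 - y))) * X ^ 2 + C (y * (1 - y)) * X + C 0 := by
      unfold CP
      simp only [map_sub, map_mul, map_one, zero_mul, one_mul, C_0, map_neg, map_add]
      ring
    rw [this]
    exact natDegree_quadratic_le
  exact (T_natDegree _ _ hb hc m).1.trans hm'

end deg

section
variable {R : Type*} [CommRing R]

theorem dvd_cancel_nat (p : ℕ) (hp : p.Prime) (j : ℕ) (hj : ¬ p ∣ j) (c : R)
    (h : (p : R) ^ 2 ∣ (j : R) ^ 2 * c) : (p : R) ^ 2 ∣ c := by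
  have hcop : Nat.Coprime (p ^ 2) (j ^ 2) := Nat.Coprime.pow _ _ ((Nat.Prime.coprime_iff_not_dvd hp).mpr hj)
  obtain ⟨a, b, hab⟩ := Nat.isCoprime_iff_coprime.mpr hcop
  have h1 := congrArg (Int.cast : ℤ → R) hab
  push_cast at h1
  have : c = a * (p : R) ^ 2 * c + b * ((j : R) ^ 2 * c) := by
    linear_combination -c * h1
  rw [this]
  refine dvd_add ?_ (h.mul_left _)
  exact ⟨a * c, by ring⟩

variable [IsDomain R] [CharZero R]

/-- The sums solve the differential equation modulo `p^2`. -/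
theorem PP_sol (p n : ℕ) (hn : p = 2 * n + 1) (b : R) (hb : 4 * b = 1) (y : R) :
    ∃ Ψ : PowerSeries R, DD 1 b 0 ((PP 1 0 n (fun m => m) y : R[X]) : PowerSeries R)
      = PowerSeries.C ((p : R) ^ 2) * Ψ := by
  have hwi : (1 - PowerSeries.C (0 * y) * PowerSeries.X) * (1 : PowerSeries R) = 1 := by
    rw [zero_mul, map_zero, zero_mul, sub_zero, one_mul]
  have h1 := sum1 b y hb 1 hwi (fun j => 1 * T j (1 ^ 2 * Bh 1 0 y) (1 ^ 4 * Ch 1 0 y))
    (fun j => rfl) n n le_rfl
  have h2 := PP_coe (1 : R) 0 n (fun m => m) (fun m hm => by omega) y 1 hwi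
  rw [zero_mul, map_zero, zero_mul, sub_zero, one_pow, one_mul] at h2
  rw [h2]
  refine ⟨-(PowerSeries.C (b * (v n n : R)) * (1 * T n (1 ^ 2 * Bh 1 0 y) (1 ^ 4 * Ch 1 0 y))), ?_⟩
  have h4 : (PowerSeries.C b * PowerSeries.C 4 : PowerSeries R) = 1 := by
    rw [← map_mul, mul_comm b 4, hb, map_one]
  have hpn : (p : R) = 2 * n + 1 := by rw [hn]; push_cast; ring
  rw [hpn]
  have h5 := congrArg (fun q => PowerSeries.C b * q) h1
  rw [← mul_assoc, h4, one_mul] at h5
  rw [h5]
  simp only [map_mul, map_pow]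
  ring

omit [IsDomain R] [CharZero R] in
/-- Uniqueness modulo `p^2`. -/
theorem sol_unique (p : ℕ) (hp : p.Prime) (b : R) (Δ : R[X]) (Ψ : PowerSeries R)
    (h : DD 1 b 0 (Δ : PowerSeries R) = PowerSeries.C ((p : R) ^ 2) * Ψ) (h0 : (p : R) ^ 2 ∣ Δ.coeff 0)
    (hdeg : Δ.natDegree < p) : C ((p : R) ^ 2) ∣ Δ := by
  rw [C_dvd_iff_dvd_coeff]
  intro i
  by_cases hi : i < p
  · induction i with
    | zero => exact h0
    | succ i ih =>
      have ih' := ih (by omega)
      apply dvd_cancel_nat p hp (i + 1)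
        (fun hd => absurd (Nat.le_of_dvd (Nat.succ_pos i) hd) (by omega))
      rcases i with _ | i
      · have e := coeff_zero_DD (1 : R) b 0 (Δ : PowerSeries R)
        rw [h, PowerSeries.coeff_C_mul] at e
        simp only [Polynomial.coeff_coe] at e
        have : (((0 + 1 : ℕ) : R)) ^ 2 * Δ.coeff (0 + 1)
            = (p : R) ^ 2 * (PowerSeries.coeff 0 Ψ) + b * Δ.coeff 0 := by
          push_cast
          rw [e]
          ring
        rw [this]
        exact dvd_add (dvd_mul_right _ _) (ih'.mul_left _)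
      · have e := coeff_succ_DD (1 : R) b 0 (Δ : PowerSeries R) i
        rw [h, PowerSeries.coeff_C_mul] at e
        simp only [Polynomial.coeff_coe] at e
        have : (((i + 1 + 1 : ℕ) : R)) ^ 2 * Δ.coeff (i + 1 + 1)
            = (p : R) ^ 2 * (PowerSeries.coeff (i + 1) Ψ)
              + (1 * ((i : R) + 1) ^ 2 + 1 * ((i : R) + 1) + b) * Δ.coeff (i + 1) := by
          push_cast
          rw [e]
          ring
        rw [this]
        exact dvd_add (dvd_mul_right _ _) (ih'.mul_left _)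
  · rw [coeff_eq_zero_of_natDegree_lt (by omega)]
    exact dvd_zero _

/-- The product formula. -/
theorem prod_formula (p n : ℕ) (hp : p.Prime) (hn : p = 2 * n + 1) (b : R) (hb : 4 * b = 1) (y : R) :
    C ((p : R) ^ 2) ∣ C (16 ^ n) * PP 1 0 n (fun m => m) y - C ((Hh n : R[X]).eval y) * Hh n := by
  obtain ⟨Ψ1, h1⟩ := PP_sol p n hn b hb y
  obtain ⟨Ψ0, h0⟩ := PP_sol p n hn b hb (0 : R)
  rw [PP_zero] at h0
  apply sol_unique p hp b _ (PowerSeries.C (16 ^ n) * Ψ1 - PowerSeries.C ((Hh n : R[X]).eval y) * Ψ0)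
  · have e : ((C (16 ^ n) * PP 1 0 n (fun m => m) y - C ((Hh n : R[X]).eval y) * Hh n : R[X])
        : PowerSeries R) = PowerSeries.C (16 ^ n) * ((PP 1 0 n (fun m => m) y : R[X]) : PowerSeries R)
          + PowerSeries.C (-(Hh n : R[X]).eval y) * ((Hh n : R[X]) : PowerSeries R) := by
      rw [Polynomial.coe_sub, Polynomial.coe_mul, Polynomial.coe_mul, Polynomial.coe_C,
        Polynomial.coe_C, map_neg]
      ring
    rw [e, DD_add, DD_C_mul, DD_C_mul, h1, h0, map_neg]
    ring
  · have e1 : (PP (1 : R) 0 n (fun m => m) y).coeff 0 = (Hh n : R[X]).eval y := by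
      rw [coeff_zero_eq_eval_zero, PP_symm, PP_zero]
    have e2 : (Hh n : R[X]).coeff 0 = 16 ^ n := by
      unfold Hh
      rw [finsetSum_coeff]
      rw [sum_eq_single_of_mem 0 (mem_range.mpr (by omega))]
      · rw [pow_zero, mul_one, coeff_C_zero]
        simp [v]
      · intro m _ hm
        rw [coeff_C_mul, coeff_X_pow, if_neg (fun h => hm h.symm), mul_zero]
    rw [coeff_sub, coeff_C_mul, coeff_C_mul, e1, e2]
    rw [show (16 : R) ^ n * (Hh n : R[X]).eval y - (Hh n : R[X]).eval y * 16 ^ n = 0 by ring]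
    exact dvd_zero _
  · refine lt_of_le_of_lt ((natDegree_sub_le _ _).trans (max_le ?_ ?_)) (show n < p by omega)
    · exact (natDegree_C_mul_le _ _).trans (PP_natDegree y n)
    · refine (natDegree_C_mul_le _ _).trans ?_
      have := PP_natDegree (0 : R) n
      rwa [PP_zero] at this

end

end Pool.Agent.H37.Sun
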