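import Mathlib
import Pool.Agent.H37.Sun.Prod

/-! The homogenised polynomial, its differential equation, and the interpolation lemma. -/

namespace Pool.Agent.H37.Sun

open Polynomial Finset

section
variable {A : Type*} [CommRing A]

/-- homogenised form -/
def hf (n : ℕ) (P Q : A) : A := ∑ m ∈ range (n + 1), (v n m : A) * (P ^ m * Q ^ (n - m))

/-- derivative in the first variable -/
def hp (n : ℕ) (P Q : A) : A :=
  ∑ m ∈ range (n + 1), (v n m : A) * (m * P ^ (m - 1) * Q ^ (n - m))

/-- second derivative in the first variable -/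
def hpp (n : ℕ) (P Q : A) : A :=
  ∑ m ∈ range (n + 1), (v n m : A) * (m * ((m : A) - 1) * P ^ (m - 2) * Q ^ (n - m))

theorem h_ode (p n : ℕ) (hn : p = 2 * n + 1) (P Q : A) :
    4 * P * (Q - P) * hpp n P Q + 4 * (Q - 2 * P) * hp n P Q - hf n P Q
      = - ((p : A) ^ 2 * (v n n : A) * P ^ n) := by
  have key : ∀ N ≤ n, 4 * P * (Q - P) * (∑ m ∈ range (N + 1), (v n m : A) *
        (m * ((m : A) - 1) * P ^ (m - 2) * Q ^ (n - m)))
      + 4 * (Q - 2 * P) * (∑ m ∈ range (N + 1), (v n m : A) * (m * P ^ (m - 1) * Q ^ (n - m)))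
      - (∑ m ∈ range (N + 1), (v n m : A) * (P ^ m * Q ^ (n - m)))
      = - ((2 * (N : A) + 1) ^ 2 * (v n N : A) * P ^ N * Q ^ (n - N)) := by
    intro N hN
    induction N with
    | zero => simp
    | succ N ih =>
      have ih' := ih (by omega)
      rw [sum_range_succ _ (N + 1), sum_range_succ _ (N + 1), sum_range_succ _ (N + 1)]
      have hv := v_rec' (R := A) n N (by omega)
      have hQ : Q ^ (n - N) = Q ^ (n - (N + 1)) * Q := by
        rw [← pow_succ]; congr 1; omega
      rw [hQ] at ih'
      have hP2 : ((N : A) + 1) * N * P ^ (N + 1 - 2) * P = ((N : A) + 1) * N * P ^ N := by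
        rcases N with _ | N
        · simp
        · rw [show N + 1 + 1 - 2 = N by omega, pow_succ]
          ring
      rw [Nat.add_sub_cancel]
      rw [show N + 1 - 2 = N - 1 by omega] at hP2 ⊢
      push_cast
      linear_combination ih' + P ^ N * Q ^ (n - (N + 1)) * Q * hv
        + 4 * (Q - P) * (v n (N + 1) : A) * Q ^ (n - (N + 1)) * hP2
  have h := key n le_rfl
  unfold hpp hp hf
  rw [h, hn, Nat.sub_self, pow_zero, mul_one]
  push_cast
  ring

theorem hp_mul (n : ℕ) (x Q : A) :
    Q * hp n (Q * x) Q = Q ^ n * ∑ m ∈ range (n + 1), (v n m : A) * (m * x ^ (m - 1)) := by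
  unfold hp
  rw [mul_sum, mul_sum]
  refine sum_congr rfl fun m hm => ?_
  have hm' : m ≤ n := by have := mem_range.mp hm; omega
  rcases m with _ | m
  · simp
  · rw [Nat.add_sub_cancel, mul_pow]
    have : Q ^ n = Q * Q ^ m * Q ^ (n - (m + 1)) := by
      rw [← pow_succ', ← pow_add]; congr 1; omega
    rw [this]
    ring

theorem hf_mul (n : ℕ) (x Q : A) :
    hf n (Q * x) Q = Q ^ n * ∑ m ∈ range (n + 1), (v n m : A) * x ^ m := by
  unfold hf
  rw [mul_sum]
  refine sum_congr rfl fun m hm => ?_
  have hm' : m ≤ n := by have := mem_range.mp hm; omega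
  have : Q ^ n = Q ^ m * Q ^ (n - m) := by rw [← pow_add]; congr 1; omega
  rw [mul_pow, this]
  ring

theorem map_hf {B : Type*} [CommRing B] (f : A →+* B) (n : ℕ) (P Q : A) :
    f (hf n P Q) = hf n (f P) (f Q) := by
  unfold hf
  simp only [map_sum, map_mul, map_pow, map_natCast]

theorem map_hp {B : Type*} [CommRing B] (f : A →+* B) (n : ℕ) (P Q : A) :
    f (hp n P Q) = hp n (f P) (f Q) := by
  unfold hp
  simp only [map_sum, map_mul, map_pow, map_natCast]

end

section
variable {R : Type*} [CommRing R]

theorem deriv_hf (n : ℕ) (P Q : R[X]) :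
    Q * derivative (hf n P Q)
      = hp n P Q * (derivative P * Q - P * derivative Q) + n * hf n P Q * derivative Q := by
  unfold hf hp
  rw [derivative_sum, mul_sum, sum_mul, mul_sum, sum_mul, ← sum_add_distrib]
  refine sum_congr rfl fun m hm => ?_
  have hm' : m ≤ n := by have := mem_range.mp hm; omega
  have hv : derivative ((v n m : ℕ) : R[X]) = 0 := derivative_natCast
  rw [derivative_mul, hv, zero_mul, zero_add, derivative_mul, derivative_pow, derivative_pow]
  obtain ⟨j, rfl⟩ : ∃ j, n = m + j := ⟨n - m, by omega⟩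
  rw [show m + j - m = j by omega]
  simp only [map_natCast]
  have h1 : (m : R[X]) * P ^ m = m * P ^ (m - 1) * P := by
    rcases m with _ | m
    · simp
    · rw [Nat.add_sub_cancel, pow_succ]; ring
  have h2 : (j : R[X]) * Q ^ (j - 1) * Q = j * Q ^ j := by
    rcases j with _ | j
    · simp
    · rw [Nat.add_sub_cancel, pow_succ]; ring
  push_cast
  linear_combination (v (m + j) m : R[X]) * P ^ m * derivative Q * h2
    + (v (m + j) m : R[X]) * Q ^ j * derivative Q * (-h1)

theorem deriv_hp (n : ℕ) (P Q : R[X]) :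
    Q * derivative (hp n P Q)
      = hpp n P Q * (derivative P * Q - P * derivative Q)
        + ((n : R[X]) - 1) * hp n P Q * derivative Q := by
  unfold hpp hp
  rw [derivative_sum, mul_sum, sum_mul, mul_sum, sum_mul, ← sum_add_distrib]
  refine sum_congr rfl fun m hm => ?_
  have hm' : m ≤ n := by have := mem_range.mp hm; omega
  have hv : derivative ((v n m : ℕ) : R[X]) = 0 := derivative_natCast
  have hmm : derivative ((m : ℕ) : R[X]) = 0 := derivative_natCast
  rw [derivative_mul, hv, zero_mul, zero_add, derivative_mul, derivative_mul, hmm, zero_mul, zero_add,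
    derivative_pow, derivative_pow]
  obtain ⟨j, rfl⟩ : ∃ j, n = m + j := ⟨n - m, by omega⟩
  rw [show m + j - m = j by omega]
  simp only [map_natCast]
  rcases m with _ | m
  · simp
  · rw [Nat.add_sub_cancel, show m + 1 - 2 = m - 1 by omega]
    have h1 : (m : R[X]) * P ^ m = m * P ^ (m - 1) * P := by
      rcases m with _ | m
      · simp
      · rw [Nat.add_sub_cancel, pow_succ]; ring
    have h2 : (j : R[X]) * Q ^ (j - 1) * Q = j * Q ^ j := by
      rcases j with _ | j
      · simp
      · rw [Nat.add_sub_cancel, pow_succ]; ring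
    push_cast
    linear_combination (v (m + 1 + j) (m + 1) : R[X]) * ((m : R[X]) + 1) * P ^ m * derivative Q * h2
      - (v (m + 1 + j) (m + 1) : R[X]) * ((m : R[X]) + 1) * Q ^ j * derivative Q * h1

end

section interp
variable {R : Type*} [CommRing R] [IsDomain R] [CharZero R] {k : Type*} [Field k]
  (p : ℕ) [Fact p.Prime] [CharP k p] (π : R →+* k)
  (hker : ∀ x, π x = 0 → (p : R) ∣ x)
include hker

omit [IsDomain R] [CharZero R] [Fact p.Prime] [CharP k p] in
theorem dvd_of_map_zero (w : R[X]) (h : w.map π = 0) : C (p : R) ∣ w := by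
  rw [C_dvd_iff_dvd_coeff]
  intro i
  apply hker
  rw [← coeff_map, h, coeff_zero]

/-- The interpolation lemma. -/
theorem interp (w D1 D2 Z : R[X]) (N : ℕ) (hdeg : w.natDegree ≤ N * p)
    (hD : D1 * derivative w = C (p : R) * (D2 * w) + C ((p : R) ^ 2) * Z) (hD1 : D1.map π ≠ 0)
    (S : Finset R) (hS : ∀ x ∈ S, (π x) ^ p = π x) (hinj : Set.InjOn π S) (hcard : N < S.card)
    (E : k[X]) (hE : E.natDegree ≤ N)
    (hval : ∀ x ∈ S, ∃ e : R, w.eval x = (p : R) * e ∧ π e = E.eval (π x)) :
    ∃ w1 : R[X], w = C (p : R) * w1 ∧ w1.map π = expand k p E := by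
  classical
  have hp : (p : k) = 0 := CharP.cast_eq_zero k p
  have hπp : π (p : R) = 0 := by rw [map_natCast, hp]
  have hp0 : (C (p : R) : R[X]) ≠ 0 := by
    rw [Ne, C_eq_zero]
    exact_mod_cast (Fact.out : p.Prime).ne_zero
  have hppos := (Fact.out : p.Prime).pos
  have hpR : (p : R) ≠ 0 := by exact_mod_cast (Fact.out : p.Prime).ne_zero
  have hcardk : (S.image π).card = S.card := card_image_of_injOn hinj
  -- general step: a polynomial with zero derivative mod p and prescribed values
  have step : ∀ (g : R[X]) (F : k[X]), g.natDegree ≤ N * p → F.natDegree ≤ N →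
      derivative (g.map π) = 0 → (∀ x ∈ S, π (g.eval x) = F.eval (π x)) →
      g.map π = expand k p F := by
    intro g F hg hF hder hv
    have h1 := expand_contract p hder hppos.ne'
    have h2 : (contract p (g.map π)).natDegree ≤ N := by
      have h3 : (expand k p (contract p (g.map π))).natDegree ≤ N * p := by
        rw [h1]
        exact (natDegree_map_le).trans hg
      rw [natDegree_expand] at h3
      exact Nat.le_of_mul_le_mul_right h3 hppos
    have h4 : contract p (g.map π) - F = 0 := by
      apply eq_zero_of_natDegree_lt_card_of_eval_eq_zero' _ (S.image π)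
      · intro z hz
        obtain ⟨x, hx, rfl⟩ := mem_image.mp hz
        rw [eval_sub, ← hv x hx, sub_eq_zero, ← eval_map_apply]
        conv_rhs => rw [← h1]
        rw [expand_eval, hS x hx]
      · rw [hcardk]
        exact lt_of_le_of_lt ((natDegree_sub_le _ _).trans (max_le h2 hF)) hcard
    rw [← h1, sub_eq_zero.mp h4]
  -- first: w vanishes mod p
  have hw0 : w.map π = 0 := by
    have hder : derivative (w.map π) = 0 := by
      have h1 := congrArg (Polynomial.map π) hD
      rw [Polynomial.map_mul, Polynomial.map_add, Polynomial.map_mul, Polynomial.map_mul,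
        Polynomial.map_mul, map_C, map_C, map_pow, hπp,
        zero_pow (by norm_num), C_0, zero_mul, zero_mul, add_zero, ← derivative_map] at h1
      exact (mul_eq_zero.mp h1).resolve_left hD1
    have := step w 0 hdeg (by simp) hder (fun x hx => by
      obtain ⟨e, he, _⟩ := hval x hx
      rw [he, map_mul, map_natCast, hp, zero_mul, eval_zero])
    rw [this, map_zero]
  obtain ⟨w1, hw1⟩ := dvd_of_map_zero p π hker w hw0
  refine ⟨w1, hw1, ?_⟩
  apply step w1 E
  · have : w.natDegree = w1.natDegree := by
      rw [hw1, natDegree_C_mul hpR]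
    omega
  · exact hE
  · have h1 : D1 * derivative w1 = C (p : R) * (D2 * w1) + C (p : R) * Z := by
      apply mul_left_cancel₀ hp0
      rw [hw1, derivative_C_mul] at hD
      rw [map_pow] at hD
      linear_combination hD
    have h2 := congrArg (Polynomial.map π) h1
    rw [Polynomial.map_mul, Polynomial.map_add, Polynomial.map_mul, Polynomial.map_mul,
      Polynomial.map_mul, map_C, hπp, C_0, zero_mul, zero_mul, add_zero,
      ← derivative_map] at h2
    exact (mul_eq_zero.mp h2).resolve_left hD1
  · intro x hx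
    obtain ⟨e, he, he2⟩ := hval x hx
    rw [hw1, eval_mul, eval_C] at he
    rw [mul_left_cancel₀ hpR he, he2]

end interp

end Pool.Agent.H37.Sun
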