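import Mathlib
import Pool.Agent.H37.Sun.Hom

/-! The first Wronskian identity modulo `p^2` (2-isogeny). -/

namespace Pool.Agent.H37.Sun

open Polynomial Finset

section values
variable {A : Type*} [CommRing A]

theorem hf_Q0 (n : ℕ) (P : A) : hf n P 0 = (v n n : A) * P ^ n := by
  unfold hf
  rw [sum_eq_single_of_mem n (mem_range.mpr (by omega))]
  · simp
  · intro m hm hmn
    have := mem_range.mp hm
    rw [zero_pow (by omega), mul_zero, mul_zero]

theorem hp_Q0 (n : ℕ) (P : A) : hp n P 0 = (v n n : A) * (n * P ^ (n - 1)) := by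
  unfold hp
  rw [sum_eq_single_of_mem n (mem_range.mpr (by omega))]
  · simp
  · intro m hm hmn
    have := mem_range.mp hm
    rw [zero_pow (by omega), mul_zero, mul_zero]

theorem hf_P0 (n : ℕ) (Q : A) : hf n 0 Q = (v n 0 : A) * Q ^ n := by
  unfold hf
  rw [sum_eq_single_of_mem 0 (mem_range.mpr (by omega))]
  · simp
  · intro m hm hmn
    rw [zero_pow hmn, zero_mul, mul_zero]

theorem hf_QQ (n : ℕ) (Q : A) : hf n Q Q = Q ^ n * ∑ m ∈ range (n + 1), (v n m : A) := by
  have := hf_mul n (1 : A) Q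
  rw [mul_one] at this
  rw [this]
  simp

end values

section deg
variable {R : Type*} [CommRing R]

theorem hf_natDegree (n d : ℕ) (P Q : R[X]) (hP : P.natDegree ≤ d) (hQ : Q.natDegree ≤ d) :
    (hf n P Q).natDegree ≤ d * n := by
  unfold hf
  refine natDegree_sum_le_of_forall_le _ _ fun m hm => ?_
  have hm' : m ≤ n := by have := mem_range.mp hm; omega
  rw [show ((v n m : ℕ) : R[X]) = C (v n m : R) by rw [map_natCast]]
  refine (natDegree_C_mul_le _ _).trans (natDegree_mul_le.trans ?_)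
  have h1 : (P ^ m).natDegree ≤ m * d := natDegree_pow_le.trans (Nat.mul_le_mul_left m hP)
  have h2 : (Q ^ (n - m)).natDegree ≤ (n - m) * d :=
    natDegree_pow_le.trans (Nat.mul_le_mul_left _ hQ)
  calc (P ^ m).natDegree + (Q ^ (n - m)).natDegree ≤ m * d + (n - m) * d := add_le_add h1 h2
    _ = d * n := by rw [← add_mul, Nat.add_sub_cancel' hm', mul_comm]

theorem hp_natDegree (n d : ℕ) (P Q : R[X]) (hP : P.natDegree ≤ d) (hQ : Q.natDegree ≤ d) :
    (hp n P Q).natDegree ≤ d * (n - 1) := by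
  unfold hp
  refine natDegree_sum_le_of_forall_le _ _ fun m hm => ?_
  have hm' : m ≤ n := by have := mem_range.mp hm; omega
  rw [show ((v n m : ℕ) : R[X]) = C (v n m : R) by rw [map_natCast]]
  refine (natDegree_C_mul_le _ _).trans ?_
  rcases m with _ | m
  · simp
  · rw [Nat.add_sub_cancel, mul_assoc, show (((m + 1 : ℕ)) : R[X]) = C ((m + 1 : ℕ) : R) by
      rw [map_natCast]]
    refine (natDegree_C_mul_le _ _).trans (natDegree_mul_le.trans ?_)
    have h1 : (P ^ m).natDegree ≤ m * d := natDegree_pow_le.trans (Nat.mul_le_mul_left m hP)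
    have h2 : (Q ^ (n - (m + 1))).natDegree ≤ (n - (m + 1)) * d :=
      natDegree_pow_le.trans (Nat.mul_le_mul_left _ hQ)
    calc (P ^ m).natDegree + (Q ^ (n - (m + 1))).natDegree ≤ m * d + (n - (m + 1)) * d :=
          add_le_add h1 h2
      _ = d * (n - 1) := by rw [← add_mul, mul_comm]; congr 1; omega

end deg

section modp
variable {k : Type*} [Field k] (p : ℕ) [Fact p.Prime] [CharP k p] (n : ℕ) (hn : p = 2 * n + 1)
include hn

omit [Fact p.Prime] in
theorem two_n : 2 * (n : k) + 1 = 0 := by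
  have : ((2 * n + 1 : ℕ) : k) = 0 := by rw [← hn]; exact CharP.cast_eq_zero k p
  push_cast at this
  exact this

omit [Fact p.Prime] in
theorem cb_mod (m : ℕ) (hm : m ≤ n) :
    (Nat.centralBinom m : k) = (-4) ^ m * (n.choose m : k) := by
  have h2n := two_n (k := k) p n hn
  induction m with
  | zero => simp
  | succ m ih =>
    have ih' := ih (by omega)
    have h1 := congrArg (Nat.cast : ℕ → k) (Nat.succ_mul_centralBinom_succ m)
    push_cast at h1
    have h2 := choose_rel (k := k) n m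
    have hne : ((m : k) + 1) ≠ 0 := by
      have := cast_ne (k := k) p (m + 1) (Nat.succ_pos m) (by omega)
      push_cast at this
      exact this
    apply mul_left_cancel₀ hne
    rw [h1, ih']
    linear_combination (-(-4) ^ (m + 1)) * h2 + 2 * (-4) ^ m * (n.choose m : k) * h2n

theorem pow_pred (x : ℕ) (hx : ¬ p ∣ x) : (x : k) ^ (2 * n) = 1 := by
  have h30 : (x : ZMod p) ≠ 0 := by
    rw [Ne, CharP.cast_eq_zero_iff (ZMod p) p]
    exact hx
  have := ZMod.pow_card_sub_one_eq_one h30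
  rw [show p - 1 = 2 * n by omega] at this
  have := congrArg (ZMod.castHom (dvd_refl p) k) this
  rwa [map_pow, map_natCast, map_one] at this

theorem four_pow (h3 : 3 < p) : (4 : k) ^ n = 1 := by
  have := pow_pred (k := k) p n hn 2 (fun h => absurd (Nat.le_of_dvd (by norm_num) h) (by omega))
  rw [pow_mul] at this
  rw [← this]
  norm_num

theorem sixteen_pow (h3 : 3 < p) : (16 : k) ^ n = 1 := by
  rw [show (16 : k) = 4 * 4 by norm_num, mul_pow, four_pow p n hn h3, one_mul]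

theorem v_mod (h3 : 3 < p) (m : ℕ) (hm : m ≤ n) : (v n m : k) = (n.choose m : k) ^ 2 := by
  unfold v
  push_cast
  rw [cb_mod p n hn m hm, mul_pow, ← pow_mul, mul_comm m 2, pow_mul]
  have h16 := sixteen_pow (k := k) p n hn h3
  have : (16 : k) ^ n = 16 ^ m * 16 ^ (n - m) := by rw [← pow_add]; congr 1; omega
  rw [this] at h16
  rw [show ((-4 : k) ^ 2) = 16 by norm_num]
  linear_combination (n.choose m : k) ^ 2 * h16

theorem vn_mod (h3 : 3 < p) : (v n n : k) = 1 := by
  rw [v_mod p n hn h3 n le_rfl]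
  simp

theorem v0_mod (h3 : 3 < p) : (v n 0 : k) = 1 := by
  rw [v_mod p n hn h3 0 (by omega)]
  simp

theorem vsum_mod (h3 : 3 < p) : (∑ m ∈ range (n + 1), (v n m : k)) = (-4) ^ n := by
  have h1 := T_prod n (1 : k) 1
  have h2 : T n (1 + 1 : k) (1 * 1) = (Nat.centralBinom n : k) := by
    unfold T
    rw [show (X ^ 2 + C (1 + 1 : k) * X + C (1 * 1 : k)) = (X + C 1) ^ 2 by
      simp only [map_add, map_mul, map_one]; ring, ← pow_mul, coeff_X_add_C_pow]
    rw [one_pow, one_mul, Nat.centralBinom]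
  rw [h2, cb_mod p n hn n le_rfl, Nat.choose_self, Nat.cast_one, mul_one] at h1
  rw [h1]
  refine sum_congr rfl fun m hm => ?_
  rw [v_mod p n hn h3 m (by have := mem_range.mp hm; omega)]
  simp

end modp

section W2
variable {R : Type*} [CommRing R]

/-- The Wronskian form of the 2-isogeny. -/
noncomputable def w2 (n : ℕ) : R[X] :=
  2 * (1 - X ^ 2) ^ 2 * hf n (-X ^ 2) (1 - X ^ 2) * hp n (-(1 - X) ^ 2) (4 * X)
    + 4 * X ^ 2 * hf n (-(1 - X) ^ 2) (4 * X) * hp n (-X ^ 2) (1 - X ^ 2)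
    - (1 + X ^ 2) * hf n (-X ^ 2) (1 - X ^ 2) * hf n (-(1 - X) ^ 2) (4 * X)

theorem w2_ode (p n : ℕ) (hn : p = 2 * n + 1) : ∃ Z : R[X],
    (4 * X * (1 - X ^ 2)) * derivative (w2 n : R[X])
      = C (p : R) * ((2 * (1 - 3 * X ^ 2)) * w2 n) + C ((p : R) ^ 2) * Z := by
  have e1 := deriv_hf n (-(1 - X) ^ 2 : R[X]) (4 * X)
  have e2 := deriv_hp n (-(1 - X) ^ 2 : R[X]) (4 * X)
  have o1 := h_ode p n hn (-(1 - X) ^ 2 : R[X]) (4 * X)
  have e3 := deriv_hf n (-X ^ 2 : R[X]) (1 - X ^ 2)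
  have e4 := deriv_hp n (-X ^ 2 : R[X]) (1 - X ^ 2)
  have o2 := h_ode p n hn (-X ^ 2 : R[X]) (1 - X ^ 2)
  have hp' : (p : R[X]) = 2 * n + 1 := by rw [hn]; push_cast; ring
  unfold w2
  set G := hf n (-(1 - X) ^ 2 : R[X]) (4 * X)
  set h1 := hp n (-(1 - X) ^ 2 : R[X]) (4 * X)
  set K := hf n (-X ^ 2 : R[X]) (1 - X ^ 2)
  set g1 := hp n (-X ^ 2 : R[X]) (1 - X ^ 2)
  set v1 : R[X] := (v n n : R[X]) * (-(1 - X) ^ 2) ^ n
  set v2 : R[X] := (v n n : R[X]) * (-X ^ 2) ^ n
  refine ⟨2 * (1 - X ^ 2) ^ 2 * K * v1 - 8 * X ^ 2 * G * v2, ?_⟩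
  have d4 : derivative (4 : R[X]) = 0 := derivative_ofNat 4
  have d2 : derivative (2 : R[X]) = 0 := derivative_ofNat 2
  simp only [derivative_sub, derivative_add, derivative_mul, derivative_neg, derivative_pow,
    derivative_X, derivative_one, d4, d2, Nat.cast_ofNat, map_ofNat] at e1 e2 e3 e4 ⊢
  rw [show C (p : R) = (p : R[X]) from map_natCast _ _, show C ((p : R) ^ 2) = (p : R[X]) ^ 2 by
    rw [map_pow, map_natCast], hp']
  rw [hp'] at o1 o2
  linear_combination (1 - X ^ 2) * (4 * X ^ 2 * g1 - (1 + X ^ 2) * K) * e1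
    + 2 * (1 - X ^ 2) ^ 3 * K * e2 - 2 * (1 - X ^ 2) ^ 2 * K * o1
    + 4 * X * (2 * (1 - X ^ 2) ^ 2 * h1 - (1 + X ^ 2) * G) * e3
    + 16 * X ^ 3 * G * e4 + 8 * X ^ 2 * G * o2

theorem w2_eval (n : ℕ) (x : R) : (w2 n).eval x =
    2 * (1 - x ^ 2) ^ 2 * hf n (-x ^ 2) (1 - x ^ 2) * hp n (-(1 - x) ^ 2) (4 * x)
    + 4 * x ^ 2 * hf n (-(1 - x) ^ 2) (4 * x) * hp n (-x ^ 2) (1 - x ^ 2)
    - (1 + x ^ 2) * hf n (-x ^ 2) (1 - x ^ 2) * hf n (-(1 - x) ^ 2) (4 * x) := by
  have h1 : ∀ P Q : R[X], (hf n P Q).eval x = hf n (P.eval x) (Q.eval x) :=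
    fun P Q => map_hf (evalRingHom x) n P Q
  have h2 : ∀ P Q : R[X], (hp n P Q).eval x = hp n (P.eval x) (Q.eval x) :=
    fun P Q => map_hp (evalRingHom x) n P Q
  unfold w2
  simp only [eval_add, eval_sub, eval_mul, eval_pow, eval_X, eval_one, eval_neg, h1, h2,
    eval_ofNat]

theorem w2_natDegree (n : ℕ) (hn : 1 ≤ n) : (w2 n : R[X]).natDegree ≤ 2 * (2 * n + 1) := by
  have dP1 : (-(1 - X) ^ 2 : R[X]).natDegree ≤ 2 := by compute_degree
  have dQ1 : (4 * X : R[X]).natDegree ≤ 2 := by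
    refine le_trans (b := 1) ?_ (by norm_num)
    compute_degree
  have dP2 : (-X ^ 2 : R[X]).natDegree ≤ 2 := by compute_degree
  have dQ2 : (1 - X ^ 2 : R[X]).natDegree ≤ 2 := by compute_degree
  have hK := hf_natDegree n 2 _ _ dP2 dQ2
  have hG := hf_natDegree n 2 _ _ dP1 dQ1
  have hh := hp_natDegree n 2 _ _ dP1 dQ1
  have hg := hp_natDegree n 2 _ _ dP2 dQ2
  unfold w2
  refine (natDegree_sub_le _ _).trans (max_le ((natDegree_add_le _ _).trans (max_le ?_ ?_)) ?_)
  · have h4 : (2 * (1 - X ^ 2) ^ 2 : R[X]).natDegree ≤ 4 := by compute_degree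
    refine natDegree_mul_le.trans ?_
    have h5 := (natDegree_mul_le (p := (2 * (1 - X ^ 2) ^ 2 : R[X]))
      (q := hf n (-X ^ 2 : R[X]) (1 - X ^ 2)))
    omega
  · have h4 : (4 * X ^ 2 : R[X]).natDegree ≤ 2 := by compute_degree
    refine natDegree_mul_le.trans ?_
    have h5 := (natDegree_mul_le (p := (4 * X ^ 2 : R[X]))
      (q := hf n (-(1 - X) ^ 2 : R[X]) (4 * X)))
    omega
  · have h4 : (1 + X ^ 2 : R[X]).natDegree ≤ 2 := by compute_degree
    refine natDegree_mul_le.trans ?_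
    have h5 := (natDegree_mul_le (p := (1 + X ^ 2 : R[X]))
      (q := hf n (-X ^ 2 : R[X]) (1 - X ^ 2)))
    omega

end W2

section W2final
variable {R : Type*} [CommRing R] [IsDomain R] [CharZero R] {k : Type*} [Field k]
  (p : ℕ) [Fact p.Prime] [CharP k p] (π : R →+* k)
  (hker : ∀ x, π x = 0 → (p : R) ∣ x)
include hker

/-- Interpolation with points indexed by `Fin (N+1)`. -/
theorem interp' (w D1 D2 Z : R[X]) (N : ℕ) (hdeg : w.natDegree ≤ N * p)
    (hD : D1 * derivative w = C (p : R) * (D2 * w) + C ((p : R) ^ 2) * Z) (hD1 : D1.map π ≠ 0)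
    (x : Fin (N + 1) → R) (hx : ∀ i, (π (x i)) ^ p = π (x i))
    (hinj : Function.Injective (fun i => π (x i)))
    (E : k[X]) (hE : E.natDegree ≤ N)
    (hval : ∀ i, ∃ e : R, w.eval (x i) = (p : R) * e ∧ π e = E.eval (π (x i))) :
    ∃ w1 : R[X], w = C (p : R) * w1 ∧ w1.map π = expand k p E := by
  classical
  have hinjx : Function.Injective x := fun i j h => hinj (by simp only [h])
  apply interp p π hker w D1 D2 Z N hdeg hD hD1 (univ.image x)
  · intro y hy
    obtain ⟨i, _, rfl⟩ := mem_image.mp hy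
    exact hx i
  · intro y hy z hz hyz
    obtain ⟨i, _, rfl⟩ := mem_image.mp (mem_coe.mp hy)
    obtain ⟨j, _, rfl⟩ := mem_image.mp (mem_coe.mp hz)
    rw [hinj hyz]
  · rw [card_image_of_injective _ hinjx, card_univ, Fintype.card_fin]
    exact Nat.lt_succ_self N
  · exact hE
  · intro y hy
    obtain ⟨i, _, rfl⟩ := mem_image.mp hy
    exact hval i

theorem w2_final (n : ℕ) (hn : p = 2 * n + 1) (h3 : 3 < p) :
    ∃ w1 : R[X], (w2 n : R[X]) = C (p : R) * w1
      ∧ w1.map π = expand k p (C (-(-1) ^ n) * (1 + X ^ 2)) := by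
  obtain ⟨Z, hZ⟩ := w2_ode (R := R) p n hn
  have n2 : (2 : k) ≠ 0 := by exact_mod_cast cast_ne (k := k) p 2 (by norm_num) (by omega)
  have n4 : (4 : k) ≠ 0 := by
    rw [show (4 : k) = 2 * 2 by norm_num]
    exact mul_ne_zero n2 n2
  have hodd : Odd p := ⟨n, hn⟩
  have hvn := vn_mod (k := k) p n hn h3
  have hv0 := v0_mod (k := k) p n hn h3
  have h4n := four_pow (k := k) p n hn h3
  have h16n := sixteen_pow (k := k) p n hn h3
  have hvs := vsum_mod (k := k) p n hn h3
  have hpR : (p : R) = 2 * n + 1 := by rw [hn]; push_cast; ring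
  obtain ⟨j, rfl⟩ : ∃ j, n = j + 1 := ⟨n - 1, by omega⟩
  apply interp' p π hker (w2 (j + 1)) (4 * X * (1 - X ^ 2)) (2 * (1 - 3 * X ^ 2)) Z 2
    (by have := w2_natDegree (R := R) (j + 1) (by omega); omega) hZ
    (by
      rw [Polynomial.map_mul, Polynomial.map_mul, map_X, Polynomial.map_sub, Polynomial.map_pow,
        Polynomial.map_one, map_X, Polynomial.map_ofNat]
      refine mul_ne_zero (mul_ne_zero ?_ X_ne_zero) ?_
      · rw [show (4 : k[X]) = C 4 from (map_ofNat _ 4).symm]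
        rw [Ne, C_eq_zero]
        exact n4
      · intro h
        have := congrArg (fun q : k[X] => q.coeff 0) h
        simp at this)
    ![0, 1, -1]
  · intro i
    fin_cases i
    · simp [(Fact.out : p.Prime).ne_zero]
    · simp
    · simp [hodd.neg_one_pow]
  · intro i l hil
    fin_cases i <;> fin_cases l <;> simp at hil ⊢
    · exact n2 (by linear_combination hil)
    · exact n2 (by linear_combination -hil)
  · compute_degree
  · intro i
    fin_cases i
    · refine ⟨-((v (j + 1) 0 : R) * (v (j + 1) (j + 1) : R) * (-1) ^ (j + 1)), ?_, ?_⟩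
      · show (w2 (j + 1)).eval 0 = _
        rw [w2_eval]
        rw [show (-(1 - 0) ^ 2 : R) = -1 by ring, show (4 * 0 : R) = 0 by ring,
          show (-0 ^ 2 : R) = 0 by ring, show (1 - 0 ^ 2 : R) = 1 by ring, hf_Q0, hp_Q0, hf_P0,
          Nat.add_sub_cancel, hpR]
        push_cast
        ring
      · show π _ = eval (π 0) _
        rw [map_neg, map_mul, map_mul, map_natCast, map_natCast, hvn, hv0, map_pow, map_neg, map_one,
          map_zero, eval_mul, eval_C]
        simp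
    · refine ⟨-(2 * (v (j + 1) 0 : R) * 4 ^ (j + 1) * (v (j + 1) (j + 1) : R) * (-1) ^ (j + 1)),
        ?_, ?_⟩
      · show (w2 (j + 1)).eval 1 = _
        rw [w2_eval]
        rw [show (-(1 - 1) ^ 2 : R) = 0 by ring, show (4 * 1 : R) = 4 by ring,
          show (-1 ^ 2 : R) = -1 by ring, show (1 - 1 ^ 2 : R) = 0 by ring, hf_Q0, hp_Q0, hf_P0,
          Nat.add_sub_cancel, hpR]
        push_cast
        ring
      · show π _ = eval (π 1) _
        simp only [map_neg, map_mul, map_natCast, map_ofNat, hvn, hv0, map_pow, map_one, h4n,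
          eval_mul, eval_add, eval_pow, eval_X, eval_one, eval_neg]
        ring
    · refine ⟨-(2 * ((-4) ^ (j + 1) * ∑ m ∈ range (j + 1 + 1), (v (j + 1) m : R))
        * (v (j + 1) (j + 1) : R) * (-1) ^ (j + 1)), ?_, ?_⟩
      · show (w2 (j + 1)).eval (-1) = _
        rw [w2_eval]
        rw [show (-(1 - -1) ^ 2 : R) = -4 by ring, show (4 * -1 : R) = -4 by ring,
          show (-(-1) ^ 2 : R) = -1 by ring, show (1 - (-1) ^ 2 : R) = 0 by ring, hf_Q0, hp_Q0,
          hf_QQ, Nat.add_sub_cancel, hpR]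
        push_cast
        ring
      · show π _ = eval (π (-1)) _
        simp only [map_neg, map_mul, map_natCast, map_ofNat, hvn, map_sum, hvs, map_pow, map_one,
          eval_mul, eval_add, eval_pow, eval_X, eval_one, eval_neg]
        have : ((-4 : k)) ^ (j + 1) * (-4) ^ (j + 1) = 1 := by
          rw [← mul_pow, show ((-4 : k) * -4) = 16 by norm_num, h16n]
        rw [this]
        ring

end W2final

end Pool.Agent.H37.Sun
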