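import Mathlib
import Pool.Agent.H37.Sun.Cv1

/-! Symmetry of the rational function of an isogeny under `X ↦ 1/X`. -/

namespace Pool.Agent.H37.Sun

open Polynomial

section refl
variable {K : Type*} [Field K]

theorem reflect_theta (h : ℕ) (f : K[X]) (hf : f.natDegree ≤ h) :
    reflect h (X * derivative f) = C (h : K) * reflect h f - X * derivative (reflect h f) := by
  have key : ∀ (g : K[X]) (i : ℕ), (X * derivative g).coeff i = (i : K) * g.coeff i := by
    intro g i
    rcases i with _ | i
    · simp
    · rw [coeff_X_mul, coeff_derivative]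
      push_cast
      ring
  ext i
  rw [coeff_reflect, key, coeff_sub, coeff_C_mul, key, coeff_reflect]
  by_cases hi : i ≤ h
  · rw [revAt_le hi]
    push_cast [Nat.cast_sub hi]
    ring
  · have h1 : revAt h i = i := revAt_eq_self_of_lt (by omega)
    rw [h1, coeff_eq_zero_of_natDegree_lt (show f.natDegree < i by omega)]
    ring

theorem theta_natDegree (h : ℕ) (f : K[X]) (hf : f.natDegree ≤ h) :
    (X * derivative f).natDegree ≤ h := by
  rw [natDegree_le_iff_coeff_eq_zero]
  intro i hi
  rcases i with _ | i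
  · simp
  · rw [coeff_X_mul, coeff_derivative, coeff_eq_zero_of_natDegree_lt (show f.natDegree < i + 1 by omega)]
    ring

theorem reflect_X2 : reflect 2 (X : K[X]) = X := by
  have := reflect_monomial (R := K) 2 1
  rwa [pow_one, show revAt 2 1 = 1 from by rw [revAt_le (by norm_num)], pow_one] at this

/-- reflecting the differential equation -/
theorem reflect_ode (z z' c : K) (h : ℕ) (N D : K[X]) (hN : N.natDegree ≤ h) (hD : D.natDegree ≤ h)
    (e : (1 - C (2 * z) * X + X ^ 2) * ((X * derivative N * D - N * (X * derivative D))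
        * (X * derivative N * D - N * (X * derivative D)))
      = (C (c ^ 2) * X) * ((N * D) * (D * D - C (2 * z') * (N * D) + N * N))) :
    (1 - C (2 * z) * X + X ^ 2) * ((X * derivative (reflect h D) * reflect h N
        - reflect h D * (X * derivative (reflect h N)))
        * (X * derivative (reflect h D) * reflect h N
        - reflect h D * (X * derivative (reflect h N))))
      = (C (c ^ 2) * X) * ((reflect h D * reflect h N) * (reflect h N * reflect h N
        - C (2 * z') * (reflect h D * reflect h N) + reflect h D * reflect h D)) := by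
  have tN := theta_natDegree h N hN
  have tD := theta_natDegree h D hD
  have dW : (X * derivative N * D - N * (X * derivative D)).natDegree ≤ h + h :=
    (natDegree_sub_le _ _).trans (max_le (natDegree_mul_le.trans (add_le_add tN hD))
      (natDegree_mul_le.trans (add_le_add hN tD)))
  have dND : (N * D).natDegree ≤ h + h := natDegree_mul_le.trans (add_le_add hN hD)
  have dDD : (D * D).natDegree ≤ h + h := natDegree_mul_le.trans (add_le_add hD hD)
  have dNN : (N * N).natDegree ≤ h + h := natDegree_mul_le.trans (add_le_add hN hN)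
  have dQ : (D * D - C (2 * z') * (N * D) + N * N).natDegree ≤ h + h :=
    (natDegree_add_le _ _).trans (max_le ((natDegree_sub_le _ _).trans (max_le dDD
      ((natDegree_C_mul_le _ _).trans dND))) dNN)
  have dΔ : (1 - C (2 * z) * X + X ^ 2 : K[X]).natDegree ≤ 2 := by
    rw [show (1 - C (2 * z) * X + X ^ 2 : K[X]) = C 1 * X ^ 2 + C (-(2 * z)) * X + C 1 by
      rw [C_1, C_neg]; ring]
    exact natDegree_quadratic_le
  have dX : (C (c ^ 2) * X : K[X]).natDegree ≤ 2 :=
    (natDegree_C_mul_le _ _).trans (natDegree_X_le.trans (by norm_num))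
  have dWW : ((X * derivative N * D - N * (X * derivative D))
        * (X * derivative N * D - N * (X * derivative D))).natDegree ≤ (h + h) + (h + h) :=
    natDegree_mul_le.trans (add_le_add dW dW)
  have dR : ((N * D) * (D * D - C (2 * z') * (N * D) + N * N)).natDegree ≤ (h + h) + (h + h) :=
    natDegree_mul_le.trans (add_le_add dND dQ)
  have e2 := congrArg (reflect (2 + ((h + h) + (h + h)))) e
  rw [reflect_mul _ _ dΔ dWW, reflect_mul _ _ dX dR, reflect_mul _ _ dW dW, reflect_mul _ _ dND dQ,
    reflect_sub, reflect_mul _ _ tN hD, reflect_mul _ _ hN tD, reflect_theta h N hN,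
    reflect_theta h D hD, reflect_C_mul, reflect_X2, reflect_add (D * D - C (2 * z') * (N * D)),
    reflect_sub (D * D), reflect_C_mul, reflect_mul _ _ hN hD, reflect_mul _ _ hD hD,
    reflect_mul _ _ hN hN] at e2
  have eΔ : reflect 2 (1 - C (2 * z) * X + X ^ 2 : K[X]) = 1 - C (2 * z) * X + X ^ 2 := by
    rw [reflect_add, reflect_sub, reflect_C_mul, reflect_X2]
    have h1 : reflect 2 (1 : K[X]) = X ^ 2 := by
      have := reflect_monomial (R := K) 2 0
      rwa [pow_zero, show revAt 2 0 = 2 from by rw [revAt_le (by norm_num)]] at this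
    have h2 : reflect 2 (X ^ 2 : K[X]) = 1 := by
      have := reflect_monomial (R := K) 2 2
      rwa [show revAt 2 2 = 0 from by rw [revAt_le (by norm_num)], pow_zero] at this
    rw [h1, h2]
    ring
  rw [eΔ] at e2
  linear_combination e2

end refl

section uniq
variable {K : Type*} [Field K] [CharZero K]

omit [CharZero K] in
/-- first coefficient of a nonzero solution -/
theorem sol_first (z z' c : K) (hc : c ≠ 0) (S : PowerSeries K) (hS0 : PowerSeries.constantCoeff S = 0)
    (hS : S ≠ 0)
    (e : (1 - 2 * PowerSeries.C z * PowerSeries.X + PowerSeries.X ^ 2) * (PowerSeries.X * dT S) ^ 2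
      = PowerSeries.C (c ^ 2) * PowerSeries.X * (S * (1 - 2 * PowerSeries.C z' * S + S ^ 2))) :
    ∃ U : PowerSeries K, S = PowerSeries.X * U ∧ PowerSeries.constantCoeff U = c ^ 2 := by
  obtain ⟨u, hu⟩ := PowerSeries.X_pow_order_dvd (φ := S)
  have hne := PowerSeries.coeff_order hS
  set m := S.order.toNat with hm
  have hu0 : PowerSeries.constantCoeff u ≠ 0 := by
    intro h0
    apply hne
    rw [hu, PowerSeries.coeff_X_pow_mul', if_pos le_rfl, Nat.sub_self,
      PowerSeries.coeff_zero_eq_constantCoeff_apply, h0]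
  have hm0 : m ≠ 0 := by
    intro h0
    rw [h0, pow_zero, one_mul] at hu
    rw [hu] at hS0
    exact hu0 hS0
  obtain ⟨l, hl⟩ : ∃ l, m = l + 1 := ⟨m - 1, by omega⟩
  rw [hl] at hu
  have hXd : PowerSeries.X * dT S = PowerSeries.X ^ (l + 1) * (((l : PowerSeries K) + 1) * u + PowerSeries.X * dT u) := by
    have hp : dT (PowerSeries.X ^ (l + 1) : PowerSeries K) = ((l : PowerSeries K) + 1) * PowerSeries.X ^ l := by
      unfold dT
      rw [PowerSeries.derivative_pow, PowerSeries.derivative_X, mul_one]
      push_cast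
      simp
    rw [hu, dT_mul, hp, pow_succ]
    ring
  rw [hXd, hu] at e
  have e2 : PowerSeries.X ^ (l + 2) * ((1 - 2 * PowerSeries.C z * PowerSeries.X + PowerSeries.X ^ 2)
      * (PowerSeries.X ^ l * (((l : PowerSeries K) + 1) * u + PowerSeries.X * dT u) ^ 2))
      = PowerSeries.X ^ (l + 2) * (PowerSeries.C (c ^ 2) * (u * (1 - 2 * PowerSeries.C z' *
        (PowerSeries.X ^ (l + 1) * u) + (PowerSeries.X ^ (l + 1) * u) ^ 2))) := by
    have h1 : (PowerSeries.X : PowerSeries K) ^ (l + 2) = PowerSeries.X * PowerSeries.X * PowerSeries.X ^ l := by ring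
    rw [pow_succ] at e
    rw [h1, pow_succ]
    linear_combination e
  have e3 := mul_left_cancel₀ (pow_ne_zero _ (PowerSeries.X_ne_zero (R := K))) e2
  have e4 := congrArg PowerSeries.constantCoeff e3
  rcases l with _ | l
  · simp only [Nat.cast_zero, zero_add, pow_zero, one_mul, pow_one] at e4
    simp only [map_mul, map_add, map_sub, map_pow, PowerSeries.constantCoeff_X, map_one,
      PowerSeries.constantCoeff_C, map_ofNat, zero_mul, mul_zero, add_zero, one_mul, sub_zero,
      mul_one, ne_eq, OfNat.ofNat_ne_zero, not_false_eq_true, zero_pow] at e4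
    refine ⟨u, by rw [hu]; ring, ?_⟩
    exact mul_right_cancel₀ hu0 (by linear_combination e4)
  · exfalso
    simp only [map_mul, map_add, map_sub, map_pow, PowerSeries.constantCoeff_X, map_one,
      PowerSeries.constantCoeff_C, map_ofNat, zero_mul, mul_zero, add_zero, one_mul, sub_zero,
      mul_one, ne_eq, OfNat.ofNat_ne_zero, not_false_eq_true, zero_pow, Nat.add_eq_zero_iff,
      one_ne_zero, and_false] at e4
    exact mul_ne_zero (pow_ne_zero 2 hc) hu0 e4.symm

theorem sol_unique' (z z' c : K) (hc : c ≠ 0) (U V : PowerSeries K)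
    (hU0 : PowerSeries.constantCoeff U = c ^ 2) (hV0 : PowerSeries.constantCoeff V = c ^ 2)
    (eU : (1 - 2 * PowerSeries.C z * PowerSeries.X + PowerSeries.X ^ 2) * (U + PowerSeries.X * dT U) ^ 2
      = PowerSeries.C (c ^ 2) * (U * (1 - 2 * PowerSeries.C z' * (PowerSeries.X * U) + (PowerSeries.X * U) ^ 2)))
    (eV : (1 - 2 * PowerSeries.C z * PowerSeries.X + PowerSeries.X ^ 2) * (V + PowerSeries.X * dT V) ^ 2
      = PowerSeries.C (c ^ 2) * (V * (1 - 2 * PowerSeries.C z' * (PowerSeries.X * V) + (PowerSeries.X * V) ^ 2))) :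
    U = V := by
  have key : ∀ m : ℕ, PowerSeries.X ^ (m + 1) ∣ U - V := by
    intro m
    induction m with
    | zero =>
      rw [zero_add, pow_one, PowerSeries.X_dvd_iff, map_sub, hU0, hV0, sub_self]
    | succ m ih =>
      obtain ⟨ε, hε⟩ := ih
      have hd : dT (PowerSeries.X ^ (m + 1) * ε) = ((m : PowerSeries K) + 1) * PowerSeries.X ^ m * ε
          + PowerSeries.X ^ (m + 1) * dT ε := by
        have hp : dT (PowerSeries.X ^ (m + 1) : PowerSeries K) = ((m : PowerSeries K) + 1) * PowerSeries.X ^ m := by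
          unfold dT
          rw [PowerSeries.derivative_pow, PowerSeries.derivative_X, mul_one]
          push_cast
          simp
        rw [dT_mul, hp]
      have hd2 : dT U - dT V = ((m : PowerSeries K) + 1) * PowerSeries.X ^ m * ε
          + PowerSeries.X ^ (m + 1) * dT ε := by
        rw [← dT_sub, hε, hd]
      have h4 : PowerSeries.X ^ (m + 1) * ((1 - 2 * PowerSeries.C z * PowerSeries.X + PowerSeries.X ^ 2)
          * ((((m : PowerSeries K) + 2) * ε + PowerSeries.X * dT ε)
            * (U + PowerSeries.X * dT U + (V + PowerSeries.X * dT V))))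
          = PowerSeries.X ^ (m + 1) * (PowerSeries.C (c ^ 2) * (ε * (1 - 2 * PowerSeries.C z' *
            (PowerSeries.X * (U + V)) + PowerSeries.X ^ 2 * (U ^ 2 + U * V + V ^ 2)))) := by
        have h5 : (U + PowerSeries.X * dT U) - (V + PowerSeries.X * dT V)
            = PowerSeries.X ^ (m + 1) * (((m : PowerSeries K) + 2) * ε + PowerSeries.X * dT ε) := by
          linear_combination hε + PowerSeries.X * hd2
        linear_combination eU - eV - (1 - 2 * PowerSeries.C z * PowerSeries.X + PowerSeries.X ^ 2)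
          * (U + PowerSeries.X * dT U + (V + PowerSeries.X * dT V)) * h5
          + PowerSeries.C (c ^ 2) * (1 - 2 * PowerSeries.C z' *
            (PowerSeries.X * (U + V)) + PowerSeries.X ^ 2 * (U ^ 2 + U * V + V ^ 2)) * hε
      have h5 := mul_left_cancel₀ (pow_ne_zero _ (PowerSeries.X_ne_zero (R := K))) h4
      have h6 := congrArg PowerSeries.constantCoeff h5
      simp only [map_mul, map_add, map_sub, map_pow, PowerSeries.constantCoeff_X, map_one, map_natCast,
        PowerSeries.constantCoeff_C, map_ofNat, zero_mul, mul_zero, add_zero, one_mul, sub_zero,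
        mul_one, ne_eq, OfNat.ofNat_ne_zero, not_false_eq_true, zero_pow, hU0, hV0] at h6
      have h7 : (2 * (m : K) + 3) * c ^ 2 ≠ 0 := by
        refine mul_ne_zero ?_ (pow_ne_zero 2 hc)
        have : (2 * (m : K) + 3) = ((2 * m + 3 : ℕ) : K) := by push_cast; ring
        rw [this]
        exact_mod_cast Nat.succ_ne_zero (2 * m + 2)
      have h8 : (2 * (m : K) + 3) * c ^ 2 * PowerSeries.constantCoeff ε = 0 := by
        linear_combination h6
      have h9 := (mul_eq_zero.mp h8).resolve_left h7
      rw [hε, pow_succ (PowerSeries.X) (m + 1)]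
      exact mul_dvd_mul_left _ (PowerSeries.X_dvd_iff.mpr h9)
  have : U - V = 0 := by
    ext m
    have := PowerSeries.X_pow_dvd_iff.mp (key m) m (Nat.lt_succ_self m)
    rw [this, map_zero]
  exact sub_eq_zero.mp this

/-- the symmetry -/
theorem symm {z z' c : K} {τ ρ σ : PowerSeries K}
    (hτ : τ ^ 2 = 1 - 2 * PowerSeries.C z * PowerSeries.X + PowerSeries.X ^ 2)
    (hτ0 : PowerSeries.constantCoeff τ = 1)
    (P : Pt τ z' c ρ σ) (hc : c ≠ 0) {N D : K[X]} {h : ℕ} (cop : IsCoprime N D)
    (hN : (N : PowerSeries K) = PowerSeries.X * ρ ^ 2 * (D : PowerSeries K))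
    (hNd : N.natDegree = h) (hNh : N.coeff h ≠ 0) (hDd : D.natDegree ≤ h) (hDh : D.coeff h = 0) :
    ∃ μ : K, μ ^ 2 = 1 ∧ ∀ i, i ≤ h → N.coeff i = μ * D.coeff (h - i) := by
  have hcoe2 : ((2 : K[X]) : PowerSeries K) = 2 := map_ofNat (Polynomial.coeToPowerSeries.ringHom) 2
  have cd : ∀ f : K[X], ((derivative f : K[X]) : PowerSeries K) = dT (f : PowerSeries K) := by
    intro f
    exact (PowerSeries.derivative_coe f).symm
  -- the polynomial equation
  have e0 : (1 - C (2 * z) * X + X ^ 2) * ((X * derivative N * D - N * (X * derivative D))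
        * (X * derivative N * D - N * (X * derivative D)))
      = (C (c ^ 2) * X) * ((N * D) * (D * D - C (2 * z') * (N * D) + N * N)) := by
    apply Polynomial.coe_injective K
    have a1 := P.e1
    have h2 := P.ds
    simp only [Polynomial.coe_add, Polynomial.coe_sub, Polynomial.coe_mul, Polynomial.coe_pow,
      Polynomial.coe_X, Polynomial.coe_C, Polynomial.coe_one, cd, map_mul, map_ofNat, map_pow, hcoe2]
    have h3 : dT (N : PowerSeries K) = dT (PowerSeries.X * ρ ^ 2) * (D : PowerSeries K)
        + PowerSeries.X * ρ ^ 2 * dT (D : PowerSeries K) := by rw [hN, dT_mul]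
    have h4 : PowerSeries.X * dT (N : PowerSeries K) * (D : PowerSeries K)
        - (N : PowerSeries K) * (PowerSeries.X * dT (D : PowerSeries K))
        = (D : PowerSeries K) ^ 2 * (PowerSeries.X * dT (PowerSeries.X * ρ ^ 2)) := by
      rw [h3]
      linear_combination -(PowerSeries.X * dT (D : PowerSeries K)) * hN
    rw [h4, hN]
    have hτ' : (1 - 2 * PowerSeries.C z * PowerSeries.X + PowerSeries.X ^ 2) = τ ^ 2 := hτ.symm
    rw [hτ']
    linear_combination (PowerSeries.X ^ 2 * (D : PowerSeries K) ^ 4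
        * (τ * dT (PowerSeries.X * ρ ^ 2) + PowerSeries.C c * (ρ * σ))) * h2
      + (PowerSeries.X ^ 2 * (D : PowerSeries K) ^ 4 * PowerSeries.C c ^ 2 * ρ ^ 2) * a1
  have e1 := reflect_ode z z' c h N D (by omega) hDd e0
  set N' := reflect h N with hN'
  set D' := reflect h D with hD'
  have rc : ∀ (f : K[X]) (i : ℕ), i ≤ h → (reflect h f).coeff i = f.coeff (h - i) := by
    intro f i hi
    rw [coeff_reflect, revAt_le hi]
  have n0 : N.coeff 0 = 0 := by
    have := congrArg (PowerSeries.coeff 0) hN
    simpa using this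
  have d0 : D.coeff 0 ≠ 0 := by
    intro h1
    obtain ⟨a, b, hab⟩ := cop
    have := congrArg (fun q : K[X] => q.coeff 0) hab
    simp [mul_coeff_zero, n0, h1] at this
  have N'0 : N'.coeff 0 ≠ 0 := by
    rw [hN', rc _ _ (Nat.zero_le h), Nat.sub_zero]
    exact hNh
  have D'0 : D'.coeff 0 = 0 := by
    rw [hD', rc _ _ (Nat.zero_le h), Nat.sub_zero]
    exact hDh
  have D'ne : D' ≠ 0 := by
    intro h0
    have := congrArg (fun q : K[X] => q.coeff h) h0
    simp only [coeff_zero] at this
    rw [hD', rc _ _ le_rfl, Nat.sub_self] at this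
    exact d0 this
  have hu : IsUnit (N' : PowerSeries K) := by
    rw [PowerSeries.isUnit_iff_constantCoeff, ← PowerSeries.coeff_zero_eq_constantCoeff_apply,
      Polynomial.coeff_coe]
    exact isUnit_iff_ne_zero.mpr N'0
  obtain ⟨I, hI⟩ := hu.exists_right_inv
  have hdI : dT I = - dT (N' : PowerSeries K) * I ^ 2 := by
    have h3 := congrArg dT hI
    rw [dT_mul, dT_one] at h3
    linear_combination I * h3 - dT I * hI
  -- the second solution
  have e2 := congrArg (fun q : K[X] => (q : PowerSeries K)) e1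
  simp only [Polynomial.coe_add, Polynomial.coe_sub, Polynomial.coe_mul, Polynomial.coe_pow,
      Polynomial.coe_X, Polynomial.coe_C, Polynomial.coe_one, cd, map_mul, map_ofNat, map_pow, hcoe2] at e2
  have s1 : (1 - 2 * PowerSeries.C z * PowerSeries.X + PowerSeries.X ^ 2)
      * (PowerSeries.X * dT ((D' : PowerSeries K) * I)) ^ 2
      = PowerSeries.C (c ^ 2) * PowerSeries.X * (((D' : PowerSeries K) * I)
        * (1 - 2 * PowerSeries.C z' * ((D' : PowerSeries K) * I) + ((D' : PowerSeries K) * I) ^ 2)) := by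
    have h5 : PowerSeries.X * dT ((D' : PowerSeries K) * I) = (PowerSeries.X * dT (D' : PowerSeries K)
        * (N' : PowerSeries K) - (D' : PowerSeries K) * (PowerSeries.X * dT (N' : PowerSeries K))) * I ^ 2 := by
      rw [dT_mul, hdI]
      linear_combination -(PowerSeries.X * dT (D' : PowerSeries K) * I) * hI
    rw [h5, map_pow]
    have h6 : ∀ a b q : PowerSeries K, q * I = 1 →
        PowerSeries.C c ^ 2 * PowerSeries.X * ((a * q)
          * (q * q - 2 * b * (a * q) + a * a)) * I ^ 4
        = PowerSeries.C c ^ 2 * PowerSeries.X * ((a * I) * (1 - 2 * b * (a * I) + (a * I) ^ 2)) := by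
      intro a b q hh
      calc PowerSeries.C c ^ 2 * PowerSeries.X * ((a * q)
          * (q * q - 2 * b * (a * q) + a * a)) * I ^ 4
          = PowerSeries.C c ^ 2 * PowerSeries.X * ((a * I) * ((q * I) ^ 3
            - 2 * b * (a * I) * (q * I) ^ 2
            + (a * I) ^ 2 * (q * I))) := by ring
        _ = _ := by rw [hh]; ring
    rw [← h6 _ _ _ hI]
    linear_combination I ^ 4 * e2
  -- first solution
  have s0 : (1 - 2 * PowerSeries.C z * PowerSeries.X + PowerSeries.X ^ 2)
      * (PowerSeries.X * dT (PowerSeries.X * ρ ^ 2)) ^ 2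
      = PowerSeries.C (c ^ 2) * PowerSeries.X * ((PowerSeries.X * ρ ^ 2)
        * (1 - 2 * PowerSeries.C z' * (PowerSeries.X * ρ ^ 2) + (PowerSeries.X * ρ ^ 2) ^ 2)) := by
    have a1 := P.e1
    have h2 := P.ds
    rw [← hτ, map_pow]
    linear_combination (PowerSeries.X ^ 2
        * (τ * dT (PowerSeries.X * ρ ^ 2) + PowerSeries.C c * (ρ * σ))) * h2
      + (PowerSeries.X ^ 2 * PowerSeries.C c ^ 2 * ρ ^ 2) * a1
  have ρ0 : PowerSeries.constantCoeff ρ = c := by
    have := congrArg PowerSeries.constantCoeff P.e2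
    simpa [hτ0, P.e4] using this
  have z0 : PowerSeries.constantCoeff (PowerSeries.X * ρ ^ 2) = 0 := by simp
  have z1 : PowerSeries.constantCoeff ((D' : PowerSeries K) * I) = 0 := by
    rw [map_mul, ← PowerSeries.coeff_zero_eq_constantCoeff_apply, Polynomial.coeff_coe, D'0, zero_mul]
  have y0 : PowerSeries.X * ρ ^ 2 ≠ 0 := by
    refine mul_ne_zero PowerSeries.X_ne_zero (pow_ne_zero 2 ?_)
    intro h0
    rw [h0, map_zero] at ρ0
    exact hc ρ0.symm
  have y1 : (D' : PowerSeries K) * I ≠ 0 := by
    intro h0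
    apply D'ne
    apply Polynomial.coe_injective K
    have : (D' : PowerSeries K) = (D' : PowerSeries K) * I * (N' : PowerSeries K) := by
      linear_combination -(D' : PowerSeries K) * hI
    rw [this, h0, zero_mul, Polynomial.coe_zero]
  obtain ⟨U, hU, hU0⟩ := sol_first z z' c hc _ z0 y0 s0
  obtain ⟨V, hV, hV0⟩ := sol_first z z' c hc _ z1 y1 s1
  have tr : ∀ W : PowerSeries K, (1 - 2 * PowerSeries.C z * PowerSeries.X + PowerSeries.X ^ 2)
      * (PowerSeries.X * dT (PowerSeries.X * W)) ^ 2
      = PowerSeries.C (c ^ 2) * PowerSeries.X * ((PowerSeries.X * W)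
        * (1 - 2 * PowerSeries.C z' * (PowerSeries.X * W) + (PowerSeries.X * W) ^ 2)) →
      (1 - 2 * PowerSeries.C z * PowerSeries.X + PowerSeries.X ^ 2) * (W + PowerSeries.X * dT W) ^ 2
      = PowerSeries.C (c ^ 2) * (W * (1 - 2 * PowerSeries.C z' * (PowerSeries.X * W)
        + (PowerSeries.X * W) ^ 2)) := by
    intro W hW
    rw [dT_mul, dT_X] at hW
    apply mul_left_cancel₀ (pow_ne_zero 2 (PowerSeries.X_ne_zero (R := K)))
    linear_combination hW
  have hUV := sol_unique' z z' c hc U V hU0 hV0 (tr U (by rw [← hU]; exact s0))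
    (tr V (by rw [← hV]; exact s1))
  have hNN : N * N' = D * D' := by
    apply Polynomial.coe_injective K
    rw [Polynomial.coe_mul, Polynomial.coe_mul, hN, hU, hUV, ← hV]
    linear_combination ((D : PowerSeries K) * (D' : PowerSeries K)) * hI
  have hdvd : N ∣ D' := cop.dvd_of_dvd_mul_left ⟨N', hNN.symm⟩
  obtain ⟨q, hq⟩ := hdvd
  have hN0 : N ≠ 0 := by
    intro h0
    apply hNh
    rw [h0, coeff_zero]
  have hq0 : q ≠ 0 := by
    intro h0
    apply D'ne
    rw [hq, h0, mul_zero]
  have hD'd : D'.natDegree ≤ h := by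
    rw [natDegree_le_iff_coeff_eq_zero]
    intro i hi
    rw [hD', coeff_reflect, revAt_eq_self_of_lt (by omega)]
    exact coeff_eq_zero_of_natDegree_lt (by omega)
  have hqd : q.natDegree = 0 := by
    rw [hq, natDegree_mul hN0 hq0, hNd] at hD'd
    omega
  obtain ⟨μ, hμ⟩ := natDegree_eq_zero.mp hqd
  rw [← hμ] at hq
  have hN'2 : N' = C μ * D := by
    apply mul_left_cancel₀ hN0
    rw [hNN, hq]
    ring
  have hμ2 : μ ^ 2 = 1 := by
    have h7 := congrArg (fun f : K[X] => (reflect h f).coeff h) hN'2
    simp only [reflect_C_mul, coeff_C_mul] at h7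
    rw [hN', coeff_reflect, coeff_reflect, revAt_invol, ← hD', hq, coeff_mul_C] at h7
    apply mul_right_cancel₀ hNh
    linear_combination -h7
  refine ⟨μ, hμ2, fun i hi => ?_⟩
  have h8 := congrArg (fun f : K[X] => f.coeff i) hq
  simp only [coeff_mul_C] at h8
  rw [hD', rc _ _ hi] at h8
  rw [h8]
  linear_combination -(N.coeff i) * hμ2

end uniq

end Pool.Agent.H37.Sun
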