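import Mathlib
import Pool.Agent.H37.Sun.Cv1

/-! Heights: algebra of the parallelogram law. -/

namespace Pool.Agent.H37.Sun

open Polynomial

section lemmas
variable {L : Type*} [Field L]

/-- no common zero, first triple -/
theorem triple1 (h2 : (2 : L) ≠ 0) {z' ν δ ν₁ δ₁ : L} (hz : z' ^ 2 ≠ 1) (h : ν ≠ 0 ∨ δ ≠ 0)
    (h₁ : ν₁ ≠ 0 ∨ δ₁ ≠ 0) (hC : δ * δ₁ - ν * ν₁ = 0) (hB : ν * δ₁ - ν₁ * δ = 0)
    (hA : 2 * ((ν * δ₁ + ν₁ * δ) * (δ * δ₁ + ν * ν₁) - 4 * z' * (ν * ν₁ * δ * δ₁)) = 0) : False := by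
  have hδ : δ ≠ 0 := by
    intro h0
    subst h0
    have hν : ν ≠ 0 := h.resolve_right (fun h => h rfl)
    have e1 : ν₁ = 0 := by
      have : ν * ν₁ = 0 := by linear_combination -hC
      exact (mul_eq_zero.mp this).resolve_left hν
    have e2 : δ₁ = 0 := by
      have : ν * δ₁ = 0 := by linear_combination hB
      exact (mul_eq_zero.mp this).resolve_left hν
    rcases h₁ with h₁ | h₁
    · exact h₁ e1
    · exact h₁ e2
  have hδ₁ : δ₁ ≠ 0 := by
    intro h0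
    subst h0
    have hν₁ : ν₁ ≠ 0 := h₁.resolve_right (fun h => h rfl)
    have e1 : ν₁ * δ = 0 := by linear_combination -hB
    exact (mul_ne_zero hν₁ hδ) e1
  have e3 : δ₁ * (ν ^ 2 - δ ^ 2) = 0 := by linear_combination ν * hB - δ * hC
  have e4 : ν ^ 2 = δ ^ 2 := sub_eq_zero.mp ((mul_eq_zero.mp e3).resolve_left hδ₁)
  have e5 : 2 * (2 * 2) * ((δ * δ₁) * (δ₁ * (ν - z' * δ))) = 0 := by
    linear_combination hA
      + (2 * ((ν * δ₁ + ν₁ * δ)) - 8 * z' * (δ * δ₁)) * hC + (4 * δ * δ₁) * hB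
  have h8 : (2 * (2 * 2) : L) ≠ 0 := mul_ne_zero h2 (mul_ne_zero h2 h2)
  have e6 : ν - z' * δ = 0 := by
    have := (mul_eq_zero.mp e5).resolve_left h8
    have := (mul_eq_zero.mp this).resolve_left (mul_ne_zero hδ hδ₁)
    exact (mul_eq_zero.mp this).resolve_left hδ₁
  have e7 : δ ^ 2 * (z' ^ 2 - 1) = 0 := by linear_combination e4 - (ν + z' * δ) * e6
  have := (mul_eq_zero.mp e7).resolve_left (pow_ne_zero 2 hδ)
  exact hz (sub_eq_zero.mp this)

/-- no common zero, second triple -/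
theorem triple2 {ν δ ν₁ δ₁ : L} (h : ν ≠ 0 ∨ δ ≠ 0) (h₁ : ν₁ ≠ 0 ∨ δ₁ ≠ 0)
    (hb : ν * ν₁ = 0) (hc : δ * δ₁ = 0) (ha : ν * δ₁ + ν₁ * δ = 0) : False := by
  rcases mul_eq_zero.mp hb with h0 | h0
  · have hδ : δ ≠ 0 := h.resolve_left (fun hh => hh h0)
    have e1 : δ₁ = 0 := (mul_eq_zero.mp hc).resolve_left hδ
    rw [h0, zero_mul, zero_add] at ha
    have e2 : ν₁ = 0 := (mul_eq_zero.mp ha).resolve_right hδ
    rcases h₁ with h₁ | h₁
    · exact h₁ e2
    · exact h₁ e1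
  · have hδ : δ₁ ≠ 0 := h₁.resolve_left (fun hh => hh h0)
    have e1 : δ = 0 := (mul_eq_zero.mp hc).resolve_right hδ
    rw [h0, zero_mul, add_zero] at ha
    have e2 : ν = 0 := (mul_eq_zero.mp ha).resolve_right hδ
    rcases h with h | h
    · exact h e2
    · exact h e1

end lemmas

section bezout
variable {K : Type*} [Field K]

/-- A triple of polynomials without common zero in any residue field generates the unit ideal. -/
theorem exists_bezout (a b c : K[X])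
    (h : ∀ M : Ideal K[X], M.IsMaximal → ¬ (a ∈ M ∧ b ∈ M ∧ c ∈ M)) :
    ∃ α β γ : K[X], α * a + β * b + γ * c = 1 := by
  have htop : Ideal.span ({a, b, c} : Set K[X]) = ⊤ := by
    by_contra hne
    obtain ⟨M, hM, hle⟩ := Ideal.exists_le_maximal _ hne
    apply h M hM
    refine ⟨hle (Ideal.subset_span ?_), hle (Ideal.subset_span ?_), hle (Ideal.subset_span ?_)⟩
    · simp
    · simp
    · simp
  have h1 : (1 : K[X]) ∈ Ideal.span ({a, b, c} : Set K[X]) := by rw [htop]; trivial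
  rw [Ideal.mem_span_insert] at h1
  obtain ⟨α, y, hy, e⟩ := h1
  rw [Ideal.mem_span_pair] at hy
  obtain ⟨β, γ, hβ⟩ := hy
  exact ⟨α, β, γ, by rw [e, ← hβ]; ring⟩

theorem coprime_residue {n d : K[X]} (h : IsCoprime n d) (M : Ideal K[X]) (hM : M.IsMaximal) :
    Ideal.Quotient.mk M n ≠ 0 ∨ Ideal.Quotient.mk M d ≠ 0 := by
  by_contra hc
  push Not at hc
  obtain ⟨h1, h2⟩ := hc
  rw [Ideal.Quotient.eq_zero_iff_mem] at h1 h2
  obtain ⟨a, b, hab⟩ := h
  apply hM.ne_top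
  rw [Ideal.eq_top_iff_one, ← hab]
  exact M.add_mem (M.mul_mem_left _ h1) (M.mul_mem_left _ h2)

/-- Two proportional triples, both generating the unit ideal, differ by a constant. -/
theorem proportional {a b c A B C : K[X]} (hC : C ≠ 0)
    (h : ∃ α β γ : K[X], α * a + β * b + γ * c = 1)
    (H : ∃ α β γ : K[X], α * A + β * B + γ * C = 1)
    (e1 : b * C = B * c) (e2 : a * C = A * c) :
    ∃ l : K, l ≠ 0 ∧ a = Polynomial.C l * A ∧ b = Polynomial.C l * B ∧ c = Polynomial.C l * C := by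
  obtain ⟨α, β, γ, h⟩ := h
  obtain ⟨α', β', γ', H⟩ := H
  set ζ := α' * a + β' * b + γ' * c with hζ
  have hc : c = C * ζ := by
    rw [hζ]
    linear_combination -c * H - α' * e2 - β' * e1
  have hCc : C = c * (α * A + β * B + γ * C) := by
    linear_combination -C * h + α * e2 + β * e1
  have hu : IsUnit ζ := by
    refine IsUnit.of_mul_eq_one (α * A + β * B + γ * C) ?_
    apply mul_left_cancel₀ hC
    rw [← mul_assoc, ← hc, ← hCc, mul_one]
  obtain ⟨l, hl, hl2⟩ := Polynomial.isUnit_iff.mp hu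
  refine ⟨l, hl.ne_zero, ?_, ?_, ?_⟩
  · rw [hl2]
    apply mul_right_cancel₀ hC
    rw [e2, hc]; ring
  · rw [hl2]
    apply mul_right_cancel₀ hC
    rw [e1, hc]; ring
  · rw [hl2, hc]; ring

end bezout

end Pool.Agent.H37.Sun
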