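import Mathlib
import Pool.Agent.H37.Sun.Cv2

/-! Heights of points and the parallelogram law. -/

namespace Pool.Agent.H37.Sun

open Polynomial

section lead
variable {K : Type*} [Field K]

/-- degree at most `m`, with given coefficient at `m` -/
def LD (f : K[X]) (m : ℕ) (a : K) : Prop := f.natDegree ≤ m ∧ f.coeff m = a

theorem LD.mul {f g : K[X]} {m l : ℕ} {a b : K} (hf : LD f m a) (hg : LD g l b) :
    LD (f * g) (m + l) (a * b) :=
  ⟨natDegree_mul_le.trans (add_le_add hf.1 hg.1), by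
    rw [coeff_mul_add_eq_of_natDegree_le hf.1 hg.1, hf.2, hg.2]⟩

theorem LD.add {f g : K[X]} {m : ℕ} {a b : K} (hf : LD f m a) (hg : LD g m b) :
    LD (f + g) m (a + b) :=
  ⟨(natDegree_add_le _ _).trans (max_le hf.1 hg.1), by rw [coeff_add, hf.2, hg.2]⟩

theorem LD.sub {f g : K[X]} {m : ℕ} {a b : K} (hf : LD f m a) (hg : LD g m b) :
    LD (f - g) m (a - b) :=
  ⟨(natDegree_sub_le _ _).trans (max_le hf.1 hg.1), by rw [coeff_sub, hf.2, hg.2]⟩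

theorem LD.C_mul {f : K[X]} {m : ℕ} {a : K} (r : K) (hf : LD f m a) : LD (C r * f) m (r * a) :=
  ⟨(natDegree_C_mul_le _ _).trans hf.1, by rw [coeff_C_mul, hf.2]⟩

theorem LD.of_eq {f g : K[X]} {m l : ℕ} {a b : K} (hf : LD f m a) (h1 : f = g) (h2 : m = l)
    (h3 : a = b) : LD g l b := by subst h1 h2 h3; exact hf

theorem exists_lead (n d : K[X]) (h : IsCoprime n d) :
    ∃ (m : ℕ) (ν δ : K), LD n m ν ∧ LD d m δ ∧ (ν ≠ 0 ∨ δ ≠ 0) := by
  refine ⟨max n.natDegree d.natDegree, _, _, ⟨le_max_left _ _, rfl⟩, ⟨le_max_right _ _, rfl⟩, ?_⟩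
  by_cases hn : n = 0
  · subst hn
    right
    rw [natDegree_zero, Nat.max_eq_right (Nat.zero_le _)]
    have hd : d ≠ 0 := by
      intro h0
      subst h0
      exact not_isCoprime_zero_zero h
    exact leadingCoeff_ne_zero.mpr hd
  · rcases le_total d.natDegree n.natDegree with hle | hle
    · left
      rw [max_eq_left hle]
      exact leadingCoeff_ne_zero.mpr hn
    · rcases eq_or_ne d 0 with hd | hd
      · left
        subst hd
        rw [natDegree_zero, Nat.max_eq_left (Nat.zero_le _)]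
        exact leadingCoeff_ne_zero.mpr hn
      · right
        rw [max_eq_right hle]
        exact leadingCoeff_ne_zero.mpr hd

theorem reduce (M C : K[X]) (s : PowerSeries K) (hC : C ≠ 0)
    (h : (M : PowerSeries K) = s * (C : PowerSeries K)) :
    ∃ n d : K[X], IsCoprime n d ∧ (n : PowerSeries K) = s * (d : PowerSeries K) := by
  classical
  obtain ⟨n, hn⟩ := EuclideanDomain.gcd_dvd_left M C
  obtain ⟨d, hd⟩ := EuclideanDomain.gcd_dvd_right M C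
  have hg : EuclideanDomain.gcd M C ≠ 0 := by
    intro h0
    rw [h0, zero_mul] at hd
    exact hC hd
  have hb := EuclideanDomain.gcd_eq_gcd_ab M C
  set g := EuclideanDomain.gcd M C
  refine ⟨n, d, ⟨EuclideanDomain.gcdA M C, EuclideanDomain.gcdB M C, ?_⟩, ?_⟩
  · apply mul_left_cancel₀ hg
    nth_rewrite 1 [hn] at hb
    nth_rewrite 2 [hd] at hb
    linear_combination -hb
  · have hg' : (g : PowerSeries K) ≠ 0 := by
      rw [Ne, Polynomial.coe_eq_zero_iff]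
      exact hg
    apply mul_left_cancel₀ hg'
    rw [hn, hd, Polynomial.coe_mul, Polynomial.coe_mul] at h
    linear_combination h

theorem LD.unique {f : K[X]} {m : ℕ} {a b : K} (h1 : LD f m a) (h2 : LD f m b) : a = b := by
  rw [← h1.2, h2.2]

theorem LD.zero_of_lt {f : K[X]} {m l : ℕ} {a : K} (h1 : LD f m a) (hl : m < l) : LD f l 0 :=
  ⟨h1.1.trans hl.le, coeff_eq_zero_of_natDegree_lt (lt_of_le_of_lt h1.1 hl)⟩

theorem coeff_zero_ne {n d : K[X]} (h : IsCoprime n d) (h0 : n.coeff 0 = 0) : d.coeff 0 ≠ 0 := by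
  intro h1
  obtain ⟨a, b, hab⟩ := h
  have := congrArg (fun q : K[X] => q.coeff 0) hab
  simp [mul_coeff_zero, h0, h1] at this

end lead

section law
variable {K : Type*} [Field K] [CharZero K]

/-- height data of a point: `b = true`: pole at infinity, `b = false`: zero at infinity. -/
def HT (τ : PowerSeries K) (z' : K) (b : Bool) (c : K) (h : ℕ) : Prop :=
  ∃ (ρ σ : PowerSeries K) (n d : K[X]) (ν δ : K), Pt τ z' c ρ σ ∧ IsCoprime n d ∧
    (n : PowerSeries K) = PowerSeries.X * ρ ^ 2 * (d : PowerSeries K) ∧ LD n h ν ∧ LD d h δ ∧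
    (if b then ν ≠ 0 ∧ δ = 0 else ν = 0 ∧ δ ≠ 0)

omit [CharZero K] in
/-- the algebraic part: numerators -/
theorem law_num (z z' : K) {τ : PowerSeries K}
    (hτ : τ ^ 2 = 1 - 2 * PowerSeries.C z * PowerSeries.X + PowerSeries.X ^ 2)
    {c c₁ : K} (hc : c ≠ 0) (hc₁ : c₁ ≠ 0) {ρ σ ρ₁ σ₁ I : PowerSeries K} {n d n₁ d₁ : K[X]}
    (P : Pt τ z' c ρ σ) (P₁ : Pt τ z' c₁ ρ₁ σ₁)
    (hI : (1 - (PowerSeries.X * ρ * ρ₁) ^ 2) * I = 1)
    (hn : (n : PowerSeries K) = PowerSeries.X * ρ ^ 2 * (d : PowerSeries K))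
    (hn₁ : (n₁ : PowerSeries K) = PowerSeries.X * ρ₁ ^ 2 * (d₁ : PowerSeries K)) :
    ∃ M : K[X], (M : PowerSeries K)
      = PowerSeries.X * ((ρ * σ₁ + ρ₁ * σ) * I) ^ 2 * (((d * d₁ - n * n₁) ^ 2 : K[X]) : PowerSeries K) := by
  refine ⟨n * d * (d₁ ^ 2 - 2 * C z' * (n₁ * d₁) + n₁ ^ 2)
    + n₁ * d₁ * (d ^ 2 - 2 * C z' * (n * d) + n ^ 2)
    + C (2 * (c * c₁)⁻¹) * (X * (1 - 2 * C z * X + X ^ 2)
      * ((derivative n * d - n * derivative d) * (derivative n₁ * d₁ - n₁ * derivative d₁))), ?_⟩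
  have hW : ∀ {c : K} {ρ σ : PowerSeries K} {n d : K[X]}, Pt τ z' c ρ σ →
      (n : PowerSeries K) = PowerSeries.X * ρ ^ 2 * (d : PowerSeries K) →
      τ * ((derivative n * d - n * derivative d : K[X]) : PowerSeries K)
        = (d : PowerSeries K) ^ 2 * (PowerSeries.C c * (ρ * σ)) := by
    intro c ρ σ n d P hn
    have h1 := congrArg dT hn
    have h2 := P.ds
    have e1 : dT (n : PowerSeries K) = ((derivative n : K[X]) : PowerSeries K) :=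
      PowerSeries.derivative_coe n
    have e2 : dT (d : PowerSeries K) = ((derivative d : K[X]) : PowerSeries K) :=
      PowerSeries.derivative_coe d
    rw [dT_mul, e1, e2] at h1
    rw [Polynomial.coe_sub, Polynomial.coe_mul, Polynomial.coe_mul, h1, hn]
    linear_combination (d : PowerSeries K) ^ 2 * h2
  have w := hW P hn
  have w₁ := hW P₁ hn₁
  have a1 := P.e1
  have b1 := P₁.e1
  have hcc : (PowerSeries.C (2 * (c * c₁)⁻¹) : PowerSeries K) * (PowerSeries.C c * PowerSeries.C c₁)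
      = 2 := by
    rw [← map_mul, ← map_mul, mul_assoc, inv_mul_cancel₀ (mul_ne_zero hc hc₁), mul_one, map_ofNat]
  have hcoe2 : ((2 : K[X]) : PowerSeries K) = 2 := map_ofNat (Polynomial.coeToPowerSeries.ringHom) 2
  rw [Polynomial.coe_add, Polynomial.coe_add, Polynomial.coe_mul (C (2 * (c * c₁)⁻¹)),
    Polynomial.coe_mul (X * (1 - 2 * C z * X + X ^ 2)),
    Polynomial.coe_mul (derivative n * d - n * derivative d)]
  simp only [Polynomial.coe_add, Polynomial.coe_sub, Polynomial.coe_mul, Polynomial.coe_pow,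
    Polynomial.coe_X, Polynomial.coe_C, Polynomial.coe_one, hcoe2]
  simp only [Polynomial.coe_sub, Polynomial.coe_mul] at w w₁
  rw [hn] at w
  rw [hn₁] at w₁
  have ww := congrArg₂ (fun a b => a * b) w w₁
  rw [← hτ, hn, hn₁]
  have key : (1 - (PowerSeries.X * ρ * ρ₁) ^ 2) ^ 2 * I ^ 2 = 1 := by
    rw [← mul_pow, hI, one_pow]
  linear_combination
    (PowerSeries.C (2 * (c * c₁)⁻¹) * PowerSeries.X) * ww
    + (PowerSeries.X * (d : PowerSeries K) ^ 2 * ρ * σ * (d₁ : PowerSeries K) ^ 2 * (ρ₁ * σ₁)) * hcc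
    - PowerSeries.X * ρ ^ 2 * (d : PowerSeries K) ^ 2 * (d₁ : PowerSeries K) ^ 2 * b1
    - PowerSeries.X * ρ₁ ^ 2 * (d : PowerSeries K) ^ 2 * (d₁ : PowerSeries K) ^ 2 * a1
    - PowerSeries.X * (ρ * σ₁ + ρ₁ * σ) ^ 2 * (d : PowerSeries K) ^ 2 * (d₁ : PowerSeries K) ^ 2 * key

theorem law (z z' : K) (hz : z' ^ 2 ≠ 1) {τ : PowerSeries K}
    (hτ : τ ^ 2 = 1 - 2 * PowerSeries.C z * PowerSeries.X + PowerSeries.X ^ 2)
    {b b₁ : Bool} {c c₁ : K} (hc : c ≠ 0) (hc₁ : c₁ ≠ 0) {h h₁ : ℕ}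
    (H : HT τ z' b c h) (H₁ : HT τ z' b₁ c₁ h₁) :
    ∃ h₂ h₃, HT τ z' (xor b b₁) (c + c₁) h₂ ∧ HT τ z' (xor b b₁) (c - c₁) h₃ ∧
      h₂ + h₃ = 2 * h + 2 * h₁ := by
  obtain ⟨ρ, σ, n, d, ν, δ, P, cop, hn, Ln, Ld, hb⟩ := H
  obtain ⟨ρ₁, σ₁, n₁, d₁, ν₁, δ₁, P₁, cop₁, hn₁, Ln₁, Ld₁, hb₁⟩ := H₁
  have hu : IsUnit (1 - (PowerSeries.X * ρ * ρ₁) ^ 2 : PowerSeries K) := by
    rw [PowerSeries.isUnit_iff_constantCoeff]
    simp
  obtain ⟨I, hI⟩ := hu.exists_right_inv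
  have hI' : (1 - (PowerSeries.X * ρ * -ρ₁) ^ 2) * I = 1 := by
    linear_combination hI
  have hcoe2 : ((2 : K[X]) : PowerSeries K) = 2 := map_ofNat (Polynomial.coeToPowerSeries.ringHom) 2
  obtain ⟨M, hM⟩ := law_num z z' hτ hc hc₁ P P₁ hI hn hn₁
  have hn₁' : (n₁ : PowerSeries K) = PowerSeries.X * (-ρ₁) ^ 2 * (d₁ : PowerSeries K) := by
    rw [hn₁]; ring
  obtain ⟨M', hM'⟩ := law_num z z' hτ hc (neg_ne_zero.mpr hc₁) P P₁.neg hI' hn hn₁'
  -- denominators do not vanish at 0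
  have n0 : n.coeff 0 = 0 := by
    have := congrArg (PowerSeries.coeff 0) hn
    simpa using this
  have n10 : n₁.coeff 0 = 0 := by
    have := congrArg (PowerSeries.coeff 0) hn₁
    simpa using this
  have d0 := coeff_zero_ne cop n0
  have d10 := coeff_zero_ne cop₁ n10
  have hD0 : d * d₁ - n * n₁ ≠ 0 := by
    intro h0
    have := congrArg (fun q : K[X] => q.coeff 0) h0
    simp only [coeff_sub, mul_coeff_zero, n0, coeff_zero] at this
    apply mul_ne_zero d0 d10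
    linear_combination this
  have hC : (d * d₁ - n * n₁) ^ 2 ≠ 0 := pow_ne_zero 2 hD0
  obtain ⟨n₂, d₂, cop₂, hn₂⟩ := reduce M _ _ hC hM
  obtain ⟨n₃, d₃, cop₃, hn₃⟩ := reduce M' _ _ hC hM'
  have a1 := P.e1
  have b1 := P₁.e1
  -- the triples
  set A : K[X] := 2 * ((n * d₁ + n₁ * d) * (d * d₁ + n * n₁) - 4 * C z' * (n * n₁ * d * d₁)) with hA
  set B : K[X] := (n * d₁ - n₁ * d) ^ 2 with hB
  set Cc : K[X] := (d * d₁ - n * n₁) ^ 2 with hCc
  have eD : ((d * d₁ - n * n₁ : K[X]) : PowerSeries K)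
      = (d : PowerSeries K) * (d₁ : PowerSeries K) * (1 - (PowerSeries.X * ρ * ρ₁) ^ 2) := by
    rw [Polynomial.coe_sub, Polynomial.coe_mul, Polynomial.coe_mul, hn, hn₁]
    ring
  have E1 : n₂ * n₃ * Cc = B * (d₂ * d₃) := by
    apply Polynomial.coe_injective K
    rw [hB, hCc]
    rw [Polynomial.coe_mul, Polynomial.coe_mul, Polynomial.coe_mul, Polynomial.coe_mul,
      Polynomial.coe_pow, Polynomial.coe_pow, eD]
    rw [Polynomial.coe_sub, Polynomial.coe_mul, Polynomial.coe_mul, hn₂, hn₃, hn, hn₁]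
    have key : PowerSeries.X ^ 2 * ((ρ * σ₁ + ρ₁ * σ) * I) ^ 2 * ((ρ * σ₁ + -ρ₁ * σ) * I) ^ 2
        * (1 - (PowerSeries.X * ρ * ρ₁) ^ 2) ^ 2
        = (PowerSeries.X * ρ ^ 2 - PowerSeries.X * ρ₁ ^ 2) ^ 2 := by
      have k1 : PowerSeries.X * (ρ * σ₁ + ρ₁ * σ) * (ρ * σ₁ + -ρ₁ * σ)
          = (PowerSeries.X * ρ ^ 2 - PowerSeries.X * ρ₁ ^ 2) * (1 - (PowerSeries.X * ρ * ρ₁) ^ 2) := by
        linear_combination PowerSeries.X * ρ ^ 2 * b1 - PowerSeries.X * ρ₁ ^ 2 * a1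
      calc PowerSeries.X ^ 2 * ((ρ * σ₁ + ρ₁ * σ) * I) ^ 2 * ((ρ * σ₁ + -ρ₁ * σ) * I) ^ 2
            * (1 - (PowerSeries.X * ρ * ρ₁) ^ 2) ^ 2
          = (PowerSeries.X * (ρ * σ₁ + ρ₁ * σ) * (ρ * σ₁ + -ρ₁ * σ)) ^ 2 * I ^ 2
            * ((1 - (PowerSeries.X * ρ * ρ₁) ^ 2) * I) ^ 2 := by ring
        _ = ((PowerSeries.X * ρ ^ 2 - PowerSeries.X * ρ₁ ^ 2)) ^ 2
            * ((1 - (PowerSeries.X * ρ * ρ₁) ^ 2) * I) ^ 2 * ((1 - (PowerSeries.X * ρ * ρ₁) ^ 2) * I) ^ 2 := by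
          rw [k1]; ring
        _ = _ := by rw [hI]; ring
    linear_combination ((d₂ : PowerSeries K) * d₃ * (d * d₁) ^ 2) * key
  have E2 : (n₂ * d₃ + n₃ * d₂) * Cc = A * (d₂ * d₃) := by
    apply Polynomial.coe_injective K
    rw [hA, hCc]
    simp only [Polynomial.coe_mul, Polynomial.coe_pow, Polynomial.coe_add, Polynomial.coe_sub,
      Polynomial.coe_C, hcoe2]
    have hcoe4 : ((4 : K[X]) : PowerSeries K) = 4 := map_ofNat (Polynomial.coeToPowerSeries.ringHom) 4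
    rw [hcoe4, hn₂, hn₃, hn, hn₁]
    have k1 : (1 - (PowerSeries.X * ρ * ρ₁) ^ 2) ^ 2 * I ^ 2 = 1 := by
      rw [← mul_pow, hI, one_pow]
    linear_combination (d₂ : PowerSeries K) * d₃ * (d * d₁) ^ 2
      * (PowerSeries.X * (ρ * σ₁ + ρ₁ * σ) ^ 2 + PowerSeries.X * (ρ * σ₁ + -ρ₁ * σ) ^ 2) * k1
      + (d₂ : PowerSeries K) * d₃ * (d * d₁) ^ 2
        * (2 * PowerSeries.X * ρ ^ 2 * b1 + 2 * PowerSeries.X * ρ₁ ^ 2 * a1)
  have BZ1 : ∃ α β γ : K[X], α * A + β * B + γ * Cc = 1 := by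
    apply exists_bezout
    rintro M hM ⟨m1, m2, m3⟩
    let _ := Ideal.Quotient.field M
    have q2 : (2 : K[X] ⧸ M) ≠ 0 := by
      have : (2 : K[X] ⧸ M) = ((Ideal.Quotient.mk M).comp C) 2 := by rw [map_ofNat]
      rw [this]
      exact (map_ne_zero_iff _ ((Ideal.Quotient.mk M).comp C).injective).mpr two_ne_zero
    have qz : ((Ideal.Quotient.mk M) (C z')) ^ 2 ≠ 1 := by
      intro h0
      apply hz
      apply ((Ideal.Quotient.mk M).comp (C : K →+* K[X])).injective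
      simpa using h0
    have r1 := coprime_residue cop M hM
    have r2 := coprime_residue cop₁ M hM
    rw [← Ideal.Quotient.eq_zero_iff_mem] at m1 m2 m3
    rw [hB, map_pow] at m2
    rw [hCc, map_pow] at m3
    have m2' := pow_eq_zero_iff (two_ne_zero) |>.mp m2
    have m3' := pow_eq_zero_iff (two_ne_zero) |>.mp m3
    rw [hA] at m1
    simp only [map_mul, map_sub, map_add, map_ofNat] at m1 m2' m3'
    exact triple1 q2 qz r1 r2 m3' m2' m1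
  have BZ2 : ∃ α β γ : K[X], α * (n₂ * d₃ + n₃ * d₂) + β * (n₂ * n₃) + γ * (d₂ * d₃) = 1 := by
    apply exists_bezout
    rintro M hM ⟨m1, m2, m3⟩
    let _ := Ideal.Quotient.field M
    have r1 := coprime_residue cop₂ M hM
    have r2 := coprime_residue cop₃ M hM
    rw [← Ideal.Quotient.eq_zero_iff_mem] at m1 m2 m3
    simp only [map_mul, map_add] at m1 m2 m3
    exact triple2 r1 r2 m2 m3 m1
  obtain ⟨l, hl, Pa, Pb, Pc⟩ := proportional hC BZ2 BZ1 E1 E2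
  obtain ⟨h₂, ν₂, δ₂, Ln₂, Ld₂, ne₂⟩ := exists_lead n₂ d₂ cop₂
  obtain ⟨h₃, ν₃, δ₃, Ln₃, Ld₃, ne₃⟩ := exists_lead n₃ d₃ cop₃
  have ne : ν ≠ 0 ∨ δ ≠ 0 := by
    rcases b with _ | _
    · simp only [Bool.false_eq_true, if_false] at hb; exact Or.inr hb.2
    · simp only [if_true] at hb; exact Or.inl hb.1
  have ne₁ : ν₁ ≠ 0 ∨ δ₁ ≠ 0 := by
    rcases b₁ with _ | _
    · simp only [Bool.false_eq_true, if_false] at hb₁; exact Or.inr hb₁.2
    · simp only [if_true] at hb₁; exact Or.inl hb₁.1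
  have LB : LD B (2 * h + 2 * h₁) ((ν * δ₁ - ν₁ * δ) ^ 2) :=
    (((Ln.mul Ld₁).sub ((Ln₁.mul Ld).of_eq rfl (add_comm _ _) rfl)).mul
      ((Ln.mul Ld₁).sub ((Ln₁.mul Ld).of_eq rfl (add_comm _ _) rfl))).of_eq
      (by rw [hB]; ring) (by ring) (by ring)
  have LC : LD Cc (2 * h + 2 * h₁) ((δ * δ₁ - ν * ν₁) ^ 2) :=
    (((Ld.mul Ld₁).sub (Ln.mul Ln₁)).mul ((Ld.mul Ld₁).sub (Ln.mul Ln₁))).of_eq
      (by rw [hCc]; ring) (by ring) (by ring)
  have LA : LD A (2 * h + 2 * h₁)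
      (2 * ((ν * δ₁ + ν₁ * δ) * (δ * δ₁ + ν * ν₁) - 4 * z' * (ν * ν₁ * δ * δ₁))) := by
    have e1 := (((Ln.mul Ld₁).add ((Ln₁.mul Ld).of_eq rfl (add_comm _ _) rfl)).mul
      ((Ld.mul Ld₁).add (Ln.mul Ln₁)))
    have e2 := ((((Ln.mul Ln₁).mul Ld).mul Ld₁).of_eq rfl
      (show h + h₁ + h + h₁ = h + h₁ + (h + h₁) by ring) rfl).C_mul (4 * z')
    refine ((e1.sub e2).C_mul 2).of_eq ?_ (by ring) rfl
    rw [hA]
    simp only [map_mul, map_ofNat]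
  have Lb : LD (n₂ * n₃) (h₂ + h₃) (ν₂ * ν₃) := Ln₂.mul Ln₃
  have Lc : LD (d₂ * d₃) (h₂ + h₃) (δ₂ * δ₃) := Ld₂.mul Ld₃
  have La : LD (n₂ * d₃ + n₃ * d₂) (h₂ + h₃) (ν₂ * δ₃ + ν₃ * δ₂) :=
    (Ln₂.mul Ld₃).add ((Ln₃.mul Ld₂).of_eq rfl (add_comm _ _) rfl)
  have heq : h₂ + h₃ = 2 * h + 2 * h₁ := by
    rcases lt_trichotomy (h₂ + h₃) (2 * h + 2 * h₁) with hlt | heq | hgt
    · exfalso
      have z1 := (Lb.zero_of_lt hlt).unique (Pb ▸ LB.C_mul l)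
      have z2 := (Lc.zero_of_lt hlt).unique (Pc ▸ LC.C_mul l)
      have z3 := (La.zero_of_lt hlt).unique (Pa ▸ LA.C_mul l)
      have y1 := pow_eq_zero_iff (two_ne_zero) |>.mp ((mul_eq_zero.mp z1.symm).resolve_left hl)
      have y2 := pow_eq_zero_iff (two_ne_zero) |>.mp ((mul_eq_zero.mp z2.symm).resolve_left hl)
      have y3 := (mul_eq_zero.mp z3.symm).resolve_left hl
      exact triple1 two_ne_zero hz ne ne₁ y2 y1 y3
    · exact heq
    · exfalso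
      have z1 := Lb.unique (Pb ▸ (LB.zero_of_lt hgt).C_mul l)
      have z2 := Lc.unique (Pc ▸ (LC.zero_of_lt hgt).C_mul l)
      have z3 := La.unique (Pa ▸ (LA.zero_of_lt hgt).C_mul l)
      rw [mul_zero] at z1 z2 z3
      exact triple2 ne₂ ne₃ z1 z2 z3
  have z1 := (Lb.of_eq rfl heq rfl).unique (Pb ▸ LB.C_mul l)
  have z2 := (Lc.of_eq rfl heq rfl).unique (Pc ▸ LC.C_mul l)
  have z3 := (La.of_eq rfl heq rfl).unique (Pa ▸ LA.C_mul l)
  have P₂ := P.add P₁ hI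
  have P₃ := P.add P₁.neg hI'
  rw [← sub_eq_add_neg] at P₃
  have hfin : (if xor b b₁ then (ν₂ ≠ 0 ∧ δ₂ = 0) else (ν₂ = 0 ∧ δ₂ ≠ 0)) ∧
      (if xor b b₁ then (ν₃ ≠ 0 ∧ δ₃ = 0) else (ν₃ = 0 ∧ δ₃ ≠ 0)) := by
    have fA : ν₂ * ν₃ ≠ 0 → δ₂ * δ₃ = 0 → ν₂ * δ₃ + ν₃ * δ₂ = 0 →
        (ν₂ ≠ 0 ∧ δ₂ = 0) ∧ (ν₃ ≠ 0 ∧ δ₃ = 0) := by
      intro y1 y2 y3
      have w1 := left_ne_zero_of_mul y1
      have w2 := right_ne_zero_of_mul y1
      rcases mul_eq_zero.mp y2 with y | y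
      · rw [y, mul_zero, add_zero] at y3
        exact ⟨⟨w1, y⟩, ⟨w2, (mul_eq_zero.mp y3).resolve_left w1⟩⟩
      · rw [y, mul_zero, zero_add] at y3
        exact ⟨⟨w1, (mul_eq_zero.mp y3).resolve_left w2⟩, ⟨w2, y⟩⟩
    have fB : ν₂ * ν₃ = 0 → δ₂ * δ₃ ≠ 0 → ν₂ * δ₃ + ν₃ * δ₂ = 0 →
        (ν₂ = 0 ∧ δ₂ ≠ 0) ∧ (ν₃ = 0 ∧ δ₃ ≠ 0) := by
      intro y2 y1 y3
      have w1 := left_ne_zero_of_mul y1
      have w2 := right_ne_zero_of_mul y1
      rcases mul_eq_zero.mp y2 with y | y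
      · rw [y, zero_mul, zero_add] at y3
        exact ⟨⟨y, w1⟩, ⟨(mul_eq_zero.mp y3).resolve_right w1, w2⟩⟩
      · rw [y, zero_mul, add_zero] at y3
        exact ⟨⟨(mul_eq_zero.mp y3).resolve_right w2, w1⟩, ⟨y, w2⟩⟩
    rcases b with _ | _ <;> rcases b₁ with _ | _ <;>
      simp only [Bool.false_eq_true, if_false, if_true, Bool.xor_false, Bool.xor_true, Bool.not_false,
        bne_self_eq_false] at hb hb₁ ⊢
    · apply fB
      · rw [z1, hb.1, hb₁.1]; ring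
      · rw [z2, hb.1, hb₁.1]
        refine mul_ne_zero hl (pow_ne_zero 2 ?_)
        rw [zero_mul, sub_zero]
        exact mul_ne_zero hb.2 hb₁.2
      · rw [z3, hb.1, hb₁.1]; ring
    · apply fA
      · rw [z1, hb.1, hb₁.2]
        refine mul_ne_zero hl (pow_ne_zero 2 ?_)
        rw [zero_mul, zero_sub]
        exact neg_ne_zero.mpr (mul_ne_zero hb₁.1 hb.2)
      · rw [z2, hb.1, hb₁.2]; ring
      · rw [z3, hb.1, hb₁.2]; ring
    · apply fA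
      · rw [z1, hb.2, hb₁.1]
        refine mul_ne_zero hl (pow_ne_zero 2 ?_)
        rw [zero_mul, sub_zero]
        exact mul_ne_zero hb.1 hb₁.2
      · rw [z2, hb.2, hb₁.1]; ring
      · rw [z3, hb.2, hb₁.1]; ring
    · apply fB
      · rw [z1, hb.2, hb₁.2]; ring
      · rw [z2, hb.2, hb₁.2]
        refine mul_ne_zero hl (pow_ne_zero 2 ?_)
        rw [zero_mul, zero_sub]
        exact neg_ne_zero.mpr (mul_ne_zero hb.1 hb₁.1)
      · rw [z3, hb.2, hb₁.2]; ring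
  refine ⟨h₂, h₃, ⟨_, _, n₂, d₂, ν₂, δ₂, P₂, cop₂, hn₂, Ln₂, Ld₂, hfin.1⟩,
    ⟨_, _, n₃, d₃, ν₃, δ₃, P₃, cop₃, hn₃, Ln₃, Ld₃, hfin.2⟩, heq⟩

end law

end Pool.Agent.H37.Sun
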