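import Mathlib
import Pool.Agent.H37.Sun.Cv3

/-! Heights on lattices of points. -/

namespace Pool.Agent.H37.Sun

open Polynomial

section
variable {K : Type*} [Field K] [CharZero K]

theorem HT.unique {τ : PowerSeries K} (hτ : PowerSeries.constantCoeff τ = 1) {z' c : K}
    {b b' : Bool} {h h' : ℕ} (H : HT τ z' b c h) (H' : HT τ z' b' c h') : b = b' ∧ h = h' := by
  obtain ⟨ρ, σ, n, d, ν, δ, P, cop, hn, Ln, Ld, hb⟩ := H
  obtain ⟨ρ₁, σ₁, n₁, d₁, ν₁, δ₁, P₁, cop₁, hn₁, Ln₁, Ld₁, hb₁⟩ := H'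
  have hρ := P.unique hτ P₁
  subst hρ
  have e : n * d₁ = n₁ * d := by
    apply Polynomial.coe_injective K
    rw [Polynomial.coe_mul, Polynomial.coe_mul, hn, hn₁]
    ring
  obtain ⟨α, β, hαβ⟩ := cop
  obtain ⟨α', β', hαβ'⟩ := cop₁
  set ζ := α * n₁ + β * d₁ with hζ
  have e1 : n₁ = ζ * n := by rw [hζ]; linear_combination -n₁ * hαβ - β * e
  have e2 : d₁ = ζ * d := by rw [hζ]; linear_combination -d₁ * hαβ + α * e
  have hu : IsUnit ζ := by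
    refine IsUnit.of_mul_eq_one (α' * n + β' * d) ?_
    linear_combination hαβ' - α' * e1 - β' * e2
  obtain ⟨l, hl, hl2⟩ := Polynomial.isUnit_iff.mp hu
  have hl0 := hl.ne_zero
  have L1 : LD n₁ h (l * ν) := (Ln.C_mul l).of_eq (by rw [hl2, ← e1]) rfl rfl
  have L2 : LD d₁ h (l * δ) := (Ld.C_mul l).of_eq (by rw [hl2, ← e2]) rfl rfl
  have ne : ν ≠ 0 ∨ δ ≠ 0 := by
    rcases b with _ | _
    · simp only [Bool.false_eq_true, if_false] at hb; exact Or.inr hb.2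
    · simp only [if_true] at hb; exact Or.inl hb.1
  have ne₁ : ν₁ ≠ 0 ∨ δ₁ ≠ 0 := by
    rcases b' with _ | _
    · simp only [Bool.false_eq_true, if_false] at hb₁; exact Or.inr hb₁.2
    · simp only [if_true] at hb₁; exact Or.inl hb₁.1
  have heq : h = h' := by
    rcases lt_trichotomy h h' with hlt | heq | hgt
    · exfalso
      have z1 := (L1.zero_of_lt hlt).unique Ln₁
      have z2 := (L2.zero_of_lt hlt).unique Ld₁
      rcases ne₁ with h0 | h0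
      · exact h0 z1.symm
      · exact h0 z2.symm
    · exact heq
    · exfalso
      have z1 := (Ln₁.zero_of_lt hgt).unique L1
      have z2 := (Ld₁.zero_of_lt hgt).unique L2
      rcases ne with h0 | h0
      · exact mul_ne_zero hl0 h0 z1.symm
      · exact mul_ne_zero hl0 h0 z2.symm
  subst heq
  refine ⟨?_, rfl⟩
  have z1 := L1.unique Ln₁
  have z2 := L2.unique Ld₁
  rcases b with _ | _ <;> rcases b' with _ | _ <;>
    simp only [Bool.false_eq_true, if_false, if_true] at hb hb₁ ⊢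
  · exfalso
    rw [hb.1, mul_zero] at z1
    exact hb₁.1 z1.symm
  · exfalso
    rw [hb₁.1] at z1
    exact mul_ne_zero hl0 hb.1 z1

omit [CharZero K] in
theorem HT.neg {τ : PowerSeries K} {z' c : K} {b : Bool} {h : ℕ} (H : HT τ z' b c h) :
    HT τ z' b (-c) h := by
  obtain ⟨ρ, σ, n, d, ν, δ, P, cop, hn, Ln, Ld, hb⟩ := H
  exact ⟨-ρ, σ, n, d, ν, δ, P.neg, cop, by rw [hn]; ring, Ln, Ld, hb⟩

theorem HT.zero (τ : PowerSeries K) (z' : K) : HT τ z' false 0 0 := by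
  refine ⟨0, 1, 0, 1, 0, 1, Pt.zero τ z', isCoprime_one_right, by simp, ⟨by simp, by simp⟩,
    ⟨by simp, by simp⟩, ?_⟩
  simp

theorem HT.ne_zero {τ : PowerSeries K} (hτ : PowerSeries.constantCoeff τ = 1) {z' c : K}
    {b : Bool} {h : ℕ} (H : HT τ z' b c h) (hpos : 0 < h) : c ≠ 0 := by
  intro h0
  subst h0
  have := (H.unique hτ (HT.zero τ z')).2
  omega

/-- parity -/
def par (b : Bool) (x : ℕ) : Bool := b && decide (x % 2 = 1)

theorem par_zero (b : Bool) : par b 0 = false := by simp [par]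
theorem par_one (b : Bool) : par b 1 = b := by simp [par]
theorem par_succ (b : Bool) (x : ℕ) : xor (par b x) b = par b (x + 1) := by
  unfold par
  rcases Nat.mod_two_eq_zero_or_one x with hx | hx
  · have h1 : (x + 1) % 2 = 1 := by omega
    rw [hx, h1]
    cases b <;> rfl
  · have h1 : (x + 1) % 2 = 0 := by omega
    rw [hx, h1]
    cases b <;> rfl

theorem HT.step {z z' : K} (hz : z' ^ 2 ≠ 1) {τ : PowerSeries K}
    (hτ : τ ^ 2 = 1 - 2 * PowerSeries.C z * PowerSeries.X + PowerSeries.X ^ 2)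
    (hτ0 : PowerSeries.constantCoeff τ = 1)
    {b b₁ b₃ : Bool} {c c₁ : K} {h h₁ h₃ h₂ : ℕ}
    (H : HT τ z' b c h) (H₁ : HT τ z' b₁ c₁ h₁) (H₃ : HT τ z' b₃ (c - c₁) h₃)
    (hp : 0 < h) (hp₁ : 0 < h₁) (e : h₂ + h₃ = 2 * h + 2 * h₁) :
    HT τ z' (xor b b₁) (c + c₁) h₂ := by
  obtain ⟨k₂, k₃, K₂, K₃, hk⟩ := law z z' hz hτ (H.ne_zero hτ0 hp) (H₁.ne_zero hτ0 hp₁) H H₁
  have := (K₃.unique hτ0 H₃).2
  have : k₂ = h₂ := by omega
  rw [← this]
  exact K₂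

theorem HT.closure {z z' : K} (hz : z' ^ 2 ≠ 1) {τ : PowerSeries K}
    (hτ : τ ^ 2 = 1 - 2 * PowerSeries.C z * PowerSeries.X + PowerSeries.X ^ 2)
    (hτ0 : PowerSeries.constantCoeff τ = 1)
    {b b₁ : Bool} {c c₁ : K} {h h₁ : ℕ}
    (H : HT τ z' b c h) (H₁ : HT τ z' b₁ c₁ h₁) : ∃ h₂, HT τ z' (xor b b₁) (c + c₁) h₂ := by
  by_cases hc : c = 0
  · subst hc
    have := (H.unique hτ0 (HT.zero τ z')).1
    subst this
    exact ⟨h₁, by rw [zero_add, Bool.false_xor]; exact H₁⟩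
  · by_cases hc₁ : c₁ = 0
    · subst hc₁
      have := (H₁.unique hτ0 (HT.zero τ z')).1
      subst this
      exact ⟨h, by rw [add_zero, Bool.xor_false]; exact H⟩
    · obtain ⟨k₂, k₃, K₂, K₃, hk⟩ := law z z' hz hτ hc hc₁ H H₁
      exact ⟨k₂, K₂⟩

theorem HT.mul {z z' : K} (hz : z' ^ 2 ≠ 1) {τ : PowerSeries K}
    (hτ : τ ^ 2 = 1 - 2 * PowerSeries.C z * PowerSeries.X + PowerSeries.X ^ 2)
    (hτ0 : PowerSeries.constantCoeff τ = 1)
    {b : Bool} {c : K} {h : ℕ} (H : HT τ z' b c h) (hp : 0 < h) (m : ℕ) :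
    HT τ z' (par b m) (m * c) (m ^ 2 * h) ∧
      HT τ z' (par b (m + 1)) (((m + 1 : ℕ) : K) * c) ((m + 1) ^ 2 * h) := by
  induction m with
  | zero =>
    refine ⟨?_, ?_⟩
    · have := HT.zero τ z'
      simpa [par_zero] using this
    · simpa [par_one] using H
  | succ m ih =>
    refine ⟨ih.2, ?_⟩
    have := HT.step (h₂ := (m + 1 + 1) ^ 2 * h) (b₃ := par b m) hz hτ hτ0 ih.2 H
      (by
        have := ih.1
        rwa [show (((m + 1 : ℕ) : K) * c - c) = m * c by push_cast; ring])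
      (by positivity) hp (by ring)
    rw [par_succ] at this
    rwa [show ((((m + 1 + 1 : ℕ)) : K) * c) = (((m + 1 : ℕ) : K) * c + c) by push_cast; ring]

theorem HT.lattice1 {z z' : K} (hz : z' ^ 2 ≠ 1) {τ : PowerSeries K}
    (hτ : τ ^ 2 = 1 - 2 * PowerSeries.C z * PowerSeries.X + PowerSeries.X ^ 2)
    (hτ0 : PowerSeries.constantCoeff τ = 1)
    {b₁ b₂ : Bool} {c₁ c₂ : K} {h₁ h₂ : ℕ} (H₁ : HT τ z' b₁ c₁ h₁) (H₂ : HT τ z' b₂ c₂ h₂)
    (H₁₂ : HT τ z' (xor b₁ b₂) (c₁ + c₂) (h₁ + h₂)) (hp₁ : 0 < h₁) (hp₂ : 0 < h₂) (y : ℕ) :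
    HT τ z' (xor b₁ (par b₂ y)) (c₁ + y * c₂) (h₁ + y ^ 2 * h₂) ∧
      HT τ z' (xor b₁ (par b₂ (y + 1))) (c₁ + ((y + 1 : ℕ) : K) * c₂) (h₁ + (y + 1) ^ 2 * h₂) := by
  induction y with
  | zero =>
    refine ⟨?_, ?_⟩
    · simpa [par_zero] using H₁
    · simpa [par_one] using H₁₂
  | succ y ih =>
    refine ⟨ih.2, ?_⟩
    have := HT.step (h₂ := h₁ + (y + 1 + 1) ^ 2 * h₂) (b₃ := xor b₁ (par b₂ y)) hz hτ hτ0 ih.2 H₂
      (by
        have := ih.1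
        rwa [show (c₁ + ((y + 1 : ℕ) : K) * c₂ - c₂) = c₁ + y * c₂ by push_cast; ring])
      (by positivity) hp₂ (by ring)
    rw [Bool.xor_assoc, par_succ] at this
    rwa [show (c₁ + (((y + 1 + 1 : ℕ)) : K) * c₂) = (c₁ + ((y + 1 : ℕ) : K) * c₂ + c₂) by
      push_cast; ring]

theorem HT.lattice2 {z z' : K} (hz : z' ^ 2 ≠ 1) {τ : PowerSeries K}
    (hτ : τ ^ 2 = 1 - 2 * PowerSeries.C z * PowerSeries.X + PowerSeries.X ^ 2)
    (hτ0 : PowerSeries.constantCoeff τ = 1)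
    {b₁ b₂ : Bool} {c₁ c₂ : K} {h₁ h₂ : ℕ} (H₁ : HT τ z' b₁ c₁ h₁) (H₂ : HT τ z' b₂ c₂ h₂)
    (H₁₂ : HT τ z' (xor b₁ b₂) (c₁ + c₂) (h₁ + h₂)) (hp₁ : 0 < h₁) (hp₂ : 0 < h₂) (y x : ℕ) :
    HT τ z' (xor (par b₁ x) (par b₂ y)) (x * c₁ + y * c₂) (x ^ 2 * h₁ + y ^ 2 * h₂) ∧
      HT τ z' (xor (par b₁ (x + 1)) (par b₂ y)) (((x + 1 : ℕ) : K) * c₁ + y * c₂)
        ((x + 1) ^ 2 * h₁ + y ^ 2 * h₂) := by
  induction x with
  | zero =>
    refine ⟨?_, ?_⟩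
    · have := (H₂.mul hz hτ hτ0 hp₂ y).1
      simpa [par_zero] using this
    · have := (HT.lattice1 hz hτ hτ0 H₁ H₂ H₁₂ hp₁ hp₂ y).1
      simpa [par_one] using this
  | succ x ih =>
    refine ⟨ih.2, ?_⟩
    have := HT.step (h₂ := (x + 1 + 1) ^ 2 * h₁ + y ^ 2 * h₂) (b₃ := xor (par b₁ x) (par b₂ y))
      hz hτ hτ0 ih.2 H₁
      (by
        have := ih.1
        rwa [show (((x + 1 : ℕ) : K) * c₁ + y * c₂ - c₁) = x * c₁ + y * c₂ by push_cast; ring])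
      (by positivity) hp₁ (by ring)
    rw [Bool.xor_assoc, Bool.xor_comm (par b₂ y), ← Bool.xor_assoc, par_succ] at this
    rwa [show ((((x + 1 + 1 : ℕ)) : K) * c₁ + y * c₂) = (((x + 1 : ℕ) : K) * c₁ + y * c₂ + c₁) by
      push_cast; ring]

end

end Pool.Agent.H37.Sun
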