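import Mathlib
import Pool.Agent.H37.Sun.Cv4

/-! The explicit points: the identity, composition with a 2-isogeny, the 3-isogeny, and the
sum of degree 5. -/

namespace Pool.Agent.H37.Sun

section pt
variable {R : Type*} [CommRing R]

open PowerSeries in
/-- identity point -/
theorem Pt.id {τ : PowerSeries R} {z : R} (hτ : τ ^ 2 = 1 - 2 * C z * X + X ^ 2)
    (hτ0 : constantCoeff τ = 1) : Pt τ z 1 1 τ := by
  refine ⟨?_, ?_, hτ0⟩
  · rw [hτ]; ring
  · rw [dT_one, map_one]; ring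

open PowerSeries in
/-- composition with the 2-isogeny -/
theorem Pt.comp2 [IsDomain R] [CharZero R] {τ : PowerSeries R} {z' z'' ζ c : R} {ρ σ I : PowerSeries R}
    (P : Pt τ z' c ρ σ) (hI : σ * I = 1) (h1 : ζ ^ 2 * z'' = -2 * z') (h2 : ζ ^ 4 = 4 * (z' ^ 2 - 1)) :
    Pt τ z'' (ζ * c) (C ζ * ρ * I) ((1 - (X * ρ ^ 2) ^ 2) * I ^ 2) := by
  have a1 := P.e1
  have a2 := P.e2
  have a3 := P.e3
  have hi : constantCoeff I = 1 := by
    have := congrArg constantCoeff hI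
    simpa [P.e4] using this
  have h1' : (C ζ ^ 2 * C z'' : PowerSeries R) = -2 * C z' := by
    rw [← map_pow, ← map_mul, h1, map_mul, map_neg, map_ofNat]
  have h2' : (C ζ ^ 4 : PowerSeries R) = 4 * (C z' ^ 2 - 1) := by
    rw [← map_pow, h2, map_mul, map_sub, map_pow, map_ofNat, map_one]
  refine ⟨?_, ?_, ?_⟩
  · have k1 : σ ^ 2 * I ^ 2 = 1 := by rw [← mul_pow, hI, one_pow]
    set s := X * ρ ^ 2 with hs
    have key : (1 - s ^ 2) ^ 2 = σ ^ 4 - 2 * C z'' * C ζ ^ 2 * s * σ ^ 2 + C ζ ^ 4 * s ^ 2 := by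
      have : σ ^ 4 = (σ ^ 2) ^ 2 := by ring
      rw [this, a1, h2']
      linear_combination (2 * s * (1 - 2 * C z' * s + s ^ 2)) * h1'
    calc ((1 - s ^ 2) * I ^ 2) ^ 2 = (1 - s ^ 2) ^ 2 * I ^ 4 := by ring
      _ = (σ ^ 2 * I ^ 2) ^ 2 - 2 * C z'' * (X * (C ζ * ρ * I) ^ 2) * (σ ^ 2 * I ^ 2)
          + (X * (C ζ * ρ * I) ^ 2) ^ 2 := by rw [key, hs]; ring
      _ = _ := by rw [k1]; ring
  · have hdI : dT I = - dT σ * I ^ 2 := by
      have h3 := congrArg dT hI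
      rw [dT_mul, dT_one] at h3
      linear_combination I * h3 - dT I * hI
    rw [dT_mul, dT_mul, dT_C, hdI, map_mul]
    linear_combination C ζ * I * a2 - 2 * X * C ζ * ρ * I ^ 2 * a3
      + C ζ * C c * I ^ 2 * a1 - C ζ * C c * σ * I * hI
  · simp [hi]

open PowerSeries in
/-- the 3-isogeny -/
theorem Pt.three {τ : PowerSeries R} {z z' β m : R} {J : PowerSeries R}
    (hτ : τ ^ 2 = 1 - 2 * C z * X + X ^ 2) (hτ0 : constantCoeff τ = 1)
    (hJ : (1 + C β * X) * J = 1) (hm : m * β = 3 - β ^ 2)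
    (i1 : 4 * β - 2 * z' * β ^ 2 = 2 * m - 2 * z)
    (i2 : 6 * β ^ 2 - 4 * z' * (β * (1 + β ^ 2)) + β ^ 4 = m ^ 2 + 3 - 4 * z * m)
    (i3 : 8 * β ^ 3 - 2 * z' * ((1 + β ^ 2) ^ 2 + 2 * β ^ 2) = 4 * m - 2 * z * (m ^ 2 + 2)) :
    Pt τ z' β ((C β + X) * J) (τ * (1 + C m * X + X ^ 2) * J ^ 2) := by
  have hj : constantCoeff J = 1 := by
    have := congrArg constantCoeff hJ
    simpa using this
  have cm : (C m * C β : PowerSeries R) = 3 - C β ^ 2 := by
    rw [← map_mul, hm, map_sub, map_pow, map_ofNat]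
  have c1 : (4 * C β - 2 * C z' * C β ^ 2 : PowerSeries R) = 2 * C m - 2 * C z := by
    have := congrArg (C : R → PowerSeries R) i1
    simpa [map_ofNat] using this
  have c2 : (6 * C β ^ 2 - 4 * C z' * (C β * (1 + C β ^ 2)) + C β ^ 4 : PowerSeries R)
      = C m ^ 2 + 3 - 4 * C z * C m := by
    have := congrArg (C : R → PowerSeries R) i2
    simpa [map_ofNat] using this
  have c3 : (8 * C β ^ 3 - 2 * C z' * ((1 + C β ^ 2) ^ 2 + 2 * C β ^ 2) : PowerSeries R)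
      = 4 * C m - 2 * C z * (C m ^ 2 + 2) := by
    have := congrArg (C : R → PowerSeries R) i3
    simpa [map_ofNat] using this
  refine ⟨?_, ?_, ?_⟩
  · set b : PowerSeries R := C β
    have key : (1 - 2 * C z * X + X ^ 2) * (1 + C m * X + X ^ 2) ^ 2
        = (1 + b * X) ^ 4 - 2 * C z' * X * (b + X) ^ 2 * (1 + b * X) ^ 2 + X ^ 2 * (b + X) ^ 4 := by
      linear_combination -(X + X ^ 5) * c1 - (X ^ 2 + X ^ 4) * c2 - X ^ 3 * c3
    calc (τ * (1 + C m * X + X ^ 2) * J ^ 2) ^ 2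
        = τ ^ 2 * (1 + C m * X + X ^ 2) ^ 2 * J ^ 4 := by ring
      _ = ((1 + b * X) * J) ^ 4 - 2 * C z' * (X * ((b + X) * J) ^ 2) * ((1 + b * X) * J) ^ 2
          + (X * ((b + X) * J) ^ 2) ^ 2 := by rw [hτ, key]; ring
      _ = _ := by rw [hJ]; ring
  · have hdJ : dT J = - C β * J ^ 2 := by
      have h3 := congrArg dT hJ
      rw [dT_mul, dT_add, dT_mul, dT_one, dT_C, dT_X] at h3
      linear_combination J * h3 - dT J * hJ
    rw [dT_mul, dT_add, dT_C, dT_X, hdJ]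
    linear_combination (τ * J * (C β + 3 * X)) * (-hJ) - (τ * X * J ^ 2) * cm
  · simp [hj, hτ0]

end pt

open Polynomial

section ht
variable {K : Type*} [Field K] [CharZero K]

omit [CharZero K] in
theorem HT.id {τ : PowerSeries K} {z : K}
    (hτ : τ ^ 2 = 1 - 2 * PowerSeries.C z * PowerSeries.X + PowerSeries.X ^ 2)
    (hτ0 : PowerSeries.constantCoeff τ = 1) : HT τ z true 1 1 := by
  refine ⟨1, τ, X, 1, 1, 0, Pt.id hτ hτ0, isCoprime_one_right, by simp, ⟨natDegree_X_le, by simp⟩,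
    ⟨by simp, ?_⟩, ?_⟩
  · rw [coeff_one]; simp
  · simp

theorem HT.comp2 {τ : PowerSeries K} {z' z'' ζ c : K} {b : Bool} {h : ℕ} (H : HT τ z' b c h)
    (h1 : ζ ^ 2 * z'' = -2 * z') (h2 : ζ ^ 4 = 4 * (z' ^ 2 - 1)) (hζ : ζ ≠ 0) :
    HT τ z'' false (ζ * c) (2 * h) := by
  obtain ⟨ρ, σ, n, d, ν, δ, P, cop, hn, Ln, Ld, hb⟩ := H
  have hu : IsUnit σ := by
    rw [PowerSeries.isUnit_iff_constantCoeff, P.e4]
    exact isUnit_one
  obtain ⟨I, hI⟩ := hu.exists_right_inv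
  have hI2 : σ ^ 2 * I ^ 2 = 1 := by rw [← mul_pow, hI, one_pow]
  have a1 := P.e1
  have e1 : LD (C (ζ ^ 2) * (n * d)) (2 * h) (ζ ^ 2 * (ν * δ)) :=
    ((Ln.mul Ld).C_mul (ζ ^ 2)).of_eq rfl (by ring) rfl
  have e2 : LD (d ^ 2 - C (2 * z') * (n * d) + n ^ 2) (2 * h) (δ ^ 2 - 2 * z' * (ν * δ) + ν ^ 2) :=
    (((Ld.mul Ld).sub ((Ln.mul Ld).C_mul (2 * z'))).add (Ln.mul Ln)).of_eq (by ring) (by ring)
      (by ring)
  have cop2 : IsCoprime (C (ζ ^ 2) * (n * d)) (d ^ 2 - C (2 * z') * (n * d) + n ^ 2) := by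
    have u : IsUnit (C (ζ ^ 2) : K[X]) := Polynomial.isUnit_C.mpr (isUnit_iff_ne_zero.mpr (pow_ne_zero 2 hζ))
    rw [isCoprime_mul_unit_left_left u]
    refine IsCoprime.mul_left ?_ ?_
    · have : d ^ 2 - C (2 * z') * (n * d) + n ^ 2 = d ^ 2 + n * (n - C (2 * z') * d) := by ring
      rw [this, IsCoprime.add_mul_left_right_iff]
      exact cop.pow_right
    · have : d ^ 2 - C (2 * z') * (n * d) + n ^ 2 = n ^ 2 + d * (d - C (2 * z') * n) := by ring
      rw [this, IsCoprime.add_mul_left_right_iff]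
      exact cop.symm.pow_right
  refine ⟨_, _, _, _, _, _, P.comp2 hI h1 h2, cop2, ?_, e1, e2, ?_⟩
  · have hc2 : ((C (2 * z') : K[X]) : PowerSeries K) = 2 * PowerSeries.C z' := by
      rw [Polynomial.coe_C, map_mul, map_ofNat]
    simp only [Polynomial.coe_mul, Polynomial.coe_add, Polynomial.coe_sub, Polynomial.coe_pow, hc2,
      Polynomial.coe_C, map_pow]
    rw [hn]
    linear_combination PowerSeries.X * PowerSeries.C ζ ^ 2 * ρ ^ 2 * (d : PowerSeries K) ^ 2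
      * (I ^ 2 * a1 - hI2)
  · simp only [Bool.false_eq_true, if_false]
    rcases b with _ | _
    · simp only [Bool.false_eq_true, if_false] at hb
      rw [hb.1]
      refine ⟨by ring, ?_⟩
      have : δ ^ 2 - 2 * z' * (0 * δ) + 0 ^ 2 = δ ^ 2 := by ring
      rw [this]
      exact pow_ne_zero 2 hb.2
    · simp only [if_true] at hb
      rw [hb.2]
      refine ⟨by ring, ?_⟩
      have : (0 : K) ^ 2 - 2 * z' * (ν * 0) + ν ^ 2 = ν ^ 2 := by ring
      rw [this]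
      exact pow_ne_zero 2 hb.1

omit [CharZero K] in
theorem HT.three {τ : PowerSeries K} {z z' β m : K}
    (hτ : τ ^ 2 = 1 - 2 * PowerSeries.C z * PowerSeries.X + PowerSeries.X ^ 2)
    (hτ0 : PowerSeries.constantCoeff τ = 1) (hm : m * β = 3 - β ^ 2)
    (i1 : 4 * β - 2 * z' * β ^ 2 = 2 * m - 2 * z)
    (i2 : 6 * β ^ 2 - 4 * z' * (β * (1 + β ^ 2)) + β ^ 4 = m ^ 2 + 3 - 4 * z * m)
    (i3 : 8 * β ^ 3 - 2 * z' * ((1 + β ^ 2) ^ 2 + 2 * β ^ 2) = 4 * m - 2 * z * (m ^ 2 + 2))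
    (hβ1 : β ^ 2 ≠ 1) : HT τ z' true β 3 := by
  have hu : IsUnit (1 + PowerSeries.C β * PowerSeries.X : PowerSeries K) := by
    rw [PowerSeries.isUnit_iff_constantCoeff]
    simp
  obtain ⟨J, hJ⟩ := hu.exists_right_inv
  have L1 : LD (X + C β : K[X]) 1 1 := ⟨(natDegree_add_le _ _).trans (by simp), by simp⟩
  have L2 : LD (1 + C β * X : K[X]) 1 β :=
    ⟨(natDegree_add_le _ _).trans (by
      simp only [natDegree_one, Nat.zero_le, max_eq_right]
      exact (natDegree_C_mul_le _ _).trans natDegree_X_le), by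
      rw [coeff_add, coeff_one, coeff_C_mul, coeff_X_one]; simp⟩
  have L3 : LD (X : K[X]) 1 1 := ⟨natDegree_X_le, by simp⟩
  have cop : IsCoprime (X * (X + C β) ^ 2) ((1 + C β * X) ^ 2 : K[X]) := by
    refine IsCoprime.pow_right (IsCoprime.mul_left ?_ (IsCoprime.pow_left ?_))
    · exact ⟨-C β, 1, by ring⟩
    · have hne : (1 - β ^ 2 : K) ≠ 0 := fun h => hβ1 (by linear_combination -h)
      refine ⟨-C ((1 - β ^ 2)⁻¹ * β), C ((1 - β ^ 2)⁻¹), ?_⟩
      have : (C ((1 - β ^ 2)⁻¹) * (1 - C β ^ 2) : K[X]) = 1 := by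
        rw [← map_pow, ← map_one (C : K →+* K[X]), ← map_sub, ← map_mul, inv_mul_cancel₀ hne]
      rw [map_mul]
      linear_combination this
  refine ⟨_, _, _, _, _, _, Pt.three hτ hτ0 hJ hm i1 i2 i3, cop, ?_,
    (L3.mul (L1.mul L1)).of_eq (by ring) rfl rfl,
    ((L2.mul L2).zero_of_lt (show 1 + 1 < 3 by norm_num)).of_eq (by ring) rfl rfl, ?_⟩
  · simp only [Polynomial.coe_mul, Polynomial.coe_add, Polynomial.coe_pow,
      Polynomial.coe_C, Polynomial.coe_X, Polynomial.coe_one]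
    linear_combination -PowerSeries.X * (PowerSeries.C β + PowerSeries.X) ^ 2
      * ((1 + PowerSeries.C β * PowerSeries.X) * J + 1) * hJ
  · simp

omit [CharZero K] in
/-- An explicit (not necessarily reduced) fraction bounds the height. -/
theorem HT.bound {τ : PowerSeries K} {z' c : K} {b : Bool} {h : ℕ} (H : HT τ z' b c h)
    (N D : K[X]) (hD : D ≠ 0) (m : ℕ) (hNm : N.natDegree ≤ m) (hDm : D.natDegree ≤ m)
    (hs : ∀ ρ σ : PowerSeries K, Pt τ z' c ρ σ →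
      (N : PowerSeries K) = PowerSeries.X * ρ ^ 2 * (D : PowerSeries K)) : h ≤ m := by
  obtain ⟨ρ, σ, n, d, ν, δ, P, cop, hn, Ln, Ld, hb⟩ := H
  have hN := hs ρ σ P
  have e : n * D = N * d := by
    apply Polynomial.coe_injective K
    rw [Polynomial.coe_mul, Polynomial.coe_mul, hn, hN]
    ring
  have hd : d ∣ D := cop.symm.dvd_of_dvd_mul_left ⟨N, by rw [e]; ring⟩
  rcases b with _ | _
  · simp only [Bool.false_eq_true, if_false] at hb
    have h1 := natDegree_le_of_dvd hd hD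
    have h2 : h ≤ d.natDegree := le_natDegree_of_ne_zero (by rw [Ld.2]; exact hb.2)
    omega
  · simp only [if_true] at hb
    have hn0 : n ≠ 0 := by
      intro h0
      apply hb.1
      rw [← Ln.2, h0, coeff_zero]
    have hN0 : N ≠ 0 := by
      intro h0
      rw [h0, zero_mul] at e
      exact mul_ne_zero hn0 hD e
    have hnN : n ∣ N := cop.dvd_of_dvd_mul_right ⟨D, by rw [← e]⟩
    have h1 := natDegree_le_of_dvd hnN hN0
    have h2 : h ≤ n.natDegree := le_natDegree_of_ne_zero (by rw [Ln.2]; exact hb.1)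
    omega

end ht

end Pool.Agent.H37.Sun
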