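import Mathlib
import Pool.Agent.H37.Sun.Cv5

/-! The two curves with complex multiplication by `√-6`: heights of all isogenies. -/

namespace Pool.Agent.H37.Sun

section ids

/-- polynomial identities behind the isogeny of degree 5 -/
theorem id5Q {A : Type*} [CommRing A] (s t i X : A) (hs : s ^ 2 = 2) (ht : t ^ 2 = 3) (hi : i ^ 2 = -1) :
    (1 - 2 * (2 * t - s * t) * X + X ^ 2) * (1 + t * (1 - s) * X) ^ 2
      - (i * s * (s - 1)) ^ 2 * X ^ 2 * (t * (1 - s) + X) ^ 2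
    = (1 + (-t + i * (5 - 4 * s)) * X + (2 - s - i * t * (1 - s)) * X ^ 2)
      * (1 + (-t - i * (5 - 4 * s)) * X + (2 - s + i * t * (1 - s)) * X ^ 2) := by
  linear_combination ((-1) * X ^ 2 * i ^ 2 * s ^ 4 * t ^ 2 + 4 * X ^ 2 * i ^ 2 * s ^ 3 * t ^ 2 + 2 * X ^ 3 * i ^ 2 * s ^ 3 * t + (-8) * X ^ 2 * i ^ 2 * s ^ 2 * t ^ 2 + (-6) * X ^ 3 * i ^ 2 * s ^ 2 * t + (-1) * X ^ 4 * i ^ 2 * s ^ 2 + X ^ 4 * i ^ 2 * t ^ 2 + 12 * X ^ 2 * i ^ 2 * s * t ^ 2 + 10 * X ^ 3 * i ^ 2 * s * t + 2 * X ^ 3 * s * t ^ 3 + 2 * X ^ 4 * i ^ 2 * s + (-17) * X ^ 2 * i ^ 2 * t ^ 2 + (-22) * X ^ 3 * i ^ 2 * t + (-8) * X ^ 3 * t ^ 3 + (-3) * X ^ 4 * i ^ 2 + X ^ 4 * t ^ 2 + 16 * X ^ 2 * i ^ 2 + (-3) * X ^ 2 * t ^ 2 + (-1) * X ^ 4) * hs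
    + ((-2) * X ^ 4 * i ^ 2 * s + 3 * X ^ 4 * i ^ 2 + 24 * X ^ 2 * i ^ 2 * s + 14 * X ^ 3 * s * t + (-2) * X ^ 4 * s + (-34) * X ^ 2 * i ^ 2 + (-20) * X ^ 3 * t + 3 * X ^ 4 + 10 * X ^ 2 * s + (-14) * X ^ 2) * ht
    + (38 * X ^ 3 * s * t + (-2) * X ^ 4 * s + (-54) * X ^ 3 * t + 3 * X ^ 4 + 32 * X ^ 2 * s + (-45) * X ^ 2) * hi

theorem id5N {A : Type*} [CommRing A] (s t i X : A) (hs : s ^ 2 = 2) (ht : t ^ 2 = 3) (hi : i ^ 2 = -1) :
    i * s * (s - 1) * (1 + -2 * t * X + X ^ 2) * (1 - 2 * (2 * t - s * t) * X + X ^ 2)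
      + (t * (1 - s) + X) * (1 + t * (1 - s) * X) * (1 - X ^ 2)
    = (i * X ^ 2 + i * (-t + i * (5 - 4 * s)) * X + i * (2 - s - i * t * (1 - s)))
      * (1 + (-t - i * (5 - 4 * s)) * X + (2 - s + i * t * (1 - s)) * X ^ 2) := by
  linear_combination (X ^ 2 * i ^ 3 * t ^ 2 + (-4) * X ^ 3 * i ^ 3 * t + (-4) * X ^ 2 * i * s * t ^ 2 + 2 * X ^ 3 * i * s * t + (-4) * X * i ^ 3 * t + 12 * X ^ 2 * i * t ^ 2 + 16 * X ^ 2 * i ^ 3 + (-8) * X ^ 3 * i * t + (-4) * X ^ 3 * i ^ 2 + (-1) * X ^ 3 * t ^ 2 + X ^ 4 * i + 2 * X * i * s * t + (-8) * X * i * t + 4 * X * i ^ 2 + X * t ^ 2 + X ^ 2 * i + i) * hs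
    + ((-2) * X ^ 2 * i ^ 3 * s + (-1) * X ^ 3 * i ^ 2 * s + 3 * X ^ 2 * i ^ 3 + X ^ 3 * i ^ 2 + X * i ^ 2 * s + (-16) * X ^ 2 * i * s + 2 * X ^ 3 * s + (-1) * X * i ^ 2 + 23 * X ^ 2 * i + (-3) * X ^ 3 + (-2) * X * s + 3 * X) * ht
    + (9 * X ^ 3 * i * s * t + X ^ 4 * s * t + (-13) * X ^ 3 * i * t + (-1) * X ^ 4 * t + 9 * X * i * s * t + (-46) * X ^ 2 * i * s + 6 * X ^ 3 * s + (-13) * X * i * t + 66 * X ^ 2 * i + (-10) * X ^ 3 + (-6) * X * s + (-1) * s * t + 10 * X + t) * hi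

theorem id5M {A : Type*} [CommRing A] (s t i X : A) (hs : s ^ 2 = 2) (ht : t ^ 2 = 3) (hi : i ^ 2 = -1) :
    i * s * (s - 1) * (1 + -2 * t * X + X ^ 2) * (1 - 2 * (2 * t - s * t) * X + X ^ 2)
      - (t * (1 - s) + X) * (1 + t * (1 - s) * X) * (1 - X ^ 2)
    = (i * X ^ 2 + i * (-t - i * (5 - 4 * s)) * X + i * (2 - s + i * t * (1 - s)))
      * (1 + (-t + i * (5 - 4 * s)) * X + (2 - s - i * t * (1 - s)) * X ^ 2) := by
  linear_combination (X ^ 2 * i ^ 3 * t ^ 2 + (-4) * X ^ 3 * i ^ 3 * t + (-4) * X ^ 2 * i * s * t ^ 2 + 2 * X ^ 3 * i * s * t + (-4) * X * i ^ 3 * t + 12 * X ^ 2 * i * t ^ 2 + 16 * X ^ 2 * i ^ 3 + (-8) * X ^ 3 * i * t + 4 * X ^ 3 * i ^ 2 + X ^ 3 * t ^ 2 + X ^ 4 * i + 2 * X * i * s * t + (-8) * X * i * t + (-4) * X * i ^ 2 + (-1) * X * t ^ 2 + X ^ 2 * i + i) * hs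
    + ((-2) * X ^ 2 * i ^ 3 * s + X ^ 3 * i ^ 2 * s + 3 * X ^ 2 * i ^ 3 + (-1) * X ^ 3 * i ^ 2 + (-1) * X * i ^ 2 * s + (-16) * X ^ 2 * i * s + (-2) * X ^ 3 * s + X * i ^ 2 + 23 * X ^ 2 * i + 3 * X ^ 3 + 2 * X * s + (-3) * X) * ht
    + (9 * X ^ 3 * i * s * t + (-1) * X ^ 4 * s * t + (-13) * X ^ 3 * i * t + X ^ 4 * t + 9 * X * i * s * t + (-46) * X ^ 2 * i * s + (-6) * X ^ 3 * s + (-13) * X * i * t + 66 * X ^ 2 * i + 10 * X ^ 3 + 6 * X * s + s * t + (-10) * X + (-1) * t) * hi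

theorem gen_alg {A : Type*} [CommRing A] (τ I B J β X ζ M ε ρ U : A) (hI : τ * I = 1)
    (hJ : B * J = 1) (hε : ε ^ 2 = 1)
    (hU : (1 - (X * (ζ * 1 * I) * (ε * ((β + X) * J))) ^ 2) * U = 1)
    (hρ : ρ = ((ζ * 1 * I) * (τ * M * J ^ 2)
        + (ε * ((β + X) * J)) * ((1 - (X * 1 ^ 2) ^ 2) * I ^ 2)) * U) :
    ρ * (τ ^ 2 * B ^ 2 - ζ ^ 2 * X ^ 2 * (β + X) ^ 2)
      = ζ * M * τ ^ 2 + ε * ((β + X) * B * (1 - X ^ 2)) := by
  have e1 : τ ^ 2 * B ^ 2 - ζ ^ 2 * X ^ 2 * (β + X) ^ 2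
      = (1 - (X * (ζ * 1 * I) * (ε * ((β + X) * J))) ^ 2) * (τ ^ 2 * B ^ 2) := by
    have : (1 - (X * (ζ * 1 * I) * (ε * ((β + X) * J))) ^ 2) * (τ ^ 2 * B ^ 2)
        = τ ^ 2 * B ^ 2 - X ^ 2 * ζ ^ 2 * (τ * I) ^ 2 * ε ^ 2 * (β + X) ^ 2 * (B * J) ^ 2 := by ring
    rw [this, hI, hJ, hε]
    ring
  rw [e1, hρ]
  have e2 : ((ζ * 1 * I) * (τ * M * J ^ 2)
        + (ε * ((β + X) * J)) * ((1 - (X * 1 ^ 2) ^ 2) * I ^ 2)) * U
        * ((1 - (X * (ζ * 1 * I) * (ε * ((β + X) * J))) ^ 2) * (τ ^ 2 * B ^ 2))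
      = (ζ * M * τ ^ 2 * (τ * I) * (B * J) ^ 2 + ε * (β + X) * (1 - X ^ 2) * (τ * I) ^ 2 * (B * J) * B)
        * ((1 - (X * (ζ * 1 * I) * (ε * ((β + X) * J))) ^ 2) * U) := by ring
  rw [e2, hU, hI, hJ]
  ring

end ids

open Polynomial

section cm
variable {K : Type*} [Field K] [CharZero K] {s t i : K} (hs : s ^ 2 = 2) (ht : t ^ 2 = 3)
  (hi : i ^ 2 = -1) {τ : PowerSeries K}
  (hτ : τ ^ 2 = 1 - 2 * PowerSeries.C (2 * t - s * t) * PowerSeries.X + PowerSeries.X ^ 2)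
  (hτ0 : PowerSeries.constantCoeff τ = 1)

include hs ht in
theorem v_sq_ne : (2 * t + s * t) ^ 2 ≠ 1 := by
  intro h
  have h1 : 12 * s = -17 := by
    linear_combination h - (4 + 4 * s + s ^ 2) * ht - 3 * hs
  have h2 : (144 : K) * 2 = 289 := by
    linear_combination (12 * s - 17) * h1 - 144 * hs
  norm_num at h2

include hs ht in
theorem u_sq_ne : (2 * t - s * t) ^ 2 ≠ 1 := by
  intro h
  have h1 : 12 * s = 17 := by
    linear_combination -h + (4 - 4 * s + s ^ 2) * ht + 3 * hs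
  have h2 : (144 : K) * 2 = 289 := by
    linear_combination (12 * s + 17) * h1 - 144 * hs
  norm_num at h2

include hs hi in
theorem ζ_ne : i * s * (s - 1) ≠ 0 := by
  intro h0
  have h1 : (i * s * (s - 1)) ^ 2 * (s + 1) ^ 2 = 0 := by rw [h0]; ring
  have h2 : (i * s * (s - 1)) ^ 2 * (s + 1) ^ 2 = -2 := by
    linear_combination (i ^ 2 * s ^ 4 + i ^ 2) * hs + (2) * hi
  rw [h2] at h1
  norm_num at h1

include hs hi in
theorem ζ'_ne : i * s * (s + 1) ≠ 0 := by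
  intro h0
  have h1 : (i * s * (s + 1)) ^ 2 * (s - 1) ^ 2 = 0 := by rw [h0]; ring
  have h2 : (i * s * (s + 1)) ^ 2 * (s - 1) ^ 2 = -2 := by
    linear_combination (i ^ 2 * s ^ 4 + i ^ 2) * hs + (2) * hi
  rw [h2] at h1
  norm_num at h1

include hs ht hi hτ hτ0

theorem H2 : HT τ (2 * t + s * t) false (i * s * (s - 1)) 2 := by
  have := (HT.id hτ hτ0).comp2 (z'' := 2 * t + s * t) (ζ := i * s * (s - 1))
    (by linear_combination (i ^ 2 * s ^ 3 * t + (-1) * i ^ 2 * s * t + 2 * i ^ 2 * t) * hs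
          + ((-2) * s * t + 4 * t) * hi)
    (by linear_combination (i ^ 4 * s ^ 6 + (-4) * i ^ 4 * s ^ 5 + 8 * i ^ 4 * s ^ 4
          + (-12) * i ^ 4 * s ^ 3 + 17 * i ^ 4 * s ^ 2 + (-24) * i ^ 4 * s + 34 * i ^ 4
          + (-4) * t ^ 2) * hs + (16 * s + (-24)) * ht
          + ((-48) * i ^ 2 * s + 68 * i ^ 2 + 48 * s + (-68)) * hi) (ζ_ne hs hi)
  simpa using this

omit hi in
theorem H3 : HT τ (2 * t + s * t) true (t * (1 - s)) 3 := by
  apply HT.three (m := -2 * t) hτ hτ0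
  · linear_combination (t ^ 2) * hs + (1) * ht
  · linear_combination ((-2) * s * t ^ 3) * hs + (2 * s * t + (-4) * t) * ht
  · linear_combination (5 * s ^ 2 * t ^ 4 + (-8) * s * t ^ 4 + 4 * t ^ 4 + 10 * t ^ 2) * hs
      + (t ^ 2 + 1) * ht
  · linear_combination ((-2) * s ^ 3 * t ^ 5 + 4 * s ^ 2 * t ^ 5 + (-8) * t ^ 5
      + (-16) * s * t ^ 3 + 24 * t ^ 3) * hs + (14 * s * t ^ 3 + (-20) * t ^ 3 + 2 * s * t
      + (-4) * t) * ht
  · intro h
    have h1 : 3 * s = 4 := by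
      linear_combination (-(1 / 2) : K) * h + (1 / 2) * (1 - s) ^ 2 * ht
        + (3 / 2 : K) * hs
    have h2 : (9 : K) * 2 = 16 := by linear_combination (3 * s + 4) * h1 - 9 * hs
    norm_num at h2

theorem H6 : HT τ (2 * t - s * t) false (-(i * s * t)) 6 := by
  have := (H3 hs ht hτ hτ0).comp2 (z'' := 2 * t - s * t) (ζ := i * s * (s + 1))
    (by linear_combination ((-1) * i ^ 2 * s ^ 3 * t + i ^ 2 * s * t + 2 * i ^ 2 * t) * hs
          + (2 * s * t + 4 * t) * hi)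
    (by linear_combination (i ^ 4 * s ^ 6 + 4 * i ^ 4 * s ^ 5 + 8 * i ^ 4 * s ^ 4
          + 12 * i ^ 4 * s ^ 3 + 17 * i ^ 4 * s ^ 2 + 24 * i ^ 4 * s + 34 * i ^ 4
          + (-4) * t ^ 2) * hs + ((-16) * s + (-24)) * ht
          + (48 * i ^ 2 * s + 68 * i ^ 2 + (-48) * s + (-68)) * hi) (ζ'_ne hs hi)
  rwa [show (i * s * (s + 1)) * (t * (1 - s)) = -(i * s * t) by
    linear_combination ((-1) * i * s * t) * hs] at this

/-- the sum of the 2-isogeny and the 3-isogeny has degree 5 -/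
theorem H5 : HT τ (2 * t + s * t) true (i * s * (s - 1) + t * (1 - s)) 5 ∧
    HT τ (2 * t + s * t) true (i * s * (s - 1) - t * (1 - s)) 5 := by
  have h2 := H2 hs ht hi hτ hτ0
  have h3 := H3 hs ht hτ hτ0
  obtain ⟨k₂, k₃, K₂, K₃, hk⟩ := law _ _ (v_sq_ne hs ht) hτ (h2.ne_zero hτ0 (by norm_num))
    (h3.ne_zero hτ0 (by norm_num)) h2 h3
  -- the two points
  have hu : IsUnit τ := by
    rw [PowerSeries.isUnit_iff_constantCoeff, hτ0]
    exact isUnit_one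
  obtain ⟨I, hI⟩ := hu.exists_right_inv
  have hu2 : IsUnit (1 + PowerSeries.C (t * (1 - s)) * PowerSeries.X : PowerSeries K) := by
    rw [PowerSeries.isUnit_iff_constantCoeff]
    simp
  obtain ⟨J, hJ⟩ := hu2.exists_right_inv
  have P2 := (Pt.id hτ hτ0).comp2 (z'' := 2 * t + s * t) (ζ := i * s * (s - 1)) hI
    (by linear_combination (i ^ 2 * s ^ 3 * t + (-1) * i ^ 2 * s * t + 2 * i ^ 2 * t) * hs
          + ((-2) * s * t + 4 * t) * hi)
    (by linear_combination (i ^ 4 * s ^ 6 + (-4) * i ^ 4 * s ^ 5 + 8 * i ^ 4 * s ^ 4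
          + (-12) * i ^ 4 * s ^ 3 + 17 * i ^ 4 * s ^ 2 + (-24) * i ^ 4 * s + 34 * i ^ 4
          + (-4) * t ^ 2) * hs + (16 * s + (-24)) * ht
          + ((-48) * i ^ 2 * s + 68 * i ^ 2 + 48 * s + (-68)) * hi)
  have P3 := Pt.three (z' := 2 * t + s * t) (β := t * (1 - s)) (m := -2 * t) hτ hτ0 hJ
    (by linear_combination (t ^ 2) * hs + (1) * ht)
    (by linear_combination ((-2) * s * t ^ 3) * hs + (2 * s * t + (-4) * t) * ht)
    (by linear_combination (5 * s ^ 2 * t ^ 4 + (-8) * s * t ^ 4 + 4 * t ^ 4 + 10 * t ^ 2) * hs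
      + (t ^ 2 + 1) * ht)
    (by linear_combination ((-2) * s ^ 3 * t ^ 5 + 4 * s ^ 2 * t ^ 5 + (-8) * t ^ 5
      + (-16) * s * t ^ 3 + 24 * t ^ 3) * hs + (14 * s * t ^ 3 + (-20) * t ^ 3 + 2 * s * t
      + (-4) * t) * ht)
  rw [mul_one] at P2
  have sC : (PowerSeries.C s : PowerSeries K) ^ 2 = 2 := by
    rw [← map_pow, hs, map_ofNat]
  have tC : (PowerSeries.C t : PowerSeries K) ^ 2 = 3 := by
    rw [← map_pow, ht, map_ofNat]
  have iC : (PowerSeries.C i : PowerSeries K) ^ 2 = -1 := by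
    rw [← map_pow, hi, map_neg, map_one]
  have q1 := id5Q (PowerSeries.C s) (PowerSeries.C t) (PowerSeries.C i)
    (PowerSeries.X : PowerSeries K) sC tC iC
  have q2 := id5N (PowerSeries.C s) (PowerSeries.C t) (PowerSeries.C i)
    (PowerSeries.X : PowerSeries K) sC tC iC
  have q3 := id5M (PowerSeries.C s) (PowerSeries.C t) (PowerSeries.C i)
    (PowerSeries.X : PowerSeries K) sC tC iC
  have hτ' : τ ^ 2 = 1 - 2 * (2 * PowerSeries.C t - PowerSeries.C s * PowerSeries.C t)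
      * PowerSeries.X + PowerSeries.X ^ 2 := by
    rw [hτ]
    simp only [map_sub, map_mul, map_ofNat]
  simp only [map_sub, map_mul, map_ofNat, map_one, map_neg] at P2 P3 hJ
  have hu3 : IsUnit (1 - (PowerSeries.X * (PowerSeries.C i * PowerSeries.C s * (PowerSeries.C s - 1) * 1 * I)
      * ((PowerSeries.C t * (1 - PowerSeries.C s) + PowerSeries.X) * J)) ^ 2 : PowerSeries K) := by
    rw [PowerSeries.isUnit_iff_constantCoeff]
    simp
  obtain ⟨U, hU⟩ := hu3.exists_right_inv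
  have hU' : (1 - (PowerSeries.X * (PowerSeries.C i * PowerSeries.C s * (PowerSeries.C s - 1) * 1 * I)
      * (-((PowerSeries.C t * (1 - PowerSeries.C s) + PowerSeries.X) * J))) ^ 2 : PowerSeries K) * U = 1 := by
    linear_combination hU
  have A1 := P2.add P3 hU
  have A2 := P2.add P3.neg hU'
  have G1 := gen_alg τ I (1 + PowerSeries.C t * (1 - PowerSeries.C s) * PowerSeries.X) J
    (PowerSeries.C t * (1 - PowerSeries.C s)) PowerSeries.X
    (PowerSeries.C i * PowerSeries.C s * (PowerSeries.C s - 1))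
    (1 + -2 * PowerSeries.C t * PowerSeries.X + PowerSeries.X ^ 2) 1 _ U hI hJ (by ring)
    (by linear_combination hU) rfl
  have G2 := gen_alg τ I (1 + PowerSeries.C t * (1 - PowerSeries.C s) * PowerSeries.X) J
    (PowerSeries.C t * (1 - PowerSeries.C s)) PowerSeries.X
    (PowerSeries.C i * PowerSeries.C s * (PowerSeries.C s - 1))
    (1 + -2 * PowerSeries.C t * PowerSeries.X + PowerSeries.X ^ 2) (-1) _ U hI hJ (by ring)
    (by linear_combination hU) rfl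
  rw [hτ'] at G1 G2
  rw [q1] at G1 G2
  have cancel : ∀ D : PowerSeries K, PowerSeries.constantCoeff D = 1 → D ≠ 0 := by
    intro D hD h0
    rw [h0, map_zero] at hD
    exact zero_ne_one hD
  have deg2 : ∀ a b c : K, (C a * X ^ 2 + C b * X + C c : K[X]).natDegree ≤ 2 :=
    fun a b c => natDegree_quadratic_le
  have degN : ∀ a b c : K, (X * (C a * X ^ 2 + C b * X + C c) ^ 2 : K[X]).natDegree ≤ 5 := by
    intro a b c
    refine natDegree_mul_le.trans ?_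
    have h1 := natDegree_pow_le (p := (C a * X ^ 2 + C b * X + C c : K[X])) (n := 2)
    have h2 := deg2 a b c
    have h3 : (X : K[X]).natDegree ≤ 1 := natDegree_X_le
    omega
  have degD : ∀ a b c : K, ((C a * X ^ 2 + C b * X + C c) ^ 2 : K[X]).natDegree ≤ 5 := by
    intro a b c
    have h1 := natDegree_pow_le (p := (C a * X ^ 2 + C b * X + C c : K[X])) (n := 2)
    have h2 := deg2 a b c
    omega
  have hDne : ∀ a b : K, ((C a * X ^ 2 + C b * X + C 1) ^ 2 : K[X]) ≠ 0 := by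
    intro a b h0
    have h1 := congrArg (fun q : K[X] => q.eval 0) h0
    simp at h1
  have B1 : k₂ ≤ 5 := by
    apply K₂.bound (X * (C i * X ^ 2 + C (i * (-t + i * (5 - 4 * s))) * X
      + C (i * (2 - s - i * t * (1 - s)))) ^ 2)
      ((C (2 - s - i * t * (1 - s)) * X ^ 2 + C (-t + i * (5 - 4 * s)) * X + C 1) ^ 2)
      (hDne _ _) 5 (degN _ _ _) (degD _ _ _)
    intro ρ σ P
    have hρ := P.unique hτ0 (c := i * s * (s - 1) + t * (1 - s)) (by
      have := A1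
      simpa using this)
    have key : ρ * (1 + (-PowerSeries.C t + PowerSeries.C i * (5 - 4 * PowerSeries.C s)) * PowerSeries.X
      + (2 - PowerSeries.C s - PowerSeries.C i * PowerSeries.C t * (1 - PowerSeries.C s)) * PowerSeries.X ^ 2)
        = (PowerSeries.C i * PowerSeries.X ^ 2
      + PowerSeries.C i * (-PowerSeries.C t + PowerSeries.C i * (5 - 4 * PowerSeries.C s)) * PowerSeries.X
      + PowerSeries.C i * (2 - PowerSeries.C s - PowerSeries.C i * PowerSeries.C t * (1 - PowerSeries.C s))) := by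
      apply mul_right_cancel₀ (cancel (1 + (-PowerSeries.C t - PowerSeries.C i * (5 - 4 * PowerSeries.C s)) * PowerSeries.X
      + (2 - PowerSeries.C s + PowerSeries.C i * PowerSeries.C t * (1 - PowerSeries.C s)) * PowerSeries.X ^ 2) (by simp))
      rw [hρ, addρ]
      linear_combination G1 + q2
    simp only [Polynomial.coe_add, Polynomial.coe_mul, Polynomial.coe_C, Polynomial.coe_X,
      Polynomial.coe_pow]
    simp only [map_sub, map_add, map_mul, map_ofNat, map_one, map_neg]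
    linear_combination -PowerSeries.X * (ρ * (1 + (-PowerSeries.C t + PowerSeries.C i * (5 - 4 * PowerSeries.C s)) * PowerSeries.X
      + (2 - PowerSeries.C s - PowerSeries.C i * PowerSeries.C t * (1 - PowerSeries.C s)) * PowerSeries.X ^ 2) + (PowerSeries.C i * PowerSeries.X ^ 2
      + PowerSeries.C i * (-PowerSeries.C t + PowerSeries.C i * (5 - 4 * PowerSeries.C s)) * PowerSeries.X
      + PowerSeries.C i * (2 - PowerSeries.C s - PowerSeries.C i * PowerSeries.C t * (1 - PowerSeries.C s)))) * key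
  have B2 : k₃ ≤ 5 := by
    apply K₃.bound (X * (C i * X ^ 2 + C (i * (-t - i * (5 - 4 * s))) * X
      + C (i * (2 - s + i * t * (1 - s)))) ^ 2)
      ((C (2 - s + i * t * (1 - s)) * X ^ 2 + C (-t - i * (5 - 4 * s)) * X + C 1) ^ 2)
      (hDne _ _) 5 (degN _ _ _) (degD _ _ _)
    intro ρ σ P
    have hρ := P.unique hτ0 (c := i * s * (s - 1) - t * (1 - s)) (by
      have := A2
      rwa [← sub_eq_add_neg] at this)
    have key : ρ * (1 + (-PowerSeries.C t - PowerSeries.C i * (5 - 4 * PowerSeries.C s)) * PowerSeries.X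
      + (2 - PowerSeries.C s + PowerSeries.C i * PowerSeries.C t * (1 - PowerSeries.C s)) * PowerSeries.X ^ 2)
        = (PowerSeries.C i * PowerSeries.X ^ 2
      + PowerSeries.C i * (-PowerSeries.C t - PowerSeries.C i * (5 - 4 * PowerSeries.C s)) * PowerSeries.X
      + PowerSeries.C i * (2 - PowerSeries.C s + PowerSeries.C i * PowerSeries.C t * (1 - PowerSeries.C s))) := by
      apply mul_right_cancel₀ (cancel (1 + (-PowerSeries.C t + PowerSeries.C i * (5 - 4 * PowerSeries.C s)) * PowerSeries.X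
      + (2 - PowerSeries.C s - PowerSeries.C i * PowerSeries.C t * (1 - PowerSeries.C s)) * PowerSeries.X ^ 2) (by simp))
      rw [hρ, addρ]
      linear_combination G2 + q3
    simp only [Polynomial.coe_add, Polynomial.coe_mul, Polynomial.coe_C, Polynomial.coe_X,
      Polynomial.coe_pow]
    simp only [map_sub, map_add, map_mul, map_ofNat, map_one, map_neg]
    linear_combination -PowerSeries.X * (ρ * (1 + (-PowerSeries.C t - PowerSeries.C i * (5 - 4 * PowerSeries.C s)) * PowerSeries.X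
      + (2 - PowerSeries.C s + PowerSeries.C i * PowerSeries.C t * (1 - PowerSeries.C s)) * PowerSeries.X ^ 2) + (PowerSeries.C i * PowerSeries.X ^ 2
      + PowerSeries.C i * (-PowerSeries.C t - PowerSeries.C i * (5 - 4 * PowerSeries.C s)) * PowerSeries.X
      + PowerSeries.C i * (2 - PowerSeries.C s + PowerSeries.C i * PowerSeries.C t * (1 - PowerSeries.C s)))) * key
  have e2 : k₂ = 5 := by omega
  have e3 : k₃ = 5 := by omega
  subst e2 e3
  rw [Bool.false_xor] at K₂ K₃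
  exact ⟨K₂, K₃⟩

end cm

end Pool.Agent.H37.Sun
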