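import Mathlib
import Pool.Agent.H37.Sun.Cv6

/-! Heights of all isogenies between the two curves. -/

namespace Pool.Agent.H37.Sun

theorem par_false (x : ℕ) : par false x = false := by simp [par]
theorem par_odd {x : ℕ} (hx : x % 2 = 1) : par true x = true := by simp [par, hx]

section cm
variable {K : Type*} [Field K] [CharZero K] {s t i : K} (hs : s ^ 2 = 2) (ht : t ^ 2 = 3)
  (hi : i ^ 2 = -1) {τ : PowerSeries K}
  (hτ : τ ^ 2 = 1 - 2 * PowerSeries.C (2 * t - s * t) * PowerSeries.X + PowerSeries.X ^ 2)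
  (hτ0 : PowerSeries.constantCoeff τ = 1)

include hs ht hi hτ hτ0

/-- isogenies `u → v`, first sign -/
theorem hom1 (x y : ℕ) : HT τ (2 * t + s * t) (par true y)
    (x * (i * s * (s - 1)) + y * (t * (1 - s))) (x ^ 2 * 2 + y ^ 2 * 3) := by
  have := (HT.lattice2 (v_sq_ne hs ht) hτ hτ0 (H2 hs ht hi hτ hτ0) (H3 hs ht hτ hτ0)
    (by
      have := (H5 hs ht hi hτ hτ0).1
      simpa using this) (by norm_num) (by norm_num) y x).1
  rwa [par_false, Bool.false_xor] at this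

/-- isogenies `u → v`, second sign -/
theorem hom2 (x y : ℕ) : HT τ (2 * t + s * t) (par true y)
    (x * (i * s * (s - 1)) - y * (t * (1 - s))) (x ^ 2 * 2 + y ^ 2 * 3) := by
  have := (HT.lattice2 (v_sq_ne hs ht) hτ hτ0 (H2 hs ht hi hτ hτ0) (H3 hs ht hτ hτ0).neg
    (by
      have := (H5 hs ht hi hτ hτ0).2
      simpa [sub_eq_add_neg] using this) (by norm_num) (by norm_num) y x).1
  rw [par_false, Bool.false_xor] at this
  rwa [sub_eq_add_neg, ← mul_neg]

/-- endomorphisms of `u`, first sign -/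
theorem end1 (x y : ℕ) : HT τ (2 * t - s * t) (par true x)
    (x + y * -(i * s * t)) (x ^ 2 + y ^ 2 * 6) := by
  have h1 := ((HT.id hτ hτ0).mul (u_sq_ne hs ht) hτ hτ0 (by norm_num) x).1
  have h2 := ((H6 hs ht hi hτ hτ0).mul (u_sq_ne hs ht) hτ hτ0 (by norm_num) y).1
  obtain ⟨k, hk⟩ := h1.closure (u_sq_ne hs ht) hτ hτ0 h2
  rw [par_false, Bool.xor_false, mul_one] at hk
  have h3 := hk.comp2 (z'' := 2 * t + s * t) (ζ := i * s * (s - 1))
    (by linear_combination (i ^ 2 * s ^ 3 * t + (-1) * i ^ 2 * s * t + 2 * i ^ 2 * t) * hs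
          + ((-2) * s * t + 4 * t) * hi)
    (by linear_combination (i ^ 4 * s ^ 6 + (-4) * i ^ 4 * s ^ 5 + 8 * i ^ 4 * s ^ 4
          + (-12) * i ^ 4 * s ^ 3 + 17 * i ^ 4 * s ^ 2 + (-24) * i ^ 4 * s + 34 * i ^ 4
          + (-4) * t ^ 2) * hs + (16 * s + (-24)) * ht
          + ((-48) * i ^ 2 * s + 68 * i ^ 2 + 48 * s + (-68)) * hi) (ζ_ne hs hi)
  have h4 := hom2 hs ht hi hτ hτ0 x (2 * y)
  have e : (i * s * (s - 1)) * (x + y * -(i * s * t))
      = x * (i * s * (s - 1)) - ((2 * y : ℕ) : K) * (t * (1 - s)) := by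
    push_cast
    linear_combination (-(y : K) * i ^ 2 * (s - 1) * t) * hs - (2 * (y : K) * (s - 1) * t) * hi
  rw [e] at h3
  have h5 := (h3.unique hτ0 h4).2
  have h6 : k = x ^ 2 + y ^ 2 * 6 := by nlinarith [h5]
  rw [← h6]
  exact hk

/-- endomorphisms of `u`, second sign -/
theorem end2 (x y : ℕ) : HT τ (2 * t - s * t) (par true x)
    (x + y * (i * s * t)) (x ^ 2 + y ^ 2 * 6) := by
  have h1 := ((HT.id hτ hτ0).mul (u_sq_ne hs ht) hτ hτ0 (by norm_num) x).1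
  have h2 := ((H6 hs ht hi hτ hτ0).neg.mul (u_sq_ne hs ht) hτ hτ0 (by norm_num) y).1
  obtain ⟨k, hk⟩ := h1.closure (u_sq_ne hs ht) hτ hτ0 h2
  rw [par_false, Bool.xor_false, mul_one, neg_neg] at hk
  have h3 := hk.comp2 (z'' := 2 * t + s * t) (ζ := i * s * (s - 1))
    (by linear_combination (i ^ 2 * s ^ 3 * t + (-1) * i ^ 2 * s * t + 2 * i ^ 2 * t) * hs
          + ((-2) * s * t + 4 * t) * hi)
    (by linear_combination (i ^ 4 * s ^ 6 + (-4) * i ^ 4 * s ^ 5 + 8 * i ^ 4 * s ^ 4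
          + (-12) * i ^ 4 * s ^ 3 + 17 * i ^ 4 * s ^ 2 + (-24) * i ^ 4 * s + 34 * i ^ 4
          + (-4) * t ^ 2) * hs + (16 * s + (-24)) * ht
          + ((-48) * i ^ 2 * s + 68 * i ^ 2 + 48 * s + (-68)) * hi) (ζ_ne hs hi)
  have h4 := hom1 hs ht hi hτ hτ0 x (2 * y)
  have e : (i * s * (s - 1)) * (x + y * (i * s * t))
      = x * (i * s * (s - 1)) + ((2 * y : ℕ) : K) * (t * (1 - s)) := by
    push_cast
    linear_combination ((y : K) * i ^ 2 * (s - 1) * t) * hs + (2 * (y : K) * (s - 1) * t) * hi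
  rw [e] at h3
  have h5 := (h3.unique hτ0 h4).2
  have h6 : k = x ^ 2 + y ^ 2 * 6 := by nlinarith [h5]
  rw [← h6]
  exact hk

end cm

end Pool.Agent.H37.Sun
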