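import Mathlib
import Pool.Agent.H37.Sun.Cv7

/-! Descent of the rational functions from the fraction field to a valuation ring. -/

namespace Pool.Agent.H37.Sun

open Polynomial

section
variable {R K : Type*} [CommRing R] [IsDomain R] [ValuationRing R] [Field K] [Algebra R K]
  [IsFractionRing R K]

theorem exists_max (S : Finset ℕ) (f : ℕ → K) (hne : ∃ j ∈ S, f j ≠ 0) :
    ∃ j ∈ S, f j ≠ 0 ∧ ∀ i ∈ S, ∃ r : R, algebraMap R K r * f j = f i := by
  obtain ⟨j₀, hj₀, hf₀⟩ := hne
  obtain ⟨j, hj, hmax⟩ := Finset.exists_max_image S (fun i => ValuationRing.valuation R K (f i))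
    ⟨j₀, hj₀⟩
  have hfj : f j ≠ 0 := by
    intro h0
    have := hmax j₀ hj₀
    rw [h0, map_zero, le_zero_iff, map_eq_zero] at this
    exact hf₀ this
  refine ⟨j, hj, hfj, fun i hi => ?_⟩
  have h1 : ValuationRing.valuation R K (f i / f j) ≤ 1 := by
    rw [map_div₀]
    exact div_le_one_of_le₀ (hmax i hi) zero_le
  have h2 : f i / f j ∈ (ValuationRing.valuation R K).integer := h1
  rw [ValuationRing.mem_integer_iff] at h2
  obtain ⟨r, hr⟩ := h2
  exact ⟨r, by rw [hr, div_mul_cancel₀ _ hfj]⟩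

theorem exists_primitive (d : K[X]) (h : ℕ) (hd : d.natDegree ≤ h) (hd0 : d ≠ 0) :
    ∃ (l : K) (D : R[X]), l ≠ 0 ∧ D.natDegree ≤ h ∧ d = C l * D.map (algebraMap R K) ∧
      ∃ i, D.coeff i = 1 := by
  have hne : ∃ j ∈ Finset.range (h + 1), d.coeff j ≠ 0 :=
    ⟨d.natDegree, Finset.mem_range.mpr (by omega), by
      rw [coeff_natDegree]; exact leadingCoeff_ne_zero.mpr hd0⟩
  obtain ⟨j, hj, hfj, hr⟩ := exists_max (R := R) (Finset.range (h + 1)) (fun i => d.coeff i) hne
  choose! r hr using hr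
  have hcoef : ∀ i, (∑ m ∈ Finset.range (h + 1), C (r m) * X ^ m : R[X]).coeff i
      = if i < h + 1 then r i else 0 := by
    intro i
    rw [finsetSum_coeff]
    simp only [coeff_C_mul_X_pow]
    rw [Finset.sum_ite_eq]
    simp only [Finset.mem_range]
  refine ⟨d.coeff j, ∑ m ∈ Finset.range (h + 1), C (r m) * X ^ m, hfj, ?_, ?_, j, ?_⟩
  · rw [natDegree_le_iff_coeff_eq_zero]
    intro m hm
    rw [hcoef, if_neg (by omega)]
  · ext i
    rw [coeff_C_mul, coeff_map, hcoef]
    by_cases hi : i < h + 1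
    · rw [if_pos hi, mul_comm]
      exact (hr i (Finset.mem_range.mpr hi)).symm
    · rw [if_neg hi, map_zero, mul_zero]
      exact coeff_eq_zero_of_natDegree_lt (by omega)
  · rw [hcoef, if_pos (Finset.mem_range.mp hj)]
    apply IsFractionRing.injective R K
    rw [map_one]
    have := hr j hj
    exact mul_right_cancel₀ hfj (by rw [this, one_mul])

theorem descend [CharZero R] [CharZero K] {τ ρ σ : PowerSeries R} (hτ0 : PowerSeries.constantCoeff τ = 1)
    {z' c : R} (P : Pt τ z' c ρ σ) {h : ℕ}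
    (H : HT (PowerSeries.map (algebraMap R K) τ) (algebraMap R K z') true (algebraMap R K c) h)
    (hsym : ∀ N D : K[X], IsCoprime N D →
      (N : PowerSeries K) = PowerSeries.X * (PowerSeries.map (algebraMap R K) ρ) ^ 2 * (D : PowerSeries K) →
      N.natDegree = h → N.coeff h ≠ 0 → D.natDegree ≤ h → D.coeff h = 0 →
      ∃ μ : K, μ ^ 2 = 1 ∧ ∀ i, i ≤ h → N.coeff i = μ * D.coeff (h - i)) :
    ∃ (N D : R[X]) (a : R), a ^ 2 = 1 ∧
      (N : PowerSeries R) = PowerSeries.X * ρ ^ 2 * (D : PowerSeries R) ∧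
      N.natDegree ≤ h ∧ D.natDegree ≤ h ∧ (∀ i, i ≤ h → N.coeff i = a * D.coeff (h - i)) ∧
      ∃ i, D.coeff i = 1 := by
  obtain ⟨ρ', σ', n, d, ν, δ, P', cop, hn, Ln, Ld, hb⟩ := H
  simp only [if_true] at hb
  have hτ0' : PowerSeries.constantCoeff (PowerSeries.map (algebraMap R K) τ) = 1 := by
    rw [← PowerSeries.coeff_zero_eq_constantCoeff_apply, PowerSeries.coeff_map,
      PowerSeries.coeff_zero_eq_constantCoeff_apply, hτ0, map_one]
  have hρ := P'.unique hτ0' (P.map (algebraMap R K))
  subst hρ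
  have hnd : n.natDegree = h := by
    apply le_antisymm Ln.1
    exact le_natDegree_of_ne_zero (by rw [Ln.2]; exact hb.1)
  obtain ⟨μ, hμ, hrel⟩ := hsym n d cop hn hnd (by rw [Ln.2]; exact hb.1) Ld.1 (by rw [Ld.2]; exact hb.2)
  have hd0 : d ≠ 0 := by
    intro h0
    rw [h0] at hn
    have : n = 0 := by
      apply Polynomial.coe_injective K
      rw [hn]; simp
    apply hb.1
    rw [← Ln.2, this, coeff_zero]
  obtain ⟨l, D, hl, hDd, hdD, hprim⟩ := exists_primitive (R := R) d h Ld.1 hd0
  obtain ⟨a, ha, haμ⟩ : ∃ a : R, a ^ 2 = 1 ∧ algebraMap R K a = μ := by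
    have hμ' : μ * μ = 1 := by rw [← pow_two]; exact hμ
    rcases mul_self_eq_one_iff.mp hμ' with h1 | h1
    · exact ⟨1, one_pow 2, by rw [map_one, h1]⟩
    · exact ⟨-1, by ring, by rw [map_neg, map_one, h1]⟩
  have hcN : ∀ i, (∑ m ∈ Finset.range (h + 1), C (a * D.coeff (h - m)) * X ^ m : R[X]).coeff i
      = if i < h + 1 then a * D.coeff (h - i) else 0 := by
    intro i
    rw [finsetSum_coeff]
    simp only [coeff_C_mul_X_pow]
    rw [Finset.sum_ite_eq]
    simp only [Finset.mem_range]
  refine ⟨∑ m ∈ Finset.range (h + 1), C (a * D.coeff (h - m)) * X ^ m, D, a, ha, ?_, ?_, hDd, ?_, hprim⟩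
  · have hinj : Function.Injective (PowerSeries.map (algebraMap R K)) := by
      intro f g hfg
      ext i
      apply IsFractionRing.injective R K
      have := congrArg (PowerSeries.coeff i) hfg
      rwa [PowerSeries.coeff_map, PowerSeries.coeff_map] at this
    apply hinj
    have e1 : n = C l * (∑ m ∈ Finset.range (h + 1), C (a * D.coeff (h - m)) * X ^ m : R[X]).map
        (algebraMap R K) := by
      ext i
      rw [coeff_C_mul, coeff_map, hcN]
      by_cases hi : i < h + 1
      · rw [if_pos hi, hrel i (by omega), map_mul, haμ]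
        have := congrArg (fun q : K[X] => q.coeff (h - i)) hdD
        simp only [coeff_C_mul, coeff_map] at this
        rw [this]; ring
      · rw [if_neg hi, map_zero, mul_zero]
        exact coeff_eq_zero_of_natDegree_lt (by omega)
    have e2 : ∀ q : R[X], PowerSeries.map (algebraMap R K) (q : PowerSeries R)
        = ((q.map (algebraMap R K) : K[X]) : PowerSeries K) := by
      intro q
      ext i
      simp
    have hl' : (PowerSeries.C l : PowerSeries K) ≠ 0 := by
      intro h0
      apply hl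
      have := congrArg PowerSeries.constantCoeff h0
      simpa using this
    apply mul_left_cancel₀ hl'
    rw [e2, map_mul, map_mul, map_pow, PowerSeries.map_X, e2]
    rw [e1, hdD, Polynomial.coe_mul, Polynomial.coe_mul, Polynomial.coe_C] at hn
    rw [hn]; ring
  · rw [natDegree_le_iff_coeff_eq_zero]
    intro m hm
    rw [hcN, if_neg (by omega)]
  · intro i hi
    rw [hcN, if_pos (by omega)]

end

end Pool.Agent.H37.Sun
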