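import Mathlib
import Pool.Agent.H37.Sun.Cv8
import Pool.Agent.H37.Sun.Tri

/-! Points over the base ring. -/

namespace Pool.Agent.H37.Sun

section
variable {R : Type*} [CommRing R] [IsDomain R] [CharZero R]

theorem tau_exists (z w : R) (hw : 4 * w = z ^ 2 - 1) : ∃ τ : PowerSeries R,
    τ ^ 2 = 1 - 2 * PowerSeries.C z * PowerSeries.X + PowerSeries.X ^ 2 ∧
    PowerSeries.constantCoeff τ = 1 ∧ τ * PowerSeries.mk (fun j => T j z w) = 1 := by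
  have h := genT z w
  rw [show z ^ 2 - 4 * w = 1 by rw [hw]; ring, map_one, one_mul] at h
  refine ⟨(1 - 2 * PowerSeries.C z * PowerSeries.X + PowerSeries.X ^ 2)
    * PowerSeries.mk (fun j => T j z w), ?_, ?_, ?_⟩
  · linear_combination (1 - 2 * PowerSeries.C z * PowerSeries.X + PowerSeries.X ^ 2) * h
  · rw [map_mul]
    have : PowerSeries.constantCoeff (PowerSeries.mk (fun j => T j z w)) = 1 := by
      rw [← PowerSeries.coeff_zero_eq_constantCoeff_apply, PowerSeries.coeff_mk, T_zero]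
    rw [this]
    simp
  · linear_combination h

theorem Pt.nat_mul {τ : PowerSeries R} {z' c : R} (h : ∃ ρ σ, Pt τ z' c ρ σ) (m : ℕ) :
    ∃ ρ σ, Pt τ z' (m * c) ρ σ := by
  induction m with
  | zero =>
    refine ⟨0, 1, ?_⟩
    rw [Nat.cast_zero, zero_mul]
    exact Pt.zero τ z'
  | succ m ih =>
    obtain ⟨ρ, σ, P⟩ := ih
    obtain ⟨ρ₁, σ₁, P₁⟩ := h
    obtain ⟨ρ₂, σ₂, P₂⟩ := P.exists_add P₁
    refine ⟨ρ₂, σ₂, ?_⟩
    rwa [show ((m + 1 : ℕ) : R) * c = m * c + c by push_cast; ring]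

theorem Pt.ex_add {τ : PowerSeries R} {z' c c₁ : R} (h : ∃ ρ σ, Pt τ z' c ρ σ)
    (h₁ : ∃ ρ σ, Pt τ z' c₁ ρ σ) : ∃ ρ σ, Pt τ z' (c + c₁) ρ σ := by
  obtain ⟨ρ, σ, P⟩ := h
  obtain ⟨ρ₁, σ₁, P₁⟩ := h₁
  exact P.exists_add P₁

omit [IsDomain R] [CharZero R] in
theorem Pt.ex_neg {τ : PowerSeries R} {z' c : R} (h : ∃ ρ σ, Pt τ z' c ρ σ) :
    ∃ ρ σ, Pt τ z' (-c) ρ σ := by
  obtain ⟨ρ, σ, P⟩ := h
  exact ⟨_, _, P.neg⟩

theorem Pt.ex_comp2 {τ : PowerSeries R} {z' z'' ζ c : R} (h : ∃ ρ σ, Pt τ z' c ρ σ)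
    (h1 : ζ ^ 2 * z'' = -2 * z') (h2 : ζ ^ 4 = 4 * (z' ^ 2 - 1)) : ∃ ρ σ, Pt τ z'' (ζ * c) ρ σ := by
  obtain ⟨ρ, σ, P⟩ := h
  have hu : IsUnit σ := by
    rw [PowerSeries.isUnit_iff_constantCoeff, P.e4]
    exact isUnit_one
  obtain ⟨I, hI⟩ := hu.exists_right_inv
  exact ⟨_, _, P.comp2 hI h1 h2⟩

end

section cm
variable {R : Type*} [CommRing R] [IsDomain R] [CharZero R] {s t i : R} (hs : s ^ 2 = 2)
  (ht : t ^ 2 = 3) (hi : i ^ 2 = -1) {τ : PowerSeries R}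
  (hτ : τ ^ 2 = 1 - 2 * PowerSeries.C (2 * t - s * t) * PowerSeries.X + PowerSeries.X ^ 2)
  (hτ0 : PowerSeries.constantCoeff τ = 1)

include hs ht hi hτ hτ0

theorem pt2 : ∃ ρ σ, Pt τ (2 * t + s * t) (i * s * (s - 1)) ρ σ := by
  have := Pt.ex_comp2 (z'' := 2 * t + s * t) (ζ := i * s * (s - 1)) ⟨_, _, Pt.id hτ hτ0⟩
    (by linear_combination (i ^ 2 * s ^ 3 * t + (-1) * i ^ 2 * s * t + 2 * i ^ 2 * t) * hs
          + ((-2) * s * t + 4 * t) * hi)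
    (by linear_combination (i ^ 4 * s ^ 6 + (-4) * i ^ 4 * s ^ 5 + 8 * i ^ 4 * s ^ 4
          + (-12) * i ^ 4 * s ^ 3 + 17 * i ^ 4 * s ^ 2 + (-24) * i ^ 4 * s + 34 * i ^ 4
          + (-4) * t ^ 2) * hs + (16 * s + (-24)) * ht
          + ((-48) * i ^ 2 * s + 68 * i ^ 2 + 48 * s + (-68)) * hi)
  rwa [mul_one] at this

omit hi [IsDomain R] [CharZero R] in
theorem pt3 : ∃ ρ σ, Pt τ (2 * t + s * t) (t * (1 - s)) ρ σ := by
  have hu2 : IsUnit (1 + PowerSeries.C (t * (1 - s)) * PowerSeries.X : PowerSeries R) := by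
    rw [PowerSeries.isUnit_iff_constantCoeff]
    simp
  obtain ⟨J, hJ⟩ := hu2.exists_right_inv
  exact ⟨_, _, Pt.three (z' := 2 * t + s * t) (β := t * (1 - s)) (m := -2 * t) hτ hτ0 hJ
    (by linear_combination (t ^ 2) * hs + (1) * ht)
    (by linear_combination ((-2) * s * t ^ 3) * hs + (2 * s * t + (-4) * t) * ht)
    (by linear_combination (5 * s ^ 2 * t ^ 4 + (-8) * s * t ^ 4 + 4 * t ^ 4 + 10 * t ^ 2) * hs
      + (t ^ 2 + 1) * ht)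
    (by linear_combination ((-2) * s ^ 3 * t ^ 5 + 4 * s ^ 2 * t ^ 5 + (-8) * t ^ 5
      + (-16) * s * t ^ 3 + 24 * t ^ 3) * hs + (14 * s * t ^ 3 + (-20) * t ^ 3 + 2 * s * t
      + (-4) * t) * ht)⟩

theorem pt6 : ∃ ρ σ, Pt τ (2 * t - s * t) (-(i * s * t)) ρ σ := by
  have := Pt.ex_comp2 (z'' := 2 * t - s * t) (ζ := i * s * (s + 1)) (pt3 hs ht hτ hτ0)
    (by linear_combination ((-1) * i ^ 2 * s ^ 3 * t + i ^ 2 * s * t + 2 * i ^ 2 * t) * hs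
          + (2 * s * t + 4 * t) * hi)
    (by linear_combination (i ^ 4 * s ^ 6 + 4 * i ^ 4 * s ^ 5 + 8 * i ^ 4 * s ^ 4
          + 12 * i ^ 4 * s ^ 3 + 17 * i ^ 4 * s ^ 2 + 24 * i ^ 4 * s + 34 * i ^ 4
          + (-4) * t ^ 2) * hs + ((-16) * s + (-24)) * ht
          + (48 * i ^ 2 * s + 68 * i ^ 2 + (-48) * s + (-68)) * hi)
  rwa [show (i * s * (s + 1)) * (t * (1 - s)) = -(i * s * t) by
    linear_combination ((-1) * i * s * t) * hs] at this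

theorem pt_hom1 (x y : ℕ) : ∃ ρ σ, Pt τ (2 * t + s * t)
    (x * (i * s * (s - 1)) + y * (t * (1 - s))) ρ σ :=
  Pt.ex_add (Pt.nat_mul (pt2 hs ht hi hτ hτ0) x) (Pt.nat_mul (pt3 hs ht hτ hτ0) y)

theorem pt_hom2 (x y : ℕ) : ∃ ρ σ, Pt τ (2 * t + s * t)
    (x * (i * s * (s - 1)) - y * (t * (1 - s))) ρ σ := by
  rw [sub_eq_add_neg]
  exact Pt.ex_add (Pt.nat_mul (pt2 hs ht hi hτ hτ0) x)
    (Pt.ex_neg (Pt.nat_mul (pt3 hs ht hτ hτ0) y))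

theorem pt_end1 (x y : ℕ) : ∃ ρ σ, Pt τ (2 * t - s * t) (x + y * -(i * s * t)) ρ σ := by
  have := Pt.ex_add (Pt.nat_mul ⟨_, _, Pt.id hτ hτ0⟩ x) (Pt.nat_mul (pt6 hs ht hi hτ hτ0) y)
  rwa [mul_one] at this

theorem pt_end2 (x y : ℕ) : ∃ ρ σ, Pt τ (2 * t - s * t) (x + y * (i * s * t)) ρ σ := by
  have := Pt.ex_add (Pt.nat_mul ⟨_, _, Pt.id hτ hτ0⟩ x)
    (Pt.ex_neg (Pt.nat_mul (pt6 hs ht hi hτ hτ0) y))
  rwa [mul_one, ← mul_neg, neg_neg] at this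

end cm

end Pool.Agent.H37.Sun
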