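import Mathlib
import Pool.Agent.H37.Sun.Cv9
import Pool.Agent.H37.Sun.Cv10

/-! The rational functions of the isogenies over a valuation ring. -/

namespace Pool.Agent.H37.Sun

open Polynomial

/-- all data of an isogeny of odd degree `h` -/
def IsoData {R : Type*} [CommRing R] (τ : PowerSeries R) (z' c : R) (h : ℕ) : Prop :=
  ∃ (ρ σ : PowerSeries R) (N D : R[X]) (a : R), Pt τ z' c ρ σ ∧ a ^ 2 = 1 ∧
      (N : PowerSeries R) = PowerSeries.X * ρ ^ 2 * (D : PowerSeries R) ∧
      N.natDegree ≤ h ∧ D.natDegree ≤ h ∧ (∀ i, i ≤ h → N.coeff i = a * D.coeff (h - i)) ∧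
      ∃ i, D.coeff i = 1

section
variable {R : Type*} [CommRing R] [IsDomain R] [CharZero R] [ValuationRing R]

theorem isoData_of {z z' c : R} (hc : c ≠ 0) {τ ρ σ : PowerSeries R}
    (hτ : τ ^ 2 = 1 - 2 * PowerSeries.C z * PowerSeries.X + PowerSeries.X ^ 2)
    (hτ0 : PowerSeries.constantCoeff τ = 1) (P : Pt τ z' c ρ σ) {h : ℕ}
    (H : HT (PowerSeries.map (algebraMap R (FractionRing R)) τ) (algebraMap R (FractionRing R) z') true
      (algebraMap R (FractionRing R) c) h) : IsoData τ z' c h := by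
  have hcz : CharZero (FractionRing R) :=
    charZero_of_injective_algebraMap (IsFractionRing.injective R (FractionRing R))
  have hτ' : (PowerSeries.map (algebraMap R (FractionRing R)) τ) ^ 2
      = 1 - 2 * PowerSeries.C (algebraMap R (FractionRing R) z) * PowerSeries.X + PowerSeries.X ^ 2 := by
    rw [← map_pow, hτ]
    simp [map_ofNat]
  have hτ0' : PowerSeries.constantCoeff (PowerSeries.map (algebraMap R (FractionRing R)) τ) = 1 := by
    rw [← PowerSeries.coeff_zero_eq_constantCoeff_apply, PowerSeries.coeff_map,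
      PowerSeries.coeff_zero_eq_constantCoeff_apply, hτ0, map_one]
  have hc' : algebraMap R (FractionRing R) c ≠ 0 := by
    rw [Ne, map_eq_zero_iff _ (IsFractionRing.injective R (FractionRing R))]
    exact hc
  obtain ⟨N, D, a, ha, h1, h2, h3, h4, h5⟩ := descend (K := FractionRing R) hτ0 P H
    (fun N D cop hN hNd hNh hDd hDh => symm hτ' hτ0' (P.map (algebraMap R (FractionRing R))) hc' cop
      hN hNd hNh hDd hDh)
  exact ⟨ρ, σ, N, D, a, P, ha, h1, h2, h3, h4, h5⟩

variable {s t i : R} (hs : s ^ 2 = 2) (ht : t ^ 2 = 3)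
  (hi : i ^ 2 = -1) {τ : PowerSeries R}
  (hτ : τ ^ 2 = 1 - 2 * PowerSeries.C (2 * t - s * t) * PowerSeries.X + PowerSeries.X ^ 2)
  (hτ0 : PowerSeries.constantCoeff τ = 1)

include hs ht hi hτ hτ0

theorem homData (x y : ℕ) (hy : y % 2 = 1) (c : R) (hc : c ≠ 0)
    (hcc : c = x * (i * s * (s - 1)) + y * (t * (1 - s)) ∨
      c = x * (i * s * (s - 1)) - y * (t * (1 - s))) :
    IsoData τ (2 * t + s * t) c (x ^ 2 * 2 + y ^ 2 * 3) := by
  have hcz : CharZero (FractionRing R) :=
    charZero_of_injective_algebraMap (IsFractionRing.injective R (FractionRing R))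
  have hτ' : (PowerSeries.map (algebraMap R (FractionRing R)) τ) ^ 2
      = 1 - 2 * PowerSeries.C (2 * algebraMap R (FractionRing R) t
          - algebraMap R (FractionRing R) s * algebraMap R (FractionRing R) t) * PowerSeries.X
        + PowerSeries.X ^ 2 := by
    rw [← map_pow, hτ]
    simp [map_ofNat]
  have hτ0' : PowerSeries.constantCoeff (PowerSeries.map (algebraMap R (FractionRing R)) τ) = 1 := by
    rw [← PowerSeries.coeff_zero_eq_constantCoeff_apply, PowerSeries.coeff_map,
      PowerSeries.coeff_zero_eq_constantCoeff_apply, hτ0, map_one]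
  have hs' : (algebraMap R (FractionRing R) s) ^ 2 = 2 := by rw [← map_pow, hs, map_ofNat]
  have ht' : (algebraMap R (FractionRing R) t) ^ 2 = 3 := by rw [← map_pow, ht, map_ofNat]
  have hi' : (algebraMap R (FractionRing R) i) ^ 2 = -1 := by rw [← map_pow, hi, map_neg, map_one]
  rcases hcc with hcc | hcc
  · obtain ⟨ρ, σ, P⟩ := pt_hom1 hs ht hi hτ hτ0 x y
    rw [← hcc] at P
    apply isoData_of hc hτ hτ0 P
    have := hom1 hs' ht' hi' hτ' hτ0' x y
    rw [par_odd hy] at this
    rw [hcc]
    simpa [map_ofNat] using this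
  · obtain ⟨ρ, σ, P⟩ := pt_hom2 hs ht hi hτ hτ0 x y
    rw [← hcc] at P
    apply isoData_of hc hτ hτ0 P
    have := hom2 hs' ht' hi' hτ' hτ0' x y
    rw [par_odd hy] at this
    rw [hcc]
    simpa [map_ofNat] using this

theorem endData (x y : ℕ) (hx : x % 2 = 1) (c : R) (hc : c ≠ 0)
    (hcc : c = x + y * (i * s * t) ∨ c = x - y * (i * s * t)) :
    IsoData τ (2 * t - s * t) c (x ^ 2 + y ^ 2 * 6) := by
  have hcz : CharZero (FractionRing R) :=
    charZero_of_injective_algebraMap (IsFractionRing.injective R (FractionRing R))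
  have hτ' : (PowerSeries.map (algebraMap R (FractionRing R)) τ) ^ 2
      = 1 - 2 * PowerSeries.C (2 * algebraMap R (FractionRing R) t
          - algebraMap R (FractionRing R) s * algebraMap R (FractionRing R) t) * PowerSeries.X
        + PowerSeries.X ^ 2 := by
    rw [← map_pow, hτ]
    simp [map_ofNat]
  have hτ0' : PowerSeries.constantCoeff (PowerSeries.map (algebraMap R (FractionRing R)) τ) = 1 := by
    rw [← PowerSeries.coeff_zero_eq_constantCoeff_apply, PowerSeries.coeff_map,
      PowerSeries.coeff_zero_eq_constantCoeff_apply, hτ0, map_one]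
  have hs' : (algebraMap R (FractionRing R) s) ^ 2 = 2 := by rw [← map_pow, hs, map_ofNat]
  have ht' : (algebraMap R (FractionRing R) t) ^ 2 = 3 := by rw [← map_pow, ht, map_ofNat]
  have hi' : (algebraMap R (FractionRing R) i) ^ 2 = -1 := by rw [← map_pow, hi, map_neg, map_one]
  rcases hcc with hcc | hcc
  · obtain ⟨ρ, σ, P⟩ := pt_end2 hs ht hi hτ hτ0 x y
    rw [← hcc] at P
    apply isoData_of hc hτ hτ0 P
    have := end2 hs' ht' hi' hτ' hτ0' x y
    rw [par_odd hx] at this
    rw [hcc]
    simpa [map_ofNat] using this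
  · obtain ⟨ρ, σ, P⟩ := pt_end1 hs ht hi hτ hτ0 x y
    rw [mul_neg, ← sub_eq_add_neg, ← hcc] at P
    apply isoData_of hc hτ hτ0 P
    have := end1 hs' ht' hi' hτ' hτ0' x y
    rw [par_odd hx, mul_neg, ← sub_eq_add_neg] at this
    rw [hcc]
    simpa [map_ofNat] using this

end

end Pool.Agent.H37.Sun
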