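import Mathlib
import Pool.Agent.H24.Sun.G
import Pool.Agent.H37.Sun.Cases
import Pool.Agent.H37.Sun.Prod

/-! Assembly of part (a) in the ordinary case. -/

namespace Pool.Agent.H37.Sun

open Polynomial Finset Pool.Agent.H99.Sun

/-- facts produced by an isogeny -/
def IsoFact {R : Type*} [CommRing R] (p n : ℕ) (z z' w ct : R) : Prop :=
  ∃ a : R, a ^ 2 = 1 ∧ (p : R) ^ 2 ∣ (ct * T n z w) ^ 2 - a ∧
    ∀ x : R, x ^ 2 - 2 * z * x + 1 = 0 →
      ((p : R) ∣ (-1) ^ n * (G2 n : R[X]).eval x - x ^ n * T n z w) ∧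
      ∃ q : R, q ^ 2 - 2 * z' * q + 1 = 0 ∧
      (p : R) ∣ q - a * x ^ p ∧ (p : R) ^ 2 ∣ x * ct ^ 2 * ((G2 n : R[X]).eval x) ^ 2 - 256 ^ n * q

section
variable {R : Type*} [CommRing R] [IsDomain R] [CharZero R] {k : Type*} [Field k]
  (p : ℕ) [Fact p.Prime] [CharP k p] (π : R →+* k)
  (hker : ∀ x, π x = 0 → (p : R) ∣ x) (n : ℕ) (hn : p = 2 * n + 1) (h3 : 3 < p)

omit [IsDomain R] [CharZero R] [Fact p.Prime] in
theorem pi_of_dvd {a b : R} (h : (p : R) ∣ a - b) : π a = π b := by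
  obtain ⟨z, hz⟩ := h
  have := congrArg π hz
  rwa [map_sub, map_mul, map_natCast, CharP.cast_eq_zero k p, zero_mul, sub_eq_zero] at this

omit [IsDomain R] [CharZero R] [Fact p.Prime] [CharP k p] in
include hker in
theorem dvd_of_pi {a b : R} (h : π a = π b) : (p : R) ∣ a - b := by
  apply hker
  rw [map_sub, h, sub_self]

omit [Fact p.Prime] in
include h3 in
theorem two_ne' : (2 : k) ≠ 0 := by
  exact_mod_cast cast_ne (k := k) p 2 (by norm_num) (by omega)

omit [CharZero R] [Fact p.Prime] in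
include h3 in
theorem pm_eq {a b : R} (ha : a ^ 2 = 1) (hb : b ^ 2 = 1) (h : π a = π b) : a = b := by
  have n2 := two_ne' (k := k) p h3
  have e : (a - b) * (a + b) = 0 := by linear_combination ha - hb
  rcases mul_eq_zero.mp e with e | e
  · exact sub_eq_zero.mp e
  · exfalso
    have h1 : a = -b := by linear_combination e
    rw [h1, map_neg] at h
    have h2 : (2 * π b) * (2 * π b) = 0 := by
      have : 2 * π b = 0 := by linear_combination -h
      rw [this, zero_mul]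
    have h4 : (π b) ^ 2 = 1 := by rw [← map_pow, hb, map_one]
    have h5 : (4 : k) = 0 := by linear_combination h2 - 4 * h4
    apply n2
    have : (2 : k) * 2 = 0 := by linear_combination h5
    exact (mul_self_eq_zero.mp this)

omit [CharZero R] in
include h3 in
/-- the sign `a` of the isogeny -/
theorem sign_eq {z z' a b x q : R} (ha : a ^ 2 = 1) (hb : b ^ 2 = 1)
    (hx : x ^ 2 - 2 * z * x + 1 = 0) (hq : q ^ 2 - 2 * z' * q + 1 = 0) (hqx : (p : R) ∣ q - a * x ^ p)
    (hz : π z ^ p = π (b * z')) (hz' : π z' ≠ 0) : a = b := by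
  have n2 := two_ne' (k := k) p h3
  apply pm_eq p π h3 ha hb
  have e1 := pi_of_dvd p π hqx
  have e2 := congrArg π hq
  have e3 := congrArg (fun r => (π r) ^ p) hx
  simp only [map_mul, map_pow, map_add, map_sub, map_one, map_ofNat, map_zero] at e1 e2 e3 hz
  rw [add_pow_char, sub_pow_char, zero_pow (Fact.out : p.Prime).ne_zero, mul_pow, mul_pow, hz, one_pow] at e3
  have h2p : (2 : k) ^ p = 2 := by
    have := map_ofNat (frobenius k p) 2
    rwa [frobenius_def] at this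
  rw [h2p] at e3
  have ha' : (π a) ^ 2 = 1 := by rw [← map_pow, ha, map_one]
  have hb' : (π b) ^ 2 = 1 := by rw [← map_pow, hb, map_one]
  have hx0 : π x ≠ 0 := by
    intro h0
    have := congrArg π hx
    simp [h0] at this
  rw [e1] at e2
  have e4 : 2 * π z' * (π x) ^ p * (π a - π b) = 0 := by
    linear_combination e3 - e2 + (π x ^ p) ^ 2 * ha'
  have h5 : 2 * π z' * (π x) ^ p ≠ 0 := mul_ne_zero (mul_ne_zero n2 hz') (pow_ne_zero p hx0)
  exact sub_eq_zero.mp ((mul_eq_zero.mp e4).resolve_left h5)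

omit [CharZero R] [Fact p.Prime] in
include h3 in
/-- the root `q` -/
theorem root_eq {z' b d1 x q : R} (hb : b ^ 2 = 1) (hd1 : d1 ^ 2 = z' ^ 2 - 1)
    (hq : q ^ 2 - 2 * z' * q + 1 = 0) (hqx : (p : R) ∣ q - b * x ^ p)
    (hxp : π x ^ p = π (b * z' - d1)) (hd : π d1 ≠ 0) : q = z' - b * d1 := by
  have n2 := two_ne' (k := k) p h3
  have e : (q - z' + b * d1) * (q - z' - b * d1) = 0 := by
    linear_combination hq - hd1 - d1 ^ 2 * hb
  rcases mul_eq_zero.mp e with e | e
  · linear_combination e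
  · exfalso
    have e1 := pi_of_dvd p π hqx
    have hq' : q = z' + b * d1 := by linear_combination e
    rw [hq'] at e1
    simp only [map_mul, map_pow, map_add, map_sub] at e1 hxp
    rw [hxp] at e1
    have hb' : (π b) ^ 2 = 1 := by rw [← map_pow, hb, map_one]
    have h2 : 2 * (π b * π d1) = 0 := by linear_combination e1 + π z' * hb'
    have hb0 : π b ≠ 0 := by
      intro h0
      rw [h0] at hb'
      simp at hb'
    exact mul_ne_zero n2 (mul_ne_zero hb0 hd) h2

omit [CharZero R] in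
include h3 hker in
/-- facts about the root `z - d` -/
theorem facts {z z' w ct d d1 b : R} (F : IsoFact p n z z' w ct) (hb : b ^ 2 = 1)
    (hd : d ^ 2 = z ^ 2 - 1) (hd1 : d1 ^ 2 = z' ^ 2 - 1) (hz : π z ^ p = π (b * z'))
    (hdp : π d ^ p = π d1) (hz' : π z' ≠ 0) (hd' : π d1 ≠ 0) :
    (p : R) ^ 2 ∣ (ct * T n z w) ^ 2 - b ∧ (p : R) ∣ (b * z' - d1) - (z - d) ^ p ∧
    (p : R) ^ 2 ∣ (z - d) * ct ^ 2 * ((G2 n : R[X]).eval (z - d)) ^ 2 - 256 ^ n * b * (b * z' - d1) ∧
    (p : R) ∣ (-1) ^ n * (G2 n : R[X]).eval (z - d) - (z - d) ^ n * T n z w := by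
  obtain ⟨a, ha, h1, h2⟩ := F
  have hx : (z - d) ^ 2 - 2 * z * (z - d) + 1 = 0 := by linear_combination hd
  obtain ⟨e1, q, hq, hqx, hg⟩ := h2 (z - d) hx
  have hab : a = b := sign_eq p π h3 ha hb hx hq hqx hz hz'
  subst hab
  have hxp : π (z - d) ^ p = π (a * z' - d1) := by
    rw [map_sub, sub_pow_char, hz, hdp, ← map_sub]
  have hq2 := root_eq p π h3 hb hd1 hq hqx hxp hd'
  subst hq2
  refine ⟨h1, ?_, ?_, e1⟩
  · apply dvd_of_pi p π hker
    rw [map_pow, hxp]
  · have : (256 : R) ^ n * a * (a * z' - d1) = 256 ^ n * (z' - a * d1) := by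
      linear_combination (256 ^ n * z') * hb
    rw [this]
    exact hg

include hker hn h3 in
theorem fin_sq {Z w wb η : R} (h1 : (p : R) ^ 2 ∣ Z ^ 2 * w ^ 4 - 256 ^ n) (hη : η ^ 2 = 1)
    (h2 : π (Z * w ^ 2) = π η) (hw : w * wb = 1) : (p : R) ^ 2 ∣ Z - 16 ^ n * (η * wb ^ 2) := by
  have n2 := two_ne' (k := k) p h3
  have h16 := sixteen_pow (k := k) p n hn h3
  have h3' : (p : R) ^ 2 ∣ Z * w ^ 2 - 16 ^ n * η := by
    apply dvd_sq_of_mul p π hker _ (Z * w ^ 2 + 16 ^ n * η)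
    · have : (Z * w ^ 2 - 16 ^ n * η) * (Z * w ^ 2 + 16 ^ n * η) = Z ^ 2 * w ^ 4 - 256 ^ n := by
        have e : (256 : R) ^ n = 16 ^ n * 16 ^ n := by rw [← mul_pow]; norm_num
        rw [e]
        linear_combination -(16 ^ n * 16 ^ n) * hη
      rw [this]
      exact h1
    · rw [map_add, h2, map_mul, map_pow, map_ofNat, h16, one_mul, ← two_mul]
      refine mul_ne_zero n2 ?_
      intro h0
      have := congrArg π hη
      rw [map_pow, h0, map_one] at this
      simp at this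
  have := h3'.mul_right (wb ^ 2)
  have e : (Z * w ^ 2 - 16 ^ n * η) * wb ^ 2 = Z - 16 ^ n * (η * wb ^ 2) := by
    linear_combination (Z * (w * wb + 1)) * hw
  rwa [e] at this

end

end Pool.Agent.H37.Sun
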