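import Mathlib
import Pool.Agent.H37.Sun.Cv12

/-! Assembly of part (a) in the ordinary case: the three sums. -/

namespace Pool.Agent.H37.Sun

open Polynomial Finset Pool.Agent.H99.Sun

section
variable {R : Type*} [CommRing R]

theorem PQ_eval_of (n : ℕ) (x y W r B0 C0 : R) (hW : W = 1 + y * x) (hWu : IsUnit W)
    (hr : IsUnit r)
    (hB : (x + y) * (1 + (-1) * y * x) - 2 * (0 * y) * x = W ^ 2 * (r * B0))
    (hC : y * x * (1 - 0 * x + (-1) * x ^ 2) * (1 - 0 * y + (-1) * y ^ 2)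
      = (W ^ 2) ^ 2 * (r ^ 2 * C0)) :
    (PQ n y).eval x = W ^ (4 * n + 1) * ∑ m ∈ range (n + 1), (v n m : R) *
      (r ^ (2 * m) * T (2 * m) B0 C0) := by
  unfold PQ
  rw [PP_eval, show (1 - -1 * y * x) = W by rw [hW]; ring, hB, hC, mul_sum]
  refine sum_congr rfl fun m hm => ?_
  have hm' : m ≤ n := by have := mem_range.mp hm; omega
  rw [T_unit_mul _ (hWu.pow 2), T_unit_mul _ hr]
  have e1 : W ^ (4 * n + 1) = W ^ (2 * (2 * n + 1) - 2 * (2 * m) - 1) * (W ^ 2) ^ (2 * m) := by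
    rw [← pow_mul, ← pow_add]
    congr 1
    omega
  rw [e1]
  ring

theorem PP_eval_of (n : ℕ) (x y r B0 C0 : R) (hr : IsUnit r)
    (hB : (x + y) * (1 + 0 * y * x) - 2 * (1 * y) * x = r * B0)
    (hC : y * x * (1 - 1 * x + 0 * x ^ 2) * (1 - 1 * y + 0 * y ^ 2) = r ^ 2 * C0) :
    (PP 1 0 n (fun m => m) y).eval x = ∑ m ∈ range (n + 1), (v n m : R) *
      (r ^ (1 * m) * T (1 * m) B0 C0) := by
  rw [PP_eval, hB, hC]
  refine sum_congr rfl fun m hm => ?_
  rw [T_unit_mul _ hr, one_mul]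
  ring

end

section
variable {R : Type*} [CommRing R] [IsDomain R] [CharZero R] {k : Type*} [Field k]
  (p : ℕ) [Fact p.Prime] [CharP k p] (π : R →+* k) (hsurj : Function.Surjective π)
  (hker : ∀ x, π x = 0 → (p : R) ∣ x) (hunit : ∀ x, π x ≠ 0 → IsUnit x)
  (n : ℕ) (hn : p = 2 * n + 1) (h3 : 3 < p)
  {s t h ε b w wb ct ct' wu wv : R}
  (hs : s ^ 2 = 2) (ht : t ^ 2 = 3) (hh : 2 * h = 1)
  (hε : ε ^ 2 = 1) (hb : b ^ 2 = 1) (hsp : π s ^ p = π (ε * s)) (htp : π t ^ p = π (b * t))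
  (hw : w * wb = 1) (hcc : ct * ct' = w ^ 2) (hrat : ct * (ε * s - 1) = ε * ct' * (s - 1))
  (h6 : (-6 : k) ^ n = 1)
  (hwu : 4 * wu = (2 * t - s * t) ^ 2 - 1) (hwv : 4 * wv = (2 * t + s * t) ^ 2 - 1)
  (Fu : IsoFact p n (2 * t - s * t) (2 * t - ε * s * t) wu ct)
  (Fv : IsoFact p n (2 * t + s * t) (2 * t + ε * s * t) wv ct')

include h3 in
theorem three_ne' : (3 : k) ≠ 0 := by
  exact_mod_cast cast_ne (k := k) p 3 (by norm_num) (by omega)

include hs hε h3 in
theorem d1_ne : π (3 - 2 * (ε * s)) ≠ 0 := by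
  intro h0
  have h1 : (3 - 2 * (ε * s)) * (3 + 2 * (ε * s)) = 1 := by
    linear_combination (-4 * s ^ 2) * hε - 4 * hs
  have := congrArg π h1
  rw [map_mul, h0, zero_mul, map_one] at this
  exact zero_ne_one this

include hs hε h3 in
theorem d2_ne : π (3 + 2 * (ε * s)) ≠ 0 := by
  intro h0
  have h1 : (3 - 2 * (ε * s)) * (3 + 2 * (ε * s)) = 1 := by
    linear_combination (-4 * s ^ 2) * hε - 4 * hs
  have := congrArg π h1
  rw [map_mul, h0, mul_zero, map_one] at this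
  exact zero_ne_one this

include hs ht hε h3 in
theorem z1_ne : π (2 * t - ε * s * t) ≠ 0 := by
  intro h0
  have h1 : (2 * t - ε * s * t) * (2 * t + ε * s * t) = 6 := by
    linear_combination (-t ^ 2 * s ^ 2) * hε - t ^ 2 * hs + 2 * ht
  have := congrArg π h1
  rw [map_mul, h0, zero_mul, map_ofNat] at this
  have h6 : (6 : k) = 2 * 3 := by norm_num
  rw [h6] at this
  exact mul_ne_zero (two_ne' p h3) (three_ne' p h3) this.symm

include hs ht hε h3 in
theorem z2_ne : π (2 * t + ε * s * t) ≠ 0 := by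
  intro h0
  have h1 : (2 * t - ε * s * t) * (2 * t + ε * s * t) = 6 := by
    linear_combination (-t ^ 2 * s ^ 2) * hε - t ^ 2 * hs + 2 * ht
  have := congrArg π h1
  rw [map_mul, h0, mul_zero, map_ofNat] at this
  have h6 : (6 : k) = 2 * 3 := by norm_num
  rw [h6] at this
  exact mul_ne_zero (two_ne' p h3) (three_ne' p h3) this.symm

include hs ht hε hb hsp htp h3 hker Fu in
/-- facts at the two roots for `u` -/
theorem factsU : (p : R) ^ 2 ∣ (ct * T n (2 * t - s * t) wu) ^ 2 - b ∧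
    ((p : R) ∣ (b * (2 * t - ε * s * t) - (3 - 2 * (ε * s))) - (2 * t - s * t - (3 - 2 * s)) ^ p ∧
    (p : R) ^ 2 ∣ (2 * t - s * t - (3 - 2 * s)) * ct ^ 2
      * ((G2 n : R[X]).eval (2 * t - s * t - (3 - 2 * s))) ^ 2
      - 256 ^ n * b * (b * (2 * t - ε * s * t) - (3 - 2 * (ε * s))) ∧
    (p : R) ∣ (-1) ^ n * (G2 n : R[X]).eval (2 * t - s * t - (3 - 2 * s))
      - (2 * t - s * t - (3 - 2 * s)) ^ n * T n (2 * t - s * t) wu) ∧
    ((p : R) ∣ (b * (2 * t - ε * s * t) - -(3 - 2 * (ε * s))) - (2 * t - s * t - -(3 - 2 * s)) ^ p ∧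
    (p : R) ^ 2 ∣ (2 * t - s * t - -(3 - 2 * s)) * ct ^ 2
      * ((G2 n : R[X]).eval (2 * t - s * t - -(3 - 2 * s))) ^ 2
      - 256 ^ n * b * (b * (2 * t - ε * s * t) - -(3 - 2 * (ε * s))) ∧
    (p : R) ∣ (-1) ^ n * (G2 n : R[X]).eval (2 * t - s * t - -(3 - 2 * s))
      - (2 * t - s * t - -(3 - 2 * s)) ^ n * T n (2 * t - s * t) wu) := by
  have fs : frobenius k p (π s) = π ε * π s := by rw [frobenius_def, hsp, map_mul]
  have ft : frobenius k p (π t) = π b * π t := by rw [frobenius_def, htp, map_mul]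
  have hes : (ε * s) ^ 2 = 2 := by linear_combination s ^ 2 * hε + hs
  have hz : π (2 * t - s * t) ^ p = π (b * (2 * t - ε * s * t)) := by
    rw [← frobenius_def]
    simp only [map_sub, map_mul, map_ofNat, fs, ft]
    ring
  have hd : π (3 - 2 * s) ^ p = π (3 - 2 * (ε * s)) := by
    rw [← frobenius_def]
    simp only [map_sub, map_mul, map_ofNat, fs]
  have hd' : π (-(3 - 2 * s)) ^ p = π (-(3 - 2 * (ε * s))) := by
    rw [← frobenius_def]
    simp only [map_sub, map_neg, map_mul, map_ofNat, fs]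
  have A := facts p π hker n h3 Fu hb (d := 3 - 2 * s) (d1 := 3 - 2 * (ε * s))
    (by linear_combination hs - (2 - s) ^ 2 * ht)
    (by linear_combination hes - (2 - ε * s) ^ 2 * ht) hz hd
    (z1_ne p π h3 hs ht hε) (d1_ne p π h3 hs hε)
  have B := facts p π hker n h3 Fu hb (d := -(3 - 2 * s)) (d1 := -(3 - 2 * (ε * s)))
    (by linear_combination hs - (2 - s) ^ 2 * ht)
    (by linear_combination hes - (2 - ε * s) ^ 2 * ht) hz hd'
    (z1_ne p π h3 hs ht hε) (by rw [map_neg]; exact neg_ne_zero.mpr (d1_ne p π h3 hs hε))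
  exact ⟨A.1, A.2, B.2⟩

include hs ht hε hb hsp htp h3 hker Fv in
/-- facts at the root for `v` -/
theorem factsV : (p : R) ^ 2 ∣ (ct' * T n (2 * t + s * t) wv) ^ 2 - b ∧
    (p : R) ∣ (b * (2 * t + ε * s * t) - (3 + 2 * (ε * s))) - (2 * t + s * t - (3 + 2 * s)) ^ p ∧
    (p : R) ^ 2 ∣ (2 * t + s * t - (3 + 2 * s)) * ct' ^ 2
      * ((G2 n : R[X]).eval (2 * t + s * t - (3 + 2 * s))) ^ 2
      - 256 ^ n * b * (b * (2 * t + ε * s * t) - (3 + 2 * (ε * s))) ∧
    (p : R) ∣ (-1) ^ n * (G2 n : R[X]).eval (2 * t + s * t - (3 + 2 * s))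
      - (2 * t + s * t - (3 + 2 * s)) ^ n * T n (2 * t + s * t) wv := by
  have fs : frobenius k p (π s) = π ε * π s := by rw [frobenius_def, hsp, map_mul]
  have ft : frobenius k p (π t) = π b * π t := by rw [frobenius_def, htp, map_mul]
  have hes : (ε * s) ^ 2 = 2 := by linear_combination s ^ 2 * hε + hs
  have hz : π (2 * t + s * t) ^ p = π (b * (2 * t + ε * s * t)) := by
    rw [← frobenius_def]
    simp only [map_add, map_mul, map_ofNat, fs, ft]
    ring
  have hd : π (3 + 2 * s) ^ p = π (3 + 2 * (ε * s)) := by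
    rw [← frobenius_def]
    simp only [map_add, map_mul, map_ofNat, fs]
  exact facts p π hker n h3 Fv hb (d := 3 + 2 * s) (d1 := 3 + 2 * (ε * s))
    (by linear_combination hs - (2 + s) ^ 2 * ht)
    (by linear_combination hes - (2 + ε * s) ^ 2 * ht) hz hd
    (z2_ne p π h3 hs ht hε) (d2_ne p π h3 hs hε)

end

end Pool.Agent.H37.Sun
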