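import Mathlib
import Pool.Agent.H37.Sun.Cv13

/-! Assembly of part (a) in the ordinary case: the values of the three sums. -/

namespace Pool.Agent.H37.Sun

open Polynomial Finset Pool.Agent.H99.Sun

section
variable {R : Type*} [CommRing R] [IsDomain R] [CharZero R] {k : Type*} [Field k]
  (p : ℕ) [Fact p.Prime] [CharP k p] (π : R →+* k) (hsurj : Function.Surjective π)
  (hker : ∀ x, π x = 0 → (p : R) ∣ x) (hunit : ∀ x, π x ≠ 0 → IsUnit x)
  (n : ℕ) (hn : p = 2 * n + 1) (h3 : 3 < p)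
  {s t h ε b w wb ct ct' wu wv : R}
  (hs : s ^ 2 = 2) (ht : t ^ 2 = 3) (hh : 2 * h = 1)
  (hε : ε ^ 2 = 1) (hb : b ^ 2 = 1) (hsp : π s ^ p = π (ε * s)) (htp : π t ^ p = π (b * t))
  (hw : w * wb = 1) (hcc : ct * ct' = w ^ 2) (hrat : ct * (ε * s - 1) = ε * ct' * (s - 1))
  (h6 : (-6 : k) ^ n = 1)
  (hwu : 4 * wu = (2 * t - s * t) ^ 2 - 1) (hwv : 4 * wv = (2 * t + s * t) ^ 2 - 1)
  (Fu : IsoFact p n (2 * t - s * t) (2 * t - ε * s * t) wu ct)
  (Fv : IsoFact p n (2 * t + s * t) (2 * t + ε * s * t) wv ct')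

include hn h3 ht htp in
/-- `b = 3^n` modulo `p` -/
theorem b_eq : π b = 3 ^ n := by
  have htk : (π t) ^ 2 = 3 := by rw [← map_pow, ht, map_ofNat]
  have ht0 : π t ≠ 0 := by
    intro h0
    rw [h0] at htk
    exact three_ne' p h3 (by rw [← htk]; ring)
  rw [hn, pow_succ, pow_mul, htk, map_mul] at htp
  exact (mul_right_cancel₀ ht0 htp).symm

include hn h3 hs hsp in
/-- `ε = 2^n` modulo `p` -/
theorem ε_eq : π ε = 2 ^ n := by
  have hsk : (π s) ^ 2 = 2 := by rw [← map_pow, hs, map_ofNat]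
  have hs0 : π s ≠ 0 := by
    intro h0
    rw [h0] at hsk
    exact two_ne' p h3 (by rw [← hsk]; ring)
  rw [hn, pow_succ, pow_mul, hsk, map_mul] at hsp
  exact (mul_right_cancel₀ hs0 hsp).symm

include hsurj hker hn h3 hs ht hε hb hsp htp hw hcc hrat h6 hwu hwv Fv in
theorem key_mod : π (T n (2 * t - s * t) wu * T n (2 * t + s * t) wv * w ^ 2) = π ε := by
  have n2 := two_ne' (k := k) p h3
  have hsk : (π s) ^ 2 = 2 := by rw [← map_pow, hs, map_ofNat]
  have htk : (π t) ^ 2 = 3 := by rw [← map_pow, ht, map_ofNat]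
  have hεk : (π ε) ^ 2 = 1 := by rw [← map_pow, hε, map_one]
  have hwk : π w * π wb = 1 := by rw [← map_mul, hw, map_one]
  have hcck : π ct * π ct' = (π w) ^ 2 := by rw [← map_mul, hcc, map_pow]
  have hratk : π ct * (π ε * π s - 1) = π ε * π ct' * (π s - 1) := by
    have := congrArg π hrat
    simpa using this
  have hwuk : 4 * π wu = (2 * π t - π s * π t) ^ 2 - 1 := by
    have := congrArg π hwu
    simpa [map_ofNat] using this
  have hwvk : 4 * π wv = (2 * π t + π s * π t) ^ 2 - 1 := by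
    have := congrArg π hwv
    simpa [map_ofNat] using this
  have hw0 : π w ≠ 0 := left_ne_zero_of_mul (by rw [hwk]; exact one_ne_zero)
  have hct'0 : π ct' ≠ 0 := right_ne_zero_of_mul (by rw [hcck]; exact pow_ne_zero 2 hw0)
  have hbv : (π ct' * T n (2 * π t + π s * π t) (π wv)) ^ 2 = π b := by
    have h1 := (factsV p π hker n h3 hs ht hε hb hsp htp Fv).1
    have h2 := pi_of_dvd p π (dvd_trans (dvd_pow_self _ (by norm_num)) h1)
    simpa [map_T, map_ofNat] using h2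
  have hbe := b_eq p π n hn h3 ht htp
  have hr : (-2 * (3 - 2 * π s) : k) ≠ 0 := by
    refine mul_ne_zero (neg_ne_zero.mpr n2) ?_
    intro h0
    have : (3 - 2 * π s) * (3 + 2 * π s) = 1 := by linear_combination -4 * hsk
    rw [h0, zero_mul] at this
    exact zero_ne_one this
  have e1 := iso_two p π hsurj n hn (2 * π t - π s * π t) (π wu)
  have e2 := T_scale n hr (2 * π t + π s * π t) (π wv) (-2 * (2 * π t - π s * π t))
    ((2 * π t - π s * π t) ^ 2 - 4 * π wu)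
    (by linear_combination (-4 * π t) * hsk)
    (by
      linear_combination -hwuk - (3 - 2 * π s) ^ 2 * hwvk
        - (3 - 2 * π s) ^ 2 * (2 + π s) ^ 2 * htk
        + (-12 * π s ^ 2 - 12 * π s + 49) * hsk)
  have hsp' : (π s - 1) ^ (2 * n) * (π s - 1) = π ε * π s - 1 := by
    rw [← pow_succ, ← hn, sub_pow_char, one_pow, hsp, map_mul]
  have hd : (3 - 2 * π s : k) ^ n = (π s - 1) ^ (2 * n) := by
    rw [pow_mul]
    congr 1
    linear_combination -hsk
  have hεs : (π ε * π s - 1) ≠ 0 := by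
    intro h0
    have : (π ε * π s - 1) * (π ε * π s + 1) = 1 := by
      linear_combination (π s) ^ 2 * hεk + hsk
    rw [h0, zero_mul] at this
    exact zero_ne_one this
  have h26 : (-2 : k) ^ n * 3 ^ n = 1 := by
    rw [← mul_pow]
    rw [show (-2 * 3 : k) = -6 by norm_num]
    exact h6
  simp only [map_mul, map_pow, map_T, map_sub, map_add, map_ofNat]
  rw [e1, e2, mul_pow, hd]
  apply mul_right_cancel₀ hεs
  linear_combination (-((-2) ^ n * (π s - 1) ^ (2 * n) * T n (2 * π t + π s * π t) (π wv) ^ 2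
      * (π ε * π s - 1))) * hcck
    + ((-2) ^ n * (π s - 1) ^ (2 * n) * T n (2 * π t + π s * π t) (π wv) ^ 2 * π ct') * hratk
    + ((-2) ^ n * (π s - 1) ^ (2 * n) * (π s - 1) * π ε) * hbv
    + ((-2) ^ n * π ε * π b) * hsp' + ((-2) ^ n * π ε * (π ε * π s - 1)) * hbe
    + (π ε * (π ε * π s - 1)) * h26

include hsurj hker hn h3 hs ht hh hε hb hsp htp hw hcc hrat h6 hwu hwv Fu Fv in
/-- the first sum -/
theorem ord1 (hE0 : ∀ x : R, (p : R) ^ 2 ∣ (Hh n : R[X]).eval x - 16 ^ n * T n (1 - 2 * x) (x ^ 2 - x)) :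
    (p : R) ^ 2 ∣ ∑ m ∈ range (n + 1), (v n m : R) *
      ((-h ^ 2) ^ (1 * m) * T (1 * m) ((10 : ℤ) : R) ((1 : ℤ) : R)) - 16 ^ n * (ε * wb ^ 2) := by
  have n2 := two_ne' (k := k) p h3
  have h16 := sixteen_pow (k := k) p n hn h3
  have hprime : p.Prime := Fact.out
  have n4 : (4 : R) ≠ 0 := by norm_num
  have n16 : (16 : R) ≠ 0 := by norm_num
  obtain ⟨x0, hx0⟩ : ∃ x0 : R, 2 * x0 = 1 - (2 * t - s * t) :=
    ⟨h * (1 - (2 * t - s * t)), by linear_combination (1 - (2 * t - s * t)) * hh⟩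
  obtain ⟨y0, hy0⟩ : ∃ y0 : R, 2 * y0 = 1 - (2 * t + s * t) :=
    ⟨h * (1 - (2 * t + s * t)), by linear_combination (1 - (2 * t + s * t)) * hh⟩
  have hrU : IsUnit (-h ^ 2) := ((IsUnit.of_mul_eq_one 2 (by rw [mul_comm]; exact hh) : IsUnit h).pow 2).neg
  have hev := PP_eval_of n x0 y0 (-h ^ 2) ((10 : ℤ) : R) ((1 : ℤ) : R) hrU
    (by
      apply mul_left_cancel₀ n4
      push_cast
      linear_combination (2 - 4 * y0) * hx0 + 2 * (2 * t - s * t) * hy0 - 2 * (4 - s ^ 2) * ht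
        + 6 * hs + 10 * (2 * h + 1) * hh)
    (by
      apply mul_left_cancel₀ n16
      push_cast
      have e : 16 * (y0 * x0 * (1 - 1 * x0 + 0 * x0 ^ 2) * (1 - 1 * y0 + 0 * y0 ^ 2))
          = (2 * x0) * (2 * y0) * (2 - 2 * x0) * (2 - 2 * y0) := by ring
      rw [e, hx0, hy0]
      have huv : (2 * t - s * t) * (2 * t + s * t) = 6 := by
        linear_combination ((-1)*t^2) * hs + ((2)) * ht
      have hsm : (2 * t - s * t) ^ 2 + (2 * t + s * t) ^ 2 = 36 := by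
        linear_combination ((2)*t^2) * hs + ((12)) * ht
      linear_combination -hsm + ((2 * t - s * t) * (2 * t + s * t) + 6) * huv
        - (2 * h + 1) * (4 * h ^ 2 + 1) * hh)
  set S : R := ∑ m ∈ range (n + 1), (v n m : R) *
      ((-h ^ 2) ^ (1 * m) * T (1 * m) ((10 : ℤ) : R) ((1 : ℤ) : R)) with hS
  set Pu := T n (2 * t - s * t) wu with hPu
  set Pv := T n (2 * t + s * t) wv with hPv
  obtain ⟨q, hq⟩ := prod_formula p n hprime hn (h ^ 2) (by linear_combination (2 * h + 1) * hh) y0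
  have hq2 := congrArg (eval x0) hq
  simp only [eval_sub, eval_mul, eval_C] at hq2
  rw [hev] at hq2
  have ex : T n (1 - 2 * x0) (x0 ^ 2 - x0) = Pu := by
    rw [hPu, hx0]
    congr 1
    · ring
    · apply mul_left_cancel₀ n4
      linear_combination (2 * x0 - 1 - (2 * t - s * t)) * hx0 - hwu
  have ey : T n (1 - 2 * y0) (y0 ^ 2 - y0) = Pv := by
    rw [hPv, hy0]
    congr 1
    · ring
    · apply mul_left_cancel₀ n4
      linear_combination (2 * y0 - 1 - (2 * t + s * t)) * hy0 - hwv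
  obtain ⟨q1, hq1⟩ := hE0 x0
  obtain ⟨q3, hq3⟩ := hE0 y0
  rw [ex] at hq1
  rw [ey] at hq3
  have hSP : (p : R) ^ 2 ∣ S - 16 ^ n * (Pu * Pv) := by
    apply dvd_sq_of_mul p π hker _ (16 ^ n)
    · refine ⟨eval x0 q + (Hh n).eval y0 * q1 + 16 ^ n * Pu * q3, ?_⟩
      linear_combination hq2 + (Hh n).eval y0 * hq1 + 16 ^ n * Pu * hq3
    · rw [map_pow, map_ofNat, h16]
      exact one_ne_zero
  obtain ⟨q4, hq4⟩ := hSP
  have h256 : (256 : R) ^ n = 16 ^ n * 16 ^ n := by rw [← mul_pow]; norm_num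
  obtain ⟨q5, hq5⟩ := (factsU p π hker n h3 hs ht hε hb hsp htp Fu).1
  obtain ⟨q6, hq6⟩ := (factsV p π hker n h3 hs ht hε hb hsp htp Fv).1
  apply fin_sq p π hker n hn h3 (w := w) ?_ hε ?_ hw
  · refine ⟨q4 * (S + 16 ^ n * (Pu * Pv)) * w ^ 4
      + 256 ^ n * (q5 * (ct' * Pv) ^ 2 + b * q6), ?_⟩
    have e1 : w ^ 4 = (ct * ct') ^ 2 := by rw [hcc]; ring
    rw [h256, e1]
    linear_combination ((S + 16 ^ n * (Pu * Pv)) * (ct * ct') ^ 2) * hq4
      + 16 ^ n * 16 ^ n * ((ct' * Pv) ^ 2 * hq5 + b * hq6) + (16 ^ n * 16 ^ n) * hb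
  · have e2 : π S = π (Pu * Pv) := by
      have := pi_of_dvd p π (dvd_trans (dvd_pow_self _ (by norm_num)) (⟨q4, hq4⟩ : (p : R) ^ 2 ∣ _))
      rw [this, map_mul, map_pow, map_ofNat, h16, one_mul]
    rw [map_mul, e2, ← map_mul]
    exact key_mod p π hsurj hker n hn h3 hs ht hε hb hsp htp hw hcc hrat h6 hwu hwv Fv

end

end Pool.Agent.H37.Sun
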