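import Mathlib
import Pool.Agent.H37.Sun.Cv14

/-! Assembly of part (a) in the ordinary case: the second and the third sum. -/

namespace Pool.Agent.H37.Sun

open Polynomial Finset Pool.Agent.H99.Sun

section ids
variable {A : Type*} [CommRing A] {s t : A} (hs : s ^ 2 = 2) (ht : t ^ 2 = 3)
include hs ht

theorem idA1 : 1 + (2 * t - s * t - (3 - 2 * s)) * (2 * t + s * t - (3 + 2 * s)) = 8 - 4 * t := by
  linear_combination (-t ^ 2 + 4 * t - 4) * hs + 2 * ht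

theorem idA2 : (1 + (2 * t - s * t - (3 - 2 * s))) * (1 + (2 * t + s * t - (3 + 2 * s))) = 2 := by
  linear_combination (-t ^ 2 + 4 * t - 4) * hs + 2 * ht

theorem idA3 : (1 + (2 * t - s * t - (3 - 2 * s)) * (2 * t + s * t - (3 + 2 * s))) ^ 2
    = 16 * ((2 * t - s * t - (3 - 2 * s)) * (2 * t + s * t - (3 + 2 * s))) := by
  have h := idA1 hs ht
  linear_combination (1 + (2 * t - s * t - (3 - 2 * s)) * (2 * t + s * t - (3 + 2 * s))
    + (8 - 4 * t) - 16) * h + 16 * ht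

theorem idA4 : 1 - (2 * t - s * t - (3 - 2 * s)) ^ 2 = 2 * (3 - 2 * s) * (2 * t - s * t - (3 - 2 * s)) := by
  linear_combination -(2 - s) ^ 2 * ht + hs

theorem idA5 : (2 * t - s * t - (3 - 2 * s)) * (2 * t - s * t + (3 - 2 * s)) = 1 := by
  linear_combination (2 - s) ^ 2 * ht - hs

theorem idA6 : (2 * t + s * t - (3 + 2 * s)) * (2 * t + s * t + (3 + 2 * s)) = 1 := by
  linear_combination (2 + s) ^ 2 * ht - hs

theorem idB1 : 1 + (2 * t - s * t - -(3 - 2 * s)) * -(2 * t + s * t - (3 + 2 * s)) = -4 + 2 * (s * t) := by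
  linear_combination (t ^ 2 - 4) * hs - 2 * ht

theorem idB2 : (1 + (2 * t - s * t - -(3 - 2 * s))) * (1 + -(2 * t + s * t - (3 + 2 * s))) = 2 := by
  linear_combination (t ^ 2 - 4) * hs - 2 * ht

theorem idB3 : (1 + (2 * t - s * t - -(3 - 2 * s)) * -(2 * t + s * t - (3 + 2 * s))) ^ 2
    = (-8) * ((2 * t - s * t - -(3 - 2 * s)) * -(2 * t + s * t - (3 + 2 * s))) := by
  have h := idB1 hs ht
  linear_combination (1 + (2 * t - s * t - -(3 - 2 * s)) * -(2 * t + s * t - (3 + 2 * s))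
    + (-4 + 2 * (s * t)) + 8) * h + 4 * t ^ 2 * hs + 8 * ht

theorem idB4 : 1 - (2 * t - s * t - -(3 - 2 * s)) ^ 2
    = -(2 * (3 - 2 * s) * (2 * t - s * t - -(3 - 2 * s))) := by
  linear_combination -(2 - s) ^ 2 * ht + hs

end ids

section
variable {R : Type*} [CommRing R] [IsDomain R] [CharZero R] {k : Type*} [Field k]
  (p : ℕ) [Fact p.Prime] [CharP k p] (π : R →+* k) (hsurj : Function.Surjective π)
  (hker : ∀ x, π x = 0 → (p : R) ∣ x) (hunit : ∀ x, π x ≠ 0 → IsUnit x)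
  (n : ℕ) (hn : p = 2 * n + 1) (h3 : 3 < p)
  {s t h ε b w wb ct ct' wu wv : R}
  (hs : s ^ 2 = 2) (ht : t ^ 2 = 3) (hh : 2 * h = 1)
  (hε : ε ^ 2 = 1) (hb : b ^ 2 = 1) (hsp : π s ^ p = π (ε * s)) (htp : π t ^ p = π (b * t))
  (hw : w * wb = 1) (hcc : ct * ct' = w ^ 2) (hrat : ct * (ε * s - 1) = ε * ct' * (s - 1))
  (h6 : (-6 : k) ^ n = 1)
  (hwu : 4 * wu = (2 * t - s * t) ^ 2 - 1) (hwv : 4 * wv = (2 * t + s * t) ^ 2 - 1)
  (Fu : IsoFact p n (2 * t - s * t) (2 * t - ε * s * t) wu ct)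
  (Fv : IsoFact p n (2 * t + s * t) (2 * t + ε * s * t) wv ct')

include hsurj hker hunit hn h3 hs ht hh hε hb hsp htp hw hcc hrat h6 hwu hwv Fu Fv in
/-- the third sum -/
theorem ord3 : (p : R) ^ 2 ∣ ∑ m ∈ range (n + 1), (v n m : R) *
      ((h ^ 3) ^ (2 * m) * T (2 * m) ((6 : ℤ) : R) ((1 : ℤ) : R)) - 16 ^ n * (ε * wb ^ 2) := by
  have n2 := two_ne' (k := k) p h3
  have h16 := sixteen_pow (k := k) p n hn h3
  have n8 : (8 : R) ≠ 0 := by norm_num
  have n64 : (64 : R) ≠ 0 := by norm_num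
  have hhu : IsUnit h := IsUnit.of_mul_eq_one 2 (by rw [mul_comm]; exact hh)
  have hes : (ε * s) ^ 2 = 2 := by linear_combination s ^ 2 * hε + hs
  have hbt : (b * t) ^ 2 = 3 := by linear_combination t ^ 2 * hb + ht
  have hU := factsU p π hker n h3 hs ht hε hb hsp htp Fu
  have hV := factsV p π hker n h3 hs ht hε hb hsp htp Fv
  have hW : (8 - 4 * t : R) = 1 + (2 * t + s * t - (3 + 2 * s)) * (2 * t - s * t - (3 - 2 * s)) := by
    have := idA1 hs ht
    linear_combination -this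
  have hWu : IsUnit (8 - 4 * t : R) := IsUnit.of_mul_eq_one ((8 + 4 * t) * h ^ 4) (by
      linear_combination ((-16)) * h ^ 4 * ht + (8 * h ^ 3 + 4 * h ^ 2 + 2 * h + 1) * hh)
  have hev := PQ_eval_of n (2 * t - s * t - (3 - 2 * s)) (2 * t + s * t - (3 + 2 * s)) (8 - 4 * t)
    (h ^ 3) ((6 : ℤ) : R) ((1 : ℤ) : R) hW hWu (hhu.pow 3)
    (by
      apply mul_left_cancel₀ n8
      push_cast
      linear_combination ((32)*t^3 + (-176)*t^2 + (320)*t + (-192)) * hs + ((-64)*t + (128)) * ht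
        - 6 * (8 - 4 * t) ^ 2 * (4 * h ^ 2 + 2 * h + 1) * hh)
    (by
      apply mul_left_cancel₀ n64
      push_cast
      linear_combination ((-64)*s^4*t^6 + (768)*s^4*t^5 + (-3840)*s^4*t^4 + (10240)*s^4*t^3 + (-15360)*s^4*t^2 + (12288)*s^4*t + (-4096)*s^4 + (640)*s^2*t^6 + (-6912)*s^2*t^5 + (31040)*s^2*t^4 + (-74240)*s^2*t^3 + (99840)*s^2*t^2 + (-71680)*s^2*t + (21504)*s^2 + (-1792)*t^6 + (16896)*t^5 + (-65408)*t^4 + (132608)*t^3 + (-147712)*t^2 + (84992)*t + (-19456)) * hs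
        + ((512)*t^4 + (-3072)*t^3 + (6656)*t^2 + (-6144)*t + (2048)) * ht
        - (8 - 4 * t) ^ 4 * (8 * h ^ 3 + 1) * (4 * h ^ 2 + 2 * h + 1) * hh)
  set S : R := ∑ m ∈ range (n + 1), (v n m : R) *
      ((h ^ 3) ^ (2 * m) * T (2 * m) ((6 : ℤ) : R) ((1 : ℤ) : R)) with hS
  set Pu := T n (2 * t - s * t) wu with hPu
  set Pv := T n (2 * t + s * t) wv with hPv
  have exf : b * (2 * t - ε * s * t) - (3 - 2 * (ε * s))
      = 2 * (b * t) - (ε * s) * (b * t) - (3 - 2 * (ε * s)) := by ring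
  have eyf : b * (2 * t + ε * s * t) - (3 + 2 * (ε * s))
      = 2 * (b * t) + (ε * s) * (b * t) - (3 + 2 * (ε * s)) := by ring
  obtain ⟨U1, ⟨U2, U3, U4⟩, -⟩ := hU
  obtain ⟨V1, V2, V3, V4⟩ := hV
  rw [exf] at U2 U3
  rw [eyf] at V2 V3
  have hWxy : 1 + (2 * t - s * t - (3 - 2 * s)) * (2 * t + s * t - (3 + 2 * s)) = 8 - 4 * t := idA1 hs ht
  have hPS : (PQ n (2 * t + s * t - (3 + 2 * s))).eval (2 * t - s * t - (3 - 2 * s))
      = (1 + (2 * t - s * t - (3 - 2 * s)) * (2 * t + s * t - (3 + 2 * s))) ^ (4 * n + 1) * S := by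
    rw [hev, hWxy]
  have hwun : IsUnit w := IsUnit.of_mul_eq_one wb hw
  have hctu : IsUnit (ct * ct') := by rw [hcc]; exact hwun.pow 2
  have hcd : ct' ^ 2 * (3 - 2 * s) = ct ^ 2 * (3 - 2 * (ε * s)) := by
    linear_combination (-(ct * (ε * s - 1) + ε * ct' * (s - 1))) * hrat
      + (ct ^ 2) * hes - (ε ^ 2 * ct' ^ 2) * hs - ct' ^ 2 * (3 - 2 * s) * hε
  have g1 := H24.Sun.G1 (kap := 16) p π hker n hn h3 hunit (2 * t - s * t - (3 - 2 * s))
    (2 * t + s * t - (3 + 2 * s)) (2 * (b * t) - (ε * s) * (b * t) - (3 - 2 * (ε * s)))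
    (2 * (b * t) + (ε * s) * (b * t) - (3 + 2 * (ε * s))) b b ct ct' S
    (idA2 hs ht) (idA2 hes hbt) U2 V2 hb (by rw [← pow_two]; exact hb) U3 V3
    (by
      rw [idA4 hs ht, idA4 hes hbt]
      linear_combination (2 * (2 * t - s * t - (3 - 2 * s))
        * (2 * (b * t) - (ε * s) * (b * t) - (3 - 2 * (ε * s)))) * hcd)
    (IsUnit.of_mul_eq_one _ (idA5 hs ht)) (IsUnit.of_mul_eq_one _ (idA6 hs ht))
    (isUnit_of_mul_isUnit_left hctu) (isUnit_of_mul_isUnit_right hctu)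
    (by rw [hWxy]; exact hWu) (idA3 hs ht) (idA3 hes hbt) hPS
  have g0 := H24.Sun.G0 p π n hn h3 (2 * t - s * t - (3 - 2 * s)) (2 * t + s * t - (3 + 2 * s)) S
    (by rw [hWxy]; exact hWu) hPS
  apply fin_sq p π hker n hn h3 (w := w) ?_ hε ?_ hw
  · rw [show w ^ 4 = (w ^ 2) ^ 2 by ring, ← hcc]
    rwa [show S ^ 2 * (ct * ct') ^ 2 = S ^ 2 * ct ^ 2 * ct' ^ 2 by ring]
  · have e1 := pi_of_dvd p π U4
    have e2 := pi_of_dvd p π V4
    have e3 := congrArg π (idA3 hs ht)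
    have hk := key_mod p π hsurj hker n hn h3 hs ht hε hb hsp htp hw hcc hrat h6 hwu hwv Fv
    rw [← hPu, ← hPv] at hk
    have hx0 : π (2 * t - s * t - (3 - 2 * s)) ≠ 0 := ((IsUnit.of_mul_eq_one _ (idA5 hs ht)).map π).ne_zero
    have hy0 : π (2 * t + s * t - (3 + 2 * s)) ≠ 0 := ((IsUnit.of_mul_eq_one _ (idA6 hs ht)).map π).ne_zero
    set x : R := 2 * t - s * t - (3 - 2 * s)
    set y : R := 2 * t + s * t - (3 + 2 * s)
    rw [map_mul, map_pow, map_neg, map_one, map_mul, map_pow] at e1 e2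
    rw [map_pow, map_mul, map_mul, map_ofNat] at e3
    rw [map_mul, map_pow, map_mul, pow_mul, e3, mul_pow, h16, one_mul, mul_pow] at g0
    have hs1 : ((-1 : k) ^ n) * (-1) ^ n = 1 := by rw [← mul_pow]; norm_num
    have e4 : π S = π Pu * π Pv := by
      have hne : π x ^ n * π y ^ n ≠ 0 := mul_ne_zero (pow_ne_zero n hx0) (pow_ne_zero n hy0)
      apply mul_right_cancel₀ hne
      linear_combination g0 - (π ((G2 n).eval x) * π ((G2 n).eval y)) * hs1
        + ((-1) ^ n * π ((G2 n).eval y)) * e1 + (π x ^ n * π Pu) * e2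
    rw [map_mul, e4, ← hk, map_mul, map_mul]

include hsurj hker hunit hn h3 hs ht hh hε hb hsp htp hw hcc hrat h6 hwu hwv Fu Fv in
/-- the second sum -/
theorem ord2 : (p : R) ^ 2 ∣ ∑ m ∈ range (n + 1), (v n m : R) *
      ((h ^ 2) ^ (2 * m) * T (2 * m) ((6 : ℤ) : R) ((1 : ℤ) : R)) - 16 ^ n * (1 * wb ^ 2) := by
  have n2 := two_ne' (k := k) p h3
  have h16 := sixteen_pow (k := k) p n hn h3
  have n4 : (4 : R) ≠ 0 := by norm_num
  have n16 : (16 : R) ≠ 0 := by norm_num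
  have hodd : Odd p := ⟨n, hn⟩
  have hhu : IsUnit h := IsUnit.of_mul_eq_one 2 (by rw [mul_comm]; exact hh)
  have hes : (ε * s) ^ 2 = 2 := by linear_combination s ^ 2 * hε + hs
  have hbt : (b * t) ^ 2 = 3 := by linear_combination t ^ 2 * hb + ht
  have hU := factsU p π hker n h3 hs ht hε hb hsp htp Fu
  have hV := factsV p π hker n h3 hs ht hε hb hsp htp Fv
  have hWxy : 1 + (2 * t - s * t - -(3 - 2 * s)) * -(2 * t + s * t - (3 + 2 * s))
      = -4 + 2 * (s * t) := idB1 hs ht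
  have hW : (-4 + 2 * (s * t) : R) = 1 + -(2 * t + s * t - (3 + 2 * s))
      * (2 * t - s * t - -(3 - 2 * s)) := by
    linear_combination -hWxy
  have hWu : IsUnit (-4 + 2 * (s * t) : R) :=
    (IsUnit.of_mul_eq_one (-((-4 - 2 * (s * t)) * h ^ 3)) (by
      linear_combination (4) * t^2 * h ^ 3 * hs + 8 * h ^ 3 * ht + (4 * h ^ 2 + 2 * h + 1) * hh))
  have hev := PQ_eval_of n (2 * t - s * t - -(3 - 2 * s)) (-(2 * t + s * t - (3 + 2 * s)))
    (-4 + 2 * (s * t)) (h ^ 2) ((6 : ℤ) : R) ((1 : ℤ) : R) hW hWu (hhu.pow 2)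
    (by
      apply mul_left_cancel₀ n4
      push_cast
      linear_combination ((8)*s*t^3 + (-32)*s*t + (-32)*t^2 + (96)) * hs + ((-16)*s*t + (32)) * ht
        - 6 * (-4 + 2 * (s * t)) ^ 2 * (2 * h + 1) * hh)
    (by
      apply mul_left_cancel₀ n16
      push_cast
      linear_combination ((16)*s^4*t^6 + (-192)*s^4*t^4 + (768)*s^4*t^2 + (-1024)*s^4 + (96)*s^3*t^5 + (-768)*s^3*t^3 + (1536)*s^3*t + (-160)*s^2*t^6 + (1728)*s^2*t^4 + (-5760)*s^2*t^2 + (5376)*s^2 + (-576)*s*t^5 + (3904)*s*t^3 + (-5888)*s*t + (448)*t^6 + (-3840)*t^4 + (8896)*t^2 + (-4864)) * hs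
        + ((384)*s*t^3 + (-128)*t^4 + (-640)*t^2 + (256)) * ht
        - (-4 + 2 * (s * t)) ^ 4 * (4 * h ^ 2 + 1) * (2 * h + 1) * hh)
  set S : R := ∑ m ∈ range (n + 1), (v n m : R) *
      ((h ^ 2) ^ (2 * m) * T (2 * m) ((6 : ℤ) : R) ((1 : ℤ) : R)) with hS
  set Pu := T n (2 * t - s * t) wu with hPu
  set Pv := T n (2 * t + s * t) wv with hPv
  have exf : b * (2 * t - ε * s * t) - -(3 - 2 * (ε * s))
      = 2 * (b * t) - (ε * s) * (b * t) - -(3 - 2 * (ε * s)) := by ring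
  have eyf : b * (2 * t + ε * s * t) - (3 + 2 * (ε * s))
      = 2 * (b * t) + (ε * s) * (b * t) - (3 + 2 * (ε * s)) := by ring
  obtain ⟨U1, -, ⟨U2, U3, U4⟩⟩ := hU
  obtain ⟨V1, V2, V3, V4⟩ := hV
  rw [exf] at U2 U3
  rw [eyf] at V2 V3
  have hPS : (PQ n (-(2 * t + s * t - (3 + 2 * s)))).eval (2 * t - s * t - -(3 - 2 * s))
      = (1 + (2 * t - s * t - -(3 - 2 * s)) * -(2 * t + s * t - (3 + 2 * s))) ^ (4 * n + 1) * S := by
    rw [hev, hWxy]
  have hG2n : ∀ y : R, (G2 n : R[X]).eval (-y) = (G2 n : R[X]).eval y := by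
    intro y
    rw [G2_eval, G2_eval]
    refine sum_congr rfl fun m _ => ?_
    rw [(even_two_mul m).neg_pow]
  have hwun : IsUnit w := IsUnit.of_mul_eq_one wb hw
  have hctu : IsUnit (ct * ct') := by rw [hcc]; exact hwun.pow 2
  have hcd : ct' ^ 2 * (3 - 2 * s) = ct ^ 2 * (3 - 2 * (ε * s)) := by
    linear_combination (-(ct * (ε * s - 1) + ε * ct' * (s - 1))) * hrat
      + (ct ^ 2) * hes - (ε ^ 2 * ct' ^ 2) * hs - ct' ^ 2 * (3 - 2 * s) * hε
  have g1 := H24.Sun.G1 (kap := -8) p π hker n hn h3 hunit (2 * t - s * t - -(3 - 2 * s))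
    (-(2 * t + s * t - (3 + 2 * s))) (2 * (b * t) - (ε * s) * (b * t) - -(3 - 2 * (ε * s)))
    (-(2 * (b * t) + (ε * s) * (b * t) - (3 + 2 * (ε * s)))) b b ct ct' S
    (idB2 hs ht) (idB2 hes hbt) U2
    (by
      rw [hodd.neg_pow, ← neg_sub', dvd_neg]
      exact V2)
    hb (by rw [← pow_two]; exact hb) U3
    (by
      rw [hG2n]
      obtain ⟨q, hq⟩ := V3
      exact ⟨-q, by linear_combination -hq⟩)
    (by
      rw [idB4 hs ht, idB4 hes hbt]
      linear_combination (-2 * (2 * t - s * t - -(3 - 2 * s))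
        * (2 * (b * t) - (ε * s) * (b * t) - -(3 - 2 * (ε * s)))) * hcd)
    (IsUnit.of_mul_eq_one (2 * t - s * t - (3 - 2 * s)) (by linear_combination idA5 hs ht))
    (IsUnit.of_mul_eq_one _ (idA6 hs ht)).neg
    (isUnit_of_mul_isUnit_left hctu) (isUnit_of_mul_isUnit_right hctu)
    (by rw [hWxy]; exact hWu) (idB3 hs ht) (idB3 hes hbt) hPS
  have g0 := H24.Sun.G0 p π n hn h3 (2 * t - s * t - -(3 - 2 * s)) (-(2 * t + s * t - (3 + 2 * s))) S
    (by rw [hWxy]; exact hWu) hPS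
  apply fin_sq p π hker n hn h3 (w := w) ?_ (one_pow 2) ?_ hw
  · rw [show w ^ 4 = (w ^ 2) ^ 2 by ring, ← hcc]
    rwa [show S ^ 2 * (ct * ct') ^ 2 = S ^ 2 * ct ^ 2 * ct' ^ 2 by ring]
  · have e1 := pi_of_dvd p π U4
    have e2 := pi_of_dvd p π V4
    have e3 := congrArg π (idB3 hs ht)
    have hk := key_mod p π hsurj hker n hn h3 hs ht hε hb hsp htp hw hcc hrat h6 hwu hwv Fv
    rw [← hPu, ← hPv] at hk
    have hx0 : π (2 * t - s * t - -(3 - 2 * s)) ≠ 0 :=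
      ((IsUnit.of_mul_eq_one (2 * t - s * t - (3 - 2 * s)) (by linear_combination idA5 hs ht)).map π).ne_zero
    have hy0 : π (2 * t + s * t - (3 + 2 * s)) ≠ 0 := ((IsUnit.of_mul_eq_one _ (idA6 hs ht)).map π).ne_zero
    have hεe := ε_eq p π n hn h3 hs hsp
    have hεk : (π ε) ^ 2 = 1 := by rw [← map_pow, hε, map_one]
    rw [hG2n] at g0
    set x : R := 2 * t - s * t - -(3 - 2 * s)
    set y : R := 2 * t + s * t - (3 + 2 * s)
    rw [map_mul, map_pow, map_neg, map_one, map_mul, map_pow] at e1 e2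
    have e3' : (π (1 + x * -y)) ^ 2 = 8 * (π x * π y) := by
      rw [← map_pow, idB3 hs ht]
      simp only [map_mul, map_neg, map_ofNat]
      ring
    have h8 : (8 : k) ^ n = π ε := by
      rw [show (8 : k) = 2 ^ 3 by norm_num, ← pow_mul, mul_comm 3 n, pow_mul, ← hεe]
      linear_combination π ε * hεk
    rw [map_mul, map_pow, pow_mul, e3', mul_pow, h8, mul_pow, map_mul] at g0
    have hs1 : ((-1 : k) ^ n) * (-1) ^ n = 1 := by rw [← mul_pow]; norm_num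
    have e4 : π S * π ε = π Pu * π Pv := by
      have hne : π x ^ n * π y ^ n ≠ 0 := mul_ne_zero (pow_ne_zero n hx0) (pow_ne_zero n hy0)
      apply mul_right_cancel₀ hne
      linear_combination g0 - (π ((G2 n).eval x) * π ((G2 n).eval y)) * hs1
        + ((-1) ^ n * π ((G2 n).eval y)) * e1 + (π x ^ n * π Pu) * e2
    rw [map_mul, map_mul, ← e4] at hk
    rw [map_mul, map_one]
    have hε0 : π ε ≠ 0 := by
      intro h0
      rw [h0] at hεk
      simp at hεk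
    apply mul_right_cancel₀ hε0
    linear_combination hk

end

end Pool.Agent.H37.Sun
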