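import Mathlib
import Pool.Agent.H15.Sun.D
import Pool.Agent.H37.Sun.Cv11
import Pool.Agent.H37.Sun.Cv15

/-! From the isogeny to the facts modulo `p^2`. -/

namespace Pool.Agent.H37.Sun

open Polynomial Finset Pool.Agent.H99.Sun Pool.Agent.H15.Sun

section
variable {R : Type*} [CommRing R] [IsDomain R] [CharZero R] {k : Type*} [Field k]
  (p : ℕ) [Fact p.Prime] [CharP k p] (π : R →+* k)
  (hker : ∀ x, π x = 0 → (p : R) ∣ x) (hunit : ∀ x, π x ≠ 0 → IsUnit x)
  (n : ℕ) (hn : p = 2 * n + 1) (h3 : 3 < p)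

/-- the Legendre side -/
def LegSide (R : Type*) [CommRing R] (p n : ℕ) : Prop :=
  (∀ x : R, (p : R) ^ 2 ∣ (Hh n : R[X]).eval x - 16 ^ n * T n (1 - 2 * x) (x ^ 2 - x)) ∧
  (∀ (z w x : R) (r : ℕ → R), 4 * w = z ^ 2 - 1 → x ^ 2 - 2 * z * x + 1 = 0 →
    (∀ j < n, (2 * (j : R) + 1) * r j = T j z w) →
    (p : R) ^ 2 ∣ (-1) ^ n * (Hh n : R[X]).eval (x ^ 2) - 16 ^ n * (x ^ n * T n z w
      - p * ∑ j ∈ range n, (x ^ (2 * n - j) - x ^ j) * r j))

include hker hunit hn h3 in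
theorem isoFact_of (hL : LegSide R p n) {z z' w ct : R} (hw : 4 * w = z ^ 2 - 1) (hct : ct ≠ 0)
    {τ : PowerSeries R}
    (hτ : τ ^ 2 = 1 - 2 * PowerSeries.C z * PowerSeries.X + PowerSeries.X ^ 2)
    (hti : τ * PowerSeries.mk (fun j => T j z w) = 1)
    (H : IsoData τ z' (p * ct) p) : IsoFact p n z z' w ct := by
  obtain ⟨ρ, σ, N, D, a, P, ha, hN, hNd, hDd, hrev, hprim⟩ := H
  have hex : ∀ j, ∃ q : R, j < n → (2 * (j : R) + 1) * q = T j z w := by
    intro j
    by_cases hj : j < n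
    · have hu : IsUnit (2 * (j : R) + 1) := by
        apply hunit
        have : (((2 * j + 1 : ℕ)) : k) ≠ 0 := cast_ne (k := k) p (2 * j + 1) (by omega) (by omega)
        simpa [map_ofNat] using this
      obtain ⟨q, hq⟩ := hu.exists_right_inv
      exact ⟨q * T j z w, fun _ => by rw [← mul_assoc, hq, one_mul]⟩
    · exact ⟨0, fun h => absurd h hj⟩
  choose r hr using hex
  have dat : Dat p n π z z' ct a τ (PowerSeries.mk (fun j => T j z w)) ρ σ N D r :=
    { hker := hker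
      hunit := hunit
      hp := hn
      h3 := h3
      hτ := hτ
      hti := hti
      P := P
      hNd := hNd
      hDd := hDd
      hN := hN
      ha := ha
      hrev := hrev
      hprim := by
        obtain ⟨i, hi⟩ := hprim
        exact ⟨i, by rw [hi, map_one]; exact one_ne_zero⟩
      hr := fun j hj => by rw [hr j hj, PowerSeries.coeff_mk] }
  refine ⟨a, ha, ?_, ?_⟩
  · have := dat.D1
    rwa [PowerSeries.coeff_mk] at this
  · intro x hx
    have hHG : (Hh n : R[X]).eval (x ^ 2) = (G2 n : R[X]).eval x := by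
      rw [G2_eval, Hh, eval_finsetSum]
      refine sum_congr rfl fun m _ => ?_
      rw [eval_mul, eval_C, eval_pow, eval_X, pow_mul]
    obtain ⟨q1, hq1⟩ := hL.2 z w x r hw hx (fun j hj => hr j hj)
    rw [hHG] at hq1
    have h16 : (p : R) ∣ 16 ^ n - 1 := by
      apply dvd_of_pi p π hker
      rw [map_pow, map_ofNat, map_one]
      exact sixteen_pow (k := k) p n hn h3
    obtain ⟨q2, hq2⟩ := h16
    obtain ⟨I, hI⟩ := (dat.D2_unit x).exists_right_inv
    have h1 := dat.D2_eq hx hct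
    obtain ⟨q3, hq3⟩ := dat.D2_modp x
    obtain ⟨q4, hq4⟩ := dat.D2_main x
    rw [PowerSeries.coeff_mk] at hq4
    set G : R := x ^ n * T n z w - p * ∑ j ∈ range n, (x ^ (2 * n - j) - x ^ j) * r j with hG
    set Sg : R := ∑ j ∈ range n, (x ^ (2 * n - j) - x ^ j) * r j
    refine ⟨⟨p * q1 - 16 ^ n * Sg + x ^ n * T n z w * q2, ?_⟩, N.eval x * I, ?_, ⟨q3 * I, ?_⟩, ?_⟩
    · linear_combination hq1 + (x ^ n * T n z w) * hq2 + 16 ^ n * hG
    · linear_combination I ^ 2 * h1 + (2 * z' * N.eval x * I - D.eval x * I - 1) * hI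
    · linear_combination I * hq3 + a * x ^ p * hI
    · have hs1 : ((-1 : R) ^ n) ^ 2 = 1 := by rw [← pow_mul, mul_comm, pow_mul]; norm_num
      have h256 : (256 : R) ^ n = (16 ^ n) ^ 2 := by
        rw [← pow_mul, mul_comm, pow_mul]; norm_num
      refine ⟨x * ct ^ 2 * q1 * ((-1) ^ n * (G2 n : R[X]).eval x + 16 ^ n * G) + 256 ^ n * (q4 * I), ?_⟩
      rw [h256]
      linear_combination (x * ct ^ 2 * ((-1) ^ n * (G2 n : R[X]).eval x + 16 ^ n * G)) * hq1
        + ((16 ^ n) ^ 2 * I) * hq4 - ((16 ^ n) ^ 2 * x * ct ^ 2 * G ^ 2) * hI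
        - (x * ct ^ 2 * ((G2 n : R[X]).eval x) ^ 2) * hs1

end

end Pool.Agent.H37.Sun
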