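import Mathlib
import Pool.Agent.H37.Sun.Cv16
import Pool.Agent.H24.Sun.Fin

/-! The ordinary case of part (a). -/

namespace Pool.Agent.H37.Sun

open Polynomial Finset Pool.Agent.H99.Sun Pool.Agent.H15.Sun Pool.Agent.H24.Sun

/-- the three congruences and the ordinarity of the two points -/
def Out {R : Type*} [CommRing R] {k : Type*} [Field k] (π : R →+* k) (s t : R) (p n : ℕ) (h : R)
    (χ E : ℤ) : Prop :=
  Ord3 R p n h χ E ∧ π ((G2 n : R[X]).eval (2 * t - s * t - (3 - 2 * s))) ≠ 0 ∧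
    π ((G2 n : R[X]).eval (2 * t + s * t - (3 + 2 * s))) ≠ 0

section
variable {R : Type*} [CommRing R] [IsDomain R] [CharZero R] [ValuationRing R] {k : Type*} [Field k]
  (p : ℕ) [Fact p.Prime] [CharP k p] (π : R →+* k) (hsurj : Function.Surjective π)
  (hker : ∀ x, π x = 0 → (p : R) ∣ x) (hunit : ∀ x, π x ≠ 0 → IsUnit x)
  (n : ℕ) (hn : p = 2 * n + 1) (h3 : 3 < p) (hL : LegSide R p n)
  {s t i h : R} (hs : s ^ 2 = 2) (ht : t ^ 2 = 3) (hi : i ^ 2 = -1) (hh : 2 * h = 1)

include hsurj hker hunit hn h3 hL hs ht hi hh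

theorem ord_core (ε b w wb ct ct' : R) (hε : ε ^ 2 = 1) (hb : b ^ 2 = 1)
    (hsp : π s ^ p = π (ε * s)) (htp : π t ^ p = π (b * t))
    (hw : w * wb = 1) (hcc : ct * ct' = w ^ 2) (hrat : ct * (ε * s - 1) = ε * ct' * (s - 1))
    (h6 : (-6 : k) ^ n = 1)
    (Du : ∀ τ : PowerSeries R, τ ^ 2 = 1 - 2 * PowerSeries.C (2 * t - s * t) * PowerSeries.X
      + PowerSeries.X ^ 2 → PowerSeries.constantCoeff τ = 1 →
      IsoData τ (2 * t - ε * s * t) (p * ct) p)
    (Dv : ∀ τ : PowerSeries R, τ ^ 2 = 1 - 2 * PowerSeries.C (2 * t + s * t) * PowerSeries.X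
      + PowerSeries.X ^ 2 → PowerSeries.constantCoeff τ = 1 →
      IsoData τ (2 * t + ε * s * t) (p * ct') p)
    (χ E : ℤ) (hχ : (χ : R) = ε) (hE : (p : R) ^ 2 ∣ (E : R) - ε * wb ^ 2) :
    Out π s t p n h χ E := by
  obtain ⟨wu, hwu⟩ : ∃ wu : R, 4 * wu = (2 * t - s * t) ^ 2 - 1 :=
    ⟨h ^ 2 * ((2 * t - s * t) ^ 2 - 1), by linear_combination ((2 * t - s * t) ^ 2 - 1) * (2 * h + 1) * hh⟩
  obtain ⟨wv, hwv⟩ : ∃ wv : R, 4 * wv = (2 * t + s * t) ^ 2 - 1 :=
    ⟨h ^ 2 * ((2 * t + s * t) ^ 2 - 1), by linear_combination ((2 * t + s * t) ^ 2 - 1) * (2 * h + 1) * hh⟩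
  obtain ⟨τu, hτu, hτu0, htiu⟩ := tau_exists _ _ hwu
  obtain ⟨τv, hτv, hτv0, htiv⟩ := tau_exists _ _ hwv
  have hw0 : w ≠ 0 := left_ne_zero_of_mul (by rw [hw]; exact one_ne_zero)
  have hct0 : ct ≠ 0 := left_ne_zero_of_mul (by rw [hcc]; exact pow_ne_zero 2 hw0)
  have hct'0 : ct' ≠ 0 := right_ne_zero_of_mul (by rw [hcc]; exact pow_ne_zero 2 hw0)
  have Fu := isoFact_of p π hker hunit n hn h3 hL hwu hct0 hτu htiu (Du τu hτu hτu0)
  have Fv := isoFact_of p π hker hunit n hn h3 hL hwv hct'0 hτv htiv (Dv τv hτv hτv0)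
  have o1 := ord1 p π hsurj hker n hn h3 hs ht hh hε hb hsp htp hw hcc hrat h6 hwu hwv Fu Fv hL.1
  have o2 := ord2 p π hsurj hker hunit n hn h3 hs ht hh hε hb hsp htp hw hcc hrat h6 hwu hwv Fu Fv
  have o3 := ord3 p π hsurj hker hunit n hn h3 hs ht hh hε hb hsp htp hw hcc hrat h6 hwu hwv Fu Fv
  obtain ⟨q, hq⟩ := hE
  obtain ⟨q1, hq1⟩ := o1
  obtain ⟨q2, hq2⟩ := o2
  obtain ⟨q3, hq3⟩ := o3
  have hbk : π b ≠ 0 := by
    intro h0
    have := congrArg π hb
    rw [map_pow, h0, map_one] at this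
    simp at this
  have nonvan : ∀ (c P x G : R), (p : R) ^ 2 ∣ (c * P) ^ 2 - b → (p : R) ∣ (-1) ^ n * G - x ^ n * P →
      π x ≠ 0 → π G ≠ 0 := by
    intro c P x G h1 h2 hx h0
    have e1 := pi_of_dvd p π (dvd_trans (dvd_pow_self _ (by norm_num)) h1)
    have e2 := pi_of_dvd p π h2
    rw [map_mul, h0, mul_zero, map_mul, map_pow] at e2
    have e3 : π P = 0 := (mul_eq_zero.mp e2.symm).resolve_left (pow_ne_zero n hx)
    rw [map_pow, map_mul, e3, mul_zero] at e1
    apply hbk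
    rw [← e1]
    norm_num
  obtain ⟨U1, ⟨-, -, U4⟩, -⟩ := factsU p π hker n h3 hs ht hε hb hsp htp Fu
  obtain ⟨V1, -, -, V4⟩ := factsV p π hker n h3 hs ht hε hb hsp htp Fv
  refine ⟨⟨⟨q1 - 16 ^ n * q, ?_⟩, ⟨ε * q2 - 16 ^ n * q, ?_⟩, ⟨q3 - 16 ^ n * q, ?_⟩⟩,
    nonvan _ _ _ _ U1 U4 ((IsUnit.of_mul_eq_one _ (idA5 hs ht)).map π).ne_zero,
    nonvan _ _ _ _ V1 V4 ((IsUnit.of_mul_eq_one _ (idA6 hs ht)).map π).ne_zero⟩
  · linear_combination hq1 - 16 ^ n * hq
  · rw [hχ]
    linear_combination ε * hq2 - 16 ^ n * hq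
  · linear_combination hq3 - 16 ^ n * hq

omit hsurj hker hunit hL hs ht hi hh [ValuationRing R] [IsDomain R] [CharZero R] in
theorem sign_pow (a : R) (m : ℕ) (ha : a ^ 2 = (m : R)) (hm : ¬ p ∣ m) :
    ∃ b : R, b ^ 2 = 1 ∧ π a ^ p = π (b * a) ∧ π b = (m : k) ^ n := by
  have hak : (π a) ^ 2 = (m : k) := by rw [← map_pow, ha, map_natCast]
  have h1 : ((m : k) ^ n) * ((m : k) ^ n) = 1 := by
    rw [← pow_add, ← two_mul]
    exact pow_pred (k := k) p n hn m hm
  have h2 : π a ^ p = (m : k) ^ n * π a := by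
    rw [hn, pow_succ, pow_mul, hak]
  rcases mul_self_eq_one_iff.mp h1 with h | h
  · exact ⟨1, one_pow 2, by rw [h2, h, one_mul, one_mul], by rw [h, map_one]⟩
  · exact ⟨-1, by ring, by rw [h2, h, map_mul, map_neg, map_one], by rw [h, map_neg, map_one]⟩

theorem ord_main1 (x y : ℕ) (hxy : p = x ^ 2 + y ^ 2 * 6) (h6 : (-6 : k) ^ n = 1)
    (h2 : (2 : k) ^ n = 1) : Out π s t p n h 1 (4 * (x : ℤ) ^ 2 - 2 * p) := by
  have n2 := two_ne' (k := k) p h3
  have hprime : p.Prime := Fact.out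
  have hx2 : x % 2 = 1 := by
    rcases Nat.mod_two_eq_zero_or_one x with hx | hx
    · exfalso
      obtain ⟨x', rfl⟩ : 2 ∣ x := Nat.dvd_of_mod_eq_zero hx
      have : p % 2 = 0 := by
        have : p = 2 * (2 * x' ^ 2 + y ^ 2 * 3) := by rw [hxy]; ring
        omega
      omega
    · exact hx
  have hxp : x < p := by
    have hy0 : y ≠ 0 := by
      rintro rfl
      have : p = x * x := by rw [hxy]; ring
      have hx1 : ¬ Nat.Prime (x * x) := Nat.not_prime_mul (by rintro rfl; simp at this; omega)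
        (by rintro rfl; simp at this; omega)
      exact hx1 (this ▸ hprime)
    have : 1 ≤ y ^ 2 := Nat.one_le_iff_ne_zero.mpr (pow_ne_zero 2 hy0)
    nlinarith
  have hxk : (x : k) ≠ 0 := cast_ne (k := k) p x (by omega) hxp
  -- the two factors
  have hfac : ((x : R) + y * (i * s * t)) * (x - y * (i * s * t)) = p := by
    rw [hxy]
    push_cast
    linear_combination (-(y : R) ^ 2 * s ^ 2 * t ^ 2) * hi + ((y : R) ^ 2 * t ^ 2) * hs
      + (2 * (y : R) ^ 2) * ht
  have hprod : π ((x : R) + y * (i * s * t)) * π (x - y * (i * s * t)) = 0 := by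
    rw [← map_mul, hfac, map_natCast, CharP.cast_eq_zero k p]
  have key : ∀ c wb : R, c * wb = p → c + wb = 2 * x → π c = 0 →
      (c = x + y * (i * s * t) ∨ c = x - y * (i * s * t)) →
      Out π s t p n h 1 (4 * (x : ℤ) ^ 2 - 2 * p) := by
    intro c wb hcw hsum hc0 hcc
    have hwb : π wb ≠ 0 := by
      intro h0
      have := congrArg π hsum
      rw [map_add, hc0, h0, map_mul, map_ofNat, map_natCast, add_zero] at this
      exact mul_ne_zero n2 hxk this.symm
    obtain ⟨w, hw⟩ := (hunit wb hwb).exists_left_inv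
    have hc : (p : R) * w = c := by
      linear_combination -w * hcw + c * hw
    have hcne : c ≠ 0 := by
      intro h0
      rw [h0, zero_mul] at hcw
      exact (Nat.cast_ne_zero (R := R).mpr hprime.ne_zero) hcw.symm
    obtain ⟨b, hb, hbt, -⟩ := sign_pow p π n hn h3 t 3 (by rw [ht]; norm_num)
      (fun hd => absurd (Nat.le_of_dvd (by norm_num) hd) (by omega))
    have hsk : (π s) ^ 2 = 2 := by rw [← map_pow, hs, map_ofNat]
    have hsp : π s ^ p = π (1 * s) := by
      rw [hn, pow_succ, pow_mul, hsk, h2, one_mul, one_mul]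
    apply ord_core p π hsurj hker hunit n hn h3 hL hs ht hi hh 1 b w wb w w (by ring) hb hsp hbt hw
      (by ring) (by ring) h6
    · intro τ hτ hτ0
      rw [hc, one_mul]
      have := endData hs ht hi hτ hτ0 x y hx2 c hcne hcc
      rwa [← hxy] at this
    · intro τ hτ hτ0
      rw [hc, one_mul]
      have := endData (s := -s) (by rw [neg_sq]; exact hs) ht hi
        (by rw [hτ, show 2 * t + s * t = 2 * t - -s * t by ring]) hτ0 x y hx2 c hcne
        (by
          rcases hcc with hcc | hcc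
          · right; rw [hcc]; ring
          · left; rw [hcc]; ring)
      rw [← hxy, show 2 * t - -s * t = 2 * t + s * t by ring] at this
      exact this
    · norm_num
    · refine ⟨w ^ 2, ?_⟩
      push_cast
      linear_combination (-(c + wb + 2 * x)) * hsum + 2 * hcw - (p * w + c) * hc
  rcases mul_eq_zero.mp hprod with h0 | h0
  · exact key _ (x - y * (i * s * t)) hfac (by ring) h0 (Or.inl rfl)
  · exact key _ (x + y * (i * s * t)) (by linear_combination hfac) (by ring) h0 (Or.inr rfl)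

theorem ord_main2 (x y : ℕ) (hxy : p = x ^ 2 * 2 + y ^ 2 * 3) (h6 : (-6 : k) ^ n = 1)
    (h2 : (2 : k) ^ n = -1) : Out π s t p n h (-1) (8 * (x : ℤ) ^ 2 - 2 * p) := by
  have n2 := two_ne' (k := k) p h3
  have hprime : p.Prime := Fact.out
  have hy2 : y % 2 = 1 := by
    rcases Nat.mod_two_eq_zero_or_one y with hy | hy
    · exfalso
      obtain ⟨y', rfl⟩ : 2 ∣ y := Nat.dvd_of_mod_eq_zero hy
      have : p % 2 = 0 := by
        have : p = 2 * (x ^ 2 + 6 * y' ^ 2) := by rw [hxy]; ring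
        omega
      omega
    · exact hy
  have hyp : y < p := by
    have : 1 ≤ y := by omega
    nlinarith
  have hyk : (y : k) ≠ 0 := cast_ne (k := k) p y (by omega) hyp
  have htk : (π t) ^ 2 = 3 := by rw [← map_pow, ht, map_ofNat]
  have htk0 : π t ≠ 0 := by
    intro h0
    rw [h0] at htk
    exact three_ne' p h3 (by rw [← htk]; ring)
  -- the two factors
  have hfac : (x * (i * s) - y * t : R) * (-(x * (i * s) + y * t)) = p := by
    rw [hxy]
    push_cast
    linear_combination (-(x : R) ^ 2 * s ^ 2) * hi + ((x : R) ^ 2) * hs + ((y : R) ^ 2) * ht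
  have hprod : π (x * (i * s) - y * t : R) * π (-(x * (i * s) + y * t)) = 0 := by
    rw [← map_mul, hfac, map_natCast, CharP.cast_eq_zero k p]
  have key : ∀ (P wb e : R), P * wb = p → P + wb = -2 * e * (y * t) → π P = 0 → e ^ 2 = 1 →
      (P = x * (i * s) - y * t ∧ e = 1 ∨ P = x * (i * s) + y * t ∧ e = -1) →
      Out π s t p n h (-1) (8 * (x : ℤ) ^ 2 - 2 * p) := by
    intro P wb e hPw hsum hP0 he hPP
    have hwb : π wb ≠ 0 := by
      intro h0
      have h1 := congrArg π hsum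
      rw [map_add, hP0, h0, map_mul, map_mul, map_neg, map_ofNat, map_mul, map_natCast, add_zero] at h1
      have he0 : π e ≠ 0 := by
        intro h0
        have := congrArg π he
        rw [map_pow, h0, map_one] at this
        simp at this
      exact mul_ne_zero (mul_ne_zero (neg_ne_zero.mpr n2) he0) (mul_ne_zero hyk htk0) h1.symm
    obtain ⟨w, hw⟩ := (hunit wb hwb).exists_left_inv
    have hc : (p : R) * w = P := by
      linear_combination -w * hPw + P * hw
    have hPne : P ≠ 0 := by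
      intro h0
      rw [h0, zero_mul] at hPw
      exact (Nat.cast_ne_zero (R := R).mpr hprime.ne_zero) hPw.symm
    have hs1 : (s - 1) * (s + 1) = 1 := by linear_combination hs
    have hs1ne : (s - 1) ≠ 0 := left_ne_zero_of_mul (by rw [hs1]; exact one_ne_zero)
    have hs2ne : (s + 1) ≠ 0 := right_ne_zero_of_mul (by rw [hs1]; exact one_ne_zero)
    obtain ⟨b, hb, hbt, -⟩ := sign_pow p π n hn h3 t 3 (by rw [ht]; norm_num)
      (fun hd => absurd (Nat.le_of_dvd (by norm_num) hd) (by omega))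
    have hsk : (π s) ^ 2 = 2 := by rw [← map_pow, hs, map_ofNat]
    have hsp : π s ^ p = π (-1 * s) := by
      rw [hn, pow_succ, pow_mul, hsk, h2, map_mul, map_neg, map_one]
    apply ord_core p π hsurj hker hunit n hn h3 hL hs ht hi hh (-1) b w wb ((s - 1) * w) ((s + 1) * w)
      (by ring) hb hsp hbt hw
      (by linear_combination w ^ 2 * hs1) (by ring) h6
    · intro τ hτ hτ0
      rw [show (p : R) * ((s - 1) * w) = (s - 1) * P by rw [← hc]; ring,
        show 2 * t - -1 * s * t = 2 * t + s * t by ring]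
      have := homData hs ht hi hτ hτ0 x y hy2 ((s - 1) * P) (mul_ne_zero hs1ne hPne)
        (by
          rcases hPP with ⟨hPP, -⟩ | ⟨hPP, -⟩
          · left; rw [hPP]; ring
          · right; rw [hPP]; ring)
      rwa [← hxy] at this
    · intro τ hτ hτ0
      rw [show (p : R) * ((s + 1) * w) = (s + 1) * P by rw [← hc]; ring,
        show 2 * t + -1 * s * t = 2 * t + -s * t by ring]
      have := homData (s := -s) (by rw [neg_sq]; exact hs) ht hi
        (by rw [hτ, show 2 * t + s * t = 2 * t - -s * t by ring]) hτ0 x y hy2 ((s + 1) * P)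
        (mul_ne_zero hs2ne hPne)
        (by
          rcases hPP with ⟨hPP, -⟩ | ⟨hPP, -⟩
          · right; rw [hPP]; ring
          · left; rw [hPP]; ring)
      rwa [← hxy] at this
    · norm_num
    · refine ⟨-w ^ 2, ?_⟩
      push_cast
      have hpR : (p : R) = x ^ 2 * 2 + y ^ 2 * 3 := by
        have := congrArg (Nat.cast : ℕ → R) hxy
        push_cast at this
        exact this
      linear_combination (P + wb - 2 * e * (y * t)) * hsum - 2 * hPw + (p * w + P) * hc
        + 4 * (y * t) ^ 2 * he + 4 * (y : R) ^ 2 * ht - 4 * hpR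
  rcases mul_eq_zero.mp hprod with h0 | h0
  · exact key _ (-(x * (i * s) + y * t)) 1 hfac (by ring) h0 (by ring) (Or.inl ⟨rfl, rfl⟩)
  · exact key (x * (i * s) + y * t) (-(x * (i * s) - y * t)) (-1) (by linear_combination hfac)
      (by ring) (by rw [map_neg, neg_eq_zero] at h0; exact h0) (by ring) (Or.inr ⟨rfl, rfl⟩)

end

end Pool.Agent.H37.Sun
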