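import Mathlib
import Pool.Agent.H37.Sun.Cv17

/-! The ordinary case of part (a) over the Witt vectors. -/

namespace Pool.Agent.H37.Sun

open Polynomial Finset Pool.Agent.H24.Sun

section
variable (p : ℕ) [Fact p.Prime]

theorem exists_sqrt_unit (h2 : p ≠ 2) (u : OO p) (hu : WittVector.constantCoeff u ≠ 0) :
    ∃ s : OO p, s ^ 2 = u := by
  have := kk_charP p
  obtain ⟨α, hα⟩ := IsAlgClosed.exists_pow_nat_eq (WittVector.constantCoeff u) (n := 2) (by norm_num)
  obtain ⟨a₀, ha₀⟩ := WittVector.constantCoeff_surjective (p := p) (R := (AlgebraicClosure (ZMod p))) α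
  have hH := (IsAdicComplete.henselianRing (OO p) (Ideal.span {(p : (OO p))})).is_henselian
    (X ^ 2 - C u) (monic_X_pow_sub_C _ (by norm_num)) a₀
    (by
      rw [← WittVector.ker_constantCoeff]
      rw [RingHom.mem_ker]
      rw [eval_sub, eval_pow, eval_X, eval_C, map_sub, map_pow, ha₀, hα, sub_self])
    (by
      apply IsUnit.map
      apply isUnit_of
      simp only [derivative_sub, derivative_X_pow, derivative_C, sub_zero, eval_mul, eval_pow,
        eval_X, eval_C, map_mul, map_pow, ha₀]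
      simp only [Nat.cast_ofNat, map_ofNat, Nat.add_one_sub_one, pow_one]
      apply mul_ne_zero
      · intro h
        have h' : ((2 : ℕ) : (AlgebraicClosure (ZMod p))) = 0 := by exact_mod_cast h
        rw [CharP.cast_eq_zero_iff (AlgebraicClosure (ZMod p)) p] at h'
        exact h2 ((Nat.prime_dvd_prime_iff_eq Fact.out Nat.prime_two).mp h')
      · intro h
        rw [h] at hα
        apply hu
        rw [← hα]
        norm_num)
  obtain ⟨a, ha, _⟩ := hH
  refine ⟨a, ?_⟩
  rw [IsRoot, eval_sub, eval_pow, eval_X, eval_C, sub_eq_zero] at ha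
  exact ha

theorem valRing : ValuationRing (OO p) := by
  have := kk_charP p
  have : IsDiscreteValuationRing (OO p) := WittVector.isDiscreteValuationRing
  infer_instance

theorem jac_one (h : p % 3 = 1) : jacobiSym p 3 = 1 := by
  rw [jacobiSym.mod_left]
  have : (p : ℤ) % ((3 : ℕ) : ℤ) = 1 := by omega
  rw [this, jacobiSym.one_left]

theorem jac_two (h : p % 3 = 2) : jacobiSym p 3 = -1 := by
  rw [jacobiSym.mod_left]
  have : (p : ℤ) % ((3 : ℕ) : ℤ) = 2 := by omega
  rw [this]
  norm_num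

theorem euler_k {a : ZMod p} (n : ℕ) (hn : p = 2 * n + 1) (ha : a ≠ 0) :
    (IsSquare a → (algebraMap (ZMod p) (AlgebraicClosure (ZMod p)) a) ^ n = 1) ∧
    (¬ IsSquare a → (algebraMap (ZMod p) (AlgebraicClosure (ZMod p)) a) ^ n = -1) := by
  have hdiv : p / 2 = n := by omega
  constructor
  · intro h
    have := (ZMod.euler_criterion p ha).mp h
    rw [hdiv] at this
    rw [← map_pow, this, map_one]
  · intro h
    have := (ZMod.pow_div_two_eq_neg_one_or_one p ha).resolve_left
      (fun h1 => h ((ZMod.euler_criterion p ha).mpr h1))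
    rw [hdiv] at this
    rw [← map_pow, this, map_neg, map_one]

theorem natAbs_form (x : ℤ) : ((x.natAbs : ℕ) : ℤ) ^ 2 = x ^ 2 := Int.natAbs_sq x

theorem isSquare_of_form (x y : ℕ) (hy : ((y : ℕ) : ZMod p) ≠ 0) (c : ZMod p)
    (h : (x : ZMod p) ^ 2 = c * (y : ZMod p) ^ 2) : IsSquare c := by
  refine ⟨(x : ZMod p) / y, ?_⟩
  rw [div_mul_div_comm, eq_div_iff (mul_ne_zero hy hy)]
  linear_combination -h

end

/-- the three congruences and ordinarity, over the Witt vectors -/
theorem out_form (p : ℕ) [Fact p.Prime] (n : ℕ) (hn : p = 2 * n + 1) (h3 : 3 < p)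
    (hLeg : LegSide (OO p) p n) (s t h : OO p) (hs : s ^ 2 = 2) (ht : t ^ 2 = 3) (hh : 2 * h = 1)
    (x y E : ℤ) (hE : ((p : ℤ) = x ^ 2 + 6 * y ^ 2 ∧ E = 4 * x ^ 2 - 2 * p)
      ∨ ((p : ℤ) = 2 * x ^ 2 + 3 * y ^ 2 ∧ E = 8 * x ^ 2 - 2 * p)) :
    Out (WittVector.constantCoeff : OO p →+* AlgebraicClosure (ZMod p)) s t p n h (jacobiSym p 3) E := by
  have : CharZero (OO p) := charZero_OO p
  have : CharP (AlgebraicClosure (ZMod p)) p := kk_charP p
  have : ValuationRing (OO p) := valRing p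
  have hprime : p.Prime := Fact.out
  have n2 : (2 : ZMod p) ≠ 0 := by exact_mod_cast cast_ne (k := ZMod p) p 2 (by norm_num) (by omega)
  have n3 : (3 : ZMod p) ≠ 0 := by exact_mod_cast cast_ne (k := ZMod p) p 3 (by norm_num) (by omega)
  have n6 : (-6 : ZMod p) ≠ 0 := by
    rw [show (-6 : ZMod p) = -(2 * 3) by norm_num]
    exact neg_ne_zero.mpr (mul_ne_zero n2 n3)
  have hker : ∀ x : OO p, WittVector.constantCoeff x = 0 → (p : OO p) ∣ x := ker_OO p
  have hunit : ∀ x : OO p, WittVector.constantCoeff x ≠ 0 → IsUnit x := isUnit_of p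
  obtain ⟨i, hi⟩ := exists_sqrt_unit p (by omega) (-1 : OO p) (by
    rw [map_neg, map_one]; exact neg_ne_zero.mpr one_ne_zero)
  have hpp : ∀ y : ℕ, y ≠ 0 → y < p → ((y : ℕ) : ZMod p) ≠ 0 :=
    fun y h0 h1 => cast_ne (k := ZMod p) p y (Nat.pos_of_ne_zero h0) h1
  have k6 : (algebraMap (ZMod p) (AlgebraicClosure (ZMod p)) (-6)) = -6 := by
    rw [map_neg, map_ofNat]
  have k2 : (algebraMap (ZMod p) (AlgebraicClosure (ZMod p)) 2) = 2 := map_ofNat _ 2
  have e0 := euler_k p n hn n6
  have e2 := euler_k p n hn n2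
  rw [k6] at e0
  rw [k2] at e2
  have hsq2 := ZMod.exists_sq_eq_two_iff (p := p) (by omega)
  rcases hE with ⟨hxy, hE⟩ | ⟨hxy, hE⟩
  · have hxy' : p = x.natAbs ^ 2 + y.natAbs ^ 2 * 6 := by
      have : (p : ℤ) = ((x.natAbs ^ 2 + y.natAbs ^ 2 * 6 : ℕ) : ℤ) := by
        push_cast
        rw [sq_abs, sq_abs]
        linarith
      exact_mod_cast this
    have hy0 : y.natAbs ≠ 0 := by
      intro h0
      rw [h0] at hxy'
      have h1 : p = x.natAbs * x.natAbs := by rw [hxy']; ring
      have hx1 : ¬ Nat.Prime (x.natAbs * x.natAbs) := Nat.not_prime_mul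
        (by intro h2; rw [h2] at h1; omega) (by intro h2; rw [h2] at h1; omega)
      exact hx1 (h1 ▸ hprime)
    have hyp : y.natAbs < p := by nlinarith [Nat.pos_of_ne_zero hy0]
    have hsq : IsSquare (-6 : ZMod p) := isSquare_of_form p x.natAbs y.natAbs (hpp _ hy0 hyp) _ (by
      have := congrArg (Nat.cast : ℕ → ZMod p) hxy'
      rw [ZMod.natCast_self] at this
      push_cast at this ⊢
      linear_combination -this)
    have hmod := (isSquare_neg_six_iff p h3).mp hsq
    have hm3 := mod_three_of_first p x y hxy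
    have hj := jac_one p (by omega)
    rw [hj, hE, ← natAbs_form x]
    exact ord_main1 p WittVector.constantCoeff (WittVector.constantCoeff_surjective p) hker hunit n hn h3
      hLeg hs ht hi hh x.natAbs y.natAbs hxy' (e0.1 hsq) (e2.1 (hsq2.mpr (by omega)))
  · have hxy' : p = x.natAbs ^ 2 * 2 + y.natAbs ^ 2 * 3 := by
      have : (p : ℤ) = ((x.natAbs ^ 2 * 2 + y.natAbs ^ 2 * 3 : ℕ) : ℤ) := by
        push_cast
        rw [sq_abs, sq_abs]
        linarith
      exact_mod_cast this
    have hy0 : y.natAbs ≠ 0 := by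
      intro h0
      rw [h0] at hxy'
      have h1 : p = 2 * x.natAbs ^ 2 := by rw [hxy']; ring
      omega
    have hx0 : x.natAbs ≠ 0 := by
      intro h0
      rw [h0] at hxy'
      have h1 : p = 3 * y.natAbs ^ 2 := by rw [hxy']; ring
      have : 3 ∣ p := ⟨_, h1⟩
      have := (Nat.prime_dvd_prime_iff_eq Nat.prime_three hprime).mp this
      omega
    have hxp : x.natAbs < p := by nlinarith [Nat.pos_of_ne_zero hx0]
    have hyp : y.natAbs < p := by nlinarith [Nat.pos_of_ne_zero hy0]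
    have hsq : IsSquare (-6 : ZMod p) := isSquare_of_form p (2 * x.natAbs) y.natAbs (hpp _ hy0 hyp) _ (by
      have := congrArg (Nat.cast : ℕ → ZMod p) hxy'
      rw [ZMod.natCast_self] at this
      push_cast at this ⊢
      linear_combination -2 * this)
    have hmod := (isSquare_neg_six_iff p h3).mp hsq
    have hm3 := mod_three_of_second p x y hxy
    have hj := jac_two p (by omega)
    rw [hj, hE, ← natAbs_form x]
    exact ord_main2 p WittVector.constantCoeff (WittVector.constantCoeff_surjective p) hker hunit n hn h3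
      hLeg hs ht hi hh x.natAbs y.natAbs hxy' (e0.1 hsq)
      (e2.2 (fun h2 => by have := hsq2.mp h2; omega))

theorem ordHyp (hLeg : ∀ (p : ℕ) [Fact p.Prime] (n : ℕ), p = 2 * n + 1 → 3 < p →
    LegSide (OO p) p n) : OrdHyp := by
  intro p hF n hn h3 h hh x y E hE
  have : CharP (AlgebraicClosure (ZMod p)) p := kk_charP p
  obtain ⟨s, hs⟩ := exists_sqrt_unit p (by omega) (2 : OO p) (by
    rw [map_ofNat]; exact_mod_cast cast_ne (k := AlgebraicClosure (ZMod p)) p 2 (by norm_num) (by omega))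
  obtain ⟨t, ht⟩ := exists_sqrt_unit p (by omega) (3 : OO p) (by
    rw [map_ofNat]; exact_mod_cast cast_ne (k := AlgebraicClosure (ZMod p)) p 3 (by norm_num) (by omega))
  exact (out_form p n hn h3 (hLeg p n hn h3) s t h hs ht hh x y E hE).1

/-- ordinarity of the two points when `-6` is a square modulo `p` -/
theorem ordinary (p : ℕ) [Fact p.Prime] (n : ℕ) (hn : p = 2 * n + 1) (h3 : 3 < p)
    (hLeg : LegSide (OO p) p n) (hsq : IsSquare (-6 : ZMod p)) (s t : OO p) (hs : s ^ 2 = 2)
    (ht : t ^ 2 = 3) :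
    WittVector.constantCoeff ((Pool.Agent.H99.Sun.G2 n : (OO p)[X]).eval (2 * t - s * t - (3 - 2 * s))) ≠ 0 ∧
    WittVector.constantCoeff ((Pool.Agent.H99.Sun.G2 n : (OO p)[X]).eval (2 * t + s * t - (3 + 2 * s))) ≠ 0 := by
  obtain ⟨h, hh⟩ := exists_half p h3
  obtain ⟨x, y, hxy | hxy⟩ := thue p hsq
  · exact (out_form p n hn h3 hLeg s t h hs ht hh x y _ (Or.inl ⟨hxy, rfl⟩)).2
  · exact (out_form p n hn h3 hLeg s t h hs ht hh x y _ (Or.inr ⟨hxy, rfl⟩)).2

end Pool.Agent.H37.Sun
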