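import Mathlib
import Pool.Agent.H37.Sun.Cv16

/-! The Legendre side modulo `p^2`. -/

namespace Pool.Agent.H37.Sun

open Polynomial Finset

/-- the coefficients of the shifted Legendre polynomial, up to sign -/
theorem leg_rec (n m : ℕ) :
    (m + 1) ^ 2 * (n.choose (m + 1) * (n + (m + 1)).choose n)
      = (n - m) * (n + m + 1) * (n.choose m * (n + m).choose n) := by
  have h1 : (n.choose (m + 1)) * (m + 1) = n.choose m * (n - m) := Nat.choose_succ_right_eq n m
  have h2 : (n + (m + 1)).choose n * (m + 1) = (n + m).choose n * (n + m + 1) := by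
    have e1 : (n + (m + 1)).choose n = (n + m + 1).choose (m + 1) := by
      rw [show n + (m + 1) = n + m + 1 by ring]
      exact Nat.choose_symm_of_eq_add (by ring)
    have e2 : (n + m).choose n = (n + m).choose m := Nat.choose_symm_of_eq_add (by ring)
    rw [e1, e2, ← Nat.add_one_mul_choose_eq, mul_comm]
  calc (m + 1) ^ 2 * (n.choose (m + 1) * (n + (m + 1)).choose n)
      = (n.choose (m + 1) * (m + 1)) * ((n + (m + 1)).choose n * (m + 1)) := by ring
    _ = _ := by rw [h1, h2]; ring

theorem v_cong (p n : ℕ) (hp : p.Prime) (hn : p = 2 * n + 1) (h3 : 3 < p) (m : ℕ) (hm : m ≤ n) :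
    (p : ℤ) ^ 2 ∣ (v n m : ℤ) - 16 ^ n * ((-1) ^ m * ((n.choose m : ℤ) * ((n + m).choose n : ℤ))) := by
  induction m with
  | zero => simp [v]
  | succ m ih =>
    have ih' := ih (by omega)
    have h1 := congrArg (Nat.cast : ℕ → ℤ) (v_rec n m (by omega))
    have h2 := congrArg (Nat.cast : ℕ → ℤ) (leg_rec n m)
    push_cast [Nat.cast_sub (show m ≤ n by omega)] at h1 h2
    have hpz : (p : ℤ) = 2 * n + 1 := by rw [hn]; push_cast; ring
    have hcop : IsCoprime ((p : ℤ) ^ 2) (4 * (m + 1) ^ 2) := by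
      apply IsCoprime.pow_left
      have c1 : IsCoprime (p : ℤ) 2 := by
        have : Nat.Coprime p 2 := (Nat.Coprime.symm ((Nat.coprime_primes Nat.prime_two hp).mpr (by omega)))
        exact_mod_cast Nat.isCoprime_iff_coprime.mpr this
      have c2 : IsCoprime (p : ℤ) ((m : ℤ) + 1) := by
        have : Nat.Coprime p (m + 1) := (Nat.Prime.coprime_iff_not_dvd hp).mpr
          (fun h => absurd (Nat.le_of_dvd (by omega) h) (by omega))
        exact_mod_cast Nat.isCoprime_iff_coprime.mpr this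
      rw [show (4 : ℤ) = 2 ^ 2 by norm_num]
      exact (c1.pow_right).mul_right c2.pow_right
    apply hcop.dvd_of_dvd_mul_left
    obtain ⟨q, hq⟩ := ih'
    refine ⟨(2 * m + 1) ^ 2 * q + 16 ^ n * ((-1) ^ m * ((n.choose m : ℤ) * ((n + m).choose n : ℤ))), ?_⟩
    rw [pow_succ (-1 : ℤ) m, hpz] at *
    linear_combination h1 + 4 * (16 ^ n * (-1) ^ m) * h2 + (2 * m + 1) ^ 2 * hq

section
variable {R : Type*} [CommRing R]

theorem leg_eval (n : ℕ) (x : R) : T n (1 - 2 * x) (x ^ 2 - x)
    = ∑ m ∈ range (n + 1), ((-1) ^ m * ((n.choose m : R) * ((n + m).choose n : R))) * x ^ m := by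
  have e1 : (X ^ 2 + C (1 - 2 * x) * X + C (x ^ 2 - x) : R[X]) = (X * (X + 1)).comp (X + C (-x)) := by
    simp only [mul_comp, add_comp, X_comp, one_comp, map_sub, map_mul, map_pow, map_neg, map_one,
      map_ofNat]
    ring
  unfold T
  rw [e1, ← pow_comp, ← taylor_apply, taylor_coeff]
  have hd : (hasseDeriv n ((X * (X + 1) : R[X]) ^ n)).natDegree < n + 1 := by
    have h1 := natDegree_hasseDeriv_le ((X * (X + 1) : R[X]) ^ n) n
    have h2 : ((X * (X + 1) : R[X]) ^ n).natDegree ≤ n * 2 := by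
      refine natDegree_pow_le.trans (Nat.mul_le_mul_left n ?_)
      refine natDegree_mul_le.trans ?_
      have h3 : (X : R[X]).natDegree ≤ 1 := natDegree_X_le
      have h4 : (X + 1 : R[X]).natDegree ≤ 1 := by
        rw [← C_1]
        exact (natDegree_add_C).le.trans natDegree_X_le
      omega
    omega
  rw [eval_eq_sum_range' hd]
  refine sum_congr rfl fun m hm => ?_
  have hm' : m ≤ n := by have := mem_range.mp hm; omega
  rw [hasseDeriv_coeff, mul_pow, show m + n = m + n from rfl, coeff_X_pow_mul]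
  have e2 : ((X + 1 : R[X]) ^ n).coeff m = (n.choose m : R) := by
    rw [coeff_X_add_one_pow]
  rw [e2, neg_pow, add_comm m n]
  ring

theorem cast_dvd (p : ℕ) {a : ℤ} (h : (p : ℤ) ^ 2 ∣ a) : (p : R) ^ 2 ∣ (a : R) := by
  obtain ⟨q, hq⟩ := h
  exact ⟨(q : R), by rw [hq]; push_cast; ring⟩

/-- (E0) -/
theorem legE0 (p n : ℕ) (hp : p.Prime) (hn : p = 2 * n + 1) (h3 : 3 < p) (x : R) :
    (p : R) ^ 2 ∣ (Hh n : R[X]).eval x - 16 ^ n * T n (1 - 2 * x) (x ^ 2 - x) := by
  rw [leg_eval, Hh, eval_finsetSum, mul_sum, ← sum_sub_distrib]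
  refine dvd_sum fun m hm => ?_
  have hm' : m ≤ n := by have := mem_range.mp hm; omega
  have := cast_dvd (R := R) p (v_cong p n hp hn h3 m hm')
  push_cast at this
  rw [eval_mul, eval_C, eval_pow, eval_X]
  have h2 := this.mul_right (x ^ m)
  rwa [show ((v n m : R) - 16 ^ n * ((-1) ^ m * ((n.choose m : R) * ((n + m).choose n : R)))) * x ^ m
    = (v n m : R) * x ^ m - 16 ^ n * ((-1) ^ m * ((n.choose m : R) * ((n + m).choose n : R)) * x ^ m) by
      ring] at h2

end

section low
variable {R : Type*} [CommRing R]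

theorem coeff_X_dT (f : PowerSeries R) (m : ℕ) :
    PowerSeries.coeff m (PowerSeries.X * dT f) = (m : R) * PowerSeries.coeff m f := by
  rcases m with _ | m
  · simp
  · rw [PowerSeries.coeff_succ_X_mul, coeff_dT]
    push_cast
    ring

theorem low (n : ℕ) (q : R) (Q1 A B G Δ : PowerSeries R)
    (hcop : ∀ m : ℕ, 0 < m → m ≤ n → ∀ c : R, q ∣ (m : R) * c → q ∣ c)
    (h0 : q ∣ PowerSeries.coeff 0 Δ)
    (hode : (1 + PowerSeries.X * Q1) * (PowerSeries.X * dT Δ) = PowerSeries.X * A * Δ
      + PowerSeries.C q * B + PowerSeries.X ^ (n + 1) * G) :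
    ∀ m, m ≤ n → q ∣ PowerSeries.coeff m Δ := by
  intro m
  induction m using Nat.strong_induction_on with
  | _ m ih =>
    intro hm
    rcases m with _ | m
    · exact h0
    · apply hcop (m + 1) (by omega) hm
      have e := congrArg (PowerSeries.coeff (m + 1)) hode
      rw [show (1 + PowerSeries.X * Q1) * (PowerSeries.X * dT Δ)
        = PowerSeries.X * dT Δ + PowerSeries.X * (Q1 * (PowerSeries.X * dT Δ)) by ring,
        show PowerSeries.X * A * Δ = PowerSeries.X * (A * Δ) by ring, map_add, map_add, map_add,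
        coeff_X_dT, PowerSeries.coeff_succ_X_mul, PowerSeries.coeff_succ_X_mul,
        PowerSeries.coeff_C_mul, PowerSeries.coeff_X_pow_mul', if_neg (by omega)] at e
      have d1 : q ∣ PowerSeries.coeff m (Q1 * (PowerSeries.X * dT Δ)) := by
        rw [PowerSeries.coeff_mul]
        refine dvd_sum fun c hc => ?_
        rw [Finset.HasAntidiagonal.mem_antidiagonal] at hc
        rw [coeff_X_dT]
        exact ((ih c.2 (by omega) (by omega)).mul_left _).mul_left _
      have d2 : q ∣ PowerSeries.coeff m (A * Δ) := by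
        rw [PowerSeries.coeff_mul]
        refine dvd_sum fun c hc => ?_
        rw [Finset.HasAntidiagonal.mem_antidiagonal] at hc
        exact (ih c.2 (by omega) (by omega)).mul_left _
      obtain ⟨y1, hy1⟩ := d1
      obtain ⟨y2, hy2⟩ := d2
      rw [hy1, hy2] at e
      exact ⟨y2 + PowerSeries.coeff (m + 1) B - y1, by linear_combination e⟩

theorem split (n : ℕ) (q : R) (f : PowerSeries R) (h : ∀ m, m ≤ n → q ∣ PowerSeries.coeff m f) :
    ∃ B G : PowerSeries R, f = PowerSeries.C q * B + PowerSeries.X ^ (n + 1) * G := by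
  have hex : ∀ m, ∃ y : R, m ≤ n → PowerSeries.coeff m f = q * y := by
    intro m
    by_cases hm : m ≤ n
    · obtain ⟨y, hy⟩ := h m hm
      exact ⟨y, fun _ => hy⟩
    · exact ⟨0, fun h => absurd h hm⟩
  choose b hb using hex
  have : PowerSeries.X ^ (n + 1) ∣ f - PowerSeries.C q * PowerSeries.mk b := by
    rw [PowerSeries.X_pow_dvd_iff]
    intro m hm
    rw [map_sub, PowerSeries.coeff_C_mul, PowerSeries.coeff_mk, hb m (by omega), sub_self]
  obtain ⟨G, hG⟩ := this
  exact ⟨PowerSeries.mk b, G, by linear_combination hG⟩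

end low

section e1
variable {R : Type*} [CommRing R]

theorem J_eq (Y : R) (J : PowerSeries R)
    (hJ : (1 - PowerSeries.C Y * PowerSeries.X) * J = 1) :
    J = PowerSeries.rescale Y (PowerSeries.mk 1) := by
  have h1 : (1 - PowerSeries.C Y * PowerSeries.X) * PowerSeries.rescale Y (PowerSeries.mk 1) = 1 := by
    have h2 : (PowerSeries.mk 1 : PowerSeries R) * (1 - PowerSeries.X) = 1 :=
      PowerSeries.mk_one_mul_one_sub_eq_one R
    have h3 := congrArg (PowerSeries.rescale Y) h2
    rw [map_mul, map_sub, map_one, PowerSeries.rescale_X] at h3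
    linear_combination h3
  calc J = ((1 - PowerSeries.C Y * PowerSeries.X) * PowerSeries.rescale Y (PowerSeries.mk 1)) * J := by
        rw [h1, one_mul]
    _ = ((1 - PowerSeries.C Y * PowerSeries.X) * J) * PowerSeries.rescale Y (PowerSeries.mk 1) := by ring
    _ = _ := by rw [hJ, one_mul]

theorem cancel_pow (p : ℕ) (hp : p.Prime) (e m : ℕ) (hm : ¬ p ∣ m) (c : R)
    (h : (p : R) ^ e ∣ (m : R) * c) : (p : R) ^ e ∣ c := by
  have hcop : Nat.Coprime (p ^ e) m := Nat.Coprime.pow_left _ ((Nat.Prime.coprime_iff_not_dvd hp).mpr hm)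
  obtain ⟨a, b, hab⟩ := Nat.isCoprime_iff_coprime.mpr hcop
  have h1 := congrArg (Int.cast : ℤ → R) hab
  push_cast at h1
  have : c = a * (p : R) ^ e * c + b * ((m : R) * c) := by
    linear_combination -c * h1
  rw [this]
  refine dvd_add ?_ (h.mul_left _)
  exact ⟨a * c, by ring⟩

variable [IsDomain R] [CharZero R]

omit [IsDomain R] in
theorem E_coeff (n : ℕ) (Y : R) (J : PowerSeries R)
    (hJ : (1 - PowerSeries.C Y * PowerSeries.X) * J = 1) :
    (-1) ^ n * PowerSeries.coeff n ((1 - PowerSeries.X) ^ n * J ^ (n + 1))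
      = T n (1 - 2 * Y) (Y ^ 2 - Y) := by
  have hJ1 := J_eq Y J hJ
  have hJn : ∀ b, PowerSeries.coeff b (J ^ (n + 1)) = Y ^ b * ((n + b).choose n : R) := by
    intro b
    rw [hJ1, ← map_pow, PowerSeries.mk_one_pow_eq_mk_choose_add, PowerSeries.coeff_rescale,
      PowerSeries.coeff_mk]
  have hX : ∀ a, PowerSeries.coeff a ((1 - PowerSeries.X : PowerSeries R) ^ n)
      = (-1) ^ a * (n.choose a : R) := by
    intro a
    have h1 : ((1 - PowerSeries.X : PowerSeries R) ^ n) = (((1 + C (-1) * X : R[X]) ^ n : R[X]) : PowerSeries R) := by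
      rw [Polynomial.coe_pow, Polynomial.coe_add, Polynomial.coe_mul, Polynomial.coe_C,
        Polynomial.coe_one, Polynomial.coe_X, map_neg, map_one]
      ring
    rw [h1, Polynomial.coeff_coe, add_comm, add_pow, finsetSum_coeff]
    rw [sum_eq_single a]
    · rw [one_pow, mul_one, mul_pow, ← C_pow, mul_assoc, coeff_C_mul, ← C_eq_natCast, mul_comm (X ^ a),
        coeff_C_mul_X_pow, if_pos rfl]
    · intro b _ hb
      rw [one_pow, mul_one, mul_pow, ← C_pow, mul_assoc, coeff_C_mul, ← C_eq_natCast, mul_comm (X ^ b),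
        coeff_C_mul_X_pow, if_neg (fun h => hb h.symm), mul_zero]
    · intro ha
      rw [mem_range, not_lt] at ha
      rw [Nat.choose_eq_zero_of_lt (by omega)]
      simp
  rw [leg_eval, PowerSeries.coeff_mul, Finset.Nat.sum_antidiagonal_eq_sum_range_succ_mk,
    ← sum_flip, mul_sum]
  refine sum_congr rfl fun m hm => ?_
  have hm' : m ≤ n := by have := mem_range.mp hm; omega
  rw [hX, hJn, Nat.sub_sub_self hm', Nat.choose_symm hm']
  have hs : ((-1 : R)) ^ n * (-1) ^ (n - m) = (-1) ^ m := by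
    have : (-1 : R) ^ n = (-1) ^ (n - m) * (-1) ^ m := by
      rw [← pow_add]; congr 1; omega
    rw [this, mul_right_comm, ← mul_pow]
    norm_num
  linear_combination ((n.choose m : R) * (Y ^ m * ((n + m).choose n : R))) * hs

theorem legE1 (p n : ℕ) (hp : p.Prime) (hn : p = 2 * n + 1) (h3 : 3 < p) (h : R) (hh : 2 * h = 1)
    (u : ℕ → R) (hu : ∀ i : ℕ, 0 < i → i ≤ n → 2 * (i : R) * u i = 1)
    (z w x : R) (r : ℕ → R) (hw : 4 * w = z ^ 2 - 1) (hx : x ^ 2 - 2 * z * x + 1 = 0)
    (hr : ∀ j < n, (2 * (j : R) + 1) * r j = T j z w) :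
    (p : R) ^ 2 ∣ (-1) ^ n * (Hh n : R[X]).eval (x ^ 2) - 16 ^ n * (x ^ n * T n z w
      - p * ∑ j ∈ range n, (x ^ (2 * n - j) - x ^ j) * r j) := by
  obtain ⟨Y, hY⟩ : ∃ Y : R, Y = x ^ 2 := ⟨_, rfl⟩
  have hpR : (p : R) = 2 * n + 1 := by rw [hn]; push_cast; ring
  have hxu : IsUnit x := IsUnit.of_mul_eq_one (2 * z - x) (by linear_combination -hx)
  -- the generating function F
  set F : PowerSeries R := PowerSeries.mk (fun j => x ^ j * T j z w) with hF
  have hF2 : (1 - (1 + PowerSeries.C Y) * PowerSeries.X + PowerSeries.C Y * PowerSeries.X ^ 2) * F ^ 2 = 1 := by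
    have h1 := genT (x * z) (x ^ 2 * w)
    have e1 : (x * z) ^ 2 - 4 * (x ^ 2 * w) = Y := by rw [hY]; linear_combination -x ^ 2 * hw
    have e2 : (2 * PowerSeries.C (x * z) : PowerSeries R) = 1 + PowerSeries.C Y := by
      have : (2 : PowerSeries R) = PowerSeries.C 2 := by rw [map_ofNat]
      rw [this, ← map_mul, show 2 * (x * z) = 1 + Y by rw [hY]; linear_combination -hx, map_add, map_one]
    have e3 : (PowerSeries.mk (fun k => T k (x * z) (x ^ 2 * w)) : PowerSeries R) = F := by
      rw [hF]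
      congr 1
      funext k
      exact T_unit_mul k hxu z w
    rw [e1, e3] at h1
    linear_combination h1 + PowerSeries.X * F ^ 2 * e2
  have hF0 : PowerSeries.constantCoeff F = 1 := by
    rw [← PowerSeries.coeff_zero_eq_constantCoeff_apply, hF, PowerSeries.coeff_mk, T_zero]
    ring
  have hC2 : (2 * PowerSeries.C h : PowerSeries R) = 1 := by
    have : (2 : PowerSeries R) = PowerSeries.C 2 := by rw [map_ofNat]
    rw [this, ← map_mul, hh, map_one]
  have hFu : IsUnit F := by
    rw [PowerSeries.isUnit_iff_constantCoeff, hF0]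
    exact isUnit_one
  have hF' : (1 - (1 + PowerSeries.C Y) * PowerSeries.X + PowerSeries.C Y * PowerSeries.X ^ 2) * dT F
      = PowerSeries.C h * ((1 + PowerSeries.C Y) - 2 * (PowerSeries.C Y * PowerSeries.X)) * F := by
    have h1 := congrArg dT hF2
    rw [dT_mul, dT_add, dT_sub, dT_mul, dT_mul, dT_add, dT_one, dT_C, dT_X, dT_pow_two, dT_pow_two,
      dT_X] at h1
    apply hFu.mul_left_cancel
    linear_combination PowerSeries.C h * h1
      - (F * (1 - (1 + PowerSeries.C Y) * PowerSeries.X + PowerSeries.C Y * PowerSeries.X ^ 2) * dT F) * hC2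
  -- J and E
  have hJu : IsUnit (1 - PowerSeries.C Y * PowerSeries.X : PowerSeries R) := by
    rw [PowerSeries.isUnit_iff_constantCoeff]
    simp
  obtain ⟨J, hJ⟩ := hJu.exists_right_inv
  have hJ0 : PowerSeries.constantCoeff J = 1 := by
    have := congrArg PowerSeries.constantCoeff hJ
    simpa using this
  have hdJ : dT J = PowerSeries.C Y * J ^ 2 := by
    have h1 := congrArg dT hJ
    rw [dT_mul, dT_sub, dT_one, dT_mul, dT_C, dT_X] at h1
    linear_combination J * h1 - dT J * hJ
  set E : PowerSeries R := (1 - PowerSeries.X) ^ n * J ^ (n + 1) with hE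
  have dpow : ∀ (f : PowerSeries R) (m : ℕ), f * dT (f ^ m) = (m : PowerSeries R) * (dT f * f ^ m) := by
    intro f m
    rcases m with _ | m
    · rw [pow_zero, dT_one]; simp
    · unfold dT
      rw [PowerSeries.derivative_pow, Nat.add_sub_cancel]
      ring
  have hE' : (1 - (1 + PowerSeries.C Y) * PowerSeries.X + PowerSeries.C Y * PowerSeries.X ^ 2) * dT E
      = (-(n : PowerSeries R) * (1 - PowerSeries.C Y * PowerSeries.X)
        + ((n : PowerSeries R) + 1) * PowerSeries.C Y * (1 - PowerSeries.X)) * E := by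
    have h1 := dpow (1 - PowerSeries.X) n
    have h2 := dpow J (n + 1)
    rw [dT_sub, dT_one, dT_X] at h1
    rw [hdJ] at h2
    push_cast at h2
    have h4 : dT (J ^ (n + 1)) = ((n : PowerSeries R) + 1) * PowerSeries.C Y * (J * J ^ (n + 1)) := by
      linear_combination (-dT (J ^ (n + 1)) + ((n : PowerSeries R) + 1) * PowerSeries.C Y * (J * J ^ (n + 1))) * hJ
        + (1 - PowerSeries.C Y * PowerSeries.X) * h2
    rw [hE, dT_mul, h4]
    linear_combination (J ^ (n + 1) * (1 - PowerSeries.C Y * PowerSeries.X)) * h1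
      + ((1 - PowerSeries.X) ^ (n + 1) * ((n : PowerSeries R) + 1) * PowerSeries.C Y * J ^ (n + 1)) * hJ
  have hE0 : PowerSeries.constantCoeff E = 1 := by
    rw [hE, map_mul, map_pow, map_pow, hJ0]
    simp
  have hCp : (PowerSeries.C (p : R) : PowerSeries R) = 2 * (n : PowerSeries R) + 1 := by
    rw [hpR]
    simp [map_ofNat]
  -- the differential equations in the form of the lemma
  have oF : (1 + PowerSeries.X * (-(1 + PowerSeries.C Y) + PowerSeries.C Y * PowerSeries.X))
      * (PowerSeries.X * dT F) = PowerSeries.X * (PowerSeries.C h * ((1 + PowerSeries.C Y)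
        - 2 * (PowerSeries.C Y * PowerSeries.X))) * F := by
    linear_combination PowerSeries.X * hF'
  have oE : (1 + PowerSeries.X * (-(1 + PowerSeries.C Y) + PowerSeries.C Y * PowerSeries.X))
      * (PowerSeries.X * dT E) = PowerSeries.X * (PowerSeries.C h * ((1 + PowerSeries.C Y)
        - 2 * (PowerSeries.C Y * PowerSeries.X))) * E
        + PowerSeries.C (p : R) * (-(PowerSeries.C h * (1 - PowerSeries.C Y) * PowerSeries.X * E)) := by
    rw [hCp]
    linear_combination PowerSeries.X * hE' + (PowerSeries.X * E * ((n : PowerSeries R) * (1 - PowerSeries.C Y)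
      - PowerSeries.C Y * (1 - PowerSeries.X))) * hC2
  set V : PowerSeries R := PowerSeries.mk (fun i => (1 - Y ^ i) * u i) with hV
  set W : PowerSeries R := PowerSeries.mk (fun i => 1 - Y ^ i) with hW
  have hWe : (1 + PowerSeries.X * (-(1 + PowerSeries.C Y) + PowerSeries.C Y * PowerSeries.X)) * W
      = (1 - PowerSeries.C Y) * PowerSeries.X := by
    have h2 : (PowerSeries.mk 1 : PowerSeries R) * (1 - PowerSeries.X) = 1 :=
      PowerSeries.mk_one_mul_one_sub_eq_one R
    have h3 : W = PowerSeries.mk 1 - J := by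
      ext i
      rw [hW, map_sub, J_eq Y J hJ, PowerSeries.coeff_rescale, PowerSeries.coeff_mk,
        PowerSeries.coeff_mk, Pi.one_apply, mul_one]
    rw [h3]
    linear_combination (1 - PowerSeries.C Y * PowerSeries.X) * h2 - (1 - PowerSeries.X) * hJ
  have hVW : ∃ G, PowerSeries.X * dT V = PowerSeries.C h * W + PowerSeries.X ^ (n + 1) * G := by
    have : PowerSeries.X ^ (n + 1) ∣ PowerSeries.X * dT V - PowerSeries.C h * W := by
      rw [PowerSeries.X_pow_dvd_iff]
      intro m hm
      rw [map_sub, coeff_X_dT, PowerSeries.coeff_C_mul, hV, hW, PowerSeries.coeff_mk,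
        PowerSeries.coeff_mk]
      rcases Nat.eq_zero_or_pos m with h0 | h0
      · subst h0
        simp
      · have := hu m h0 (by omega)
        linear_combination (h * (1 - Y ^ m)) * this - ((m : R) * ((1 - Y ^ m) * u m)) * hh
    obtain ⟨G, hG⟩ := this
    exact ⟨G, by linear_combination hG⟩
  obtain ⟨G', hG'⟩ := hVW
  have hcop : ∀ e : ℕ, ∀ m : ℕ, 0 < m → m ≤ n → ∀ c : R, (p : R) ^ e ∣ (m : R) * c → (p : R) ^ e ∣ c := by
    intro e m h0 hm c hc
    exact cancel_pow p hp e m (fun hd => absurd (Nat.le_of_dvd h0 hd) (by omega)) c hc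
  -- first order
  have L1 := low n (p : R) (-(1 + PowerSeries.C Y) + PowerSeries.C Y * PowerSeries.X)
    (PowerSeries.C h * ((1 + PowerSeries.C Y) - 2 * (PowerSeries.C Y * PowerSeries.X)))
    (-(PowerSeries.C h * (1 - PowerSeries.C Y) * PowerSeries.X * E)) 0 (E - F)
    (fun m h0 hm c hc => by
      have := hcop 1 m h0 hm c
      rw [pow_one] at this
      exact this hc)
    (by
      rw [PowerSeries.coeff_zero_eq_constantCoeff_apply, map_sub, hE0, hF0, sub_self]
      exact dvd_zero _)
    (by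
      rw [dT_sub]
      linear_combination oE - oF)
  obtain ⟨B, G, hBG⟩ := split n (p : R) (E - F) L1
  have hCp2 : (PowerSeries.C ((p : R) ^ 2) : PowerSeries R) = PowerSeries.C (p : R) * PowerSeries.C (p : R) := by
    rw [← map_mul, pow_two]
  have hdV : dT (1 - PowerSeries.C (p : R) * V) = -(PowerSeries.C (p : R) * dT V) := by
    rw [dT_sub, dT_one, dT_mul, dT_C]
    ring
  -- second order
  have L2 := low n ((p : R) ^ 2) (-(1 + PowerSeries.C Y) + PowerSeries.C Y * PowerSeries.X)
    (PowerSeries.C h * ((1 + PowerSeries.C Y) - 2 * (PowerSeries.C Y * PowerSeries.X)))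
    (-(PowerSeries.C h * (1 - PowerSeries.C Y) * PowerSeries.X * B))
    (PowerSeries.C (p : R) * (F * ((1 + PowerSeries.X * (-(1 + PowerSeries.C Y)
      + PowerSeries.C Y * PowerSeries.X)) * G') - PowerSeries.C h * (1 - PowerSeries.C Y) * PowerSeries.X * G))
    (E - F * (1 - PowerSeries.C (p : R) * V))
    (hcop 2)
    (by
      have : PowerSeries.constantCoeff V = 0 := by
        rw [← PowerSeries.coeff_zero_eq_constantCoeff_apply, hV, PowerSeries.coeff_mk]
        simp
      rw [PowerSeries.coeff_zero_eq_constantCoeff_apply]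
      simp [hE0, hF0, this])
    (by
      rw [dT_sub, dT_mul F, hdV, hCp2]
      linear_combination oE - (1 - PowerSeries.C (p : R) * V) * oF
        + (PowerSeries.C (p : R) * F * (1 + PowerSeries.X * (-(1 + PowerSeries.C Y)
          + PowerSeries.C Y * PowerSeries.X))) * hG'
        + (PowerSeries.C (p : R) * F * PowerSeries.C h) * hWe
        - (PowerSeries.C (p : R) * PowerSeries.C h * (1 - PowerSeries.C Y) * PowerSeries.X) * hBG)
  obtain ⟨q, hq⟩ := L2 n le_rfl
  -- the coefficient of FV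
  have hFV : (p : R) ∣ PowerSeries.coeff n (F * V) - ∑ j ∈ range n, (x ^ (2 * n - j) - x ^ j) * r j := by
    rw [PowerSeries.coeff_mul, Finset.Nat.sum_antidiagonal_eq_sum_range_succ_mk, sum_range_succ,
      Nat.sub_self]
    have h0 : PowerSeries.coeff 0 V = 0 := by
      rw [hV, PowerSeries.coeff_mk]
      simp
    rw [h0, mul_zero, add_zero, ← sum_sub_distrib]
    refine dvd_sum fun j hj => ?_
    have hj' := mem_range.mp hj
    rw [hF, hV, PowerSeries.coeff_mk, PowerSeries.coeff_mk, ← hr j hj']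
    have hun := hu (n - j) (by omega) (by omega)
    rw [Nat.cast_sub (by omega : j ≤ n)] at hun
    have hxp : x ^ (2 * n - j) = x ^ j * Y ^ (n - j) := by
      rw [hY, ← pow_mul, ← pow_add]
      congr 1
      omega
    refine ⟨(1 - Y ^ (n - j)) * x ^ j * r j * u (n - j), ?_⟩
    rw [hxp, hpR]
    linear_combination (-((1 - Y ^ (n - j)) * x ^ j * r j)) * hun
  obtain ⟨q2, hq2⟩ := hFV
  have hEn := E_coeff n Y J hJ
  rw [← hE] at hEn
  obtain ⟨q3, hq3⟩ := legE0 p n hp hn h3 Y
  rw [← hEn] at hq3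
  have hqn : PowerSeries.coeff n E - (x ^ n * T n z w - p * PowerSeries.coeff n (F * V))
      = (p : R) ^ 2 * q := by
    rw [← hq, map_sub, show F * (1 - PowerSeries.C (p : R) * V) = F - PowerSeries.C (p : R) * (F * V) by ring,
      map_sub, PowerSeries.coeff_C_mul, hF, PowerSeries.coeff_mk]
  rw [← hY]
  have hs : (((-1 : R)) ^ n) ^ 2 = 1 := by rw [← pow_mul, mul_comm, pow_mul]; norm_num
  refine ⟨(-1) ^ n * q3 + 16 ^ n * q - 16 ^ n * q2, ?_⟩
  linear_combination (-1) ^ n * hq3 + 16 ^ n * hqn - 16 ^ n * p * hq2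
    + (16 ^ n * PowerSeries.coeff n E) * hs

/-- the Legendre side holds -/
theorem legSide_of (p n : ℕ) (hp : p.Prime) (hn : p = 2 * n + 1) (h3 : 3 < p)
    (hu : ∀ i : ℕ, 0 < i → i < p → IsUnit (i : R)) : LegSide R p n := by
  refine ⟨legE0 p n hp hn h3, ?_⟩
  have hex : ∀ i : ℕ, ∃ u : R, 0 < i → i ≤ n → 2 * (i : R) * u = 1 := by
    intro i
    by_cases hi : 0 < i ∧ i ≤ n
    · have := hu (2 * i) (by omega) (by omega)
      push_cast at this
      obtain ⟨u, hu⟩ := this.exists_right_inv
      exact ⟨u, fun _ _ => hu⟩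
    · exact ⟨0, fun h1 h2 => absurd ⟨h1, h2⟩ hi⟩
  choose u hu' using hex
  have h2 := hu 2 (by norm_num) (by omega)
  push_cast at h2
  obtain ⟨h, hh⟩ := h2.exists_right_inv
  intro z w x r hw hx hr
  exact legE1 p n hp hn h3 h hh u hu' z w x r hw hx hr

end e1

end Pool.Agent.H37.Sun
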