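import Mathlib
import Pool.Agent.H37.Sun.LegE
import Pool.Agent.H37.Sun.Cv18

/-! The Legendre side over the Witt vectors. -/

namespace Pool.Agent.H37.Sun

open Pool.Agent.H24.Sun

theorem legSide (p : ℕ) [Fact p.Prime] (n : ℕ) (hn : p = 2 * n + 1) (h3 : 3 < p) :
    LegSide (OO p) p n := by
  have : CharZero (OO p) := charZero_OO p
  have : CharP (AlgebraicClosure (ZMod p)) p := kk_charP p
  apply legSide_of p n Fact.out hn h3
  intro i h0 hi
  apply isUnit_of p
  rw [map_natCast]
  exact cast_ne (k := AlgebraicClosure (ZMod p)) p i h0 hi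

theorem ordHyp' : OrdHyp := ordHyp (fun p _ n hn h3 => legSide p n hn h3)

end Pool.Agent.H37.Sun
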