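import Mathlib
import Pool.Agent.H37.Sun.Tri

/-! The exact evaluation of the partial sums of part (c). -/

namespace Pool.Agent.H37.Sun

open Polynomial Finset

section
variable {R : Type*} [CommRing R]

theorem coeff_sq_pow (r : R) (M : ℕ) : (((X + C r) ^ (2 * M) : R[X])).coeff M
    = r ^ M * (Nat.centralBinom M : R) := by
  rw [coeff_X_add_C_pow, Nat.centralBinom, show 2 * M - M = M by omega]

/-- Expansion of `T_N` when `x^2 + b x + c = (x + r)^2 + e x`. -/
theorem T_expand (N : ℕ) (r e : R) :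
    T N (2 * r + e) (r ^ 2)
      = ∑ i ∈ range (N + 1), (N.choose i : R) * ((Nat.centralBinom (N - i) : R) * r ^ (N - i)) * e ^ i := by
  unfold T
  have h : (X ^ 2 + C (2 * r + e) * X + C (r ^ 2) : R[X]) = C e * X + (X + C r) ^ 2 := by
    simp only [map_add, map_mul, map_pow, map_ofNat]
    ring
  rw [h, add_pow, finsetSum_coeff]
  refine sum_congr rfl fun i hi => ?_
  have hi' : i ≤ N := by have := mem_range.mp hi; omega
  rw [mul_pow, ← pow_mul]
  have e1 : (C e ^ i * X ^ i * (X + C r) ^ (2 * (N - i)) * (N.choose i : R[X]))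
      = C (e ^ i * (N.choose i : R)) * (X ^ i * (X + C r) ^ (2 * (N - i))) := by
    simp only [map_mul, map_pow, map_natCast]
    ring
  rw [e1, coeff_C_mul]
  have e2 : (X ^ i * (X + C r) ^ (2 * (N - i)) : R[X]).coeff N
      = ((X + C r) ^ (2 * (N - i)) : R[X]).coeff (N - i) := by
    conv_lhs => rw [show N = (N - i) + i by omega]
    rw [coeff_X_pow_mul, show N - i + i - i = N - i by omega]
  rw [e2, coeff_sq_pow]
  ring

end

/-- terms of the first sum -/
def ta (N i : ℕ) : ℚ := (N.choose i : ℚ) * ((Nat.centralBinom (N - i) : ℚ) * (-1) ^ (N - i)) * 12 ^ i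

/-- terms of the second sum -/
def tb (N j : ℕ) : ℚ := (N.choose j : ℚ) * (Nat.centralBinom j : ℚ) * 8 ^ (N - j)

theorem T_ta (N : ℕ) : T N (10 : ℚ) 1 = ∑ i ∈ range (N + 1), ta N i := by
  have := T_expand N (-1 : ℚ) 12
  rw [show (2 * (-1) + 12 : ℚ) = 10 by norm_num, show ((-1 : ℚ) ^ 2) = 1 by norm_num] at this
  exact this

theorem T_tb (N : ℕ) : T N (10 : ℚ) 1 = ∑ j ∈ range (N + 1), tb N j := by
  have := T_expand N (1 : ℚ) 8
  rw [show (2 * 1 + 8 : ℚ) = 10 by norm_num, show ((1 : ℚ) ^ 2) = 1 by norm_num] at this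
  rw [this, ← sum_range_reflect]
  refine sum_congr rfl fun j hj => ?_
  have hj' : j ≤ N := by have := mem_range.mp hj; omega
  unfold tb
  rw [show N + 1 - 1 - j = N - j by omega, show N - (N - j) = j by omega, Nat.choose_symm hj',
    one_pow, mul_one]

/-- the two rational numbers -/
def An (N : ℕ) : ℚ := ∑ i ∈ range (N + 1), ta N i / (2 * i + 1)

def Bn (N : ℕ) : ℚ := ∑ j ∈ range (N + 1), tb N j / (N + j + 1)

theorem cb_rec (M : ℕ) : ((M : ℚ) + 1) * (Nat.centralBinom (M + 1) : ℚ)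
    = 2 * (2 * M + 1) * (Nat.centralBinom M : ℚ) := by
  have := congrArg (Nat.cast : ℕ → ℚ) (Nat.succ_mul_centralBinom_succ M)
  push_cast at this
  exact this

theorem ch_rec1 (N i : ℕ) : ((N : ℚ) + 1) * (N.choose i : ℚ) = (i + 1) * ((N + 1).choose (i + 1) : ℚ) := by
  have := congrArg (Nat.cast : ℕ → ℚ) (Nat.add_one_mul_choose_eq N i)
  push_cast at this
  linear_combination this

theorem ch_rec2 (N i : ℕ) (h : i ≤ N) :
    ((N : ℚ) + 1) * (N.choose i : ℚ) = (N + 1 - i) * ((N + 1).choose i : ℚ) := by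
  have h1 := ch_rec1 N i
  have h2 := congrArg (Nat.cast : ℕ → ℚ) (Nat.choose_succ_right_eq (N + 1) i)
  rw [Nat.cast_mul, Nat.cast_mul, Nat.cast_sub (by omega)] at h2
  push_cast at h2
  linear_combination h1 + h2

/-- termwise identity, first sum: relation with index shifted in both -/
theorem ta_rel1 (N i : ℕ) : ((N : ℚ) + 1) * (12 * ta N i) = (i + 1) * ta (N + 1) (i + 1) := by
  unfold ta
  have h := ch_rec1 N i
  rw [show N + 1 - (i + 1) = N - i by omega, pow_succ]
  linear_combination 12 * ((Nat.centralBinom (N - i) : ℚ) * (-1) ^ (N - i)) * 12 ^ i * h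

/-- termwise identity, first sum: relation with the same index -/
theorem ta_rel2 (N i : ℕ) (h : i ≤ N) :
    2 * (2 * ((N : ℚ) - i) + 1) * (((N : ℚ) + 1) * ta N i) = -((N : ℚ) + 1 - i) ^ 2 * ta (N + 1) i := by
  unfold ta
  obtain ⟨M, rfl⟩ : ∃ M, N = i + M := ⟨N - i, by omega⟩
  rw [show i + M - i = M by omega, show i + M + 1 - i = M + 1 by omega]
  have h1 := ch_rec2 (i + M) i (by omega)
  have h2 := cb_rec M
  push_cast at h1 ⊢
  rw [pow_succ]
  linear_combination 2 * (2 * (M : ℚ) + 1) * (Nat.centralBinom M : ℚ) * (-1) ^ M * 12 ^ i * h1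
    - ((M : ℚ) + 1) * ((i + M + 1).choose i : ℚ) * (-1) ^ M * 12 ^ i * h2

theorem An_rec (N : ℕ) : (2 * ((N : ℚ) + 1) + 1) ^ 2 * An (N + 1) + 16 * ((N : ℚ) + 1) ^ 2 * An N
    = (4 * ((N : ℚ) + 1) + 1) * T (N + 1) 10 1 - 16 * ((N : ℚ) + 1) * T N 10 1 := by
  have hlast : ∀ f : ℕ → ℚ, ∑ i ∈ range (N + 1 + 1), f i = f 0 + ∑ i ∈ range (N + 1), f (i + 1) := by
    intro f
    rw [sum_range_succ']
    ring
  -- extend the sums for N by the vanishing term
  have hz : ta N (N + 1) = 0 := by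
    unfold ta
    rw [Nat.choose_eq_zero_of_lt (by omega)]
    simp
  have hA : An N = ∑ i ∈ range (N + 1 + 1), ta N i / (2 * i + 1) := by
    rw [sum_range_succ _ (N + 1), hz, zero_div, add_zero]
    rfl
  have hT : T N (10 : ℚ) 1 = ∑ i ∈ range (N + 1 + 1), ta N i := by
    rw [sum_range_succ _ (N + 1), hz, add_zero]
    exact T_ta N
  have hT' : T N (10 : ℚ) 1 = ∑ i ∈ range (N + 1 + 1), (if i = 0 then 0 else ta N (i - 1)) := by
    rw [hlast]
    simp only [if_true, Nat.add_eq_zero_iff, one_ne_zero, and_false, if_false, zero_add,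
      Nat.add_sub_cancel]
    exact T_ta N
  have key : (2 * ((N : ℚ) + 1) + 1) ^ 2 * An (N + 1) + 16 * ((N : ℚ) + 1) ^ 2 * An N
      = (4 * ((N : ℚ) + 1) + 1) * T (N + 1) 10 1 - 24 * ((N : ℚ) + 1) * T N 10 1
        + 8 * ((N : ℚ) + 1) * T N 10 1 := by
    rw [hA]
    nth_rewrite 1 [hT']
    rw [hT, T_ta (N + 1), An, mul_sum, mul_sum, mul_sum, mul_sum, mul_sum, ← sum_add_distrib,
      ← sum_sub_distrib, ← sum_add_distrib]
    refine sum_congr rfl fun i hi => ?_
    have hi' : i ≤ N + 1 := by have := mem_range.mp hi; omega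
    have hpos : (2 * (i : ℚ) + 1) ≠ 0 := by positivity
    -- the shifted term
    have hs : 12 * ((N : ℚ) + 1) * (if i = 0 then 0 else ta N (i - 1)) = i * ta (N + 1) i := by
      rcases i with _ | i
      · simp
      · rw [if_neg (by omega), Nat.add_sub_cancel]
        push_cast
        linear_combination ta_rel1 N i
    have hq : 2 * (2 * ((N : ℚ) - i) + 1) * (((N : ℚ) + 1) * ta N i)
        = -((N : ℚ) + 1 - i) ^ 2 * ta (N + 1) i := by
      by_cases h : i ≤ N
      · exact ta_rel2 N i h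
      · have : i = N + 1 := by omega
        subst this
        rw [hz]
        push_cast
        ring
    generalize (if i = 0 then (0 : ℚ) else ta N (i - 1)) = q at hs ⊢
    obtain ⟨r', hr'⟩ : ∃ r', ta (N + 1) i = (2 * (i : ℚ) + 1) * r' :=
      ⟨ta (N + 1) i / (2 * i + 1), by field_simp⟩
    obtain ⟨r, hr⟩ : ∃ r, ta N i = (2 * (i : ℚ) + 1) * r := ⟨ta N i / (2 * i + 1), by field_simp⟩
    rw [hr', hr] at hq
    rw [hr'] at hs
    rw [hr', hr, mul_div_cancel_left₀ _ hpos, mul_div_cancel_left₀ _ hpos]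
    apply mul_left_cancel₀ hpos
    linear_combination 4 * hq + 2 * (2 * (i : ℚ) + 1) * hs
  rw [key]
  ring

theorem tb_rel1 (N j : ℕ) (h : j ≤ N + 1) :
    8 * ((N : ℚ) + 1) * tb N j = (N + 1 - j) * tb (N + 1) j := by
  rcases Nat.lt_or_ge N j with h1 | h1
  · have : j = N + 1 := by omega
    subst this
    have hz : tb N (N + 1) = 0 := by
      unfold tb
      rw [Nat.choose_eq_zero_of_lt (by omega)]
      simp
    rw [hz]
    push_cast
    ring
  · unfold tb
    obtain ⟨M, rfl⟩ : ∃ M, N = j + M := ⟨N - j, by omega⟩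
    rw [show j + M - j = M by omega, show j + M + 1 - j = M + 1 by omega]
    have h1 := ch_rec2 (j + M) j (by omega)
    push_cast at h1 ⊢
    rw [pow_succ]
    linear_combination 8 * (Nat.centralBinom j : ℚ) * 8 ^ M * h1

theorem tb_rel2 (N j : ℕ) (h : j ≤ N) :
    4 * ((j : ℚ) + 1) ^ 2 * tb N (j + 1) = (2 * j + 1) * (N - j) * tb N j := by
  unfold tb
  rcases Nat.lt_or_ge j N with h1 | h1
  · obtain ⟨M, rfl⟩ : ∃ M, N = j + 1 + M := ⟨N - (j + 1), by omega⟩
    rw [show j + 1 + M - (j + 1) = M by omega, show j + 1 + M - j = M + 1 by omega]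
    have h1 := congrArg (Nat.cast : ℕ → ℚ) (Nat.choose_succ_right_eq (j + 1 + M) j)
    have h2 := cb_rec j
    rw [Nat.cast_mul, Nat.cast_mul, Nat.cast_sub (by omega)] at h1
    push_cast at h1 ⊢
    rw [pow_succ]
    linear_combination 4 * ((j : ℚ) + 1) * (Nat.centralBinom (j + 1) : ℚ) * 8 ^ M * h1
      + 4 * (((j : ℚ) + 1 + M) - j) * ((j + 1 + M).choose j : ℚ) * 8 ^ M * h2
  · have : j = N := by omega
    subst this
    rw [Nat.choose_eq_zero_of_lt (by omega)]
    simp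

theorem tb_zero (N j : ℕ) (h : N < j) : tb N j = 0 := by
  unfold tb
  rw [Nat.choose_eq_zero_of_lt h]
  simp

theorem Bn_rec (N : ℕ) : (2 * ((N : ℚ) + 1) + 1) ^ 2 * Bn (N + 1) + 16 * ((N : ℚ) + 1) ^ 2 * Bn N
    = T (N + 1) 10 1 + 48 * ((N : ℚ) + 1) * T N 10 1 := by
  have hpos : ((N : ℚ) + 1) ≠ 0 := by positivity
  have hB : Bn N = tb N 0 / (N + 1) + ∑ j ∈ range (N + 1 + 1), tb N (j + 1) / ((N : ℚ) + 1 + j + 1) := by
    unfold Bn
    have h1 : ∑ j ∈ range (N + 1 + 1 + 1), tb N j / ((N : ℚ) + j + 1)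
        = ∑ j ∈ range (N + 1), tb N j / ((N : ℚ) + j + 1) := by
      rw [sum_range_succ, sum_range_succ, tb_zero N (N + 1) (by omega), tb_zero N (N + 1 + 1) (by omega)]
      ring
    rw [← h1, sum_range_succ', add_comm]
    congr 1
    · push_cast
      ring
    · refine sum_congr rfl fun j _ => ?_
      push_cast
      ring_nf
  have hT1 : T (N + 1) (10 : ℚ) 1 = ∑ j ∈ range (N + 1 + 1), tb (N + 1) j := T_tb (N + 1)
  have hT2 : T (N + 1) (10 : ℚ) 1 = tb (N + 1) 0 + ∑ j ∈ range (N + 1 + 1), tb (N + 1) (j + 1) := by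
    rw [add_comm (tb (N + 1) 0), ← sum_range_succ', sum_range_succ,
      tb_zero (N + 1) (N + 1 + 1) (by omega), add_zero]
    exact T_tb (N + 1)
  have hT3 : T N (10 : ℚ) 1 = ∑ j ∈ range (N + 1 + 1), tb N j := by
    rw [sum_range_succ, tb_zero N (N + 1) (by omega), add_zero]
    exact T_tb N
  have hT4 : T N (10 : ℚ) 1 = tb N 0 + ∑ j ∈ range (N + 1 + 1), tb N (j + 1) := by
    rw [add_comm (tb N 0), ← sum_range_succ', sum_range_succ, sum_range_succ, tb_zero N (N + 1) (by omega),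
      tb_zero N (N + 1 + 1) (by omega), add_zero, add_zero]
    exact T_tb N
  have key : (2 * ((N : ℚ) + 1) + 1) ^ 2 * Bn (N + 1)
      + 16 * ((N : ℚ) + 1) ^ 2 * ∑ j ∈ range (N + 1 + 1), tb N (j + 1) / ((N : ℚ) + 1 + j + 1)
      = (2 * ((N : ℚ) + 1) + 1) * ∑ j ∈ range (N + 1 + 1), tb (N + 1) j
        - 2 * ((N : ℚ) + 1) * ∑ j ∈ range (N + 1 + 1), tb (N + 1) (j + 1)
        + 16 * ((N : ℚ) + 1) * ∑ j ∈ range (N + 1 + 1), tb N j
        + 32 * ((N : ℚ) + 1) * ∑ j ∈ range (N + 1 + 1), tb N (j + 1) := by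
    unfold Bn
    rw [mul_sum, mul_sum, mul_sum, mul_sum, mul_sum, mul_sum, ← sum_add_distrib,
      ← sum_sub_distrib, ← sum_add_distrib, ← sum_add_distrib]
    refine sum_congr rfl fun j hj => ?_
    have hj' : j ≤ N + 1 := by have := mem_range.mp hj; omega
    have hd : ((N : ℚ) + 1 + j + 1) ≠ 0 := by positivity
    have r1 := tb_rel1 N j hj'
    have r2 := tb_rel2 (N + 1) j hj'
    have r3 : 8 * ((N : ℚ) + 1) * tb N (j + 1) = (N - j) * tb (N + 1) (j + 1) := by
      rcases Nat.lt_or_ge N j with h1 | h1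
      · rw [tb_zero N (j + 1) (by omega), tb_zero (N + 1) (j + 1) (by omega)]
        ring
      · have := tb_rel1 N (j + 1) (by omega)
        push_cast at this
        linear_combination this
    push_cast at r2 ⊢
    rw [mul_div_assoc', mul_div_assoc', ← add_div, div_eq_iff hd]
    linear_combination (2 * ((N : ℚ) + 1) - 4 * ((N : ℚ) + 1 + j + 1)) * r3
      - 2 * ((N : ℚ) + 1 + j + 1) * r1 + r2
  rw [hB]
  have e0 : 8 * ((N : ℚ) + 1) * tb N 0 = (N + 1) * tb (N + 1) 0 := by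
    have := tb_rel1 N 0 (by omega)
    push_cast at this
    linear_combination this
  have e1 : 16 * ((N : ℚ) + 1) ^ 2 * (tb N 0 / (N + 1)) = 16 * ((N : ℚ) + 1) * tb N 0 := by
    field_simp
  linear_combination key + e1 - 2 * e0 - (2 * ((N : ℚ) + 1) + 1) * hT1 + 2 * ((N : ℚ) + 1) * hT2
    - 16 * ((N : ℚ) + 1) * hT3 - 32 * ((N : ℚ) + 1) * hT4

/-- the partial sum -/
noncomputable def Un (N : ℕ) : ℤ := ∑ k ∈ range (N + 1), (3 * (k : ℤ) + 1) * (Nat.centralBinom k : ℤ) ^ 2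
  * T k 10 1 * (-64) ^ (N - k)

theorem Un_succ (N : ℕ) : Un (N + 1) = -64 * Un N
    + (3 * ((N : ℤ) + 1) + 1) * (Nat.centralBinom (N + 1) : ℤ) ^ 2 * T (N + 1) 10 1 := by
  unfold Un
  rw [sum_range_succ _ (N + 1), mul_sum, Nat.sub_self, pow_zero, mul_one]
  congr 1
  refine sum_congr rfl fun k hk => ?_
  have : k ≤ N := by have := mem_range.mp hk; omega
  rw [show N + 1 - k = (N - k) + 1 by omega, pow_succ]
  ring

theorem T_cast (N : ℕ) : ((T N (10 : ℤ) 1 : ℤ) : ℚ) = T N (10 : ℚ) 1 := by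
  have := map_T (Int.castRingHom ℚ) N (10 : ℤ) 1
  simpa using this

/-- The closed form of the partial sums. -/
theorem Un_closed (N : ℕ) : (Un N : ℚ)
    = (2 * N + 1) ^ 2 * (Nat.centralBinom N : ℚ) ^ 2 * (3 * An N + Bn N) / 4 := by
  induction N with
  | zero =>
    unfold Un An Bn ta tb
    simp [T_zero]
    norm_num
  | succ N ih =>
    rw [Un_succ]
    push_cast
    rw [ih, T_cast]
    have hA := An_rec N
    have hB := Bn_rec N
    have hc := cb_rec N
    have hc2 : ((N : ℚ) + 1) ^ 2 * (Nat.centralBinom (N + 1) : ℚ) ^ 2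
        = 4 * (2 * N + 1) ^ 2 * (Nat.centralBinom N : ℚ) ^ 2 := by
      rw [← mul_pow, hc]
      ring
    linear_combination (4 * (3 * An N + Bn N)) * hc2
      - (Nat.centralBinom (N + 1) : ℚ) ^ 2 * (3 * hA + hB) / 4

/-- super Catalan numbers -/
def sc : ℕ → ℕ → ℤ
  | i, 0 => Nat.centralBinom i
  | i, (j + 1) => 4 * sc i j - sc (i + 1) j

theorem sc_mul (j : ℕ) : ∀ i : ℕ, (sc i j : ℚ) * ((i + j).choose i : ℚ)
    = Nat.centralBinom i * Nat.centralBinom j := by
  induction j with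
  | zero =>
    intro i
    simp [sc]
  | succ j ih =>
    intro i
    rw [sc]
    have h1 := ih i
    have h2 := ih (i + 1)
    have c1 := cb_rec i
    have c2 := cb_rec j
    have b1 : ((j : ℚ) + 1) * ((i + (j + 1)).choose i : ℚ) = (i + j + 1) * ((i + j).choose i : ℚ) := by
      have := ch_rec2 (i + j) i (by omega)
      push_cast at this
      rw [← add_assoc i j 1]
      linear_combination -this
    have b2 : ((i : ℚ) + 1) * ((i + 1 + j).choose (i + 1) : ℚ) = (i + j + 1) * ((i + j).choose i : ℚ) := by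
      have := ch_rec1 (i + j) i
      push_cast at this
      rw [show i + 1 + j = i + j + 1 by omega]
      linear_combination -this
    have hpos : ((j : ℚ) + 1) ≠ 0 := by positivity
    apply mul_left_cancel₀ hpos
    push_cast
    linear_combination (4 * (sc i j : ℚ) - sc (i + 1) j) * b1 + (sc (i + 1) j : ℚ) * b2
      + 4 * ((i : ℚ) + j + 1) * h1 - ((i : ℚ) + 1) * h2 - (Nat.centralBinom j : ℚ) * c1
      - (Nat.centralBinom i : ℚ) * c2

theorem cb_fac (N : ℕ) : (Nat.centralBinom N : ℚ) * ((N.factorial : ℚ)) ^ 2 = ((2 * N).factorial : ℚ) := by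
  have := congrArg (Nat.cast : ℕ → ℚ) (Nat.choose_mul_factorial_mul_factorial (show N ≤ 2 * N by omega))
  rw [show 2 * N - N = N by omega] at this
  push_cast at this
  rw [Nat.centralBinom]
  linear_combination this

theorem ch_fac (i j : ℕ) : ((i + j).choose i : ℚ) * ((i.factorial : ℚ) * (j.factorial : ℚ))
    = ((i + j).factorial : ℚ) := by
  have := congrArg (Nat.cast : ℕ → ℚ) (Nat.choose_mul_factorial_mul_factorial (show i ≤ i + j by omega))
  rw [show i + j - i = j by omega] at this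
  push_cast at this
  linear_combination this

/-- first integrality statement -/
theorem int_a (i j : ℕ) : (2 * ((i : ℚ) + j) + 1) * (Nat.centralBinom (i + j) : ℚ)
      * ((i + j).choose i : ℚ)
    = (2 * i + 1) * (((2 * (i + j) + 1).choose (2 * i + 1) : ℕ) * (sc i j : ℚ)) := by
  have f1 := cb_fac (i + j)
  have f2 := cb_fac i
  have f3 := cb_fac j
  have f4 := ch_fac i j
  have f5 := ch_fac (2 * i) (2 * j)
  rw [show 2 * i + 2 * j = 2 * (i + j) by ring] at f5
  have f6 := sc_mul j i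
  have f7 := ch_rec1 (2 * (i + j)) (2 * i)
  push_cast at f7
  have n0 : ((i.factorial : ℚ) * (j.factorial : ℚ)) ≠ 0 := by positivity
  have n1 : ((i + j).choose i : ℚ) ≠ 0 := by
    have : (i + j).choose i ≠ 0 := (Nat.choose_pos (by omega)).ne'
    exact_mod_cast this
  have k1 : (Nat.centralBinom (i + j) : ℚ) * ((i + j).choose i : ℚ) ^ 2
      = ((2 * (i + j)).choose (2 * i) : ℚ) * ((Nat.centralBinom i : ℚ) * (Nat.centralBinom j : ℚ)) := by
    apply mul_right_cancel₀ (pow_ne_zero 2 n0)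
    calc (Nat.centralBinom (i + j) : ℚ) * ((i + j).choose i : ℚ) ^ 2
          * ((i.factorial : ℚ) * (j.factorial : ℚ)) ^ 2
        = (Nat.centralBinom (i + j) : ℚ)
          * (((i + j).choose i : ℚ) * ((i.factorial : ℚ) * (j.factorial : ℚ))) ^ 2 := by ring
      _ = ((2 * (i + j)).factorial : ℚ) := by rw [f4, f1]
      _ = ((2 * (i + j)).choose (2 * i) : ℚ) * (((Nat.centralBinom i : ℚ) * (i.factorial : ℚ) ^ 2)
          * ((Nat.centralBinom j : ℚ) * (j.factorial : ℚ) ^ 2)) := by rw [f2, f3, f5]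
      _ = _ := by ring
  have k2 : (Nat.centralBinom (i + j) : ℚ) * ((i + j).choose i : ℚ)
      = ((2 * (i + j)).choose (2 * i) : ℚ) * (sc i j : ℚ) := by
    apply mul_right_cancel₀ n1
    linear_combination k1 - ((2 * (i + j)).choose (2 * i) : ℚ) * f6
  linear_combination (2 * ((i : ℚ) + j) + 1) * k2 + (sc i j : ℚ) * f7

/-- second integrality statement -/
theorem int_b (j m : ℕ) : (2 * ((j : ℚ) + m) + 1) * (Nat.centralBinom (j + m) : ℚ)
      * ((j + m).choose j : ℚ)
    = ((j : ℚ) + m + j + 1) * (((2 * (j + m) + 1).choose m : ℕ) * ((j + m + j).choose j : ℕ) : ℚ) := by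
  have f1 := cb_fac (j + m)
  have f2 := ch_fac j m
  have f3 := ch_fac m (j + m + j + 1)
  rw [show m + (j + m + j + 1) = 2 * (j + m) + 1 by ring] at f3
  have f4 := ch_fac j (j + m)
  rw [show j + (j + m) = j + m + j by ring] at f4
  have g1 : ((2 * (j + m) + 1).factorial : ℚ) = (2 * ((j : ℚ) + m) + 1) * ((2 * (j + m)).factorial : ℚ) := by
    rw [Nat.factorial_succ]
    push_cast
    ring
  have g2 : ((j + m + j + 1).factorial : ℚ) = ((j : ℚ) + m + j + 1) * ((j + m + j).factorial : ℚ) := by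
    rw [Nat.factorial_succ]
    push_cast
    ring
  have n0 : ((j.factorial : ℚ) * (m.factorial : ℚ)) * ((j + m).factorial : ℚ) ^ 2 ≠ 0 := by positivity
  apply mul_right_cancel₀ n0
  calc (2 * ((j : ℚ) + m) + 1) * (Nat.centralBinom (j + m) : ℚ) * ((j + m).choose j : ℚ)
        * (((j.factorial : ℚ) * (m.factorial : ℚ)) * ((j + m).factorial : ℚ) ^ 2)
      = (2 * ((j : ℚ) + m) + 1) * ((Nat.centralBinom (j + m) : ℚ) * ((j + m).factorial : ℚ) ^ 2)
          * (((j + m).choose j : ℚ) * ((j.factorial : ℚ) * (m.factorial : ℚ))) := by ring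
    _ = ((2 * (j + m) + 1).factorial : ℚ) * ((j + m).factorial : ℚ) := by rw [f1, f2, g1]
    _ = ((2 * (j + m) + 1).choose m : ℚ) * ((m.factorial : ℚ) * (((j : ℚ) + m + j + 1)
          * (((j + m + j).choose j : ℚ) * ((j.factorial : ℚ) * ((j + m).factorial : ℚ)))))
          * ((j + m).factorial : ℚ) := by rw [f4, ← g2, f3]
    _ = _ := by ring

/-- `(2N+1) C(2N,N) A_N` is an integer. -/
theorem An_int (N : ℕ) : ∃ z : ℤ, (2 * (N : ℚ) + 1) * (Nat.centralBinom N : ℚ) * An N = z := by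
  unfold An
  rw [mul_sum]
  have : ∀ i ∈ range (N + 1), ∃ z : ℤ,
      (2 * (N : ℚ) + 1) * (Nat.centralBinom N : ℚ) * (ta N i / (2 * i + 1)) = z := by
    intro i hi
    obtain ⟨j, rfl⟩ : ∃ j, N = i + j := ⟨N - i, by have := mem_range.mp hi; omega⟩
    refine ⟨((2 * (i + j) + 1).choose (2 * i + 1) : ℕ) * sc i j
      * ((Nat.centralBinom j : ℕ) * (-1) ^ j) * 12 ^ i, ?_⟩
    have h := int_a i j
    have hp : (2 * (i : ℚ) + 1) ≠ 0 := by positivity
    unfold ta
    rw [show i + j - i = j by omega, mul_div_assoc', div_eq_iff hp]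
    push_cast at h ⊢
    linear_combination ((Nat.centralBinom j : ℚ) * (-1) ^ j) * 12 ^ i * h
  choose! g hg using this
  refine ⟨∑ i ∈ range (N + 1), g i, ?_⟩
  push_cast
  exact sum_congr rfl hg

theorem Bn_int (N : ℕ) : ∃ z : ℤ, (2 * (N : ℚ) + 1) * (Nat.centralBinom N : ℚ) * Bn N = z := by
  unfold Bn
  rw [mul_sum]
  have : ∀ j ∈ range (N + 1), ∃ z : ℤ,
      (2 * (N : ℚ) + 1) * (Nat.centralBinom N : ℚ) * (tb N j / (N + j + 1)) = z := by
    intro j hj
    obtain ⟨m, rfl⟩ : ∃ m, N = j + m := ⟨N - j, by have := mem_range.mp hj; omega⟩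
    refine ⟨((2 * (j + m) + 1).choose m : ℕ) * ((j + m + j).choose j : ℕ)
      * (Nat.centralBinom j : ℕ) * 8 ^ m, ?_⟩
    have h := int_b j m
    have hp : (((j + m : ℕ) : ℚ) + j + 1) ≠ 0 := by positivity
    unfold tb
    rw [show j + m - j = m by omega, mul_div_assoc', div_eq_iff hp]
    push_cast at h ⊢
    linear_combination (Nat.centralBinom j : ℚ) * 8 ^ m * h
  choose! g hg using this
  refine ⟨∑ i ∈ range (N + 1), g i, ?_⟩
  push_cast
  exact sum_congr rfl hg

theorem dvd_four_Un (N : ℕ) : ((2 * N + 1) * Nat.centralBinom N : ℤ) ∣ 4 * Un N := by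
  obtain ⟨a, ha⟩ := An_int N
  obtain ⟨b, hb⟩ := Bn_int N
  refine ⟨3 * a + b, ?_⟩
  have h := Un_closed N
  have : ((4 * Un N : ℤ) : ℚ) = (((2 * N + 1) * Nat.centralBinom N * (3 * a + b) : ℤ) : ℚ) := by
    push_cast
    rw [← ha, ← hb, h]
    ring
  exact_mod_cast this

/-! ### The power of two -/

theorem T_even (N : ℕ) (hN : 0 < N) : (2 : ℤ) ∣ T N (10 : ℤ) 1 := by
  have h := T_expand N (-1 : ℤ) 12
  rw [show (2 * (-1) + 12 : ℤ) = 10 by norm_num, show ((-1 : ℤ) ^ 2) = 1 by norm_num] at h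
  rw [h]
  refine dvd_sum fun i hi => ?_
  rcases i with _ | i
  · rw [Nat.sub_zero, pow_zero, mul_one]
    obtain ⟨c, hc⟩ := Nat.two_dvd_centralBinom_of_one_le (n := N) hN
    rw [hc]
    push_cast
    exact ⟨(N.choose 0 : ℤ) * ((c : ℤ) * (-1) ^ N), by ring⟩
  · refine Dvd.dvd.mul_left ?_ _
    rw [pow_succ]
    exact Dvd.dvd.mul_left (by norm_num) _

theorem pow_dvd_Un (N : ℕ) : ∀ k : ℕ, 2 ^ k ∣ Nat.centralBinom N →
    (2 : ℤ) ^ (k + (if N = 0 then 0 else 2)) ∣ Un N := by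
  induction N with
  | zero =>
    intro k hk
    have : k = 0 := by
      rcases k with _ | k
      · rfl
      · exfalso
        rw [Nat.centralBinom_zero, pow_succ] at hk
        have := Nat.le_of_dvd (by norm_num) hk
        have : 1 ≤ 2 ^ k := Nat.one_le_two_pow
        omega
    subst this
    simp
  | succ N ih =>
    intro k hk
    rw [if_neg (by omega)]
    have hev : (2 : ℤ) ∣ (Nat.centralBinom (N + 1) : ℤ) := by
      exact_mod_cast Nat.two_dvd_centralBinom_succ N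
    have hT : (2 : ℤ) ∣ T (N + 1) (10 : ℤ) 1 := T_even (N + 1) (by omega)
    have hk' : (2 : ℤ) ^ k ∣ (Nat.centralBinom (N + 1) : ℤ) := by exact_mod_cast hk
    have h1 : 2 ^ (k - 1) ∣ Nat.centralBinom N := by
      rcases k with _ | k
      · simp
      · rw [Nat.add_sub_cancel]
        have h2 := Nat.succ_mul_centralBinom_succ N
        have h3 : 2 ^ (k + 1) ∣ 2 * (2 * N + 1) * Nat.centralBinom N := by
          rw [← h2]
          exact Dvd.dvd.mul_left hk _
        have h4 : 2 ^ k ∣ (2 * N + 1) * Nat.centralBinom N := by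
          rw [pow_succ, mul_comm (2 ^ k) 2, mul_assoc] at h3
          exact Nat.dvd_of_mul_dvd_mul_left (by norm_num) h3
        have h5 : Nat.Coprime (2 ^ k) (2 * N + 1) := by
          apply Nat.Coprime.pow_left
          rw [Nat.coprime_two_left]
          exact ⟨N, rfl⟩
        exact h5.dvd_of_dvd_mul_left h4
    have h6 := ih (k - 1) h1
    have h7 : (2 : ℤ) ^ (k - 1) ∣ Un N := (pow_dvd_pow 2 (by omega)).trans h6
    rw [Un_succ]
    refine dvd_add ?_ ?_
    · obtain ⟨c, hc⟩ := h7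
      rw [hc]
      have : (2 : ℤ) ^ (k + 2) ∣ 2 ^ 6 * 2 ^ (k - 1) := by
        rw [← pow_add]
        exact pow_dvd_pow 2 (by omega)
      refine this.trans ⟨-c, by ring⟩
    · obtain ⟨a, ha⟩ := hk'
      obtain ⟨b, hb⟩ := hev
      obtain ⟨c, hc⟩ := hT
      refine ⟨(3 * ((N : ℤ) + 1) + 1) * a * b * c, ?_⟩
      calc (3 * ((N : ℤ) + 1) + 1) * (Nat.centralBinom (N + 1) : ℤ) ^ 2 * T (N + 1) 10 1
          = (3 * ((N : ℤ) + 1) + 1) * (Nat.centralBinom (N + 1) : ℤ)
            * (Nat.centralBinom (N + 1) : ℤ) * T (N + 1) 10 1 := by ring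
        _ = (3 * ((N : ℤ) + 1) + 1) * (2 ^ k * a) * (2 * b) * (2 * c) := by
          rw [hc]
          nth_rewrite 1 [ha]
          rw [hb]
        _ = _ := by ring

/-- The divisibility of part (c), in terms of `N = n - 1 ≥ 1`. -/
theorem dvd_Un (N : ℕ) (hN : 0 < N) : (4 * ((2 * N + 1) * Nat.centralBinom N) : ℤ) ∣ Un N := by
  obtain ⟨v, c, hc, hv⟩ := Nat.exists_eq_two_pow_mul_odd (Nat.centralBinom_ne_zero N)
  have h1 : (2 : ℤ) ^ (v + 2) ∣ Un N := by
    have := pow_dvd_Un N v ⟨c, hv⟩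
    rwa [if_neg (by omega)] at this
  have hodd : Odd ((2 * (N : ℤ) + 1) * c) := by
    have e1 : Odd (2 * (N : ℤ) + 1) := ⟨N, rfl⟩
    have e2 : Odd (c : ℤ) := by exact_mod_cast hc
    exact e1.mul e2
  have h2 : ((2 * (N : ℤ) + 1) * c) ∣ Un N := by
    have h3 : ((2 * (N : ℤ) + 1) * c) ∣ 4 * Un N := by
      refine dvd_trans ⟨2 ^ v, ?_⟩ (dvd_four_Un N)
      rw [hv]
      push_cast
      ring
    have h4 : IsCoprime ((2 * (N : ℤ) + 1) * c) (4 : ℤ) := by
      have : (4 : ℤ) = 2 ^ 2 := by norm_num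
      rw [this]
      apply IsCoprime.pow_right
      rw [Int.isCoprime_iff_gcd_eq_one]
      have := hodd
      rw [← Int.isCoprime_iff_gcd_eq_one]
      obtain ⟨m, hm⟩ := this
      exact ⟨1, -m, by rw [hm]; ring⟩
    exact h4.dvd_of_dvd_mul_left h3
  have h5 : IsCoprime ((2 : ℤ) ^ (v + 2)) ((2 * (N : ℤ) + 1) * c) := by
    apply IsCoprime.pow_left
    obtain ⟨m, hm⟩ := hodd
    exact ⟨-m, 1, by rw [hm]; ring⟩
  have h6 := h5.mul_dvd h1 h2
  refine dvd_trans ⟨1, ?_⟩ h6
  rw [hv]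
  push_cast
  ring

end Pool.Agent.H37.Sun
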