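import Mathlib
import Pool.Agent.H37.Sun.Prod

/-! The weighted sums, through dual numbers. -/

namespace Pool.Agent.H37.Sun

open Polynomial Finset

section
variable {R : Type*} [CommRing R]

/-- `a + b ε` -/
def du (a b : R) : DualNumber R := (a, b)

theorem fst_du (a b : R) : (du a b).fst = a := rfl
theorem snd_du (a b : R) : (du a b).snd = b := rfl

theorem du_mul (a b c d : R) : du a b * du c d = du (a * c) (a * d + b * c) := by
  apply TrivSqZeroExt.ext
  · rw [TrivSqZeroExt.fst_mul, fst_du, fst_du, fst_du]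
  · rw [TrivSqZeroExt.snd_mul, fst_du, fst_du, snd_du, snd_du, snd_du]
    simp only [smul_eq_mul, MulOpposite.smul_eq_mul_unop, MulOpposite.unop_op]

theorem du_add (a b c d : R) : du a b + du c d = du (a + c) (b + d) := rfl

theorem du_sub (a b c d : R) : du a b - du c d = du (a - c) (b - d) := rfl

theorem du_one : (1 : DualNumber R) = du 1 0 := rfl

theorem inl_du (a : R) : (TrivSqZeroExt.inlHom R R) a = du a 0 := rfl

theorem du_pow (a b : R) (m : ℕ) : du a b ^ m = du (a ^ m) (m * a ^ (m - 1) * b) := by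
  induction m with
  | zero =>
    rw [pow_zero, pow_zero, Nat.cast_zero, zero_mul, zero_mul]
    rfl
  | succ m ih =>
    rw [pow_succ, ih, du_mul, pow_succ]
    congr 1
    rcases m with _ | m
    · simp
    · rw [Nat.add_sub_cancel, Nat.add_sub_cancel]
      push_cast
      ring

theorem du_eval (P : R[X]) (a b : R) :
    P.eval₂ (TrivSqZeroExt.inlHom R R) (du a b) = du (P.eval a) (P.derivative.eval a * b) := by
  induction P using Polynomial.induction_on' with
  | add P Q hP hQ =>
    rw [eval₂_add, hP, hQ, du_add, eval_add, derivative_add, eval_add, add_mul]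
  | monomial m r =>
    rw [eval₂_monomial, du_pow, inl_du, du_mul, eval_monomial, derivative_monomial, eval_monomial]
    congr 1
    ring

variable [IsDomain R] [CharZero R]

theorem weighted (p n : ℕ) (hp : p.Prime) (hn : p = 2 * n + 1) (b : R) (hb : 4 * b = 1)
    (x0 y0 xd yd q B0 C0 c : R) (hq : IsUnit q)
    (hB : x0 + y0 - 2 * (x0 * y0) = q * B0)
    (hBd : xd + yd - 2 * (xd * y0 + x0 * yd) = c * (q * B0))
    (hC : x0 * y0 * (1 - x0) * (1 - y0) = q ^ 2 * C0)
    (hCd : (xd * y0 + x0 * yd) * (1 - x0) * (1 - y0)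
      - x0 * y0 * (xd * (1 - y0) + yd * (1 - x0)) = c * (2 * (q ^ 2 * C0))) :
    (p : R) ^ 2 ∣ 16 ^ n * ∑ m ∈ range (n + 1), (v n m : R) * ((1 + c * m) * (q ^ m * T m B0 C0))
      - ((Hh n).eval x0 * (Hh n).eval y0 + ((Hh n).derivative.eval x0 * xd * (Hh n).eval y0
        + (Hh n).eval x0 * ((Hh n).derivative.eval y0 * yd))) := by
  have hmain := prod_formula (R := R[X]) p n hp hn (C b)
    (by rw [show (4 : R[X]) = C 4 from (map_ofNat _ 4).symm, ← C_mul, hb, C_1]) X
  obtain ⟨Z, hZ⟩ := hmain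
  set ψ : R[X] →+* DualNumber R := eval₂RingHom (TrivSqZeroExt.inlHom R R) (du y0 yd) with hψ
  set φ : R[X][X] →+* DualNumber R := eval₂RingHom ψ (du x0 xd) with hφ
  have φC : ∀ r : R[X], φ (C r) = ψ r := fun r => by rw [hφ, coe_eval₂RingHom, eval₂_C]
  have φX : φ X = du x0 xd := by rw [hφ, coe_eval₂RingHom, eval₂_X]
  have ψX : ψ X = du y0 yd := by rw [hψ, coe_eval₂RingHom, eval₂_X]
  have h := congrArg φ hZ
  have hB' : φ (BP 1 0 X) = du 1 c * du (q * B0) 0 := by
    unfold BP
    simp only [map_sub, map_add, map_mul, φC, φX, ψX, map_zero, zero_mul, one_mul, add_zero,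
      mul_one, map_ofNat]
    rw [du_add, du_mul, show (2 : DualNumber R) = du 2 0 from rfl, du_mul, du_mul, du_sub]
    congr 1
    · linear_combination hB
    · linear_combination hBd
  have hC' : φ (CP 1 0 X) = du 1 c ^ 2 * du (q ^ 2 * C0) 0 := by
    unfold CP
    simp only [map_sub, map_add, map_mul, φC, φX, ψX, map_one, map_zero, zero_mul, one_mul, add_zero]
    rw [du_one, du_sub, du_sub, du_mul, du_mul, du_mul, du_pow, du_mul]
    congr 1
    · linear_combination hC
    · push_cast
      linear_combination hCd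
  have hT : ∀ m, φ (T m (BP 1 0 X) (CP 1 0 X)) = du (q ^ m * T m B0 C0) (c * m * (q ^ m * T m B0 C0)) := by
    intro m
    rw [map_T, hB', hC', T_unit_mul _ (IsUnit.of_mul_eq_one (du 1 (-c)) (by
      rw [du_mul, du_one]; congr 1 <;> ring)), ← inl_du, ← inl_du, ← map_T, T_unit_mul _ hq, inl_du,
      du_pow, du_mul]
    congr 1
    · ring
    · ring
  have hHx : φ (Hh n) = du ((Hh n).eval x0) ((Hh n).derivative.eval x0 * xd) := by
    rw [← du_eval]
    unfold Hh
    rw [map_sum, eval₂_finsetSum]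
    refine sum_congr rfl fun m _ => ?_
    rw [map_mul, map_pow, φC, φX, eval₂_mul, eval₂_pow, eval₂_X, eval₂_C, map_natCast, map_natCast]
  have hHy : φ (C ((Hh n : R[X][X]).eval X)) = du ((Hh n).eval y0) ((Hh n).derivative.eval y0 * yd) := by
    rw [← du_eval, φC]
    unfold Hh
    rw [eval_finsetSum, map_sum, eval₂_finsetSum]
    refine sum_congr rfl fun m _ => ?_
    rw [eval_mul, eval_C, eval_pow, eval_X, map_mul, map_pow, ψX, eval₂_mul, eval₂_pow, eval₂_X,
      eval₂_C, map_natCast, map_natCast]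
  have hPP : φ (PP 1 0 n (fun m => m) X)
      = du (∑ m ∈ range (n + 1), (v n m : R) * (q ^ m * T m B0 C0))
        (∑ m ∈ range (n + 1), (v n m : R) * (c * m * (q ^ m * T m B0 C0))) := by
    have hsum : ∀ (s : Finset ℕ) (f g : ℕ → R),
        ∑ m ∈ s, du (f m) (g m) = du (∑ m ∈ s, f m) (∑ m ∈ s, g m) := by
      intro s f g
      classical
      induction s using Finset.induction_on with
      | empty => rfl
      | insert i s hi ih => rw [sum_insert hi, sum_insert hi, sum_insert hi, ih, du_add]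
    unfold PP
    rw [map_sum, ← hsum]
    refine sum_congr rfl fun m _ => ?_
    rw [map_mul, map_mul, map_pow, hT, zero_mul, C_0, zero_mul, sub_zero, map_one, one_pow, one_mul,
      φC, map_natCast, show ((v n m : ℕ) : DualNumber R) = du (v n m : R) 0 from rfl, du_mul]
    congr 1
    ring
  rw [map_sub, map_mul, map_mul, hPP, hHy, hHx, map_mul] at h
  have h16 : φ (C (16 ^ n)) = du (16 ^ n) 0 := by
    rw [φC, show (16 ^ n : R[X]) = C (16 ^ n) by rw [map_pow, map_ofNat], hψ, coe_eval₂RingHom,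
      eval₂_C, inl_du]
  have hpp : φ (C ((p : R[X]) ^ 2)) = du ((p : R) ^ 2) 0 := by
    rw [φC, show ((p : R[X]) ^ 2) = C ((p : R) ^ 2) by rw [map_pow, map_natCast], hψ,
      coe_eval₂RingHom, eval₂_C, inl_du]
  rw [h16, hpp, du_mul, du_mul, du_sub] at h
  obtain ⟨z1, z2, hz⟩ : ∃ z1 z2, φ Z = du z1 z2 := ⟨(φ Z).fst, (φ Z).snd, rfl⟩
  rw [hz, du_mul] at h
  have h1 := congrArg TrivSqZeroExt.fst h
  have h2 := congrArg TrivSqZeroExt.snd h
  rw [fst_du, fst_du] at h1
  rw [snd_du, snd_du] at h2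
  have hs : ∑ m ∈ range (n + 1), (v n m : R) * ((1 + c * m) * (q ^ m * T m B0 C0))
      = ∑ m ∈ range (n + 1), (v n m : R) * (q ^ m * T m B0 C0)
        + ∑ m ∈ range (n + 1), (v n m : R) * (c * m * (q ^ m * T m B0 C0)) := by
    rw [← sum_add_distrib]
    refine sum_congr rfl fun m _ => ?_
    ring
  rw [hs]
  exact ⟨z1 + z2, by linear_combination h1 + h2⟩

end

end Pool.Agent.H37.Sun
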