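import Mathlib
import Pool.Agent.H37.Sun.W2

/-! The second Wronskian identity modulo `p^2` (3-isogeny). -/

namespace Pool.Agent.H37.Sun

open Polynomial Finset

section W3
variable {R : Type*} [CommRing R]

/-- The Wronskian form of the 3-isogeny, without the leading factor. -/
noncomputable def w3a (n : ℕ) : R[X] :=
  hf n (-X ^ 3 * (2 + X)) ((1 - X) * (1 + X) ^ 3) * hf n (-X * (2 + X) ^ 3) ((1 - X) ^ 3 * (1 + X))
    + 3 * X ^ 2 * hp n (-X ^ 3 * (2 + X)) ((1 - X) * (1 + X) ^ 3)
      * hf n (-X * (2 + X) ^ 3) ((1 - X) ^ 3 * (1 + X))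
    - ((2 + X) * (1 + 2 * X)) ^ 2 * hp n (-X * (2 + X) ^ 3) ((1 - X) ^ 3 * (1 + X))
      * hf n (-X ^ 3 * (2 + X)) ((1 - X) * (1 + X) ^ 3)

noncomputable def w3 (n : ℕ) : R[X] := 2 * X * ((2 + X) * (1 + 2 * X)) * w3a n

theorem w3a_eval (n : ℕ) (x : R) : (w3a n).eval x =
    hf n (-x ^ 3 * (2 + x)) ((1 - x) * (1 + x) ^ 3) * hf n (-x * (2 + x) ^ 3) ((1 - x) ^ 3 * (1 + x))
    + 3 * x ^ 2 * hp n (-x ^ 3 * (2 + x)) ((1 - x) * (1 + x) ^ 3)
      * hf n (-x * (2 + x) ^ 3) ((1 - x) ^ 3 * (1 + x))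
    - ((2 + x) * (1 + 2 * x)) ^ 2 * hp n (-x * (2 + x) ^ 3) ((1 - x) ^ 3 * (1 + x))
      * hf n (-x ^ 3 * (2 + x)) ((1 - x) * (1 + x) ^ 3) := by
  have h1 : ∀ P Q : R[X], (hf n P Q).eval x = hf n (P.eval x) (Q.eval x) :=
    fun P Q => map_hf (evalRingHom x) n P Q
  have h2 : ∀ P Q : R[X], (hp n P Q).eval x = hp n (P.eval x) (Q.eval x) :=
    fun P Q => map_hp (evalRingHom x) n P Q
  unfold w3a
  simp only [eval_add, eval_sub, eval_mul, eval_pow, eval_X, eval_one, eval_neg, h1, h2,
    eval_ofNat]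

theorem w3_eval (n : ℕ) (x : R) : (w3 n).eval x =
    2 * x * ((2 + x) * (1 + 2 * x)) * (w3a n).eval x := by
  unfold w3
  simp only [eval_add, eval_mul, eval_X, eval_one, eval_ofNat]

theorem w3_natDegree (n : ℕ) (hn : 1 ≤ n) : (w3 n : R[X]).natDegree ≤ 4 * (2 * n + 1) := by
  have dP1 : (-X ^ 3 * (2 + X) : R[X]).natDegree ≤ 4 := by compute_degree
  have dQ1 : ((1 - X) * (1 + X) ^ 3 : R[X]).natDegree ≤ 4 := by compute_degree
  have dP2 : (-X * (2 + X) ^ 3 : R[X]).natDegree ≤ 4 := by compute_degree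
  have dQ2 : ((1 - X) ^ 3 * (1 + X) : R[X]).natDegree ≤ 4 := by compute_degree
  have hA := hf_natDegree n 4 _ _ dP1 dQ1
  have hB := hf_natDegree n 4 _ _ dP2 dQ2
  have hh := hp_natDegree n 4 _ _ dP1 dQ1
  have hg := hp_natDegree n 4 _ _ dP2 dQ2
  unfold w3
  have h3 : (2 * X * ((2 + X) * (1 + 2 * X)) : R[X]).natDegree ≤ 3 := by compute_degree
  have h8 : (w3a n : R[X]).natDegree ≤ 8 * n := by
    unfold w3a
    refine (natDegree_sub_le _ _).trans (max_le ((natDegree_add_le _ _).trans (max_le ?_ ?_)) ?_)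
    · refine natDegree_mul_le.trans ?_
      omega
    · have h4 : (3 * X ^ 2 : R[X]).natDegree ≤ 2 := by compute_degree
      refine natDegree_mul_le.trans ?_
      have h5 := (natDegree_mul_le (p := (3 * X ^ 2 : R[X]))
        (q := hp n (-X ^ 3 * (2 + X) : R[X]) ((1 - X) * (1 + X) ^ 3)))
      omega
    · have h4 : (((2 + X) * (1 + 2 * X)) ^ 2 : R[X]).natDegree ≤ 4 := by compute_degree
      refine natDegree_mul_le.trans ?_
      have h5 := (natDegree_mul_le (p := (((2 + X) * (1 + 2 * X)) ^ 2 : R[X]))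
        (q := hp n (-X * (2 + X) ^ 3 : R[X]) ((1 - X) ^ 3 * (1 + X))))
      omega
  refine natDegree_mul_le.trans ?_
  omega

end W3

section
variable {R : Type*} [CommRing R] [IsDomain R] [CharZero R]

theorem w3_ode (p n : ℕ) (hn : p = 2 * n + 1) : ∃ Z : R[X],
    (1 - X ^ 2) * derivative (w3 n : R[X])
      = C (p : R) * ((-4 * X) * w3 n) + C ((p : R) ^ 2) * Z := by
  have e1 := deriv_hf n (-X ^ 3 * (2 + X) : R[X]) ((1 - X) * (1 + X) ^ 3)
  have e2 := deriv_hp n (-X ^ 3 * (2 + X) : R[X]) ((1 - X) * (1 + X) ^ 3)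
  have o1 := h_ode p n hn (-X ^ 3 * (2 + X) : R[X]) ((1 - X) * (1 + X) ^ 3)
  have e3 := deriv_hf n (-X * (2 + X) ^ 3 : R[X]) ((1 - X) ^ 3 * (1 + X))
  have e4 := deriv_hp n (-X * (2 + X) ^ 3 : R[X]) ((1 - X) ^ 3 * (1 + X))
  have o2 := h_ode p n hn (-X * (2 + X) ^ 3 : R[X]) ((1 - X) ^ 3 * (1 + X))
  have hp' : (p : R[X]) = 2 * n + 1 := by rw [hn]; push_cast; ring
  unfold w3 w3a
  set A := hf n (-X ^ 3 * (2 + X) : R[X]) ((1 - X) * (1 + X) ^ 3)
  set h1 := hp n (-X ^ 3 * (2 + X) : R[X]) ((1 - X) * (1 + X) ^ 3)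
  set H1 := hpp n (-X ^ 3 * (2 + X) : R[X]) ((1 - X) * (1 + X) ^ 3)
  set B := hf n (-X * (2 + X) ^ 3 : R[X]) ((1 - X) ^ 3 * (1 + X))
  set g1 := hp n (-X * (2 + X) ^ 3 : R[X]) ((1 - X) ^ 3 * (1 + X))
  set H2 := hpp n (-X * (2 + X) ^ 3 : R[X]) ((1 - X) ^ 3 * (1 + X))
  have d2 : derivative (2 : R[X]) = 0 := derivative_ofNat 2
  have d3 : derivative (3 : R[X]) = 0 := derivative_ofNat 3
  have m1 : ((1 + X) ^ 2 : R[X]) ≠ 0 := by
    apply pow_ne_zero
    intro h
    have := congrArg (fun q : R[X] => q.coeff 0) h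
    simp at this
  have m2 : ((1 - X) ^ 2 : R[X]) ≠ 0 := by
    apply pow_ne_zero
    intro h
    have := congrArg (fun q : R[X] => q.coeff 0) h
    simp at this
  simp only [derivative_sub, derivative_add, derivative_mul, derivative_neg, derivative_pow,
    derivative_X, derivative_one, d2, d3, Nat.cast_ofNat, map_ofNat] at e1 e2 e3 e4 ⊢
  rw [hp'] at o1 o2
  have e1' : (1 - X ^ 2) * derivative A = -6 * X ^ 2 * h1 + (n : R[X]) * (2 - 4 * X) * A := by
    apply mul_left_cancel₀ m1
    linear_combination e1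
  have e2' : (1 - X ^ 2) * derivative h1 = -6 * X ^ 2 * H1 + ((n : R[X]) - 1) * (2 - 4 * X) * h1 := by
    apply mul_left_cancel₀ m1
    linear_combination e2
  have e3' : (1 - X ^ 2) * derivative B
      = -2 * ((2 + X) * (1 + 2 * X)) ^ 2 * g1 - (n : R[X]) * (2 + 4 * X) * B := by
    apply mul_left_cancel₀ m2
    linear_combination e3
  have e4' : (1 - X ^ 2) * derivative g1
      = -2 * ((2 + X) * (1 + 2 * X)) ^ 2 * H2 - ((n : R[X]) - 1) * (2 + 4 * X) * g1 := by
    apply mul_left_cancel₀ m2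
    linear_combination e4
  set v1 : R[X] := (v n n : R[X]) * (-X ^ 3 * (2 + X)) ^ n
  set v2 : R[X] := (v n n : R[X]) * (-X * (2 + X) ^ 3) ^ n
  refine ⟨-9 * X ^ 2 * B * v1 + ((2 + X) * (1 + 2 * X)) ^ 2 * A * v2, ?_⟩
  rw [show C (p : R) = (p : R[X]) from map_natCast _ _, show C ((p : R) ^ 2) = (p : R[X]) ^ 2 by
    rw [map_pow, map_natCast], hp']
  linear_combination
    2 * X * ((2 + X) * (1 + 2 * X)) * (B - ((2 + X) * (1 + 2 * X)) ^ 2 * g1) * e1'
    + 6 * X ^ 3 * ((2 + X) * (1 + 2 * X)) * B * e2' + 9 * X ^ 2 * B * o1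
    + 2 * X * ((2 + X) * (1 + 2 * X)) * (A + 3 * X ^ 2 * h1) * e3'
    - 2 * X * ((2 + X) * (1 + 2 * X)) ^ 3 * A * e4' - ((2 + X) * (1 + 2 * X)) ^ 2 * A * o2

variable {k : Type*} [Field k]
  (p : ℕ) [Fact p.Prime] [CharP k p] (π : R →+* k)
  (hker : ∀ x, π x = 0 → (p : R) ∣ x)
include hker

theorem w3_final (n : ℕ) (hn : p = 2 * n + 1) (h3 : 3 < p) (h : R) (hh : 2 * h = 1) :
    ∃ w1 : R[X], (w3 n : R[X]) = C (p : R) * w1
      ∧ w1.map π = expand k p (2 * X * ((2 + X) * (1 + 2 * X))) := by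
  obtain ⟨Z, hZ⟩ := w3_ode (R := R) p n hn
  have n2 : (2 : k) ≠ 0 := by exact_mod_cast cast_ne (k := k) p 2 (by norm_num) (by omega)
  have n3 : (3 : k) ≠ 0 := by exact_mod_cast cast_ne (k := k) p 3 (by norm_num) (by omega)
  have hodd : Odd p := ⟨n, hn⟩
  have hvn := vn_mod (k := k) p n hn h3
  have hpR : (p : R) = 2 * n + 1 := by rw [hn]; push_cast; ring
  have hhk : 2 * (π h) = 1 := by rw [← map_ofNat π 2, ← map_mul, hh, map_one]
  have hfr : ∀ m : ℕ, (m : k) ^ p = m := fun m => by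
    have := map_natCast (frobenius k p) m
    rwa [frobenius_def] at this
  have h2p : (2 : k) ^ p = 2 := by exact_mod_cast hfr 2
  have hhp : (π h) ^ p = π h := by
    have e1 : (2 * π h) ^ p = 1 := by rw [hhk, one_pow]
    rw [mul_pow, h2p] at e1
    apply mul_left_cancel₀ n2
    rw [e1, hhk]
  have h81 : (81 : k) ^ n = 1 := by
    have := pow_pred (k := k) p n hn 9 (fun hd => by
      have h9 : p ∣ 3 ^ 2 := by norm_num; exact hd
      have := (Nat.Prime.dvd_of_dvd_pow Fact.out h9)
      exact absurd (Nat.le_of_dvd (by norm_num) this) (by omega))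
    rw [pow_mul] at this
    rw [← this]
    norm_num
  obtain ⟨j, rfl⟩ : ∃ j, n = j + 1 := ⟨n - 1, by omega⟩
  apply interp' p π hker (w3 (j + 1)) (1 - X ^ 2) (-4 * X) Z 4
    (by have := w3_natDegree (R := R) (j + 1) (by omega); omega) hZ
    (by
      rw [Polynomial.map_sub, Polynomial.map_pow, Polynomial.map_one, map_X]
      intro h
      have := congrArg (fun q : k[X] => q.coeff 0) h
      simp at this)
    ![0, 1, -1, -2, -h]
  · intro i
    fin_cases i
    · simp [(Fact.out : p.Prime).ne_zero]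
    · simp
    · simp [hodd.neg_one_pow]
    · show (π (-2)) ^ p = π (-2)
      rw [map_neg, map_ofNat, hodd.neg_pow, h2p]
    · show (π (-h)) ^ p = π (-h)
      rw [map_neg, hodd.neg_pow, hhp]
  · have key : ∀ i l : Fin 5, i < l → π (![0, 1, -1, -2, -h] i) ≠ π (![0, 1, -1, -2, -h] l) := by
      intro i l hil heq
      fin_cases i <;> fin_cases l <;> first | exact absurd hil (by decide) | skip
      · change π 0 = π 1 at heq
        rw [map_zero, map_one] at heq
        exact zero_ne_one heq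
      · change π 0 = π (-1) at heq
        rw [map_zero, map_neg, map_one] at heq
        exact one_ne_zero (α := k) (by linear_combination heq)
      · change π 0 = π (-2) at heq
        rw [map_zero, map_neg, map_ofNat] at heq
        exact n2 (by linear_combination heq)
      · change π 0 = π (-h) at heq
        rw [map_zero, map_neg] at heq
        exact one_ne_zero (α := k) (by linear_combination -hhk + 2 * heq)
      · change π 1 = π (-1) at heq
        rw [map_one, map_neg, map_one] at heq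
        exact n2 (by linear_combination heq)
      · change π 1 = π (-2) at heq
        rw [map_one, map_neg, map_ofNat] at heq
        exact n3 (by linear_combination heq)
      · change π 1 = π (-h) at heq
        rw [map_one, map_neg] at heq
        exact n3 (by linear_combination 2 * heq - hhk)
      · change π (-1) = π (-2) at heq
        rw [map_neg, map_one, map_neg, map_ofNat] at heq
        exact one_ne_zero (α := k) (by linear_combination heq)
      · change π (-1) = π (-h) at heq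
        rw [map_neg, map_one, map_neg] at heq
        exact one_ne_zero (α := k) (by linear_combination -2 * heq + hhk)
      · change π (-2) = π (-h) at heq
        rw [map_neg, map_neg, map_ofNat] at heq
        exact n3 (by linear_combination -2 * heq + hhk)
    intro i l hil
    by_contra hne
    rcases lt_or_gt_of_ne hne with h1 | h1
    · exact key i l h1 hil
    · exact key l i h1 hil.symm
  · exact le_trans (b := 3) (by compute_degree) (by norm_num)
  · intro i
    fin_cases i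
    · refine ⟨0, ?_, ?_⟩
      · show (w3 (j + 1)).eval 0 = _
        rw [w3_eval]
        ring
      · show π 0 = eval (π 0) _
        simp
    · refine ⟨18 * ((v (j + 1) (j + 1) : R) ^ 2 * 81 ^ (j + 1)), ?_, ?_⟩
      · show (w3 (j + 1)).eval 1 = _
        rw [w3_eval, w3a_eval]
        rw [show (-1 ^ 3 * (2 + 1) : R) = -3 by ring, show ((1 - 1) * (1 + 1) ^ 3 : R) = 0 by ring,
          show (-1 * (2 + 1) ^ 3 : R) = -27 by ring, show ((1 - 1) ^ 3 * (1 + 1) : R) = 0 by ring,
          hf_Q0, hp_Q0, hf_Q0, hp_Q0, Nat.add_sub_cancel, hpR]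
        have e1 : (81 : R) ^ (j + 1) = (-3) ^ (j + 1) * (-27) ^ (j + 1) := by
          rw [← mul_pow]; congr 1; norm_num
        rw [e1]
        push_cast
        ring
      · show π _ = eval (π 1) _
        simp only [map_mul, map_natCast, map_ofNat, hvn, map_pow, map_one, h81,
          eval_mul, eval_add, eval_X, eval_one, eval_ofNat]
        norm_num
    · refine ⟨2 * (v (j + 1) (j + 1) : R) ^ 2, ?_, ?_⟩
      · show (w3 (j + 1)).eval (-1) = _
        rw [w3_eval, w3a_eval]
        rw [show (-(-1) ^ 3 * (2 + -1) : R) = 1 by ring,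
          show ((1 - -1) * (1 + -1) ^ 3 : R) = 0 by ring,
          show (-(-1) * (2 + -1) ^ 3 : R) = 1 by ring,
          show ((1 - -1) ^ 3 * (1 + -1) : R) = 0 by ring,
          hf_Q0, hp_Q0, Nat.add_sub_cancel, hpR]
        push_cast
        ring
      · show π _ = eval (π (-1)) _
        simp only [map_mul, map_natCast, map_ofNat, hvn, map_pow, map_one, map_neg,
          eval_mul, eval_add, eval_X, eval_one, eval_ofNat]
        norm_num
    · refine ⟨0, ?_, ?_⟩
      · show (w3 (j + 1)).eval (-2) = _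
        rw [w3_eval]
        ring
      · show π 0 = eval (π (-2)) _
        simp [map_ofNat]
    · refine ⟨0, ?_, ?_⟩
      · show (w3 (j + 1)).eval (-h) = _
        rw [w3_eval, show (1 + 2 * -h : R) = 0 by linear_combination -hh]
        ring
      · show π 0 = eval (π (-h)) _
        rw [map_neg, map_zero, eval_mul, eval_mul]
        simp only [eval_add, eval_mul, eval_X, eval_one, eval_ofNat]
        rw [show (1 + 2 * -π h : k) = 0 by linear_combination -hhk]
        ring

end

end Pool.Agent.H37.Sun
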