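import Mathlib
import Pool.Agent.H37.Sun.Dual
import Pool.Agent.H37.Sun.W3

/-! The weighted sum of part (b), over the abstract ring. -/

namespace Pool.Agent.H37.Sun

open Polynomial Finset

section
variable {R : Type*} [CommRing R]

theorem Hh_eval (n : ℕ) (x : R) : (Hh n).eval x = ∑ m ∈ range (n + 1), (v n m : R) * x ^ m := by
  unfold Hh
  rw [eval_finsetSum]
  refine sum_congr rfl fun m _ => ?_
  rw [eval_mul, eval_C, eval_pow, eval_X]

theorem Hh_deriv_eval (n : ℕ) (x : R) :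
    (Hh n).derivative.eval x = ∑ m ∈ range (n + 1), (v n m : R) * (m * x ^ (m - 1)) := by
  unfold Hh
  rw [derivative_sum, eval_finsetSum]
  refine sum_congr rfl fun m _ => ?_
  rw [derivative_C_mul, derivative_X_pow, eval_mul, eval_C, eval_mul, eval_C, eval_pow, eval_X]

end

section
variable {R : Type*} [CommRing R] [IsDomain R] [CharZero R] {k : Type*} [Field k]
  (p : ℕ) [Fact p.Prime] [CharP k p] (π : R →+* k)
  (hker : ∀ x, π x = 0 → (p : R) ∣ x) (n : ℕ) (hn : p = 2 * n + 1) (h3 : 3 < p)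
  (s t h : R) (hs : s ^ 2 = 2) (ht : t ^ 2 = 3) (hh : 2 * h = 1)
include hker hn h3 hs ht hh

/-- The relation coming from the 2-isogeny at the special point. -/
theorem rel2 (x0 y0 : R) (hx0 : 2 * x0 = 1 - (2 * t - s * t)) (hy0 : 2 * y0 = 1 - (2 * t + s * t)) :
    ∃ f : R, 6 * ((Hh n).eval x0 * (Hh n).eval y0)
        - (10 * t - 7 * (s * t)) * ((Hh n).derivative.eval x0 * (Hh n).eval y0)
        - (10 * t + 7 * (s * t)) * ((Hh n).eval x0 * (Hh n).derivative.eval y0)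
      = (p : R) * f ∧ π f = 6 * (-3) ^ n := by
  have hsk : (π s) ^ 2 = 2 := by rw [← map_pow, hs, map_ofNat]
  have htk : (π t) ^ 2 = 3 := by rw [← map_pow, ht, map_ofNat]
  have n2k : (2 : k) ≠ 0 := by exact_mod_cast cast_ne (k := k) p 2 (by norm_num) (by omega)
  have n3k : (3 : k) ≠ 0 := by exact_mod_cast cast_ne (k := k) p 3 (by norm_num) (by omega)
  have hodd : Odd p := ⟨n, hn⟩
  obtain ⟨w1, hw, hw1⟩ := w2_final p π hker n hn h3
  obtain ⟨u, hu⟩ : ∃ u, u = 2 * t - s * t := ⟨_, rfl⟩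
  obtain ⟨w, hwv⟩ : ∃ w, w = 2 * t + s * t := ⟨_, rfl⟩
  obtain ⟨d, hd⟩ : ∃ d, d = 3 - 2 * s := ⟨_, rfl⟩
  obtain ⟨e, he⟩ : ∃ e, e = 3 + 2 * s := ⟨_, rfl⟩
  rw [← hu] at hx0
  rw [← hwv] at hy0
  have hde : d * e = 1 := by rw [hd, he]; linear_combination -4 * hs
  have hud : u ^ 2 - d ^ 2 = 1 := by
    rw [hu, hd]; linear_combination ((1)*t^2 + (-4)) * hs + ((-4)*s + (6)) * ht
  have hu6 : u ^ 2 = 6 * d := by
    rw [hu, hd]; linear_combination ((1)*t^2) * hs + ((-4)*s + (6)) * ht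
  have hdw : d * w = u := by
    rw [hu, hd, hwv]; linear_combination ((-2)*t) * hs
  have huw : u * w = 6 := by
    rw [hu, hwv]; linear_combination ((-1)*t^2) * hs + ((2)) * ht
  obtain ⟨κ, hκ⟩ : ∃ κ, κ = u - d := ⟨_, rfl⟩
  have hκi : κ * (u + d) = 1 := by rw [hκ]; linear_combination hud
  have hκ1 : 1 - κ ^ 2 = 2 * d * κ := by rw [hκ]; linear_combination -hud
  have hκ2 : 1 + κ ^ 2 = 2 * u * κ := by rw [hκ]; linear_combination -hud
  have n2 : (2 : R) ≠ 0 := by norm_num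
  have dne : d ≠ 0 := left_ne_zero_of_mul_eq_one hde
  have κne : κ ≠ 0 := left_ne_zero_of_mul_eq_one hκi
  -- the point lies on the curve
  have p1 : -(1 - κ) ^ 2 = (4 * κ) * x0 := by linear_combination -2 * κ * hx0 - hκ2
  have p2 : -κ ^ 2 = (1 - κ ^ 2) * y0 := by
    apply mul_left_cancel₀ n2
    linear_combination -(1 - κ ^ 2) * hy0 + w * hκ1 - hκ2 + 2 * κ * hdw
  have hev := congrArg (eval κ) hw
  rw [w2_eval, eval_mul, eval_C, p1, p2] at hev
  have g1 := hf_mul n x0 (4 * κ)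
  have g2 := hp_mul n x0 (4 * κ)
  have g3 := hf_mul n y0 (1 - κ ^ 2)
  have g4 := hp_mul n y0 (1 - κ ^ 2)
  rw [← Hh_eval] at g1 g3
  rw [← Hh_deriv_eval] at g2 g4
  set a0 := (Hh n).eval x0
  set a1 := (Hh n).derivative.eval x0
  set b0 := (Hh n).eval y0
  set b1 := (Hh n).derivative.eval y0
  set G := hf n (4 * κ * x0) (4 * κ)
  set h1 := hp n (4 * κ * x0) (4 * κ)
  set K := hf n ((1 - κ ^ 2) * y0) (1 - κ ^ 2)
  set g := hp n ((1 - κ ^ 2) * y0) (1 - κ ^ 2)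
  -- the value of the form at the point
  obtain ⟨U, hU⟩ : ∃ U, U = (4 * κ) ^ n * (1 - κ ^ 2) ^ n := ⟨_, rfl⟩
  have m1 : 8 * d * κ ^ 2 * (p * w1.eval κ)
      = U * (16 * κ ^ 3) * (d ^ 3 * (a1 * b0) + a0 * b1 - u * d * (a0 * b0)) := by
    have : (4 * κ) * (1 - κ ^ 2) * (p * w1.eval κ)
        = 2 * (1 - κ ^ 2) ^ 3 * K * (4 * κ * h1) + 16 * κ ^ 3 * G * ((1 - κ ^ 2) * g)
          - (1 + κ ^ 2) * (4 * κ) * (1 - κ ^ 2) * K * G := by
      rw [← hev]; ring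
    rw [g1, g2, g3, g4, hκ2] at this
    have e2 : (4 * κ) * (1 - κ ^ 2) * (p * w1.eval κ) = 8 * d * κ ^ 2 * (p * w1.eval κ) := by
      rw [hκ1]; ring
    rw [e2] at this
    rw [this, hU]
    have e3 : (1 - κ ^ 2) ^ 3 = 8 * d ^ 3 * κ ^ 3 := by rw [hκ1]; ring
    linear_combination 2 * (4 * κ) ^ n * (1 - κ ^ 2) ^ n * a1 * b0 * e3
      - 8 * u * κ ^ 2 * (4 * κ) ^ n * (1 - κ ^ 2) ^ n * a0 * b0 * hκ1
  have n8 : (8 : R) ≠ 0 := by norm_num
  have m2 : 2 * κ * U * (6 * (a0 * b0) - (10 * t - 7 * (s * t)) * (a1 * b0)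
      - (10 * t + 7 * (s * t)) * (a0 * b1)) = -(w * (p * w1.eval κ)) := by
    have hdu : d * u = 10 * t - 7 * (s * t) := by rw [hd, hu]; linear_combination 2 * t * hs
    have hew : e * w = 10 * t + 7 * (s * t) := by rw [he, hwv]; linear_combination 2 * t * hs
    rw [← hdu, ← hew]
    apply mul_left_cancel₀ (mul_ne_zero n8 (pow_ne_zero 2 κne))
    linear_combination (e * w) * m1 - 8 * κ ^ 2 * w * (p * w1.eval κ) * hde
      + U * 16 * κ ^ 3 * a1 * b0 * (d ^ 2 * w * hde + d * hdw)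
      - U * 16 * κ ^ 3 * a0 * b0 * (u * w * hde + huw)
  have hUu : IsUnit (2 * κ * U) := by
    have hku : IsUnit κ := IsUnit.of_mul_eq_one _ hκi
    have h2u : IsUnit (2 : R) := IsUnit.of_mul_eq_one _ hh
    have hdu : IsUnit d := IsUnit.of_mul_eq_one _ hde
    have h4u : IsUnit (4 : R) := by
      rw [show (4 : R) = 2 * 2 by norm_num]
      exact h2u.mul h2u
    rw [hU]
    refine (h2u.mul hku).mul (((h4u.mul hku).pow n).mul (IsUnit.pow n ?_))
    rw [hκ1]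
    exact (h2u.mul hdu).mul hku
  obtain ⟨Ui, hUi⟩ := hUu.exists_right_inv
  refine ⟨-(w * w1.eval κ * Ui), ?_, ?_⟩
  · linear_combination Ui * m2 - (6 * (a0 * b0) - (10 * t - 7 * (s * t)) * (a1 * b0)
      - (10 * t + 7 * (s * t)) * (a0 * b1)) * hUi
  · have e1 : π (w1.eval κ) = -(-1) ^ n * (1 + (π κ) ^ p ^ 1 * (π κ) ^ p ^ 1) := by
      rw [← eval_map_apply, hw1, expand_eval, eval_mul, eval_C, eval_add, eval_one, eval_pow, eval_X]
      ring
    have e2 : 1 + (π κ) ^ p ^ 1 * (π κ) ^ p ^ 1 = (1 + (π κ) ^ 2) ^ p := by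
      rw [add_pow_char, one_pow, pow_one]
      ring
    have e3 : (1 + (π κ) ^ 2) = 2 * π u * π κ := by
      have := congrArg π hκ2
      simpa only [map_add, map_one, map_pow, map_mul, map_ofNat] using this
    have e4 : (π u) ^ 2 = 6 * π d := by
      have := congrArg π hu6
      simpa only [map_pow, map_mul, map_ofNat] using this
    have e5 : π u * π w = 6 := by
      have := congrArg π huw
      simpa only [map_mul, map_ofNat] using this
    have e6 : π U = (8 * π d * (π κ) ^ 2) ^ n := by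
      rw [hU, hκ1, ← mul_pow, map_pow]
      simp only [map_mul, map_ofNat]
      congr 1
      ring
    have e7 : (1 + (π κ) ^ 2) ^ p = (2 * π u * π κ) * (3 ^ n * π U) := by
      rw [e3, hn, pow_succ, pow_mul, e6, ← mul_pow]
      rw [show (2 * π u * π κ) ^ 2 = 3 * (8 * π d * (π κ) ^ 2) by
        linear_combination 4 * (π κ) ^ 2 * e4]
      ring
    have e8 : 2 * π κ * π U * π Ui = 1 := by
      have := congrArg π hUi
      simpa only [map_mul, map_ofNat, map_one] using this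
    rw [map_neg, map_mul, map_mul, e1, e2, e7]
    rw [show (-3 : k) ^ n = (-1) ^ n * 3 ^ n by rw [← mul_pow]; congr 1; norm_num]
    linear_combination (-1) ^ n * 3 ^ n * (2 * π κ * π U * π Ui * e5 + 6 * e8)

/-- The relation coming from the 3-isogeny at the special point. -/
theorem rel3 (g3 : R) (hg3 : 3 * g3 = 1) (x0 y0 : R) (hx0 : 2 * x0 = 1 - (2 * t - s * t))
    (hy0 : 2 * y0 = 1 - (2 * t + s * t)) :
    ∃ f : R, 2 * ((Hh n).eval x0 * (Hh n).eval y0)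
        + (5 * (s * t) - 7 * t) * ((Hh n).derivative.eval x0 * (Hh n).eval y0)
        - (7 * t + 5 * (s * t)) * ((Hh n).eval x0 * (Hh n).derivative.eval y0)
      = (p : R) * f ∧ π f = 2 := by
  obtain ⟨w1, hw, hw1⟩ := w3_final p π hker n hn h3 h hh
  obtain ⟨A, hA⟩ : ∃ A, A = 2 + 3 * s - (2 * t + s * t) := ⟨_, rfl⟩
  obtain ⟨B, hB⟩ : ∃ B, B = 10 + 6 * s - (5 * t + 4 * (s * t)) := ⟨_, rfl⟩
  obtain ⟨α, hα⟩ : ∃ α, α = h * A := ⟨_, rfl⟩
  have hα2 : 2 * α = A := by rw [hα]; linear_combination A * hh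
  have n2 : (2 : R) ≠ 0 := by norm_num
  have n4 : (4 : R) ≠ 0 := by norm_num
  have i0 : A ^ 2 = 4 * B := by
    rw [hA, hB]
    linear_combination ((1)*t^2 + (-6)*t + (9)) * hs + ((4)*s + (6)) * ht
  have hαB : α ^ 2 = B := by
    apply mul_left_cancel₀ n4
    linear_combination (2 * α + A) * hα2 + i0
  have i1 : -2 * (B * (A + B)) = (1 - B) * (1 + A + B) * (1 - (2 * t - s * t)) := by
    rw [hA, hB]
    linear_combination ((20)*s*t^3 + (-66)*s*t^2 + (54)*s*t + (13)*t^3 + (-72)*t^2 + (117)*t + (-54)) * hs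
      + ((-31)*s*t + (55)*s + (-44)*t + (77)) * ht
  have i2 : -2 * ((A + B) * (4 + 2 * A + B)) = (1 - B) * (1 - A + B) * (1 - (2 * t + s * t)) := by
    rw [hA, hB]
    linear_combination ((-12)*s*t^3 + (30)*s*t^2 + (-18)*s*t + (-51)*t^3 + (108)*t^2 + (81)*t + (-198)) * hs
      + ((-93)*s*t + (177)*s + (-132)*t + (249)) * ht
  have i3 : 6 * B = (1 - B) * (1 + A + B) * (5 * (s * t) - 7 * t) := by
    rw [hA, hB]
    linear_combination ((100)*s*t^3 + (-330)*s*t^2 + (270)*s*t + (125)*t^3 + (-458)*t^2 + (417)*t) * hs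
      + ((4)*s*t + (-12)*s + (5)*t + (-20)) * ht
  have i4 : (4 + 5 * A + 4 * B) ^ 2 = 2 * ((1 - B) * (1 - A + B) * (7 * t + 5 * (s * t))) := by
    rw [hA, hB]
    linear_combination ((120)*s*t^3 + (-300)*s*t^2 + (180)*s*t + (438)*t^3 + (-939)*t^2 + (-576)*t + (1521)) * hs
      + ((768)*s*t + (-1404)*s + (1086)*t + (-1986)) * ht
  have i5 : 2 * A + 10 * B + 2 * (A * B) = (1 - B) ^ 2 := by
    rw [hA, hB]
    linear_combination ((-8)*t^2 + (12)*t) * hs + ((-14)*s + (-21)) * ht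
  have i6 : (1 - B) * (3 - t + 2 * (s * t)) = 6 := by
    rw [hB]
    linear_combination ((8)*t^2 + (-12)*t) * hs + ((6)*s + (11)) * ht
  -- in terms of α
  obtain ⟨M, hM⟩ : ∃ M, M = 1 - α ^ 2 := ⟨_, rfl⟩
  have hMu : IsUnit M := by
    refine IsUnit.of_mul_eq_one ((3 - t + 2 * (s * t)) * (h * g3)) ?_
    rw [hM, hαB]
    linear_combination (h * g3) * i6 + 3 * g3 * hh + hg3
  have q1 : (1 - α) * (1 + α) ^ 3 = (1 - B) * (1 + A + B) := by
    linear_combination -(1 + α) ^ 2 * hαB + (1 - B) * hα2 + (1 - B) * hαB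
  have q2 : (1 - α) ^ 3 * (1 + α) = (1 - B) * (1 - A + B) := by
    linear_combination -(1 - α) ^ 2 * hαB - (1 - B) * hα2 + (1 - B) * hαB
  have qq : ((1 - α) * (1 + α) ^ 3) * ((1 - α) ^ 3 * (1 + α)) = M ^ 4 := by
    rw [hM]; ring
  have p1 : -α ^ 3 * (2 + α) = ((1 - α) * (1 + α) ^ 3) * x0 := by
    apply mul_left_cancel₀ n2
    rw [q1]
    linear_combination i1 - (1 - B) * (1 + A + B) * hx0 - 2 * α ^ 2 * hα2
      - 2 * α ^ 2 * hαB - 2 * (A + B) * hαB
  have p2 : -α * (2 + α) ^ 3 = ((1 - α) ^ 3 * (1 + α)) * y0 := by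
    apply mul_left_cancel₀ n2
    rw [q2]
    linear_combination i2 - (1 - B) * (1 - A + B) * hy0 - 2 * (2 + α) ^ 2 * hα2
      - 2 * (2 + α) ^ 2 * hαB - 4 * (A + B) * hα2 - 2 * (A + B) * hαB
  have r3 : 6 * α ^ 2 = ((1 - α) * (1 + α) ^ 3) * (5 * (s * t) - 7 * t) := by
    rw [q1, hαB, i3]
  have r4 : 2 * ((2 + α) * (1 + 2 * α)) ^ 2
      = ((1 - α) ^ 3 * (1 + α)) * (7 * t + 5 * (s * t)) := by
    apply mul_left_cancel₀ n2
    rw [q2, ← i4, ← hα2, ← hαB]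
    ring
  have r5 : 2 * α * ((2 + α) * (1 + 2 * α)) = M ^ 2 := by
    have : 2 * α * ((2 + α) * (1 + 2 * α)) = 2 * (2 * α) + 10 * α ^ 2 + 2 * ((2 * α) * α ^ 2) := by
      ring
    rw [this, hα2, hαB, hM, hαB]
    exact i5
  have hev := congrArg (eval α) hw
  rw [w3_eval, r5, w3a_eval, eval_mul, eval_C, p1, p2] at hev
  obtain ⟨Q1, hQ1⟩ : ∃ Q1, Q1 = (1 - α) * (1 + α) ^ 3 := ⟨_, rfl⟩
  obtain ⟨Q2, hQ2⟩ : ∃ Q2, Q2 = (1 - α) ^ 3 * (1 + α) := ⟨_, rfl⟩
  rw [← hQ1, ← hQ2] at hev qq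
  rw [← hQ1] at r3
  rw [← hQ2] at r4
  have g1 := hf_mul n x0 Q1
  have g2 := hp_mul n x0 Q1
  have g3' := hf_mul n y0 Q2
  have g4 := hp_mul n y0 Q2
  rw [← Hh_eval] at g1 g3'
  rw [← Hh_deriv_eval] at g2 g4
  set a0 := (Hh n).eval x0
  set a1 := (Hh n).derivative.eval x0
  set b0 := (Hh n).eval y0
  set b1 := (Hh n).derivative.eval y0
  set A0 := hf n (Q1 * x0) Q1
  set h1 := hp n (Q1 * x0) Q1
  set B0 := hf n (Q2 * y0) Q2
  set g := hp n (Q2 * y0) Q2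
  have hM4 : IsUnit (M ^ 4) := hMu.pow 4
  have hpow : Q1 ^ n * Q2 ^ n = M ^ (4 * n) := by rw [← mul_pow, qq, ← pow_mul]
  have m1 : 2 * (p * w1.eval α) = M ^ 2 * M ^ (4 * n) * (2 * (a0 * b0)
      + (5 * (s * t) - 7 * t) * (a1 * b0) - (7 * t + 5 * (s * t)) * (a0 * b1)) := by
    apply hM4.mul_left_cancel
    rw [← qq, ← hpow]
    linear_combination -2 * Q1 * Q2 * hev + M ^ 2 * (2 * Q1 * Q2 * B0 * g1
      + 2 * Q1 * Q2 * Q1 ^ n * a0 * g3'
      + Q1 * Q2 * h1 * B0 * r3 + Q1 * Q2 * (5 * (s * t) - 7 * t) * (B0 * g2 + Q1 ^ n * a1 * g3')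
      - Q1 * Q2 * g * A0 * r4 - Q1 * Q2 * (7 * t + 5 * (s * t)) * (A0 * g4 + Q2 ^ n * b1 * g1))
  obtain ⟨Mi, hMi⟩ := (((hMu.pow 2).mul (hMu.pow (4 * n)))).exists_right_inv
  refine ⟨2 * w1.eval α * Mi, ?_, ?_⟩
  · linear_combination -Mi * m1 - (2 * (a0 * b0)
      + (5 * (s * t) - 7 * t) * (a1 * b0) - (7 * t + 5 * (s * t)) * (a0 * b1)) * hMi
  · have h2p : (2 : k) ^ p = 2 := by
      have := map_natCast (frobenius k p) 2
      rw [frobenius_def] at this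
      exact_mod_cast this
    have e1 : π (w1.eval α) = (π M) ^ (2 * p) := by
      rw [← eval_map_apply, hw1, expand_eval]
      simp only [eval_mul, eval_add, eval_X, eval_ofNat, eval_one]
      have e2 : (2 + (π α) ^ p) = (2 + π α) ^ p := by
        rw [add_pow_char, h2p]
      have e3 : (1 + 2 * (π α) ^ p) = (1 + 2 * π α) ^ p := by
        rw [add_pow_char, one_pow, mul_pow, h2p]
      have e4 : 2 * (π α) ^ p = (2 * π α) ^ p := by rw [mul_pow, h2p]
      have e5 : 2 * π α * ((2 + π α) * (1 + 2 * π α)) = (π M) ^ 2 := by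
        have := congrArg π r5
        simpa only [map_mul, map_add, map_pow, map_ofNat, map_one] using this
      rw [e2, e3, e4, ← mul_pow, ← mul_pow, e5, pow_mul]
    have e6 : (π M) ^ 2 * (π M) ^ (4 * n) * π Mi = 1 := by
      have := congrArg π hMi
      simpa only [map_mul, map_pow, map_one] using this
    have e7 : (π M) ^ (2 * p) = (π M) ^ 2 * (π M) ^ (4 * n) := by
      rw [← pow_add]; congr 1; omega
    rw [map_mul, map_mul, map_ofNat, e1, e7]
    linear_combination 2 * e6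

theorem partB_int (g3 : R) (hg3 : 3 * g3 = 1) :
    (p : ℤ) ^ 2 ∣ 8 * 16 ^ n * (∑ m ∈ range (n + 1),
      (Nat.centralBinom m : ℤ) ^ 2 * (-64) ^ (n - m) * ((3 * m + 1) * T m 10 1))
      - 2 * p * (-4) ^ n * (3 * (-3) ^ n + 1) := by
  obtain ⟨x0, hx0⟩ : ∃ x0 : R, 2 * x0 = 1 - (2 * t - s * t) :=
    ⟨h * (1 - (2 * t - s * t)), by linear_combination (1 - (2 * t - s * t)) * hh⟩
  obtain ⟨y0, hy0⟩ : ∃ y0 : R, 2 * y0 = 1 - (2 * t + s * t) :=
    ⟨h * (1 - (2 * t + s * t)), by linear_combination (1 - (2 * t + s * t)) * hh⟩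
  obtain ⟨xd, hxd⟩ : ∃ xd : R, 8 * xd = -17 * t + 12 * (s * t) :=
    ⟨h ^ 3 * (-17 * t + 12 * (s * t)), by
      linear_combination (4 * h ^ 2 + 2 * h + 1) * (-17 * t + 12 * (s * t)) * hh⟩
  obtain ⟨yd, hyd⟩ : ∃ yd : R, 8 * yd = -17 * t - 12 * (s * t) :=
    ⟨h ^ 3 * (-17 * t - 12 * (s * t)), by
      linear_combination (4 * h ^ 2 + 2 * h + 1) * (-17 * t - 12 * (s * t)) * hh⟩
  obtain ⟨f2, hf2, hπ2⟩ := rel2 p π hker n hn h3 s t h hs ht hh x0 y0 hx0 hy0
  obtain ⟨f3, hf3, hπ3⟩ := rel3 p π hker n hn h3 s t h hs ht hh g3 hg3 x0 y0 hx0 hy0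
  have n4 : (4 : R) ≠ 0 := by norm_num
  have n8 : (8 : R) ≠ 0 := by norm_num
  have n16 : (16 : R) ≠ 0 := by norm_num
  have n32 : (32 : R) ≠ 0 := by norm_num
  have hhu : IsUnit h := IsUnit.of_mul_eq_one 2 (by rw [mul_comm]; exact hh)
  have huv : (2 * t - s * t) * (2 * t + s * t) = 6 := by
    linear_combination ((-1)*t^2) * hs + ((2)) * ht
  have hsm : (2 * t - s * t) ^ 2 + (2 * t + s * t) ^ 2 = 36 := by
    linear_combination ((2)*t^2) * hs + ((12)) * ht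
  have hwt := weighted p n Fact.out hn (h ^ 2) (by linear_combination (2 * h + 1) * hh)
    x0 y0 xd yd (-h ^ 2) ((10 : ℤ) : R) ((1 : ℤ) : R) 3 (hhu.pow 2).neg
    (by
      apply mul_left_cancel₀ n4
      push_cast
      have e : 4 * (x0 + y0 - 2 * (x0 * y0)) = 2 * (2 * x0) + 2 * (2 * y0) - 2 * (2 * x0) * (2 * y0) := by
        ring
      rw [e, hx0, hy0]
      linear_combination -2 * huv + 10 * (2 * h + 1) * hh)
    (by
      apply mul_left_cancel₀ n8
      push_cast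
      have e : 8 * (xd + yd - 2 * (xd * y0 + x0 * yd))
          = (8 * xd) * (1 - 2 * y0) + (8 * yd) * (1 - 2 * x0) := by ring
      rw [e, hxd, hyd, hx0, hy0]
      linear_combination ((24)*t^2) * hs + ((-20)) * ht + 60 * (2 * h + 1) * hh)
    (by
      apply mul_left_cancel₀ n16
      push_cast
      have e : 16 * (x0 * y0 * (1 - x0) * (1 - y0))
          = (2 * x0) * (2 * y0) * (2 - 2 * x0) * (2 - 2 * y0) := by ring
      rw [e, hx0, hy0]
      linear_combination -hsm + ((2 * t - s * t) * (2 * t + s * t) + 6) * huv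
        - (2 * h + 1) * (4 * h ^ 2 + 1) * hh)
    (by
      apply mul_left_cancel₀ n32
      push_cast
      have e : 32 * ((xd * y0 + x0 * yd) * (1 - x0) * (1 - y0)
          - x0 * y0 * (xd * (1 - y0) + yd * (1 - x0)))
          = (8 * xd) * (2 * y0) * (2 - 2 * y0) * (1 - 2 * x0)
            + (8 * yd) * (2 * x0) * (2 - 2 * x0) * (1 - 2 * y0) := by ring
      rw [e, hxd, hyd, hx0, hy0]
      linear_combination ((24)*s^2*t^4 + (-116)*t^4 + (-24)*t^2) * hs + ((40)*t^2 + (4)) * ht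
        - 12 * (2 * h + 1) * (4 * h ^ 2 + 1) * hh)
  -- the last relation
  obtain ⟨z, hz⟩ : (p : R) ∣ f2 + f3 - (6 * (-3) ^ n + 2) := by
    apply hker
    rw [map_sub, map_add, hπ2, hπ3]
    simp only [map_add, map_mul, map_pow, map_neg, map_ofNat]
    ring
  obtain ⟨y, hy⟩ := hwt
  apply int_dvd (R := R) p π
  have hN : ((-4 : R)) ^ n * ∑ m ∈ range (n + 1), (v n m : R) *
      ((1 + 3 * m) * ((-h ^ 2) ^ m * T m ((10 : ℤ) : R) ((1 : ℤ) : R)))
      = ((∑ m ∈ range (n + 1),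
        (Nat.centralBinom m : ℤ) ^ 2 * (-64) ^ (n - m) * ((3 * m + 1) * T m 10 1) : ℤ) : R) := by
    rw [mul_sum]
    push_cast
    refine sum_congr rfl fun m hm => ?_
    have hm' : m ≤ n := by have := mem_range.mp hm; omega
    rw [T_int]
    have e2 : (-4 : R) ^ n * (-h ^ 2) ^ m = (-4) ^ (n - m) := by
      have : (-4 : R) ^ n = (-4) ^ (n - m) * (-4) ^ m := by
        rw [← pow_add]; congr 1; omega
      rw [this, mul_assoc, ← mul_pow, show (-4 : R) * -h ^ 2 = 1 by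
        linear_combination (2 * h + 1) * hh, one_pow, mul_one]
    have e3 : (v n m : R) = (Nat.centralBinom m : R) ^ 2 * 16 ^ (n - m) := by
      unfold v
      push_cast
      ring
    rw [e3, show (-64 : R) = 16 * (-4) by norm_num, mul_pow 16 (-4 : R), ← e2]
    push_cast
    ring
  push_cast at hN ⊢
  rw [← hN]
  refine ⟨(-4) ^ n * (8 * y + z), ?_⟩
  push_cast at hy
  linear_combination 8 * (-4) ^ n * hy + (-4) ^ n * (hf2 + hf3) + (-4) ^ n * p * hz
    + (-4) ^ n * ((Hh n).derivative.eval x0 * (Hh n).eval y0) * hxd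
    + (-4) ^ n * ((Hh n).eval x0 * (Hh n).derivative.eval y0) * hyd

end

end Pool.Agent.H37.Sun
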