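import Mathlib
import Pool.Agent.H37.Sun.PartB
import Pool.Agent.H37.Sun.Witt

/-! Part (b): for every prime `p > 3`,
`sum_{k<p} (3k+1) binom(2k,k)^2 T_k(10,1)/(-64)^k = (p/4)(3 (p/3) + 1)` modulo `p^2`. -/

namespace Pool.Agent.H37.Sun.ResB

open Polynomial Finset

/-- The generalised central trinomial coefficient `T_n(b,c)`, the coefficient of `x^n` in
`(x^2 + b x + c)^n`, for integers `b`, `c`. -/
noncomputable def T (n : ℕ) (b c : ℤ) : ℤ := ((X ^ 2 + C b * X + C c : ℤ[X]) ^ n).coeff n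

/-- The sum of part (b). -/
noncomputable def SB (p : ℕ) : ℚ :=
  ∑ k ∈ range p, (3 * (k : ℚ) + 1) * ((2 * k).choose k : ℚ) ^ 2 * (T k 10 1 : ℚ) / (-64) ^ k

theorem num_dvd (p : ℕ) (D : ℚ) (c M : ℤ) (h : D * c = M) (hc : IsCoprime (p : ℤ) c)
    (hM : (p : ℤ) ^ 2 ∣ M) : (p : ℤ) ^ 2 ∣ D.num := by
  have hnum : D.num * c = M * D.den := by
    have h1 : (D.num : ℚ) = D * D.den := by
      rw [Rat.mul_den_eq_num]
    have : ((D.num * c : ℤ) : ℚ) = ((M * D.den : ℤ) : ℚ) := by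
      push_cast
      rw [h1, ← h]
      ring
    exact_mod_cast this
  have hd : (p : ℤ) ^ 2 ∣ D.num * c := by
    rw [hnum]
    exact hM.mul_right _
  exact (IsCoprime.pow_left hc).dvd_of_dvd_mul_right hd

theorem jac (p : ℕ) (hp : p.Prime) (h3 : 3 < p) : jacobiSym (-3) p = jacobiSym p 3 := by
  have hodd : Odd p := hp.odd_of_ne_two (by omega)
  rw [show (-3 : ℤ) = -1 * 3 by norm_num, jacobiSym.mul_left, jacobiSym.at_neg_one hodd]
  have h := jacobiSym.quadratic_reciprocity (a := 3) (b := p) (by decide) hodd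
  rw [show ((3 : ℕ) : ℤ) = 3 from rfl] at h
  rw [h, ZMod.χ₄_eq_neg_one_pow (Nat.odd_iff.mp hodd), ← mul_assoc, ← pow_add]
  have : Even (p / 2 + 3 / 2 * (p / 2)) := by
    rw [show 3 / 2 = 1 by norm_num, one_mul, ← two_mul]
    exact even_two_mul _
  rw [this.neg_one_pow, one_mul]

theorem result : ∀ p : ℕ, p.Prime → 3 < p →
    (p : ℤ) ^ 2 ∣ (SB p - (p : ℚ) / 4 * (3 * (jacobiSym p 3 : ℚ) + 1)).num := by
  intro p hp h3
  have : Fact p.Prime := ⟨hp⟩
  obtain ⟨n, hn⟩ : ∃ n, p = 2 * n + 1 := hp.odd_of_ne_two (by omega)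
  have : CharZero (WittVector p (AlgebraicClosure (ZMod p))) := H37.Sun.charZero_OO p
  have : CharP (AlgebraicClosure (ZMod p)) p := H37.Sun.kk_charP p
  have hcop : ∀ m : ℕ, 0 < m → m < p → ¬ p ∣ m := fun m h0 hm h =>
    absurd (Nat.le_of_dvd h0 h) (by omega)
  obtain ⟨s, hs⟩ := H37.Sun.exists_sqrt p 2 (by omega) (hcop 2 (by norm_num) (by omega))
  obtain ⟨t, ht⟩ := H37.Sun.exists_sqrt p 3 (by omega) (hcop 3 (by norm_num) (by omega))
  have hs' : s ^ 2 = 2 := by rw [hs]; norm_num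
  have ht' : t ^ 2 = 3 := by rw [ht]; norm_num
  have hker : ∀ x : WittVector p (AlgebraicClosure (ZMod p)), WittVector.constantCoeff x = 0 →
      (p : WittVector p (AlgebraicClosure (ZMod p))) ∣ x := H37.Sun.ker_OO p
  have h2u : IsUnit (2 : WittVector p (AlgebraicClosure (ZMod p))) := by
    apply H37.Sun.isUnit_of
    rw [map_ofNat]
    have := H37.Sun.cast_ne (k := AlgebraicClosure (ZMod p)) p 2 (by norm_num) (by omega)
    exact_mod_cast this
  have h3u : IsUnit (3 : WittVector p (AlgebraicClosure (ZMod p))) := by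
    apply H37.Sun.isUnit_of
    rw [map_ofNat]
    have := H37.Sun.cast_ne (k := AlgebraicClosure (ZMod p)) p 3 (by norm_num) (by omega)
    exact_mod_cast this
  obtain ⟨h, hh⟩ := h2u.exists_right_inv
  obtain ⟨g, hg⟩ := h3u.exists_right_inv
  have hmain := H37.Sun.partB_int p WittVector.constantCoeff hker n hn h3 s t h hs' ht' hh g hg
  set χ : ℤ := jacobiSym p 3 with hχ
  -- the symbol
  have hsym : (p : ℤ) ∣ (-3) ^ n - χ := by
    rw [hχ, ← jac p hp h3, ← jacobiSym.legendreSym.to_jacobiSym]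
    rw [← ZMod.intCast_eq_intCast_iff_dvd_sub]
    rw [legendreSym.eq_pow, show p / 2 = n by omega]
    push_cast
    ring
  have h256 : (p : ℤ) ∣ 256 ^ n - 1 := by
    rw [← ZMod.intCast_eq_intCast_iff_dvd_sub]
    push_cast
    have := H37.Sun.sixteen_pow (k := ZMod p) p n hn h3
    rw [show (256 : ZMod p) = 16 * 16 by norm_num, mul_pow, this, one_mul]
  set N : ℤ := ∑ m ∈ range (n + 1),
      (Nat.centralBinom m : ℤ) ^ 2 * (-64) ^ (n - m) * ((3 * m + 1) * H37.Sun.T m 10 1) with hN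
  obtain ⟨y1, hy1⟩ := hmain
  obtain ⟨y2, hy2⟩ := hsym
  obtain ⟨y3, hy3⟩ := h256
  -- the full integral sum
  set F : ℤ := ∑ k ∈ range p,
      (Nat.centralBinom k : ℤ) ^ 2 * (-64) ^ (2 * n - k) * ((3 * k + 1) * T k 10 1) with hF
  have hNF : (p : ℤ) ^ 2 ∣ F - (-64) ^ n * N := by
    have hsplit : F - (-64) ^ n * N = ∑ k ∈ Ico (n + 1) p,
        (Nat.centralBinom k : ℤ) ^ 2 * (-64) ^ (2 * n - k) * ((3 * k + 1) * T k 10 1) := by
      rw [hF, ← sum_range_add_sum_Ico _ (show n + 1 ≤ p by omega), hN, mul_sum]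
      have : ∀ m ∈ range (n + 1),
          (Nat.centralBinom m : ℤ) ^ 2 * (-64) ^ (2 * n - m) * ((3 * m + 1) * T m 10 1)
          = (-64) ^ n * ((Nat.centralBinom m : ℤ) ^ 2 * (-64) ^ (n - m)
            * ((3 * m + 1) * H37.Sun.T m 10 1)) := by
        intro m hm
        have hm' : m ≤ n := by have := mem_range.mp hm; omega
        have e : (-64 : ℤ) ^ (2 * n - m) = (-64) ^ n * (-64) ^ (n - m) := by
          rw [← pow_add]; congr 1; omega
        rw [e]
        show _ = (-64) ^ n * ((Nat.centralBinom m : ℤ) ^ 2 * (-64) ^ (n - m)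
            * ((3 * m + 1) * T m 10 1))
        ring
      rw [sum_congr rfl this]
      ring
    rw [hsplit]
    refine dvd_sum fun k hk => ?_
    have hk' := mem_Ico.mp hk
    have hd : p ∣ Nat.centralBinom k := by
      rw [Nat.centralBinom, two_mul]
      exact hp.dvd_choose_add hk'.2 hk'.2 (by omega)
    have hd2 : (p : ℤ) ^ 2 ∣ (Nat.centralBinom k : ℤ) ^ 2 :=
      pow_dvd_pow_of_dvd (by exact_mod_cast hd) 2
    exact (hd2.mul_right _).mul_right _
  obtain ⟨y4, hy4⟩ := hNF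
  have hSF : SB p * (-64) ^ (2 * n) = (F : ℚ) := by
    rw [SB, hF, sum_mul]
    push_cast
    refine sum_congr rfl fun k hk => ?_
    have hk' : k ≤ 2 * n := by have := mem_range.mp hk; omega
    have : (-64 : ℚ) ^ (2 * n) = (-64) ^ (2 * n - k) * (-64) ^ k := by
      rw [← pow_add]; congr 1; omega
    rw [this, Nat.centralBinom]
    field_simp
  have hp2 : IsCoprime (p : ℤ) 2 := by
    have : Nat.Coprime p 2 := (Nat.Coprime.symm ((Nat.coprime_primes Nat.prime_two hp).mpr (by omega)))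
    exact_mod_cast Nat.isCoprime_iff_coprime.mpr this
  apply num_dvd p _ (8 * 16 ^ n * (-64) ^ (2 * n))
    (8 * 16 ^ n * F - 2 * p * 16 ^ n * (-64) ^ (2 * n) * (3 * χ + 1))
  · push_cast
    rw [← hSF]
    ring
  · rw [show (8 : ℤ) = 2 ^ 3 by norm_num, show (16 : ℤ) = 2 ^ 4 by norm_num,
      show (-64 : ℤ) = -(2 ^ 6) by norm_num]
    refine ((hp2.pow_right).mul_right (hp2.pow_right.pow_right)).mul_right ?_
    exact (hp2.pow_right.neg_right).pow_right
  · refine ⟨8 * 16 ^ n * y4 + (-64) ^ n * y1 + (-64) ^ n * 6 * (-4) ^ n * y2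
      - 2 * (3 * χ + 1) * 256 ^ n * y3, ?_⟩
    have e1 : (-64 : ℤ) ^ (2 * n) * 16 ^ n = 256 ^ n * 256 ^ n := by
      rw [pow_mul, ← mul_pow, ← mul_pow]; norm_num
    have e2 : (-64 : ℤ) ^ n * (-4) ^ n = 256 ^ n := by
      rw [← mul_pow]; norm_num
    linear_combination 8 * 16 ^ n * hy4 + (-64) ^ n * hy1 + (-64) ^ n * 6 * (-4) ^ n * p * hy2
      - 2 * p * (3 * χ + 1) * 256 ^ n * hy3 - 2 * p * (3 * χ + 1) * e1
      + 2 * p * (3 * χ + 1) * e2

end Pool.Agent.H37.Sun.ResB
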