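import Mathlib
import Pool.Agent.H37.Sun.Cc

/-! Part (c): for every integer `n ≥ 2`, the integer
`sum_{k<n} (3k+1) binom(2k,k)^2 T_k(10,1) (-64)^(n-1-k)` is a multiple of `2n binom(2n,n)`. -/

namespace Pool.Agent.H37.Sun.ResC

open Polynomial Finset

/-- The generalised central trinomial coefficient `T_n(b,c)`, the coefficient of `x^n` in
`(x^2 + b x + c)^n`, for integers `b`, `c`. -/
noncomputable def T (n : ℕ) (b c : ℤ) : ℤ := ((X ^ 2 + C b * X + C c : ℤ[X]) ^ n).coeff n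

theorem result : ∀ n : ℕ, 2 ≤ n →
    (2 * (n : ℤ) * ((2 * n).choose n : ℤ)) ∣
      ∑ k ∈ range n, (3 * (k : ℤ) + 1) * (((2 * k).choose k : ℤ) ^ 2 * T k 10 1)
        * (-64) ^ (n - 1 - k) := by
  intro n hn
  obtain ⟨N, rfl⟩ : ∃ N, n = N + 1 := ⟨n - 1, by omega⟩
  have h := H37.Sun.dvd_Un N (by omega)
  have e1 : (4 * ((2 * N + 1) * Nat.centralBinom N) : ℤ)
      = 2 * ((N + 1 : ℕ) : ℤ) * ((2 * (N + 1)).choose (N + 1) : ℤ) := by
    have := congrArg (Nat.cast : ℕ → ℤ) (Nat.succ_mul_centralBinom_succ N)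
    rw [show Nat.centralBinom (N + 1) = (2 * (N + 1)).choose (N + 1) from rfl] at this
    push_cast at this ⊢
    linear_combination -2 * this
  have e2 : H37.Sun.Un N = ∑ k ∈ range (N + 1), (3 * (k : ℤ) + 1)
      * (((2 * k).choose k : ℤ) ^ 2 * T k 10 1) * (-64) ^ (N + 1 - 1 - k) := by
    unfold H37.Sun.Un
    refine sum_congr rfl fun k _ => ?_
    rw [Nat.add_sub_cancel, Nat.centralBinom]
    show (3 * (k : ℤ) + 1) * ((2 * k).choose k : ℤ) ^ 2 * T k 10 1 * (-64) ^ (N - k) = _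
    ring
  rw [← e1, ← e2]
  exact h

end Pool.Agent.H37.Sun.ResC
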